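import Pool.Agent.N184.HK.V7

/-!
# Project HK: Frobenius modules built from the reductions of hyperkähler varieties
-/

set_option autoImplicit false

namespace Pool.Agent.N184.HK

open Module NumberField IsDedekindDomain TensorProduct
open Pool.Agent.W401.Cheb

/-- The vector space `V` with the operator `A` is built from the cohomology groups `H^r` of the
reductions of hyperkähler varieties at good places whose residue field has `q` elements, with their
Frobenius, and from spaces with a diagonalizable operator (for example the cohomology of abelian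
varieties and curves over the field with `q` elements: Weil), by direct sums, tensor products,
Tate twists, stable subspaces, quotients, and extensions `0 → U → V → W → 0` for which `U` and `W`
have no common eigenvalue (for example if they are pure of different weights). -/
inductive Built {Ω : Type} [Field Ω] [CharZero Ω] [TopologicalSpace Ω] (q : ℕ) :
    ∀ (V : Type) [AddCommGroup V] [Module Ω V], Module.End Ω V → Prop
  | reduction {K : Type} [Field K] [NumberField K] (X : HKVariety K Ω) (D : FrobeniusTwo X)
      (v : HeightOneSpectrum (𝓞 K)) (hv : v ∉ X.bad) (hq : Ideal.absNorm v.asIdeal = q)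
      (σ : GK K) (hσ : IsFrob v σ⁻¹) (r : ℕ) (hr : r ≤ X.d) :
      Built q (X.E.X.H r) (X.E.Φ σ r)
  | known (V : Type) [AddCommGroup V] [Module Ω V] [FiniteDimensional Ω V] (A : Module.End Ω V)
      (hA : Diag A) : Built q V A
  | sum (V W : Type) [AddCommGroup V] [Module Ω V] [AddCommGroup W] [Module Ω W]
      (A : Module.End Ω V) (B : Module.End Ω W) (hA : Built q V A) (hB : Built q W B) :
      Built q (V × W) (A.prodMap B)
  | tensor (V W : Type) [AddCommGroup V] [Module Ω V] [AddCommGroup W] [Module Ω W]
      (A : Module.End Ω V) (B : Module.End Ω W) (hA : Built q V A) (hB : Built q W B) :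
      Built q (V ⊗[Ω] W) (TensorProduct.map A B)
  | twist (V : Type) [AddCommGroup V] [Module Ω V] (A : Module.End Ω V) (c : Ω)
      (hA : Built q V A) : Built q V (c • A)
  | sub (V W : Type) [AddCommGroup V] [Module Ω V] [AddCommGroup W] [Module Ω W]
      (A : Module.End Ω V) (B : Module.End Ω W) (j : W →ₗ[Ω] V) (hj : Function.Injective j)
      (h : ∀ x, j (B x) = A (j x)) (hA : Built q V A) : Built q W B
  | quot (V W : Type) [AddCommGroup V] [Module Ω V] [AddCommGroup W] [Module Ω W]
      (A : Module.End Ω V) (B : Module.End Ω W) (p : V →ₗ[Ω] W) (hp : Function.Surjective p)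
      (h : ∀ x, p (A x) = B (p x)) (hA : Built q V A) : Built q W B
  | ext (U V W : Type) [AddCommGroup U] [Module Ω U] [AddCommGroup V] [Module Ω V]
      [AddCommGroup W] [Module Ω W] (A' : Module.End Ω U) (A : Module.End Ω V)
      (A'' : Module.End Ω W) (j : U →ₗ[Ω] V) (p : V →ₗ[Ω] W) (hj : Function.Injective j)
      (hp : Function.Surjective p) (hjp : LinearMap.range j = LinearMap.ker p)
      (h1 : ∀ x, j (A' x) = A (j x)) (h2 : ∀ x, p (A x) = A'' (p x))
      (hd : ∀ e : Ω, A'.eigenspace e = ⊥ ∨ A''.eigenspace e = ⊥) (hU : Built q U A')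
      (hW : Built q W A'') : Built q V A

section

variable {Ω : Type} [Field Ω] {V W : Type} [AddCommGroup V] [Module Ω V] [AddCommGroup W]
  [Module Ω W]

lemma Diag.of_surj {A : Module.End Ω V} {B : Module.End Ω W} (p : V →ₗ[Ω] W)
    (hp : Function.Surjective p) (h : ∀ x, p (A x) = B (p x)) (hA : Diag A) : Diag B := by
  unfold Diag at hA ⊢
  rw [eq_top_iff, ← LinearMap.range_eq_top.2 hp, LinearMap.range_eq_map, ← hA, Submodule.map_iSup]
  refine iSup_le fun e => ?_
  rintro _ ⟨x, hx, rfl⟩
  have hx' : A x = e • x := Module.End.mem_eigenspace_iff.1 hx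
  refine Submodule.mem_iSup_of_mem e (Module.End.mem_eigenspace_iff.2 ?_)
  rw [← h, hx', map_smul]

lemma Diag.of_inj [FiniteDimensional Ω V] {A : Module.End Ω V} {B : Module.End Ω W}
    (j : W →ₗ[Ω] V) (hj : Function.Injective j) (h : ∀ x, j (B x) = A (j x)) (hA : Diag A) :
    Diag B := by
  have hst : ∀ x ∈ LinearMap.range j, A x ∈ LinearMap.range j := by
    rintro _ ⟨y, rfl⟩
    exact ⟨B y, h y⟩
  have h1 := Module.End.genEigenspace_restrict_eq_top (k := 1) hst hA
  have h2 : Diag (A.restrict hst) := h1
  let e : LinearMap.range j ≃ₗ[Ω] W := (LinearEquiv.ofInjective j hj).symm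
  refine Diag.of_surj (e : LinearMap.range j →ₗ[Ω] W) e.surjective (fun x => ?_) h2
  obtain ⟨y, rfl⟩ := (LinearEquiv.ofInjective j hj).surjective x
  apply (LinearEquiv.ofInjective j hj).injective
  ext
  simp only [e, LinearEquiv.coe_coe, LinearEquiv.apply_symm_apply, LinearEquiv.symm_apply_apply]
  change A (j y) = j (B y)
  exact (h y).symm

lemma Diag.smul {A : Module.End Ω V} (c : Ω) (hA : Diag A) : Diag (c • A) := by
  unfold Diag at hA ⊢
  rw [eq_top_iff, ← hA]
  refine iSup_le fun e x hx => ?_
  refine Submodule.mem_iSup_of_mem (c * e) ?_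
  rw [Module.End.mem_eigenspace_iff] at *
  rw [LinearMap.smul_apply, hx, smul_smul]

lemma Diag.prod {A : Module.End Ω V} {B : Module.End Ω W} (hA : Diag A) (hB : Diag B) :
    Diag (A.prodMap B) := by
  have h1 : ∀ x : V, (x, (0 : W)) ∈ ⨆ e : Ω, (Module.End.eigenspace (A.prodMap B : Module.End Ω (V × W)) e) := by
    intro x
    have hx : x ∈ ⨆ e : Ω, A.eigenspace e := by
      unfold Diag at hA
      rw [hA]; trivial
    induction hx using Submodule.iSup_induction' with
    | mem e x hx =>
      refine Submodule.mem_iSup_of_mem e ?_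
      rw [Module.End.mem_eigenspace_iff] at *
      ext <;> simp [hx]
    | zero => exact Submodule.zero_mem _
    | add x y _ _ hx hy =>
      have := Submodule.add_mem _ hx hy
      simpa using this
  have h2 : ∀ y : W, ((0 : V), y) ∈ ⨆ e : Ω, (Module.End.eigenspace (A.prodMap B : Module.End Ω (V × W)) e) := by
    intro y
    have hy : y ∈ ⨆ e : Ω, B.eigenspace e := by
      unfold Diag at hB
      rw [hB]; trivial
    induction hy using Submodule.iSup_induction' with
    | mem e x hx =>
      refine Submodule.mem_iSup_of_mem e ?_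
      rw [Module.End.mem_eigenspace_iff] at *
      ext <;> simp [hx]
    | zero => exact Submodule.zero_mem _
    | add x y _ _ hx hy =>
      have := Submodule.add_mem _ hx hy
      simpa using this
  unfold Diag
  rw [eq_top_iff]
  rintro ⟨x, y⟩ -
  have := Submodule.add_mem _ (h1 x) (h2 y)
  simpa using this

lemma Diag.tensor {A : Module.End Ω V} {B : Module.End Ω W} (hA : Diag A) (hB : Diag B) :
    Diag (TensorProduct.map A B) := by
  have h1 : ∀ (x : V) (y : W), x ⊗ₜ[Ω] y ∈ ⨆ e : Ω, (Module.End.eigenspace (TensorProduct.map A B : Module.End Ω (V ⊗[Ω] W)) e) := by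
    intro x y
    have hx : x ∈ ⨆ e : Ω, A.eigenspace e := by
      unfold Diag at hA
      rw [hA]; trivial
    have hy : y ∈ ⨆ e : Ω, B.eigenspace e := by
      unfold Diag at hB
      rw [hB]; trivial
    induction hx using Submodule.iSup_induction' with
    | mem e x hx =>
      induction hy using Submodule.iSup_induction' with
      | mem f y hy =>
        refine Submodule.mem_iSup_of_mem (e * f) ?_
        rw [Module.End.mem_eigenspace_iff] at *
        rw [TensorProduct.map_tmul, hx, hy, TensorProduct.smul_tmul_smul]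
      | zero => rw [TensorProduct.tmul_zero]; exact Submodule.zero_mem _
      | add y z _ _ hy hz => rw [TensorProduct.tmul_add]; exact Submodule.add_mem _ hy hz
    | zero => rw [TensorProduct.zero_tmul]; exact Submodule.zero_mem _
    | add x z _ _ hx hz => rw [TensorProduct.add_tmul]; exact Submodule.add_mem _ hx hz
  unfold Diag
  rw [eq_top_iff]
  rintro z -
  induction z using TensorProduct.induction_on with
  | zero => exact Submodule.zero_mem _
  | tmul x y => exact h1 x y
  | add x y hx hy => exact Submodule.add_mem _ hx hy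

lemma Diag.ext {U : Type} [AddCommGroup U] [Module Ω U] [FiniteDimensional Ω U]
    {A' : Module.End Ω U} {A : Module.End Ω V} {A'' : Module.End Ω W} (j : U →ₗ[Ω] V)
    (p : V →ₗ[Ω] W) (hp : Function.Surjective p) (hjp : LinearMap.range j = LinearMap.ker p)
    (h1 : ∀ x, j (A' x) = A (j x)) (h2 : ∀ x, p (A x) = A'' (p x))
    (hd : ∀ e : Ω, A'.eigenspace e = ⊥ ∨ A''.eigenspace e = ⊥) (hU : Diag A')
    (hW : Diag A'') : Diag A := by
  have hr : LinearMap.range j ≤ ⨆ e : Ω, A.eigenspace e := by
    unfold Diag at hU
    rw [LinearMap.range_eq_map, ← hU, Submodule.map_iSup]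
    refine iSup_le fun e => ?_
    rintro _ ⟨x, hx, rfl⟩
    have hx' : A' x = e • x := Module.End.mem_eigenspace_iff.1 hx
    refine Submodule.mem_iSup_of_mem e (Module.End.mem_eigenspace_iff.2 ?_)
    rw [← h1, hx', map_smul]
  have hs : ∀ y : W, ∃ x ∈ ⨆ e : Ω, A.eigenspace e, p x = y := by
    intro y
    have hy : y ∈ ⨆ e : Ω, A''.eigenspace e := by
      unfold Diag at hW
      rw [hW]; trivial
    induction hy using Submodule.iSup_induction' with
    | mem e y hy =>
      by_cases hy0 : y = 0
      · exact ⟨0, Submodule.zero_mem _, by rw [map_zero, hy0]⟩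
      · have hbot : A'.eigenspace e = ⊥ := by
          refine (hd e).resolve_right fun h => hy0 ?_
          rw [h] at hy
          exact (Submodule.mem_bot Ω).1 hy
        have hy' : A'' y = e • y := Module.End.mem_eigenspace_iff.1 hy
        have hinj : Function.Injective (A' - algebraMap Ω (Module.End Ω U) e) := by
          rw [← LinearMap.ker_eq_bot]
          rw [Module.End.eigenspace_def] at hbot
          exact hbot
        have hsur := LinearMap.surjective_of_injective hinj
        obtain ⟨x0, hx0⟩ := hp y
        have hker : A x0 - e • x0 ∈ LinearMap.ker p := by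
          rw [LinearMap.mem_ker, map_sub, h2, hx0, hy', map_smul, hx0, sub_self]
        rw [← hjp] at hker
        obtain ⟨u, hu⟩ := hker
        obtain ⟨u', hu'⟩ := hsur u
        have hu'' : A' u' = u + e • u' := by
          rw [← hu', LinearMap.sub_apply, Module.algebraMap_end_apply]
          abel
        refine ⟨x0 - j u', Submodule.mem_iSup_of_mem e (Module.End.mem_eigenspace_iff.2 ?_), ?_⟩
        · rw [map_sub, ← h1, hu'', map_add, map_smul, hu, smul_sub]
          abel
        · have : p (j u') = 0 := by
            have h3 : j u' ∈ LinearMap.ker p := by rw [← hjp]; exact ⟨u', rfl⟩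
            exact LinearMap.mem_ker.1 h3
          rw [map_sub, hx0, this, sub_zero]
    | zero => exact ⟨0, Submodule.zero_mem _, map_zero _⟩
    | add y z _ _ hy hz =>
      obtain ⟨a, ha, rfl⟩ := hy
      obtain ⟨b, hb, rfl⟩ := hz
      exact ⟨a + b, Submodule.add_mem _ ha hb, map_add _ _ _⟩
  unfold Diag
  rw [eq_top_iff]
  intro v _
  obtain ⟨x, hx, hpx⟩ := hs (p v)
  have h3 : v - x ∈ LinearMap.ker p := by rw [LinearMap.mem_ker, map_sub, hpx, sub_self]
  rw [← hjp] at h3
  have := Submodule.add_mem _ (hr h3) hx
  rwa [sub_add_cancel] at this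

end

theorem Built.diag {Ω : Type} [Field Ω] [CharZero Ω] [IsAlgClosed Ω] [TopologicalSpace Ω]
    [IsTopologicalRing Ω] [T2Space Ω] {q : ℕ} {V : Type} [AddCommGroup V] [Module Ω V]
    {A : Module.End Ω V} (h : Built q V A) : FiniteDimensional Ω V ∧ Diag A := by
  induction h with
  | reduction X D v hv hq σ hσ r hr => exact ⟨inferInstance, frob_all D hv hσ hr⟩
  | known V A hA => exact ⟨inferInstance, hA⟩
  | sum V W A B _ _ hA hB =>
    obtain ⟨h1, h2⟩ := hA
    obtain ⟨h3, h4⟩ := hB
    exact ⟨inferInstance, h2.prod h4⟩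
  | tensor V W A B _ _ hA hB =>
    obtain ⟨h1, h2⟩ := hA
    obtain ⟨h3, h4⟩ := hB
    exact ⟨inferInstance, h2.tensor h4⟩
  | twist V A c _ hA => exact ⟨hA.1, hA.2.smul c⟩
  | sub V W A B j hj h _ hA =>
    obtain ⟨h1, h2⟩ := hA
    exact ⟨FiniteDimensional.of_injective j hj, h2.of_inj j hj h⟩
  | quot V W A B p hp h _ hA =>
    obtain ⟨h1, h2⟩ := hA
    exact ⟨Module.Finite.of_surjective p hp, h2.of_surj p hp h⟩
  | ext U V W A' A A'' j p hj hp hjp h1 h2 hd _ _ hU hW =>
    obtain ⟨h3, h4⟩ := hU
    obtain ⟨h5, h6⟩ := hW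
    have h7 : FiniteDimensional Ω (LinearMap.ker p) := by
      rw [← hjp]
      exact Module.Finite.range j
    have h8 : FiniteDimensional Ω (V ⧸ LinearMap.ker p) :=
      Module.Finite.equiv (p.quotKerEquivOfSurjective hp).symm
    exact ⟨Module.Finite.of_submodule_quotient (LinearMap.ker p),
      Diag.ext j p hp hjp h1 h2 hd h4 h6⟩

end Pool.Agent.N184.HK
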