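import Pool.Agent.N184.HK.Eig

/-!
# Project HK: equivariance
-/

set_option autoImplicit false

namespace Pool.Agent.N184.HK

open Module Module.End
open scoped Classical

section

variable {K H : Type} [Field K] [IsAlgClosed K] [AddCommGroup H] [Module K H]
  [FiniteDimensional K H]

/-- `φ` as an endomorphism. -/
abbrev en (φ : H ≃ₗ[K] H) : Module.End K H := φ.toLinearMap

/-- Conjugation by `φ`. -/
noncomputable def adE (φ : H ≃ₗ[K] H) : Module.End K (Module.End K H) := φ.conj.toLinearMap

omit [IsAlgClosed K] [FiniteDimensional K H] in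
lemma adE_apply (φ : H ≃ₗ[K] H) (B : Module.End K H) (x : H) : adE φ B (φ x) = φ (B x) := by
  simp [adE, LinearEquiv.conj_apply]

omit [IsAlgClosed K] [FiniteDimensional K H] in
lemma conj_gen_aux {φ : H ≃ₗ[K] H} {t e : K} (n : ℕ) : ∀ (k m : ℕ) (B : Module.End K H) (x : H),
    k + m ≤ n → ((adE φ - t • 1) ^ k) B = 0 → (((en φ) - e • 1) ^ m) x = 0 →
    (((en φ) - (t * e) • 1) ^ n) (B x) = 0 := by
  induction n with
  | zero =>
    intro k m B x hkm hB hx
    have hk : k = 0 := by omega
    subst hk
    change B = 0 at hB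
    rw [hB]; simp
  | succ n ih =>
    intro k m B x hkm hB hx
    rcases k with _ | k
    · change B = 0 at hB
      rw [hB]; simp
    rcases m with _ | m
    · change x = 0 at hx
      rw [hx]; simp
    rw [_root_.pow_succ, Module.End.mul_apply]
    have h1 : ((en φ) - (t * e) • 1) (B x) =
        ((adE φ - t • 1) B) (φ x) + t • B (((en φ) - e • 1) x) := by
      have h2 : ((adE φ - t • 1) B) (φ x) = φ (B x) - t • B (φ x) := by
        have := adE_apply φ B x
        change (adE φ B - t • B) (φ x) = _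
        rw [LinearMap.sub_apply, this]; rfl
      have h3 : ((en φ) - e • 1) x = φ x - e • x := rfl
      have h4 : ((en φ) - (t * e) • 1) (B x) = φ (B x) - (t * e) • B x := rfl
      rw [h2, h3, h4, map_sub, map_smul, smul_sub, smul_smul]
      abel
    rw [h1, map_add, map_smul]
    have h5 := ih k (m + 1) ((adE φ - t • 1) B) (φ x) (by omega)
      (by rw [← Module.End.mul_apply, ← _root_.pow_succ]; exact hB)
      (by
        have hc : Commute (((en φ) - e • 1) ^ (m + 1)) (en φ) := by
          refine Commute.pow_left ?_ _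
          exact (Commute.refl (en φ)).sub_left ((Commute.one_left _).smul_left e)
        have := congrArg (fun f : Module.End K H => f x) hc.eq
        change (((en φ) - e • 1) ^ (m + 1)) (φ x) = φ ((((en φ) - e • 1) ^ (m + 1)) x) at this
        rw [this, hx, map_zero])
    have h6 := ih (k + 1) m B (((en φ) - e • 1) x) (by omega) hB
      (by rw [← Module.End.mul_apply, ← _root_.pow_succ]; exact hx)
    rw [h5, h6, smul_zero, add_zero]

omit [IsAlgClosed K] [FiniteDimensional K H] in
lemma conj_gen {φ : H ≃ₗ[K] H} {t e : K} {B : Module.End K H}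
    (hB : B ∈ (adE φ).maxGenEigenspace t) {x : H}
    (hx : x ∈ (en φ).maxGenEigenspace e) :
    B x ∈ (en φ).maxGenEigenspace (t * e) := by
  rw [Module.End.mem_maxGenEigenspace] at hB hx ⊢
  obtain ⟨k, hk⟩ := hB
  obtain ⟨m, hm⟩ := hx
  exact ⟨k + m, conj_gen_aux (k + m) k m B x le_rfl hk hm⟩

omit [IsAlgClosed K] in
lemma root_ne {φ : H ≃ₗ[K] H} {e : K} (he : e ∈ (en φ).charpoly.roots) : e ≠ 0 := by
  rintro rfl
  rw [Polynomial.mem_roots (LinearMap.charpoly_monic _).ne_zero,
    ← Module.End.hasEigenvalue_iff_isRoot_charpoly] at he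
  obtain ⟨v, hv⟩ := he.exists_hasEigenvector
  have := hv.apply_eq_smul
  rw [zero_smul] at this
  have h0 : φ v = 0 := this
  exact hv.2 (φ.map_eq_zero_iff.1 h0)

lemma comm_fop [CharZero K] {φ : H ≃ₗ[K] H} (W : Wt K)
    (hU : ∀ e ∈ (en φ).charpoly.roots, W.U e) {t : K} {B : Module.End K H}
    (hB : B ∈ (adE φ).maxGenEigenspace t) :
    fop (en φ) W.k * B - B * fop (en φ) W.k = W.k t • B := by
  refine ext_gen (en φ) fun e x hx => ?_
  have h1 := conj_gen hB hx
  rw [LinearMap.sub_apply, Module.End.mul_apply, Module.End.mul_apply, fop_apply _ h1,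
    fop_apply _ hx, LinearMap.smul_apply, map_smul, ← sub_smul]
  by_cases hB0 : B x = 0
  · rw [hB0, smul_zero, smul_zero]
  have hx0 : x ≠ 0 := fun h => hB0 (by rw [h, map_zero])
  have he : e ∈ (en φ).charpoly.roots := ne_bot_iff.1 fun h => hx0 (by
    rw [h, Submodule.mem_bot] at hx; exact hx)
  have hte : t * e ∈ (en φ).charpoly.roots := ne_bot_iff.1 fun h => hB0 (by
    rw [h, Submodule.mem_bot] at h1; exact h1)
  have hUt : W.U t := by
    have := W.mul _ _ (hU _ hte) (W.inv _ (hU _ he))
    rwa [mul_assoc, mul_inv_cancel₀ (root_ne he), mul_one] at this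
  congr 1
  rw [Wt.k, Wt.k, Wt.k, W.w_mul _ _ hUt (hU _ he), Rat.cast_add]
  ring

variable {V : Type} [AddCommGroup V] [Module K V] [FiniteDimensional K V]

lemma inter [CharZero K] {φV : V ≃ₗ[K] V} {φH : H ≃ₗ[K] H} {ρ : Module.End K V →ₗ[K] Module.End K H}
    (hc : ∀ A, adE φH (ρ A) = ρ (adE φV A)) (W : Wt K)
    (hV : ∀ e ∈ (en φV).charpoly.roots, W.U e)
    (hH : ∀ e ∈ (en φH).charpoly.roots, W.U e) (A : Module.End K V) :
    fop (en φH) W.k * ρ A - ρ A * fop (en φH) W.k =
      ρ (fop (en φV) W.k * A - A * fop (en φV) W.k) := by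
  set F := fop (en φH) W.k with hF
  set G := fop (en φV) W.k with hG
  have key : (LinearMap.mulLeft K F - LinearMap.mulRight K F) ∘ₗ ρ =
      ρ ∘ₗ (LinearMap.mulLeft K G - LinearMap.mulRight K G) := by
    refine ext_gen (adE φV) fun t A hA => ?_
    have h1 : ρ A ∈ (adE φH).maxGenEigenspace t := by
      rw [Module.End.mem_maxGenEigenspace] at hA ⊢
      obtain ⟨k, hk⟩ := hA
      refine ⟨k, ?_⟩
      have h2 : ∀ (k : ℕ) (A : Module.End K V), ((adE φH - t • 1) ^ k) (ρ A) =
          ρ (((adE φV - t • 1) ^ k) A) := by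
        intro k
        induction k with
        | zero => intro A; rfl
        | succ k ih =>
          intro A
          rw [_root_.pow_succ, _root_.pow_succ, Module.End.mul_apply, Module.End.mul_apply, ← ih]
          congr 1
          change adE φH (ρ A) - t • ρ A = ρ (adE φV A - t • A)
          rw [hc, map_sub, map_smul]
      rw [h2, hk, map_zero]
    have h2 := comm_fop W hH h1
    have h3 := comm_fop W hV hA
    change F * ρ A - ρ A * F = ρ (G * A - A * G)
    rw [h2, h3, map_smul]
  exact congrArg (fun f => f A) key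

omit [IsAlgClosed K] [FiniteDimensional K V] in
lemma form_aux {q : LinearMap.BilinForm K V} {φ : V ≃ₗ[K] V} {μ : K}
    (hμ : ∀ x y, q (φ x) (φ y) = μ * q x y) {a b : K} (n : ℕ) : ∀ (k m : ℕ) (x y : V),
    k + m ≤ n → (((en φ) - a • 1) ^ k) x = 0 →
    (((en φ) - b • 1) ^ m) y = 0 → (μ - a * b) ^ n * q x y = 0 := by
  induction n with
  | zero =>
    intro k m x y hkm hx hy
    have hk : k = 0 := by omega
    subst hk
    change x = 0 at hx
    rw [hx]; simp
  | succ n ih =>
    intro k m x y hkm hx hy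
    rcases k with _ | k
    · change x = 0 at hx
      rw [hx]; simp
    rcases m with _ | m
    · change y = 0 at hy
      rw [hy]; simp
    have h1 : (μ - a * b) * q x y = q (((en φ) - a • 1) x) (φ y) +
        a * q x (((en φ) - b • 1) y) := by
      have h3 : ((en φ) - a • 1) x = φ x - a • x := rfl
      have h4 : ((en φ) - b • 1) y = φ y - b • y := rfl
      rw [h3, h4, map_sub, map_sub, map_smul, map_smul, LinearMap.sub_apply, hμ,
        LinearMap.smul_apply]
      simp only [smul_eq_mul]
      ring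
    rw [_root_.pow_succ, mul_assoc, h1, mul_add]
    have h5 := ih k (m + 1) (((en φ) - a • 1) x) (φ y) (by omega)
      (by rw [← Module.End.mul_apply, ← _root_.pow_succ]; exact hx)
      (by
        have hc : Commute (((en φ) - b • 1) ^ (m + 1)) (en φ) := by
          refine Commute.pow_left ?_ _
          exact (Commute.refl (en φ)).sub_left ((Commute.one_left _).smul_left b)
        have := congrArg (fun f : Module.End K V => f y) hc.eq
        change (((en φ) - b • 1) ^ (m + 1)) (φ y) =
          φ ((((en φ) - b • 1) ^ (m + 1)) y) at this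
        rw [this, hy, map_zero])
    have h6 := ih (k + 1) m x (((en φ) - b • 1) y) (by omega) hx
      (by rw [← Module.End.mul_apply, ← _root_.pow_succ]; exact hy)
    rw [h5, zero_add, mul_left_comm, h6, mul_zero]

lemma skew_fop {q : LinearMap.BilinForm K V} {φ : V ≃ₗ[K] V} {μ : K} [CharZero K]
    (hμ : ∀ x y, q (φ x) (φ y) = μ * q x y) (W : Wt K)
    (hV : ∀ e ∈ (en φ).charpoly.roots, W.U e) :
    Skew q (fop (en φ) W.k - ((W.w μ / 2 : ℚ) : K) • 1) := by
  set S := fop (en φ) W.k - ((W.w μ / 2 : ℚ) : K) • (1 : Module.End K V) with hS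
  have hS' : ∀ {a : K} {x : V}, x ∈ (en φ).maxGenEigenspace a →
      S x = ((W.w a - W.w μ / 2 : ℚ) : K) • x := by
    intro a x hx
    rw [hS, LinearMap.sub_apply, fop_apply _ hx, Wt.k, Rat.cast_sub, sub_smul]
    rfl
  have key : q ∘ₗ S + q.compl₂ S = 0 := by
    refine ext_gen (en φ) fun a x hx => ?_
    refine ext_gen (en φ) fun b y hy => ?_
    change q (S x) y + q x (S y) = 0
    rw [hS' hx, hS' hy, map_smul, map_smul, LinearMap.smul_apply, smul_eq_mul, smul_eq_mul,
      ← add_mul, ← Rat.cast_add]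
    by_cases hq : q x y = 0
    · rw [hq, mul_zero]
    have hab : μ = a * b := by
      rw [Module.End.mem_maxGenEigenspace] at hx hy
      obtain ⟨k, hk⟩ := hx
      obtain ⟨m, hm⟩ := hy
      have h := form_aux hμ (k + m) k m x y le_rfl hk hm
      have h2 := (mul_eq_zero.1 h).resolve_right hq
      have hne : k + m ≠ 0 := fun h0 => by
        rw [h0] at h2
        simp at h2
      exact sub_eq_zero.1 ((pow_eq_zero_iff hne).1 h2)
    have hx0 : x ≠ 0 := fun h => hq (by rw [h]; simp)
    have hy0 : y ≠ 0 := fun h => hq (by rw [h]; simp)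
    have ha : a ∈ (en φ).charpoly.roots := ne_bot_iff.1 fun h => hx0 (by
      rw [h, Submodule.mem_bot] at hx; exact hx)
    have hb : b ∈ (en φ).charpoly.roots := ne_bot_iff.1 fun h => hy0 (by
      rw [h, Submodule.mem_bot] at hy; exact hy)
    rw [hab, W.w_mul _ _ (hV _ ha) (hV _ hb)]
    have : (W.w a - (W.w a + W.w b) / 2 + (W.w b - (W.w a + W.w b) / 2) : ℚ) = 0 := by ring
    rw [this, Rat.cast_zero, zero_mul]
  intro x y
  have := congrArg (fun f => f x y) key
  exact this

omit [IsAlgClosed K] [FiniteDimensional K H] [FiniteDimensional K V] in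
lemma pz {q : LinearMap.BilinForm K V} {ρ : Module.End K V →ₗ[K] Module.End K H}
    (hbr : ∀ A B, Skew q A → Skew q B → ρ (A * B - B * A) = ρ A * ρ B - ρ B * ρ A)
    {z : Module.End K H} (hz : ∀ A, Skew q A → Commute (ρ A) z) {A : Module.End K V}
    (hA : A ∈ Submodule.span K {C : Module.End K V | ∃ B D : Module.End K V, Skew q B ∧
      Skew q D ∧ C = B * D - D * B}) :
    LinearMap.trace K H (ρ A * z) = 0 := by
  have h : Submodule.span K {C : Module.End K V | ∃ B D : Module.End K V, Skew q B ∧
      Skew q D ∧ C = B * D - D * B} ≤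
      LinearMap.ker (LinearMap.trace K H ∘ₗ LinearMap.mulRight K z ∘ₗ ρ) := by
    rw [Submodule.span_le]
    rintro C ⟨B, D, hB, hD, rfl⟩
    change LinearMap.trace K H (ρ (B * D - D * B) * z) = 0
    rw [hbr B D hB hD, sub_mul, map_sub, sub_eq_zero]
    have h1 : ρ D * ρ B * z = ρ D * z * ρ B := by
      rw [mul_assoc, (hz B hB).eq, ← mul_assoc]
    rw [h1, mul_assoc (ρ B), LinearMap.trace_mul_comm]
  exact h hA

end

end Pool.Agent.N184.HK
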