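import Mathlib

/-!
# Project HK (helper184): cohomology of hyperkähler varieties: statements of the leaves
-/

set_option autoImplicit false

namespace Pool.Agent.N184.HK

/-- `A` is skew-symmetric for the bilinear form `q`. -/
def Skew {K V : Type} [Field K] [AddCommGroup V] [Module K V] (q : LinearMap.BilinForm K V)
    (A : Module.End K V) : Prop :=
  ∀ x y, q (A x) y + q x (A y) = 0

/-- PERF: the Lie algebra `so(V, q)`, `dim V ≥ 3`, is perfect. -/
def S_PERF : Prop := ∀ (K V : Type) [Field K] [CharZero K] [AddCommGroup V] [Module K V]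
    [FiniteDimensional K V] (q : LinearMap.BilinForm K V), q.IsSymm → q.Nondegenerate →
    3 ≤ Module.finrank K V → ∀ A : Module.End K V, Skew q A →
    A ∈ Submodule.span K {C : Module.End K V | ∃ B D : Module.End K V, Skew q B ∧ Skew q D ∧
      C = B * D - D * B}

/-- MAJ: the Newton polygon lies above the Hodge polygon: sums of squares. -/
def S_MAJ : Prop := ∀ (n : ℕ) (a b : Fin n → ℚ), Monotone a →
    (∀ k : ℕ, ∑ j ∈ Finset.univ.filter (fun j : Fin n => (j : ℕ) < k), b j ≤
      ∑ j ∈ Finset.univ.filter (fun j : Fin n => (j : ℕ) < k), a j) →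
    ∑ j, a j = ∑ j, b j →
    (∑ j, (a j) ^ 2 ≤ ∑ j, (b j) ^ 2) ∧ (∑ j, (b j) ^ 2 ≤ ∑ j, (a j) ^ 2 → a = b)

/-- ROOT: an algebraic number `θ` with all archimedean absolute values one, integral outside `p`,
and with nonnegative valuations at all places above `p`, is a root of unity, of order bounded in
terms of its degree. -/
def S_ROOT : Prop := ∀ (Q C : Type) [Field Q] [CharZero Q] [IsAlgClosed Q]
    [Algebra.IsAlgebraic ℚ Q] [Field C] [CharZero C] [IsAlgClosed C] (p : ℕ), p.Prime →
    ∀ (v : AddValuation C (WithTop ℚ)), 0 < v (p : C) → ∀ θ : Q,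
    (∀ τ : Q →+* ℂ, ‖τ θ‖ = 1) → (∃ k : ℕ, IsIntegral ℤ ((p : Q) ^ k * θ)) →
    (∀ ι : Q →+* C, 0 ≤ v (ι θ)) →
    ∀ B : ℕ, (minpoly ℚ θ).natDegree ≤ B → θ ^ ((2 * B).factorial) = 1

/-- SL2A: the hard Lefschetz property of `N` with respect to the grading `D` gives an
`sl₂`-triple in `so(V, q)`. -/
def S_SL2A : Prop := ∀ (K V : Type) [Field K] [CharZero K] [AddCommGroup V] [Module K V]
    [FiniteDimensional K V] (q : LinearMap.BilinForm K V), q.IsSymm → q.Nondegenerate →
    ∀ D N : Module.End K V, Skew q D → Skew q N → D * N - N * D = -(2 : K) • N →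
    (⨆ j : ℤ, D.eigenspace (j : K)) = ⊤ →
    (∀ j : ℕ, Set.BijOn (⇑(N ^ j)) (D.eigenspace (j : K) : Set V)
      (D.eigenspace (-(j : K)) : Set V)) →
    ∃ X : Module.End K V, Skew q X ∧ D * X - X * D = (2 : K) • X ∧ X * N - N * X = D

/-- SL2B: the hard Lefschetz property in representations of `sl₂`. -/
def S_SL2B : Prop := ∀ (K H : Type) [Field K] [CharZero K] [IsAlgClosed K] [AddCommGroup H]
    [Module K H] [FiniteDimensional K H] (X D N : Module.End K H),
    D * X - X * D = (2 : K) • X → D * N - N * D = -(2 : K) • N → X * N - N * X = D →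
    (∀ e : K, D.HasEigenvalue e → ∃ j : ℤ, e = (j : K)) ∧
    ∀ j : ℕ, Set.BijOn (⇑(N ^ j)) (D.maxGenEigenspace (j : K) : Set H)
      (D.maxGenEigenspace (-(j : K)) : Set H)

end Pool.Agent.N184.HK
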