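import Mathlib
import Pool.Agent.N184.HK.Stm

/-!
# Project HK: `so(V, q)` is perfect for `dim V ≥ 3`
-/

set_option autoImplicit false

namespace Pool.Agent.N184.HK

namespace P_PERF

open Finset

variable {K V : Type} [Field K] [AddCommGroup V] [Module K V]

/-- the map `x ↦ q(u,x) v - q(v,x) u` -/
noncomputable def E (q : LinearMap.BilinForm K V) (u v : V) : Module.End K V :=
  (q u).smulRight v - (q v).smulRight u

theorem E_apply (q : LinearMap.BilinForm K V) (u v x : V) :
    E q u v x = q u x • v - q v x • u := rfl

theorem E_skew {q : LinearMap.BilinForm K V} (hq : ∀ x y, q x y = q y x) (u v : V) :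
    Skew q (E q u v) := by
  intro x y
  rw [E_apply, E_apply, map_sub, map_sub, map_smul, map_smul, map_smul, map_smul,
    LinearMap.sub_apply, LinearMap.smul_apply, LinearMap.smul_apply]
  simp only [smul_eq_mul]
  rw [hq x v, hq x u]
  ring

/-- the span of the commutators -/
def Sp (q : LinearMap.BilinForm K V) : Submodule K (Module.End K V) :=
  Submodule.span K {C : Module.End K V | ∃ B D : Module.End K V, Skew q B ∧ Skew q D ∧
      C = B * D - D * B}

theorem E_mem {q : LinearMap.BilinForm K V} (hq : ∀ x y, q x y = q y x) {u v w : V}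
    (huw : q u w = 0) (hvw : q v w = 0) (huv : q u v = 0) (hw : q w w ≠ 0) :
    E q u v ∈ Sp q := by
  have h1 : E q u w * E q w v - E q w v * E q u w = (-(q w w)) • E q u v := by
    ext x
    rw [LinearMap.sub_apply, Module.End.mul_apply, Module.End.mul_apply, LinearMap.smul_apply]
    simp only [E_apply, map_sub, map_smul, smul_eq_mul]
    rw [huv, hq w v, hvw, huw, hq w u, huw, hq v u, huv]
    module
  have h2 : E q u v = (-(q w w))⁻¹ • (E q u w * E q w v - E q w v * E q u w) := by
    rw [h1, smul_smul, inv_mul_cancel₀ (neg_ne_zero.mpr hw), one_smul]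
  rw [h2]
  exact Submodule.smul_mem _ _ (Submodule.subset_span
    ⟨_, _, E_skew hq u w, E_skew hq w v, rfl⟩)

end P_PERF

open P_PERF in
theorem t_perf : S_PERF := by
  intro K V _ _ _ _ _ q hs hn h3 A hA
  have hq : ∀ x y, q x y = q y x := fun x y => hs.eq x y
  haveI : Invertible (2 : K) := invertibleOfNonzero two_ne_zero
  obtain ⟨e, he⟩ := LinearMap.BilinForm.exists_orthogonal_basis (LinearMap.BilinForm.isSymm_iff.mp hs)
  have hc : ∀ i, q (e i) (e i) ≠ 0 :=
    LinearMap.BilinForm.iIsOrtho.not_isOrtho_basis_self_of_nondegenerate he hn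
  have ho : ∀ i j, i ≠ j → q (e i) (e j) = 0 := fun i j hij => he hij
  change A ∈ Sp q
  have hE : ∀ i j, E q (e i) (e j) ∈ Sp q := by
    intro i j
    by_cases hij : i = j
    · subst hij
      have : E q (e i) (e i) = 0 := by
        ext x
        rw [E_apply, sub_self]
        rfl
      rw [this]
      exact Submodule.zero_mem _
    · obtain ⟨k, hki, hkj⟩ : ∃ k, k ≠ i ∧ k ≠ j := by
        by_contra h
        push Not at h
        have h4 : (Finset.univ : Finset (Fin (Module.finrank K V))) ⊆ {i, j} := by
          intro k _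
          by_cases hk : k = i
          · simp [hk]
          · simp [h k hk]
        have h5 := Finset.card_le_card h4
        rw [Finset.card_univ, Fintype.card_fin] at h5
        have h6 := Finset.card_le_two (a := i) (b := j)
        omega
      exact E_mem hq (ho i k hki.symm) (ho j k hkj.symm) (ho i j hij) (hc k)
  have hrep : ∀ x, x = ∑ j, (q (e j) x / q (e j) (e j)) • e j := by
    intro x
    conv_lhs => rw [← e.sum_repr x]
    refine Finset.sum_congr rfl fun j _ => ?_
    congr 1
    have : q (e j) x = e.repr x j * q (e j) (e j) := by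
      conv_lhs => rw [← e.sum_repr x]
      rw [map_sum, Finset.sum_eq_single j]
      · rw [map_smul, smul_eq_mul]
      · intro k _ hk
        rw [map_smul, ho j k (Ne.symm hk), smul_zero]
      · simp
    rw [this, mul_div_cancel_right₀ _ (hc j)]
  set m : Fin (Module.finrank K V) → Fin (Module.finrank K V) → K := fun i j =>
    q (e j) (A (e i)) / (q (e i) (e i) * q (e j) (e j)) with hm
  have hanti : ∀ i j, m j i = -m i j := by
    intro i j
    rw [hm]
    show q (e i) (A (e j)) / (q (e j) (e j) * q (e i) (e i)) =
      -(q (e j) (A (e i)) / (q (e i) (e i) * q (e j) (e j)))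
    have h := hA (e i) (e j)
    rw [hq (A (e i))] at h
    rw [eq_neg_of_add_eq_zero_right h, mul_comm (q (e j) (e j)), neg_div]
  have hAx : ∀ x, A x = ∑ i, ∑ j, (m i j * q (e i) x) • e j := by
    intro x
    conv_lhs => rw [hrep x]
    rw [map_sum]
    refine Finset.sum_congr rfl fun i _ => ?_
    rw [map_smul]
    conv_lhs => rw [hrep (A (e i))]
    rw [Finset.smul_sum]
    refine Finset.sum_congr rfl fun j _ => ?_
    rw [smul_smul]
    congr 1
    show _ = q (e j) (A (e i)) / (q (e i) (e i) * q (e j) (e j)) * q (e i) x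
    field_simp
  have h2 : (2 : K) • A = ∑ i, ∑ j, m i j • E q (e i) (e j) := by
    ext x
    rw [LinearMap.smul_apply, LinearMap.sum_apply]
    simp only [LinearMap.sum_apply, LinearMap.smul_apply, E_apply]
    rw [two_smul]
    conv_lhs =>
      rw [hAx x]
      arg 2
      rw [Finset.sum_comm]
    rw [← Finset.sum_add_distrib]
    refine Finset.sum_congr rfl fun i _ => ?_
    rw [← Finset.sum_add_distrib]
    refine Finset.sum_congr rfl fun j _ => ?_
    rw [hanti i j]
    module
  have h3 : A = (2 : K)⁻¹ • ∑ i, ∑ j, m i j • E q (e i) (e j) := by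
    rw [← h2, smul_smul, inv_mul_cancel₀ two_ne_zero, one_smul]
  rw [h3]
  exact Submodule.smul_mem _ _ (Submodule.sum_mem _ fun i _ => Submodule.sum_mem _ fun j _ =>
    Submodule.smul_mem _ _ (hE i j))

end Pool.Agent.N184.HK
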