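import Pool.Agent.N184.HK.Cnj
import Pool.Agent.N184.HK.P_PERF

/-!
# Project HK: cohomology of a projective hyperkähler variety with the action of `so(H²)`
-/

set_option autoImplicit false

namespace Pool.Agent.N184.HK

open Module

section

variable {K : Type} [Field K] {V W : Type} [AddCommGroup V] [Module K V] [AddCommGroup W]
  [Module K W]

/-- Linear maps from the endomorphisms of `V` to the endomorphisms of `W`. -/
abbrev Act (K V W : Type) [Field K] [AddCommGroup V] [Module K V] [AddCommGroup W]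
    [Module K W] : Type :=
  Module.End K V →ₗ[K] Module.End K W

/-- `ρ` is a representation of the Lie algebra `so(V, q)`. -/
def Act.IsRep (ρ : Act K V W) (q : LinearMap.BilinForm K V) : Prop :=
  ∀ A B, Skew q A → Skew q B → ρ (A * B - B * A) = ρ A * ρ B - ρ B * ρ A

/-- `ρ` is the standard representation of `so(V, q)`. -/
def Act.IsStd (ρ : Act K V V) (q : LinearMap.BilinForm K V) : Prop :=
  ∀ A, Skew q A → ρ A = A

/-- The trace form of the representation `ρ`. -/
noncomputable def Act.form (ρ : Act K V W) (A B : Module.End K V) : K :=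
  LinearMap.trace K W (ρ A * ρ B)

/-- The trace form of `ρ` is `a` times the trace form of the standard representation. -/
def TraceForm (q : LinearMap.BilinForm K V) (φ : Module.End K V → Module.End K V → K) (a : K) :
    Prop :=
  ∀ A B, Skew q A → Skew q B → φ A B = a * LinearMap.trace K V (A * B)

/-- `f` multiplies the form `q` by `μ`. -/
def Similar (q : LinearMap.BilinForm K V) (f : V ≃ₗ[K] V) (μ : K) : Prop :=
  ∀ x y, q (f x) (f y) = μ * q x y

/-- The action `ρ` is equivariant: `g (ρ A) g⁻¹ = ρ (f A f⁻¹)`. -/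
def Act.Equi (ρ : Act K V W) (f : V ≃ₗ[K] V) (g : W ≃ₗ[K] W) : Prop :=
  ∀ A : Module.End K V, g.toLinearMap ∘ₗ ρ A =
    ρ (f.toLinearMap ∘ₗ A ∘ₗ f.symm.toLinearMap) ∘ₗ g.toLinearMap

end

/-- The cohomology of a hyperkähler variety `X` of (real) dimension `d = 2 dim X` for a Weil
cohomology with coefficients `K` (Betti, `ℓ`-adic, crystalline, after extension of scalars):
`H i = H^i(X)` for `i ≤ d`, the Beauville-Bogomolov-Fujiki form `q` on `H²`, and the action `ρ i` on
`H^i` of the Lie algebra `so(H², q)` by derivations of the cohomology ring (Verbitsky,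
Looijenga-Lunts); it is extended by zero to the endomorphisms of `H²` which are self-adjoint for
`q`. The trace form of the representation of `so(H²)` on the sum of the `H^i` is `c` times the trace
form of `H²` (it is the restriction of an invariant form on the simple Looijenga-Lunts-Verbitsky
Lie algebra `so(H² ⊕ U)`), where `c` is a rational number which depends only on the cohomology ring
of `X`. -/
structure Cohomology (K : Type) [Field K] (d : ℕ) (c : ℚ) where
  H : ℕ → Type
  [grp : ∀ i, AddCommGroup (H i)]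
  [mod : ∀ i, Module K (H i)]
  [fin : ∀ i, FiniteDimensional K (H i)]
  q : LinearMap.BilinForm K (H 2)
  symm : q.IsSymm
  nondeg : q.Nondegenerate
  dim3 : 3 ≤ finrank K (H 2)
  ρ : ∀ i, Act K (H 2) (H i)
  ρ_two : (ρ 2).IsStd q
  bracket : ∀ i, (ρ i).IsRep q
  index : TraceForm q (fun A B => ∑ i ∈ Finset.range (d + 1), (ρ i).form A B) c

attribute [instance] Cohomology.grp Cohomology.mod Cohomology.fin

lemma Cohomology.index' {K : Type} [Field K] {d : ℕ} {c : ℚ} (X : Cohomology K d c)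
    (A B : Module.End K (X.H 2)) (hA : Skew X.q A) (hB : Skew X.q B) :
    ∑ i ∈ Finset.range (d + 1), LinearMap.trace K (X.H i) (X.ρ i A * X.ρ i B) =
      (c : K) * LinearMap.trace K (X.H 2) (A * B) :=
  X.index A B hA hB

/-- A graded automorphism of the cohomology ring (up to Tate twists: a Frobenius or an element of a
Galois group): it multiplies `q` by a scalar and it normalizes the action of `so(H²)`, as this
action is canonical. -/
structure Cohomology.Auto {K : Type} [Field K] {d : ℕ} {c : ℚ} (X : Cohomology K d c) where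
  φ : ∀ i, X.H i ≃ₗ[K] X.H i
  μ : K
  μ_ne : μ ≠ 0
  similar : Similar X.q (φ 2) μ
  equi : ∀ i, (X.ρ i).Equi (φ 2) (φ i)

section

variable {K : Type} [Field K] [IsAlgClosed K] [CharZero K] {d : ℕ} {c : ℚ}
  {X : Cohomology K d c} (F : X.Auto)

omit [IsAlgClosed K] [CharZero K] in
lemma Cohomology.Auto.hc (i : ℕ) (A : Module.End K (X.H 2)) :
    adE (F.φ i) (X.ρ i A) = X.ρ i (adE (F.φ 2) A) := by
  have h := F.equi i A
  have h1 : adE (F.φ 2) A = (F.φ 2).toLinearMap ∘ₗ A ∘ₗ (F.φ 2).symm.toLinearMap := rfl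
  rw [h1]
  have h2 : adE (F.φ i) (X.ρ i A) = ((F.φ i).toLinearMap ∘ₗ X.ρ i A) ∘ₗ
      (F.φ i).symm.toLinearMap := rfl
  rw [h2, h]
  ext x
  simp

/-- The centred weight operator of `H²`. -/
noncomputable def Cohomology.Auto.S2 (W : Wt K) : Module.End K (X.H 2) :=
  fop (en (F.φ 2)) W.k - ((W.w F.μ / 2 : ℚ) : K) • 1

variable {F} {W : Wt K}

lemma skew_S2 (h2 : ∀ e ∈ (en (F.φ 2)).charpoly.roots, W.U e) : Skew X.q (F.S2 W) :=
  skew_fop F.similar W h2

/-- The part of the centred weight operator of `H^i` which does not come from `H²`. -/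
noncomputable def Cohomology.Auto.T (F : X.Auto) (W : Wt K) (i : ℕ) (κ : ℚ) :
    Module.End K (X.H i) :=
  fop (en (F.φ i)) (fun e => ((W.w e - κ : ℚ) : K)) - X.ρ i (F.S2 W)

lemma T_eq (i : ℕ) (κ : ℚ) : F.T W i κ =
    fop (en (F.φ i)) W.k - (κ : K) • 1 - X.ρ i (F.S2 W) := by
  have : (fun e => ((W.w e - κ : ℚ) : K)) = fun e => W.k e - (κ : K) := by
    ext e; rw [Rat.cast_sub]; rfl
  rw [Cohomology.Auto.T, this, fop_sub, fop_const]

/-- `T` commutes with `so(H²)`. -/
lemma T_comm (h2 : ∀ e ∈ (en (F.φ 2)).charpoly.roots, W.U e) {i : ℕ}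
    (hi : ∀ e ∈ (en (F.φ i)).charpoly.roots, W.U e) (κ : ℚ) {A : Module.End K (X.H 2)}
    (hA : Skew X.q A) : Commute (X.ρ i A) (F.T W i κ) := by
  have h := inter (F.hc i) W h2 hi A
  have hb := X.bracket i (F.S2 W) A (skew_S2 h2) hA
  have h3 : F.S2 W * A - A * F.S2 W =
      fop (en (F.φ 2)) W.k * A - A * fop (en (F.φ 2)) W.k := by
    rw [Cohomology.Auto.S2, sub_mul, mul_sub, smul_mul_assoc, mul_smul_comm, one_mul, mul_one]
    abel
  rw [h3, ← h] at hb
  have h5 : Commute (X.ρ i A) (fop (en (F.φ i)) W.k - X.ρ i (F.S2 W)) := by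
    refine sub_eq_zero.1 ?_
    have : X.ρ i A * (fop (en (F.φ i)) W.k - X.ρ i (F.S2 W)) -
        (fop (en (F.φ i)) W.k - X.ρ i (F.S2 W)) * X.ρ i A =
        (X.ρ i (F.S2 W) * X.ρ i A - X.ρ i A * X.ρ i (F.S2 W)) -
        (fop (en (F.φ i)) W.k * X.ρ i A - X.ρ i A * fop (en (F.φ i)) W.k) := by
      rw [mul_sub, sub_mul]; abel
    rw [this, hb, sub_self]
  rw [T_eq, sub_right_comm]
  exact h5.sub_right ((Commute.one_right _).smul_right _)

omit [CharZero K] in
lemma commute_fop_φ (i : ℕ) (w : K → K) : Commute (en (F.φ i)) (fop (en (F.φ i)) w) :=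
  fop_comm (Commute.refl _) w

omit [IsAlgClosed K] [CharZero K] in
lemma rho_comm_φ (i : ℕ) {A : Module.End K (X.H 2)} (hA : Commute (en (F.φ 2)) A) :
    Commute (en (F.φ i)) (X.ρ i A) := by
  have h1 : (F.φ 2).toLinearMap ∘ₗ A ∘ₗ (F.φ 2).symm.toLinearMap = A := by
    ext x
    have := congrArg (fun f : Module.End K (X.H 2) => f ((F.φ 2).symm x)) hA.eq
    change F.φ 2 (A ((F.φ 2).symm x)) = A (F.φ 2 ((F.φ 2).symm x)) at this
    rw [LinearEquiv.apply_symm_apply] at this
    exact this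
  have h2 := F.equi i A
  rw [h1] at h2
  exact h2

lemma T_comm_φ (i : ℕ) (κ : ℚ) : Commute (F.T W i κ) (en (F.φ i)) := by
  rw [T_eq]
  refine Commute.symm ?_
  refine ((commute_fop_φ i _).sub_right ((Commute.one_right _).smul_right _)).sub_right ?_
  have h1 : Commute (en (F.φ 2)) (F.S2 W) := by
    have h2 := commute_fop_φ (F := F) 2 W.k
    have h3 : Commute (en (F.φ 2)) (((W.w F.μ / 2 : ℚ) : K) • (1 : Module.End K (X.H 2))) :=
      (Commute.one_right _).smul_right _
    exact h2.sub_right h3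
  exact rho_comm_φ i h1

omit [IsAlgClosed K] in
lemma tr_rho_mul {i : ℕ} {A : Module.End K (X.H 2)} (hA : Skew X.q A) {z : Module.End K (X.H i)}
    (hz : ∀ B, Skew X.q B → Commute (X.ρ i B) z) :
    LinearMap.trace K (X.H i) (X.ρ i A * z) = 0 :=
  pz (X.bracket i) hz (t_perf K (X.H 2) X.q X.symm X.nondeg X.dim3 A hA)

/-- Second moments of the weights of the Frobenius eigenvalues. -/
lemma second_T (h2 : ∀ e ∈ (en (F.φ 2)).charpoly.roots, W.U e) {i : ℕ}
    (hi : ∀ e ∈ (en (F.φ i)).charpoly.roots, W.U e) (κ : ℚ) :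
    ∃ r : ℚ, 0 ≤ r ∧ ((en (F.φ i)).charpoly.roots.map
      (fun e => (((W.w e - κ) * (W.w e - κ) : ℚ) : K))).sum =
      LinearMap.trace K (X.H i) (X.ρ i (F.S2 W) * X.ρ i (F.S2 W)) + r ∧
      (r = 0 → IsNilpotent (F.T W i κ)) := by
  refine second (φ := en (F.φ i)) (w := fun e => W.w e - κ) (T := F.T W i κ)
    (R := X.ρ i (F.S2 W)) ?_ (T_comm_φ i κ) fun z hz => ?_
  · rw [Cohomology.Auto.T]; abel
  · exact tr_rho_mul (skew_S2 h2) fun B hB => hz _ (T_comm h2 hi κ hB)

end

end Pool.Agent.N184.HK
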