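import Pool.Agent.N184.HK.Op

/-!
# Project HK: weights of eigenvalues and derivations
-/

set_option autoImplicit false

namespace Pool.Agent.N184.HK

open Module Module.End
open scoped Classical

/-- A rational valued homomorphism `w` on a subgroup `U` of the multiplicative group (a valuation,
or the weight of Weil numbers). -/
structure Wt (K : Type) [Field K] where
  U : K → Prop
  ne : ∀ x, U x → x ≠ 0
  mul : ∀ x y, U x → U y → U (x * y)
  inv : ∀ x, U x → U x⁻¹
  w : K → ℚ
  w_mul : ∀ x y, U x → U y → w (x * y) = w x + w y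

/-- `w` with values in `K`. -/
def Wt.k {K : Type} [Field K] (W : Wt K) (x : K) : K := ((W.w x : ℚ) : K)

section

variable {K H : Type} [Field K] [IsAlgClosed K] [AddCommGroup H] [Module K H]
  [FiniteDimensional K H]

lemma sub_pow_apply {T : Module.End K H} {e : K} {x : H} (hx : x ∈ T.maxGenEigenspace e) (k : ℕ) :
    ((T - fop T (fun y => y)) ^ k) x = ((T - e • 1) ^ k) x := by
  induction k with
  | zero => rfl
  | succ k ih =>
    have h2 : ((T - e • (1 : Module.End K H)) ^ k) x ∈ T.maxGenEigenspace e := by
      refine T.mapsTo_maxGenEigenspace_of_comm ?_ e hx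
      refine Commute.pow_right ?_ k
      exact (Commute.refl T).sub_right ((Commute.one_right T).smul_right e)
    rw [_root_.pow_succ', _root_.pow_succ', Module.End.mul_apply, Module.End.mul_apply, ih,
      LinearMap.sub_apply, LinearMap.sub_apply, fop_apply _ h2]
    rfl

lemma nil_part (T : Module.End K H) : IsNilpotent (T - fop T (fun x => x)) := by
  refine ⟨finrank K H, ext_gen T fun e x hx => ?_⟩
  rw [sub_pow_apply hx, LinearMap.zero_apply]
  rw [T.maxGenEigenspace_eq_genEigenspace_finrank, Module.End.mem_genEigenspace_nat] at hx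
  exact hx

omit [IsAlgClosed K] [FiniteDimensional K H] in
lemma tr_nil {T : Module.End K H} (h : IsNilpotent T) : LinearMap.trace K H T = 0 :=
  (LinearMap.isNilpotent_trace_of_isNilpotent h).eq_zero

lemma self_comm_fop (T : Module.End K H) (w : K → K) : Commute T (fop T w) :=
  fop_comm (Commute.refl T) w

lemma tr_mul_self (T : Module.End K H) :
    LinearMap.trace K H (T * T) = (T.charpoly.roots.map (fun x => x * x)).sum := by
  have h1 : T * T = fop T (fun x => x) * fop T (fun x => x) +
      (T - fop T (fun x => x)) * (T + fop T (fun x => x)) := by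
    have hc := (self_comm_fop T (fun x => x)).eq
    rw [sub_mul, mul_add, mul_add, hc]
    abel
  have h2 : IsNilpotent ((T - fop T (fun x => x)) * (T + fop T (fun x => x))) := by
    refine Commute.isNilpotent_mul_right ?_ (nil_part T)
    have hc := self_comm_fop T (fun x => x)
    exact ((Commute.refl T).add_right hc).sub_left (hc.symm.add_right (Commute.refl _))
  rw [h1, map_add, tr_nil h2, add_zero, fop_mul, tr_fop]

lemma nil_of_roots {T : Module.End K H} (h : ∀ x ∈ T.charpoly.roots, x = 0) : IsNilpotent T := by
  have h1 : fop T (fun x => x) = 0 := by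
    refine ext_gen T fun e x hx => ?_
    rw [fop_apply _ hx, LinearMap.zero_apply]
    by_cases he : T.maxGenEigenspace e = ⊥
    · rw [he, Submodule.mem_bot] at hx
      rw [hx, smul_zero]
    · rw [h e (ne_bot_iff.1 he), zero_smul]
  have := nil_part T
  rwa [h1, sub_zero] at this

omit [IsAlgClosed K] in
lemma tr_idem {M : Type} [AddCommGroup M] [Module K M] [FiniteDimensional K M]
    {z : Module.End K M} (hz : z * z = z) : ∃ n : ℕ, LinearMap.trace K M z = n := by
  have h := (LinearMap.isProj_range_iff_isIdempotentElem z).2 hz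
  exact ⟨_, h.trace⟩

/-- Rationality of the eigenvalues of `T`, where `T + R` is a weight operator. -/
lemma rat_eig {φ T R : Module.End K H} {w : K → ℚ} [CharZero K]
    (hS : fop φ (fun e => (w e : K)) = R + T) (hT : Commute T φ)
    (hR : ∀ z : Module.End K H, (∀ U, Commute U T → Commute U z) →
      LinearMap.trace K H (R * z) = 0) {x : K} (hx : x ∈ T.charpoly.roots) :
    ∃ r : ℚ, (r : K) = x := by
  set z := fop T (fun y => if y = x then 1 else 0) with hz
  have hzb : ∀ U, Commute U T → Commute U z := fun U hU => fop_comm hU _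
  have hzz : z * z = z := by
    rw [hz, fop_mul]
    congr 1
    ext y
    by_cases h : y = x <;> simp [h]
  have hzφ : Commute z φ := (hzb φ hT.symm).symm
  have h1 : LinearMap.trace K H (fop φ (fun e => (w e : K)) * z) = LinearMap.trace K H (T * z) := by
    rw [hS, add_mul, map_add, hR z hzb, zero_add]
  have h2 : LinearMap.trace K H (T * z) = x * LinearMap.trace K H z := by
    have h3 : T * z = x • z + (T - fop T (fun y => y)) * z := by
      rw [sub_mul]
      have : fop T (fun y => y) * z = x • z := by
        rw [hz, fop_mul]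
        refine ext_gen T fun e y hy => ?_
        rw [fop_apply _ hy, LinearMap.smul_apply, fop_apply _ hy, smul_smul]
        by_cases h : e = x <;> simp [h]
      rw [this]; abel
    have h4 : IsNilpotent ((T - fop T (fun y => y)) * z) := by
      refine Commute.isNilpotent_mul_right ?_ (nil_part T)
      exact (hzb T (Commute.refl T)).sub_left (hzb _ (self_comm_fop T _).symm)
    rw [h3, map_add, tr_nil h4, add_zero, map_smul, smul_eq_mul]
  obtain ⟨n, hn⟩ := tr_idem hzz
  have hn0 : (n : K) ≠ 0 := by
    intro h0
    rw [h0] at hn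
    rw [hz, tr_fop] at hn
    have h5 : (T.charpoly.roots.map (fun y => if y = x then (1 : K) else 0)).sum =
        (T.charpoly.roots.count x : K) := by
      induction T.charpoly.roots using Multiset.induction_on with
      | empty => simp
      | cons a s ih =>
        rw [Multiset.map_cons, Multiset.sum_cons, ih, Multiset.count_cons]
        by_cases h : a = x
        · subst h; simp [add_comm]
        · simp [h, Ne.symm h]
    rw [h5] at hn
    have := Nat.cast_eq_zero.1 hn
    exact (Multiset.count_pos.2 hx).ne' this
  have h6 : ∃ r : ℚ, LinearMap.trace K H (fop φ (fun e => (w e : K)) * z) = r := by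
    rw [tr_fop_mul hzφ]
    choose m hm using fun e => tr_idem (K := K) (z := z.restrict
      (φ.mapsTo_maxGenEigenspace_of_comm hzφ.symm e)) (by
        ext ⟨y, hy⟩
        change z (z y) = z y
        rw [← Module.End.mul_apply, hzz])
    refine ⟨∑ e ∈ (fin_ne φ).toFinset, w e * (m e : ℚ), ?_⟩
    rw [Rat.cast_sum]
    refine Finset.sum_congr rfl fun e _ => ?_
    rw [hm e, Rat.cast_mul, Rat.cast_natCast]
  obtain ⟨r, hr⟩ := h6
  refine ⟨r / n, ?_⟩
  rw [Rat.cast_div, Rat.cast_natCast, div_eq_iff hn0, ← hr, h1, h2, hn]

/-- Second moments. -/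
lemma second {φ T R : Module.End K H} {w : K → ℚ} [CharZero K]
    (hS : fop φ (fun e => (w e : K)) = R + T) (hT : Commute T φ)
    (hR : ∀ z : Module.End K H, (∀ U, Commute U T → Commute U z) →
      LinearMap.trace K H (R * z) = 0) :
    ∃ r : ℚ, 0 ≤ r ∧ (φ.charpoly.roots.map (fun e => ((w e * w e : ℚ) : K))).sum =
      LinearMap.trace K H (R * R) + r ∧ (r = 0 → IsNilpotent T) := by
  have h1 : ∀ x ∈ T.charpoly.roots, ∃ r : ℚ, (r : K) = x := fun x hx => rat_eig hS hT hR hx
  have h2 : ∃ s : Multiset ℚ, T.charpoly.roots = s.map (fun r : ℚ => (r : K)) := by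
    generalize T.charpoly.roots = m at h1
    induction m using Multiset.induction_on with
    | empty => exact ⟨0, rfl⟩
    | cons a s ih =>
      obtain ⟨r, hr⟩ := h1 a (Multiset.mem_cons_self a s)
      obtain ⟨t, ht⟩ := ih fun x hx => h1 x (Multiset.mem_cons_of_mem hx)
      exact ⟨r ::ₘ t, by rw [Multiset.map_cons, hr, ht]⟩
  obtain ⟨s, hs⟩ := h2
  have h3 : LinearMap.trace K H (T * T) = (((s.map (fun r => r * r)).sum : ℚ) : K) := by
    rw [tr_mul_self, hs, Multiset.map_map]
    have := map_multiset_sum (Rat.castHom K) (s.map (fun r => r * r))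
    rw [Multiset.map_map] at this
    change ((_ : ℚ) : K) = _ at this
    rw [this]
    congr 1
    refine Multiset.map_congr rfl fun r _ => ?_
    simp
  refine ⟨(s.map (fun r => r * r)).sum, Multiset.sum_nonneg fun x hx => ?_, ?_, fun h0 => ?_⟩
  · obtain ⟨r, -, rfl⟩ := Multiset.mem_map.1 hx
    exact mul_self_nonneg r
  · have h4 : (φ.charpoly.roots.map (fun e => ((w e * w e : ℚ) : K))).sum =
        LinearMap.trace K H (fop φ (fun e => (w e : K)) * fop φ (fun e => (w e : K))) := by
      rw [fop_mul, tr_fop]
      simp only [Rat.cast_mul]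
    have h5 : LinearMap.trace K H (R * T) = 0 := hR T fun U hU => hU
    have h6 : LinearMap.trace K H (T * R) = 0 := by rw [LinearMap.trace_mul_comm, h5]
    rw [h4, hS, add_mul, mul_add, mul_add, map_add, map_add, map_add, h5, h6, h3]
    ring
  · refine nil_of_roots fun x hx => ?_
    rw [hs] at hx
    obtain ⟨r, hr, rfl⟩ := Multiset.mem_map.1 hx
    have h7 : r * r ≤ (s.map (fun r => r * r)).sum := by
      refine Multiset.single_le_sum (fun y hy => ?_) _ (Multiset.mem_map_of_mem _ hr)
      obtain ⟨r', -, rfl⟩ := Multiset.mem_map.1 hy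
      exact mul_self_nonneg r'
    rw [h0] at h7
    have : r = 0 := by nlinarith [mul_self_nonneg r]
    rw [this, Rat.cast_zero]

end

end Pool.Agent.N184.HK
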