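import Pool.Agent.N184.HK.Ord
import Pool.Agent.W528.Ord.Main3

/-!
# Project HK: hyperkähler varieties over number fields and their ordinary primes
-/

set_option autoImplicit false

namespace Pool.Agent.N184.HK

open Module Polynomial NumberField IsDedekindDomain Filter Topology
open Pool.Agent.W401.Cheb Pool.Agent.W528.Ord

/-- An `ℓ`-adic representation of the absolute Galois group `GK K` of the number field `K`. -/
structure GalRep (K : Type) [Field K] [NumberField K] (ℓ : ℕ) [Fact ℓ.Prime] where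
  V : Type
  [grp : AddCommGroup V]
  [mod : Module ℚ_[ℓ] V]
  [fin : FiniteDimensional ℚ_[ℓ] V]
  r : GK K →* Module.End ℚ_[ℓ] V

attribute [instance] GalRep.grp GalRep.mod GalRep.fin

/-- The trace of `σ`. -/
noncomputable def GalRep.tr {K : Type} [Field K] [NumberField K] {ℓ : ℕ} [Fact ℓ.Prime]
    (R : GalRep K ℓ) (σ : GK K) : ℚ_[ℓ] :=
  LinearMap.trace ℚ_[ℓ] R.V (R.r σ)

/-- The characteristic polynomial of `N σ`. -/
noncomputable def GalRep.cp {K : Type} [Field K] [NumberField K] {ℓ : ℕ} [Fact ℓ.Prime]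
    (R : GalRep K ℓ) (N : ℕ) (σ : GK K) : ℚ_[ℓ][X] :=
  ((N : ℚ_[ℓ]) • R.r σ).charpoly

/-- The characteristic polynomial of the crystalline Frobenius of `H²`. -/
noncomputable def GoodPlace.cp {d : ℕ} {c : ℚ} {b : ℕ → ℕ} {hs : ∀ i, Fin (b i) → ℚ}
    (v : GoodPlace d c b hs) : v.C[X] :=
  (v.F.φ 2).toLinearMap.charpoly

/-- A projective hyperkähler variety `X` of dimension `d / 2` over a number field `K`: Hodge numbers,
Betti cohomology, and the places of good reduction (all places outside of the finite set `bad`).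
`R` is the `ℓ`-adic representation `H²(1)` of the Galois group of `K`; it is continuous, and its
trace is not constant near the identity, as the Hodge-Tate weights are not all zero (Sen). `poly v` is
the characteristic polynomial of the Frobenius of `v` on `H²`; it has integral coefficients, its roots
have absolute value `N v` (Deligne), and it is also the characteristic polynomial of the crystalline
Frobenius (Katz, Messing). The slopes of `H²` are symmetric (duality), and the Hodge numbers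
`h^{0,2}, h^{1,1}, h^{2,0}` are `1, b_2 - 2, 1`. -/
structure Hyperkaehler (K : Type) [Field K] [NumberField K] (ℓ : ℕ) [Fact ℓ.Prime] where
  d : ℕ
  two_le : 2 ≤ d
  c : ℚ
  b : ℕ → ℕ
  hs : ∀ i, Fin (b i) → ℚ
  betti : HodgeData d c b hs
  hodge : ∀ j : Fin (b 2), hs 2 j =
    if (j : ℕ) = 0 then 0 else if (j : ℕ) + 1 = b 2 then 2 else 1
  bad : Set (HeightOneSpectrum (𝓞 K))
  finite : bad.Finite
  place : ∀ v, v ∉ bad → GoodPlace d c b hs
  norm_eq : ∀ v h, (place v h).N = Ideal.absNorm v.asIdeal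
  dual : ∀ v h j, (place v h).ns 2 j + (place v h).ns 2 (Fin.rev j) = 2
  R : GalRep K ℓ
  cont : Continuous R.tr
  nonconst : ∀ O : Set (GK K), IsOpen O → 1 ∈ O → ∃ σ ∈ O, R.tr σ ≠ R.tr 1
  poly : HeightOneSpectrum (𝓞 K) → ℤ[X]
  poly_l : ∀ v, v ∉ bad → ∀ σ, IsFrob v σ →
    R.cp (Ideal.absNorm v.asIdeal) σ = (poly v).map (Int.castRingHom _)
  poly_p : ∀ v h, (place v h).cp = (poly v).map (Int.castRingHom _)
  weil : ∀ v, v ∉ bad → ∀ z ∈ ((poly v).map (Int.castRingHom ℂ)).roots,
    ‖z‖ = Ideal.absNorm v.asIdeal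

/-- The reduction `X_v` is ordinary in degree `i`: the Newton polygon of `H^i` is equal to the Hodge
polygon. -/
def Hyperkaehler.OrdinaryIn {K : Type} [Field K] [NumberField K] {ℓ : ℕ} [Fact ℓ.Prime]
    (X : Hyperkaehler K ℓ) (v : HeightOneSpectrum (𝓞 K)) (h : v ∉ X.bad) (i : ℕ) : Prop :=
  (X.place v h).ns i = X.hs i

section

variable {K : Type} [Field K] [NumberField K] {ℓ : ℕ} [Fact ℓ.Prime] (X : Hyperkaehler K ℓ)

lemma trace_coeff {K M : Type} [Field K] [AddCommGroup M] [Module K M] [FiniteDimensional K M]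
    (f : Module.End K M) : LinearMap.trace K M f = - f.charpoly.nextCoeff := by
  classical
  let b := Module.Free.chooseBasis K M
  rw [LinearMap.trace_eq_matrix_trace K b, Matrix.trace_eq_neg_charpoly_nextCoeff,
    LinearMap.charpoly_toMatrix]

/-- The trace of the Frobenius. -/
noncomputable def Hyperkaehler.t (v : HeightOneSpectrum (𝓞 K)) : ℤ := - (X.poly v).nextCoeff

variable {v : HeightOneSpectrum (𝓞 K)} (hv : v ∉ X.bad)

lemma trace_p :
    LinearMap.trace _ _ ((X.place v hv).F.φ 2).toLinearMap = ((X.t v : ℤ) : (X.place v hv).C) := by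
  have h := X.poly_p v hv
  rw [GoodPlace.cp] at h
  rw [trace_coeff, h, nextCoeff_map (RingHom.injective_int _), Hyperkaehler.t]
  simp

include hv in
lemma trace_l {σ : GK K} (hσ : IsFrob v σ) :
    (Ideal.absNorm v.asIdeal : ℚ_[ℓ]) * X.R.tr σ = ((X.t v : ℤ) : ℚ_[ℓ]) := by
  have h := X.poly_l v hv σ hσ
  rw [GalRep.cp] at h
  rw [← smul_eq_mul, GalRep.tr, ← map_smul, trace_coeff, h,
    nextCoeff_map (RingHom.injective_int _), Hyperkaehler.t]
  simp

include hv in
lemma monic_poly : (X.poly v).Monic := by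
  have h := LinearMap.charpoly_monic ((X.place v hv).F.φ 2).toLinearMap
  have h1 := X.poly_p v hv
  rw [GoodPlace.cp] at h1
  rw [h1] at h
  exact monic_of_injective (RingHom.injective_int _) h

include hv in
lemma abs_t_le : |X.t v| ≤ X.b 2 * Ideal.absNorm v.asIdeal := by
  have hm : ((X.poly v).map (Int.castRingHom ℂ)).Monic := (monic_poly X hv).map _
  have h1 := (IsAlgClosed.splits ((X.poly v).map (Int.castRingHom ℂ))).nextCoeff_eq_neg_sum_roots_of_monic hm
  rw [nextCoeff_map (RingHom.injective_int _)] at h1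
  have h2 : ((X.t v : ℤ) : ℂ) = ((X.poly v).map (Int.castRingHom ℂ)).roots.sum := by
    rw [Hyperkaehler.t]
    push_cast
    rw [← neg_eq_iff_eq_neg] at h1
    simpa using h1
  have hc : Multiset.card ((X.poly v).map (Int.castRingHom ℂ)).roots = X.b 2 := by
    rw [← (IsAlgClosed.splits _).natDegree_eq_card_roots,
      natDegree_map_eq_of_injective (RingHom.injective_int _)]
    have h3 := LinearMap.charpoly_natDegree ((X.place v hv).F.φ 2).toLinearMap
    have h4 := X.poly_p v hv
    rw [GoodPlace.cp] at h4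
    rw [h4, natDegree_map_eq_of_injective (RingHom.injective_int _),
      card_roots (X.place v hv) X.two_le] at h3
    exact h3
  have h4 : ‖((X.t v : ℤ) : ℂ)‖ ≤ X.b 2 * Ideal.absNorm v.asIdeal := by
    rw [h2, ← hc]
    have := X.weil v hv
    generalize ((X.poly v).map (Int.castRingHom ℂ)).roots = m at this
    induction m using Multiset.induction_on with
    | empty => simp
    | cons a s ih =>
      rw [Multiset.sum_cons, Multiset.card_cons]
      refine (norm_add_le _ _).trans ?_
      have h5 := ih fun z hz => this z (Multiset.mem_cons_of_mem hz)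
      have h6 := this a (Multiset.mem_cons_self a s)
      push_cast
      rw [h6]
      linarith
  rw [Complex.norm_intCast] at h4
  exact_mod_cast h4

lemma val_int {C : Type} [Field C] (val : AddValuation C (WithTop ℚ)) (n : ℤ) :
    0 ≤ val (n : C) := by
  induction n using Int.induction_on with
  | zero => simp
  | succ n ih =>
    push_cast at ih ⊢
    refine (le_min ih ?_).trans (val.map_add _ _)
    rw [val.map_one]
  | pred n ih =>
    push_cast at ih ⊢
    refine (le_min ih ?_).trans (val.map_sub _ _)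
    rw [val.map_one]

/-- If all slopes of `H²` are positive then `p` divides the trace. -/
lemma dvd_t (hp : (Ideal.absNorm v.asIdeal).Prime) (h : ∀ j, 0 < (X.place v hv).ns 2 j) :
    (Ideal.absNorm v.asIdeal : ℤ) ∣ X.t v := by
  have h1 : 0 < (X.place v hv).val ((X.t v : ℤ) : (X.place v hv).C) := by
    rw [← trace_p, tr_roots, Multiset.map_id']
    have h2 := (X.place v hv).slopes 2 X.two_le
    have h3 : ∀ e ∈ ((X.place v hv).F.φ 2).toLinearMap.charpoly.roots,
        0 < (X.place v hv).val e := by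
      intro e he
      have h4 := Multiset.mem_map_of_mem (fun e => (X.place v hv).val e) he
      rw [h2] at h4
      obtain ⟨j, -, hj⟩ := Multiset.mem_map.1 h4
      rw [← hj]
      exact_mod_cast h j
    generalize ((X.place v hv).F.φ 2).toLinearMap.charpoly.roots = m at h3
    induction m using Multiset.induction_on with
    | empty => simp
    | cons a s ih =>
      rw [Multiset.sum_cons]
      refine (lt_min (h3 a (Multiset.mem_cons_self a s))
        (ih fun z hz => h3 z (Multiset.mem_cons_of_mem hz))).trans_le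
          ((X.place v hv).val.map_add _ _)
  by_contra hnd
  have hc : IsCoprime (Ideal.absNorm v.asIdeal : ℤ) (X.t v) :=
    (Nat.prime_iff_prime_int.1 hp).irreducible.coprime_iff_not_dvd.2 hnd
  obtain ⟨a, b, hab⟩ := hc
  have h5 : (X.place v hv).val (1 : (X.place v hv).C) = 0 := (X.place v hv).val.map_one
  have h6 : (1 : (X.place v hv).C) = (a : (X.place v hv).C) *
      (Ideal.absNorm v.asIdeal : (X.place v hv).C) +
      (b : (X.place v hv).C) * ((X.t v : ℤ) : (X.place v hv).C) := by
    have := congrArg (fun z : ℤ => (z : (X.place v hv).C)) hab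
    push_cast at this
    exact this.symm
  have h7 : 0 < (X.place v hv).val (1 : (X.place v hv).C) := by
    rw [h6]
    refine (lt_min ?_ ?_).trans_le ((X.place v hv).val.map_add _ _)
    · rw [(X.place v hv).val.map_mul, ← X.norm_eq v hv, (X.place v hv).norm]
      exact lt_of_lt_of_le zero_lt_one (le_add_of_nonneg_left (val_int _ a))
    · rw [(X.place v hv).val.map_mul]
      exact lt_of_lt_of_le h1 (le_add_of_nonneg_left (val_int _ b))
  rw [h5] at h7
  exact lt_irrefl _ h7

lemma ordinary_of_zero {b : ℕ} (hb : 3 ≤ b) {ns hs : Fin b → ℚ} (mono : Monotone ns)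
    (above : ∀ k : ℕ, ∑ j ∈ Finset.univ.filter (fun j : Fin b => (j : ℕ) < k), hs j ≤
      ∑ j ∈ Finset.univ.filter (fun j : Fin b => (j : ℕ) < k), ns j)
    (dual : ∀ j, ns j + ns (Fin.rev j) = 2)
    (hodge : ∀ j : Fin b, hs j = if (j : ℕ) = 0 then 0 else if (j : ℕ) + 1 = b then 2 else 1)
    (hne : ns ≠ hs) : ∀ j, 0 < ns j := by
  have h0 : (0 : ℕ) < b := by omega
  have h1 : (1 : ℕ) < b := by omega
  have f1 : Finset.univ.filter (fun j : Fin b => (j : ℕ) < 1) = {⟨0, h0⟩} := by
    ext j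
    simp only [Finset.mem_filter, Finset.mem_univ, true_and, Finset.mem_singleton, Fin.ext_iff]
    omega
  have f2 : Finset.univ.filter (fun j : Fin b => (j : ℕ) < 2) = {⟨0, h0⟩, ⟨1, h1⟩} := by
    ext j
    simp only [Finset.mem_filter, Finset.mem_univ, true_and, Finset.mem_singleton,
      Finset.mem_insert, Fin.ext_iff]
    omega
  have a1 := above 1
  have a2 := above 2
  rw [f1, Finset.sum_singleton, Finset.sum_singleton, hodge, if_pos rfl] at a1
  rw [f2, Finset.sum_pair (by simp [Fin.ext_iff]), Finset.sum_pair (by simp [Fin.ext_iff]),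
    hodge, if_pos rfl, hodge, if_neg (by simp), if_neg (by simp; omega)] at a2
  have hpos : 0 < ns ⟨0, h0⟩ := by
    rcases lt_or_eq_of_le a1 with h | h
    · exact h
    exfalso
    apply hne
    have hge : ∀ j : Fin b, 1 ≤ (j : ℕ) → 1 ≤ ns j := by
      intro j hj
      have h3 : ns ⟨1, h1⟩ ≤ ns j := mono (Fin.mk_le_of_le_val hj)
      rw [← h] at a2
      linarith
    ext j
    rw [hodge j]
    by_cases hj : (j : ℕ) = 0
    · have : j = ⟨0, h0⟩ := Fin.ext hj
      rw [if_pos hj, this, ← h]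
    · rw [if_neg hj]
      have hd := dual j
      by_cases hj2 : (j : ℕ) + 1 = b
      · rw [if_pos hj2]
        have h4 : Fin.rev j = ⟨0, h0⟩ := by
          apply Fin.ext
          rw [Fin.val_rev]
          change b - ((j : ℕ) + 1) = 0
          omega
        rw [h4, ← h] at hd
        linarith
      · rw [if_neg hj2]
        have h5 := hge j (by omega)
        have h6 := hge (Fin.rev j) (by
          rw [Fin.val_rev]
          have := j.isLt
          omega)
        linarith
  intro j
  exact hpos.trans_le (mono (Fin.mk_le_of_le_val (Nat.zero_le _)))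

include hv in
lemma three_le : 3 ≤ X.b 2 := by
  have := (X.place v hv).D.dim3
  rwa [card_roots (X.place v hv) X.two_le] at this

lemma trace_int (hp : (Ideal.absNorm v.asIdeal).Prime) (h : ¬ X.OrdinaryIn v hv 2) {σ : GK K}
    (hσ : IsFrob v σ) :
    ∃ k : ℤ, |k| ≤ X.b 2 ∧ X.R.tr σ = (k : ℚ_[ℓ]) := by
  have hpos := ordinary_of_zero (three_le X hv) ((X.place v hv).mono 2)
    ((X.place v hv).above 2 X.two_le) (X.dual v hv) X.hodge h
  obtain ⟨k, hk⟩ := dvd_t X hv hp hpos
  have hN : (0 : ℤ) < Ideal.absNorm v.asIdeal := by exact_mod_cast hp.pos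
  refine ⟨k, ?_, ?_⟩
  · have h1 := abs_t_le X hv
    rw [hk, abs_mul, abs_of_pos hN, mul_comm] at h1
    exact le_of_mul_le_mul_right h1 hN
  · have h2 := trace_l X hv hσ
    rw [hk] at h2
    push_cast at h2
    have hN' : (Ideal.absNorm v.asIdeal : ℚ_[ℓ]) ≠ 0 := by
      exact_mod_cast hp.ne_zero
    exact mul_left_cancel₀ hN' h2

/-- At a place of good reduction a projective hyperkähler variety is ordinary in all degrees if and
only if it is ordinary in degree two. -/
theorem ordinary_iff : X.OrdinaryIn v hv 2 ↔ ∀ i ≤ X.d, X.OrdinaryIn v hv i :=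
  ⟨fun h _ hi => ordinary_all X.betti (X.place v hv) X.two_le h hi, fun h => h 2 X.two_le⟩

/-- Chebotarev: an open set which is invariant under conjugation and contains an element contains the
Frobenius elements of a set of places of positive density. -/
lemma cheb_open (O : Set (GK K)) (hO : IsOpen O) (hc : ∀ σ ∈ O, ∀ τ, τ * σ * τ⁻¹ ∈ O)
    (hne : O.Nonempty) : ∃ δ : ℝ, 0 < δ ∧
      ∀ᶠ N : ℕ in atTop, δ ≤ dens (fun v : HeightOneSpectrum (𝓞 K) => ∃ σ ∈ O, IsFrob v σ) N := by
  obtain ⟨σ₀, h0⟩ := hne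
  have hO1 : IsOpen ((fun x => σ₀ * x) ⁻¹' O) := hO.preimage (continuous_mul_left σ₀)
  obtain ⟨U, hU⟩ := ProfiniteGrp.exist_openNormalSubgroup_sub_open_nhds_of_one hO1
    (by simpa using h0)
  have hUo : IsOpen (U.toSubgroup : Set (GK K)) := U.isOpen'
  haveI : Finite (GK K ⧸ U.toSubgroup) := Subgroup.quotient_finite_of_isOpen _ hUo
  let C : Set (GK K) := {x | ∃ τ, ∃ u ∈ U.toSubgroup, x = τ * σ₀ * τ⁻¹ * u}
  have hC1 : ∀ σ ∈ C, ∀ τ : GK K, τ * σ * τ⁻¹ ∈ C := by
    rintro σ ⟨τ', u, hu, rfl⟩ τ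
    refine ⟨τ * τ', τ * u * τ⁻¹, U.isNormal'.conj_mem u hu τ, ?_⟩
    group
  have hC2 : ∀ σ ∈ C, ∀ u ∈ U.toSubgroup, σ * u ∈ C := by
    rintro σ ⟨τ', u', hu', rfl⟩ u hu
    exact ⟨τ', u' * u, mul_mem hu' hu, by group⟩
  have hCO : ∀ x ∈ C, x ∈ O := by
    rintro x ⟨τ, u, hu, rfl⟩
    have h1 : τ⁻¹ * u * τ ∈ U.toSubgroup := by
      simpa using U.isNormal'.conj_mem u hu τ⁻¹
    have h2 : σ₀ * (τ⁻¹ * u * τ) ∈ O := hU h1
    have h3 := hc _ h2 τ
    have e : τ * σ₀ * τ⁻¹ * u = τ * (σ₀ * (τ⁻¹ * u * τ)) * τ⁻¹ := by group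
    rw [e]
    exact h3
  have h := chebK K U.toSubgroup hUo C hC1 hC2
  set δ := (((QuotientGroup.mk : GK K → GK K ⧸ U.toSubgroup) '' C).ncard : ℝ) /
    (Nat.card (GK K ⧸ U.toSubgroup) : ℝ) with hδ
  have hpos : 0 < δ := by
    apply div_pos
    · have : 0 < ((QuotientGroup.mk : GK K → GK K ⧸ U.toSubgroup) '' C).ncard := by
        rw [Set.ncard_pos (Set.toFinite _)]
        exact ⟨_, σ₀, ⟨1, 1, one_mem _, by simp⟩, rfl⟩
      exact_mod_cast this
    · exact_mod_cast Nat.card_pos
  refine ⟨δ / 2, by positivity, ?_⟩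
  filter_upwards [h.eventually (lt_mem_nhds (show δ / 2 < δ by linarith))] with N hN
  refine hN.le.trans (dens_mono ?_ N)
  rintro v ⟨σ, h1, h2⟩
  exact ⟨σ, hCO σ h1, h2⟩

/-- The set of places of good reduction which are ordinary in all degrees has positive density. -/
theorem density_main :
    0 < lowerDensity fun v => ∃ hv : v ∉ X.bad, ∀ i ≤ X.d, X.OrdinaryIn v hv i := by
  classical
  let F : Set ℚ_[ℓ] := (fun k : ℤ => (k : ℚ_[ℓ])) '' {k | |k| ≤ X.b 2}
  have hF : F.Finite := by
    refine Set.Finite.image _ ((Set.finite_Icc (-(X.b 2 : ℤ)) (X.b 2)).subset fun k hk => ?_)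
    exact ⟨(abs_le.1 hk).1, (abs_le.1 hk).2⟩
  let O : Set (GK K) := (fun σ => X.R.tr σ) ⁻¹' Fᶜ
  have hO : IsOpen O := hF.isClosed.isOpen_compl.preimage X.cont
  have hconj : ∀ σ ∈ O, ∀ τ, τ * σ * τ⁻¹ ∈ O := by
    intro σ hσ τ
    change X.R.tr (τ * σ * τ⁻¹) ∈ Fᶜ
    rw [GalRep.tr, map_mul, LinearMap.trace_mul_comm, ← map_mul, ← mul_assoc, inv_mul_cancel,
      one_mul]
    exact hσ
  have hne : O.Nonempty := by
    by_contra hemp
    rw [Set.not_nonempty_iff_eq_empty] at hemp
    have hall : ∀ σ, X.R.tr σ ∈ F := fun σ => by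
      by_contra h
      have : σ ∈ O := h
      rw [hemp] at this
      exact this
    let O1 : Set (GK K) := (fun σ => X.R.tr σ) ⁻¹'
      (F \ {X.R.tr 1})ᶜ
    have hO1 : IsOpen O1 := (hF.subset Set.sdiff_subset).isClosed.isOpen_compl.preimage X.cont
    have h1 : (1 : GK K) ∈ O1 := by
      change X.R.tr 1 ∉ _
      exact fun h => h.2 rfl
    obtain ⟨σ, hσ, hσ2⟩ := X.nonconst O1 hO1 h1
    exact hσ ⟨hall σ, hσ2⟩
  obtain ⟨δ, hδ, hev⟩ := cheb_open O hO hconj hne
  refine lowerDensity_pos _ (δ / 2) (by positivity) ?_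
  have h2 := dens_not_prime (K := K)
  have h3 := dens_finite (fun v => v ∈ X.bad) X.finite
  filter_upwards [hev, h2.eventually (gt_mem_nhds (show (0:ℝ) < δ / 4 by positivity)),
    h3.eventually (gt_mem_nhds (show (0:ℝ) < δ / 4 by positivity))] with N h0 h2 h3
  have hle : dens (fun v : HeightOneSpectrum (𝓞 K) => ∃ σ ∈ O, IsFrob v σ) N ≤
      dens (fun v => ∃ hv : v ∉ X.bad, ∀ i ≤ X.d, X.OrdinaryIn v hv i) N +
      (dens (fun v : HeightOneSpectrum (𝓞 K) => ¬ (Ideal.absNorm v.asIdeal).Prime) N +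
      dens (fun v => v ∈ X.bad) N) := by
    refine le_trans (dens_mono (Q := fun v => _ ∨ (_ ∨ _)) ?_ N)
      (le_trans (dens_or _ _ N) (add_le_add_right (dens_or _ _ N) _))
    rintro v ⟨σ, hσ, hfr⟩
    by_cases hp : (Ideal.absNorm v.asIdeal).Prime
    · by_cases hb : v ∈ X.bad
      · exact Or.inr (Or.inr hb)
      · refine Or.inl ⟨hb, (ordinary_iff X hb).1 ?_⟩
        by_contra hno
        obtain ⟨k, hk, ht⟩ := trace_int X hb hp hno hfr
        exact hσ ⟨k, hk, ht.symm⟩
    · exact Or.inr (Or.inl hp)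
  linarith

end

end Pool.Agent.N184.HK
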