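import Pool.Agent.N184.HK.Stm

/-!
# Project HK: functional calculus with generalized eigenspaces
-/

set_option autoImplicit false

namespace Pool.Agent.N184.HK

open Module Module.End
open scoped Classical

section

variable {K H : Type} [Field K] [IsAlgClosed K] [AddCommGroup H] [Module K H]
  [FiniteDimensional K H]

lemma internal (φ : Module.End K H) :
    DirectSum.IsInternal (fun e : K => φ.maxGenEigenspace e) :=
  DirectSum.isInternal_submodule_of_iSupIndep_of_iSup_eq_top φ.independent_maxGenEigenspace
    (Module.End.iSup_maxGenEigenspace_eq_top φ)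

/-- The operator which acts as `w e` on the generalized eigenspace for `e`. -/
noncomputable def fop (φ : Module.End K H) (w : K → K) : Module.End K H :=
  (DirectSum.toModule K K H (fun e => w e • (φ.maxGenEigenspace e).subtype)) ∘ₗ
    (LinearEquiv.ofBijective (DirectSum.coeLinearMap _) (internal φ)).symm.toLinearMap

lemma fop_apply {φ : Module.End K H} (w : K → K) {e : K} {x : H}
    (hx : x ∈ φ.maxGenEigenspace e) : fop φ w x = w e • x := by
  have h : (LinearEquiv.ofBijective (DirectSum.coeLinearMap _) (internal φ)).symm x =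
      DirectSum.lof K K (fun e : K => φ.maxGenEigenspace e) e ⟨x, hx⟩ := by
    rw [LinearEquiv.symm_apply_eq]
    exact (DirectSum.coeLinearMap_lof (fun e : K => φ.maxGenEigenspace e) e ⟨x, hx⟩).symm
  rw [fop, LinearMap.comp_apply, LinearEquiv.coe_coe, h, DirectSum.toModule_lof]
  rfl

lemma ext_gen (φ : Module.End K H) {M : Type} [AddCommGroup M] [Module K M] {S T : H →ₗ[K] M}
    (h : ∀ e, ∀ x ∈ φ.maxGenEigenspace e, S x = T x) : S = T := by
  have h1 : (⨆ e, φ.maxGenEigenspace e) ≤ LinearMap.eqLocus S T :=
    iSup_le fun e x hx => h e x hx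
  rw [Module.End.iSup_maxGenEigenspace_eq_top] at h1
  ext x
  exact h1 (Submodule.mem_top (x := x))

lemma fop_comm {φ T : Module.End K H} (hT : Commute T φ) (w : K → K) : Commute T (fop φ w) := by
  refine ext_gen φ fun e x hx => ?_
  have h1 : T x ∈ φ.maxGenEigenspace e := φ.mapsTo_maxGenEigenspace_of_comm hT.symm e hx
  rw [Module.End.mul_apply, Module.End.mul_apply, fop_apply w hx, fop_apply w h1, map_smul]

lemma fop_mul (φ : Module.End K H) (w w' : K → K) :
    fop φ w * fop φ w' = fop φ (fun e => w e * w' e) := by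
  refine ext_gen φ fun e x hx => ?_
  rw [Module.End.mul_apply, fop_apply w' hx, map_smul, fop_apply w hx, fop_apply _ hx, smul_smul,
    mul_comm]

lemma fop_const (φ : Module.End K H) (c : K) : fop φ (fun _ => c) = c • 1 := by
  refine ext_gen φ fun e x hx => ?_
  rw [fop_apply _ hx]; rfl

lemma fop_sub (φ : Module.End K H) (w w' : K → K) :
    fop φ (fun e => w e - w' e) = fop φ w - fop φ w' := by
  refine ext_gen φ fun e x hx => ?_
  rw [fop_apply _ hx, LinearMap.sub_apply, fop_apply _ hx, fop_apply _ hx, sub_smul]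

omit [IsAlgClosed K] in
lemma fin_ne (φ : Module.End K H) : {e | φ.maxGenEigenspace e ≠ ⊥}.Finite :=
  WellFoundedGT.finite_ne_bot_of_iSupIndep φ.independent_maxGenEigenspace

omit [IsAlgClosed K] in
lemma ne_bot_iff {φ : Module.End K H} {e : K} : φ.maxGenEigenspace e ≠ ⊥ ↔
    e ∈ φ.charpoly.roots := by
  rw [Polynomial.mem_roots (LinearMap.charpoly_monic φ).ne_zero, ← Module.End.hasEigenvalue_iff_isRoot_charpoly]
  constructor
  · intro h
    have h' : φ.HasUnifEigenvalue e ⊤ := h
    exact h'.lt (by simp)
  · intro h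
    have h' : φ.HasUnifEigenvalue e ⊤ := h.lt (by simp)
    exact h'

/-- Trace of a product with an operator commuting with `φ`. -/
lemma tr_fop_mul {φ T : Module.End K H} (hT : Commute T φ) (w : K → K) :
    LinearMap.trace K H (fop φ w * T) = ∑ e ∈ (fin_ne φ).toFinset, w e *
      LinearMap.trace K _ (T.restrict (φ.mapsTo_maxGenEigenspace_of_comm hT.symm e)) := by
  have hf : ∀ e, Set.MapsTo (fop φ w * T) (φ.maxGenEigenspace e) (φ.maxGenEigenspace e) :=
    fun e x hx => by
      have h1 : T x ∈ φ.maxGenEigenspace e := φ.mapsTo_maxGenEigenspace_of_comm hT.symm e hx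
      change fop φ w (T x) ∈ _
      rw [fop_apply w h1]
      exact Submodule.smul_mem _ _ h1
  rw [LinearMap.trace_eq_sum_trace_restrict' (internal φ) (fin_ne φ) hf]
  refine Finset.sum_congr rfl fun e _ => ?_
  have key : (fop φ w * T).restrict (hf e) =
      w e • T.restrict (φ.mapsTo_maxGenEigenspace_of_comm hT.symm e) := by
    ext ⟨x, hx⟩
    have h1 : T x ∈ φ.maxGenEigenspace e := φ.mapsTo_maxGenEigenspace_of_comm hT.symm e hx
    change fop φ w (T x) = w e • T x
    rw [fop_apply w h1]
  refine (congrArg _ key).trans ?_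
  rw [map_smul, smul_eq_mul]

lemma tr_fop (φ : Module.End K H) (w : K → K) :
    LinearMap.trace K H (fop φ w) = (φ.charpoly.roots.map w).sum := by
  classical
  have h := tr_fop_mul (Commute.one_left φ) w
  rw [mul_one] at h
  rw [h, Finset.sum_multiset_map_count]
  refine Finset.sum_congr ?_ fun e he => ?_
  · ext e
    rw [Set.Finite.mem_toFinset, Multiset.mem_toFinset, Set.mem_ofPred_eq, ne_bot_iff]
  · have : (LinearMap.restrict (1 : Module.End K H)
        (φ.mapsTo_maxGenEigenspace_of_comm (Commute.one_left φ).symm e)) = 1 := by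
      ext x; rfl
    rw [this, LinearMap.trace_one, LinearMap.finrank_maxGenEigenspace_eq,
      ← Polynomial.count_roots, nsmul_eq_mul, mul_comm]

end

end Pool.Agent.N184.HK
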