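import Mathlib
import Pool.Agent.N184.HK.Stm

/-!
# MAJ: majorization
-/

set_option autoImplicit false

namespace Pool.Agent.N184.HK

namespace P_MAJ

/-- extension by zero -/
def ext {n : ℕ} (g : Fin n → ℚ) (i : ℕ) : ℚ := if h : i < n then g ⟨i, h⟩ else 0

lemma ext_fin {n : ℕ} (g : Fin n → ℚ) (j : Fin n) : ext g j = g j := by
  unfold ext
  rw [dif_pos j.2]

lemma sum_ext {n : ℕ} (g : Fin n → ℚ) (k : ℕ) (hk : k ≤ n) :
    ∑ i ∈ Finset.range k, ext g i =
      ∑ j ∈ Finset.univ.filter (fun j : Fin n => (j : ℕ) < k), g j := by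
  rw [Finset.sum_filter]
  have h1 : ∑ j : Fin n, (if (j : ℕ) < k then g j else 0) =
      ∑ j : Fin n, (fun i : ℕ => if i < k then ext g i else 0) j := by
    refine Finset.sum_congr rfl fun j _ => ?_
    show _ = if (j : ℕ) < k then ext g j else 0
    rw [ext_fin]
  rw [h1, Fin.sum_univ_eq_sum_range (fun i : ℕ => if i < k then ext g i else 0) n,
    ← Finset.sum_filter]
  refine Finset.sum_congr ?_ fun _ _ => rfl
  ext i
  simp only [Finset.mem_range, Finset.mem_filter]
  omega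

lemma abel {n : ℕ} (a g : Fin n → ℚ) (ha : Monotone a)
    (hg : ∀ k : ℕ, ∑ j ∈ Finset.univ.filter (fun j : Fin n => (j : ℕ) < k), g j ≤ 0)
    (h0 : ∑ j, g j = 0) : 0 ≤ ∑ j, a j * g j := by
  have h1 : ∑ j, a j * g j = ∑ i ∈ Finset.range n, ext a i • ext g i := by
    rw [← Fin.sum_univ_eq_sum_range (fun i : ℕ => ext a i • ext g i) n]
    refine Finset.sum_congr rfl fun j _ => ?_
    rw [ext_fin, ext_fin, smul_eq_mul]
  have h2 : ∑ i ∈ Finset.range n, ext g i = 0 := by
    rw [sum_ext g n le_rfl, ← h0]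
    refine Finset.sum_congr ?_ fun _ _ => rfl
    ext j
    simp
  rw [h1, Finset.sum_range_by_parts, h2, smul_zero, zero_sub, neg_nonneg]
  refine Finset.sum_nonpos fun i hi => ?_
  rw [Finset.mem_range] at hi
  have hi1 : i + 1 < n := by omega
  have h3 : ∑ j ∈ Finset.range (i + 1), ext g j ≤ 0 := by
    rw [sum_ext g (i + 1) hi1.le]
    exact hg (i + 1)
  have h4 : 0 ≤ ext a (i + 1) - ext a i := by
    unfold ext
    rw [dif_pos hi1, dif_pos (by omega : i < n), sub_nonneg]
    apply ha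
    rw [Fin.le_def]
    exact Nat.le_succ i
  rw [smul_eq_mul]
  exact mul_nonpos_of_nonneg_of_nonpos h4 h3

end P_MAJ

open P_MAJ in
theorem t_maj : S_MAJ := by
  intro n a b ha hk hs
  have h1 : 0 ≤ ∑ j, a j * (b j - a j) := by
    apply abel a (fun j => b j - a j) ha
    · intro k
      rw [Finset.sum_sub_distrib]
      linarith [hk k]
    · rw [Finset.sum_sub_distrib, hs, sub_self]
  have h2 : ∑ j, (b j - a j) ^ 2 = ∑ j, b j ^ 2 - ∑ j, a j ^ 2 - 2 * ∑ j, a j * (b j - a j) := by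
    rw [Finset.mul_sum, ← Finset.sum_sub_distrib, ← Finset.sum_sub_distrib]
    refine Finset.sum_congr rfl fun j _ => ?_
    ring
  have h3 : 0 ≤ ∑ j, (b j - a j) ^ 2 := Finset.sum_nonneg fun j _ => sq_nonneg _
  refine ⟨by linarith, fun h => ?_⟩
  have h4 : ∑ j, (b j - a j) ^ 2 = 0 := by linarith
  funext j
  have h5 := (Finset.sum_eq_zero_iff_of_nonneg (fun j _ => sq_nonneg (b j - a j))).1 h4 j
    (Finset.mem_univ j)
  have h6 : b j - a j = 0 := by simpa using h5
  linarith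

end Pool.Agent.N184.HK
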