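import Pool.Agent.N184.HK.Coh
import Pool.Agent.N184.HK.P_MAJ

/-!
# Project HK: ordinary primes of hyperkähler varieties
-/

set_option autoImplicit false

namespace Pool.Agent.N184.HK

open Module

/-- The Betti cohomology with the Hodge numbers. `hs i` is the increasing list of the numbers `p`,
each with multiplicity `h^{p, i - p}` (the slopes of the Hodge polygon of `H^i`); `b i` is the Betti
number. `J` is the Hodge operator, which acts on `H^{p, q}` by `(p - q) / 2`: it is given by an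
element `J` of `so(H²)` (Verbitsky), so that `ρ i J` has the eigenvalue `p - i / 2` with multiplicity
`h^{p, i - p}`. -/
structure HodgeData (d : ℕ) (c : ℚ) (b : ℕ → ℕ) (hs : ∀ i, Fin (b i) → ℚ) where
  X : Cohomology ℂ d c
  mono : ∀ i, Monotone (hs i)
  J : Module.End ℂ (X.H 2)
  skew : Skew X.q J
  hodge : ∀ i ≤ d, (X.ρ i J).charpoly.roots =
    Finset.univ.val.map (fun j => ((hs i j - i / 2 : ℚ) : ℂ))

/-- A place of good reduction `v` of the number field, of norm `N`: the crystalline cohomology `D`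
of the reduction `X_v`, over an algebraically closed field `C`, with its (linear) Frobenius `F`,
and the `p`-adic valuation `val`, normalized by `val N = 1`. `ns i` is the increasing list of the
slopes of the Newton polygon of `H^i`: the valuations of the eigenvalues of the Frobenius. The
Newton polygon lies above the Hodge polygon and has the same end point (Mazur, Ogus). -/
structure GoodPlace (d : ℕ) (c : ℚ) (b : ℕ → ℕ) (hs : ∀ i, Fin (b i) → ℚ) where
  C : Type
  [field : Field C]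
  [closed : IsAlgClosed C]
  [char : CharZero C]
  D : Cohomology C d c
  F : D.Auto
  N : ℕ
  val : AddValuation C (WithTop ℚ)
  norm : val (N : C) = 1
  ns : ∀ i, Fin (b i) → ℚ
  mono : ∀ i, Monotone (ns i)
  slopes : ∀ i ≤ d, (F.φ i).toLinearMap.charpoly.roots.map (fun e => val e) =
    Finset.univ.val.map (fun j => ((ns i j : ℚ) : WithTop ℚ))
  above : ∀ i ≤ d, ∀ k : ℕ, ∑ j ∈ Finset.univ.filter (fun j : Fin (b i) => (j : ℕ) < k), hs i j ≤
    ∑ j ∈ Finset.univ.filter (fun j : Fin (b i) => (j : ℕ) < k), ns i j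
  ends : ∀ i ≤ d, ∑ j, ns i j = ∑ j, hs i j

attribute [instance] GoodPlace.field GoodPlace.closed GoodPlace.char

section

variable {d : ℕ} {c : ℚ} {b : ℕ → ℕ} {hs : ∀ i, Fin (b i) → ℚ}

/-- The valuation of the nonzero elements. -/
def GoodPlace.w (v : GoodPlace d c b hs) (x : v.C) : ℚ := (v.val x).untopD 0

lemma GoodPlace.coe_w (v : GoodPlace d c b hs) {x : v.C} (hx : x ≠ 0) :
    ((v.w x : ℚ) : WithTop ℚ) = v.val x := by
  have h : v.val x ≠ ⊤ := fun h => hx ((AddValuation.top_iff v.val).1 h)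
  obtain ⟨r, hr⟩ := WithTop.ne_top_iff_exists.1 h
  rw [GoodPlace.w, ← hr]
  rfl

lemma GoodPlace.w_mul (v : GoodPlace d c b hs) (x y : v.C) (hx : x ≠ 0) (hy : y ≠ 0) :
    v.w (x * y) = v.w x + v.w y := by
  have h : ((v.w (x * y) : ℚ) : WithTop ℚ) = ((v.w x + v.w y : ℚ) : WithTop ℚ) := by
    rw [WithTop.coe_add, v.coe_w hx, v.coe_w hy, v.coe_w (mul_ne_zero hx hy), v.val.map_mul]
  exact_mod_cast h

lemma GoodPlace.slopes' (v : GoodPlace d c b hs) {i : ℕ} (hi : i ≤ d) :
    (v.F.φ i).toLinearMap.charpoly.roots.map v.w = Finset.univ.val.map (v.ns i) := by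
  have h := congrArg (Multiset.map (fun x : WithTop ℚ => x.untopD 0)) (v.slopes i hi)
  rw [Multiset.map_map, Multiset.map_map] at h
  exact h

/-- The weight given by the valuation. -/
def GoodPlace.W (v : GoodPlace d c b hs) : Wt v.C where
  U x := x ≠ 0
  ne _ h := h
  mul _ _ := mul_ne_zero
  inv _ := inv_ne_zero
  w := v.w
  w_mul := v.w_mul

lemma sum_cast {K : Type} [Field K] [CharZero K] {n : ℕ} (f : Fin n → ℚ) :
    (Finset.univ.val.map (fun j => ((f j : ℚ) : K))).sum = ((∑ j, f j : ℚ) : K) := by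
  rw [Rat.cast_sum]; rfl

lemma roots_sum (v : GoodPlace d c b hs) {i : ℕ} (hi : i ≤ d) (g : ℚ → ℚ) :
    ((v.F.φ i).toLinearMap.charpoly.roots.map (fun e => ((g (v.w e) : ℚ) : v.C))).sum =
      ((∑ j, g (v.ns i j) : ℚ) : v.C) := by
  have h := congrArg (fun s => (s.map (fun x : ℚ => ((g x : ℚ) : v.C))).sum) (v.slopes' hi)
  simp only [Multiset.map_map] at h
  exact h.trans (sum_cast _)

lemma tr_roots {K M : Type} [Field K] [IsAlgClosed K] [AddCommGroup M] [Module K M]
    [FiniteDimensional K M] (T : Module.End K M) :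
    LinearMap.trace K M T = (T.charpoly.roots.map (fun x => x)).sum := by
  rw [← tr_fop]
  have h : T = fop T (fun x => x) + (T - fop T (fun x => x)) := by abel
  have h2 := congrArg (LinearMap.trace K M) h
  rw [map_add, tr_nil (nil_part T), add_zero] at h2
  exact h2

lemma hodge_sum (B : HodgeData d c b hs) {i : ℕ} (hi : i ≤ d) :
    ∑ j, (hs i j - i / 2) = 0 := by
  have h1 : LinearMap.trace ℂ (B.X.H i) (B.X.ρ i B.J * 1) = 0 :=
    tr_rho_mul B.skew fun A _ => Commute.one_right _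
  rw [mul_one, tr_roots, B.hodge i hi, Multiset.map_map] at h1
  have h2 := (sum_cast (K := ℂ) (fun j => hs i j - i / 2)).symm.trans h1
  exact_mod_cast h2

lemma hodge_sq (B : HodgeData d c b hs) {i : ℕ} (hi : i ≤ d) :
    LinearMap.trace ℂ (B.X.H i) (B.X.ρ i B.J * B.X.ρ i B.J) =
      ((∑ j, (hs i j - i / 2) * (hs i j - i / 2) : ℚ) : ℂ) := by
  rw [tr_mul_self, B.hodge i hi, Multiset.map_map, ← sum_cast]
  congr 1
  refine Multiset.map_congr rfl fun j _ => ?_
  simp

lemma hodge_total (B : HodgeData d c b hs) (h2 : 2 ≤ d) :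
    ∑ i ∈ Finset.range (d + 1), ∑ j, (hs i j - i / 2) * (hs i j - i / 2) =
      c * ∑ j, (hs 2 j - 1) * (hs 2 j - 1) := by
  have h := B.X.index' B.J B.J B.skew B.skew
  have h3 := hodge_sq B h2
  rw [B.X.ρ_two B.J B.skew] at h3
  rw [h3, Finset.sum_congr rfl fun i hi => hodge_sq B (Nat.lt_succ_iff.1 (Finset.mem_range.1 hi)),
    ← Rat.cast_sum, ← Rat.cast_mul] at h
  have h4 := Rat.cast_injective h
  rw [h4]
  norm_num

lemma root_ne' (v : GoodPlace d c b hs) (i : ℕ) :
    ∀ e ∈ (en (v.F.φ i)).charpoly.roots, v.W.U e := fun _ he => root_ne he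

lemma card_roots (v : GoodPlace d c b hs) {i : ℕ} (hi : i ≤ d) :
    Module.finrank v.C (v.D.H i) = b i := by
  have h := congrArg Multiset.card (v.slopes' hi)
  rw [Multiset.card_map, Multiset.card_map, Finset.card_val, Finset.card_univ, Fintype.card_fin,
    ← (IsAlgClosed.splits _).natDegree_eq_card_roots, LinearMap.charpoly_natDegree] at h
  exact h

lemma mu_two (B : HodgeData d c b hs) (v : GoodPlace d c b hs) (h2 : 2 ≤ d) :
    v.w v.F.μ / 2 = 1 := by
  have hs2 := skew_S2 (F := v.F) (W := v.W) (root_ne' v 2)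
  have h1 : LinearMap.trace v.C (v.D.H 2) (v.D.ρ 2 (v.F.S2 v.W) * 1) = 0 :=
    tr_rho_mul hs2 fun A _ => Commute.one_right _
  rw [mul_one, v.D.ρ_two _ hs2, Cohomology.Auto.S2, map_sub, tr_fop, map_smul,
    LinearMap.trace_one, card_roots v h2] at h1
  have h3 := roots_sum v h2 (fun x => x)
  have h4 : ((en (v.F.φ 2)).charpoly.roots.map v.W.k).sum = ((∑ j, v.ns 2 j : ℚ) : v.C) := h3
  rw [h4, smul_eq_mul] at h1
  have h5 : (∑ j, v.ns 2 j) - v.w v.F.μ / 2 * b 2 = 0 := by
    have : (((∑ j, v.ns 2 j) - v.w v.F.μ / 2 * b 2 : ℚ) : v.C) = 0 := by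
      rw [Rat.cast_sub, Rat.cast_mul, Rat.cast_natCast]
      exact h1
    exact_mod_cast this
  have h6 := hodge_sum B h2
  rw [Finset.sum_sub_distrib, Finset.sum_const, Finset.card_univ, Fintype.card_fin, nsmul_eq_mul,
    ← v.ends 2 h2] at h6
  have h7 : (3 : ℚ) ≤ b 2 := by
    have := v.D.dim3
    rw [card_roots v h2] at this
    exact_mod_cast this
  have h8 : (v.w v.F.μ / 2 - 1) * (b 2 : ℚ) = 0 := by
    push_cast at h6
    linarith
  rcases mul_eq_zero.1 h8 with h | h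
  · linarith
  · linarith

lemma newton_total (B : HodgeData d c b hs) (v : GoodPlace d c b hs) (h2 : 2 ≤ d) :
    ∃ r : ℚ, 0 ≤ r ∧ ∑ i ∈ Finset.range (d + 1), ∑ j, (v.ns i j - i / 2) * (v.ns i j - i / 2) =
      c * (∑ j, (v.ns 2 j - 1) * (v.ns 2 j - 1)) + r := by
  have hs2 := skew_S2 (F := v.F) (W := v.W) (root_ne' v 2)
  choose r hr0 hr _ using fun i : ℕ => second_T (F := v.F) (W := v.W) (root_ne' v 2) (i := i)
    (root_ne' v i) ((i : ℚ) / 2)
  refine ⟨∑ i ∈ Finset.range (d + 1), r i, Finset.sum_nonneg fun i _ => hr0 i, ?_⟩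
  have h := v.D.index' _ _ hs2 hs2
  have h3 : LinearMap.trace v.C (v.D.H 2) (v.F.S2 v.W * v.F.S2 v.W) =
      ((∑ j, (v.ns 2 j - 1) * (v.ns 2 j - 1) : ℚ) : v.C) := by
    have h4 : v.F.S2 v.W = fop (en (v.F.φ 2)) (fun e => ((v.w e - 1 : ℚ) : v.C)) := by
      have : (fun e => ((v.w e - 1 : ℚ) : v.C)) = fun e => v.W.k e - ((1 : ℚ) : v.C) := by
        ext e; rw [Rat.cast_sub]; rfl
      rw [this, fop_sub, fop_const, Cohomology.Auto.S2]
      have h5 : v.W.w v.F.μ / 2 = 1 := mu_two B v h2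
      rw [h5]
    rw [h4, fop_mul, tr_fop]
    have := roots_sum v h2 (fun x => (x - 1) * (x - 1))
    simpa only [Rat.cast_mul] using this
  rw [h3] at h
  have h6 : ∀ i ∈ Finset.range (d + 1), ((∑ j, (v.ns i j - i / 2) * (v.ns i j - i / 2) : ℚ) : v.C) =
      LinearMap.trace v.C (v.D.H i) (v.D.ρ i (v.F.S2 v.W) * v.D.ρ i (v.F.S2 v.W)) + r i := by
    intro i hi
    rw [← hr i]
    exact (roots_sum v (Nat.lt_succ_iff.1 (Finset.mem_range.1 hi))
      (fun x => (x - i / 2) * (x - i / 2))).symm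
  have h7 : ((∑ i ∈ Finset.range (d + 1), ∑ j, (v.ns i j - i / 2) * (v.ns i j - i / 2) : ℚ) : v.C) =
      ((c * (∑ j, (v.ns 2 j - 1) * (v.ns 2 j - 1)) + ∑ i ∈ Finset.range (d + 1), r i : ℚ) : v.C) := by
    rw [Rat.cast_sum, Finset.sum_congr rfl h6, Finset.sum_add_distrib, h, Rat.cast_add,
      Rat.cast_mul, Rat.cast_sum (Finset.range (d + 1))]
  exact Rat.cast_injective h7

lemma sq_expand {n : ℕ} (f : Fin n → ℚ) (κ : ℚ) :
    ∑ j, (f j - κ) * (f j - κ) = ∑ j, (f j) ^ 2 - 2 * κ * (∑ j, f j) + n * (κ * κ) := by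
  have : ∀ j, (f j - κ) * (f j - κ) = (f j) ^ 2 - 2 * κ * f j + κ * κ := fun j => by ring
  simp only [this, Finset.sum_add_distrib, Finset.sum_sub_distrib, ← Finset.mul_sum,
    Finset.sum_const, Finset.card_univ, Fintype.card_fin, nsmul_eq_mul]
  ring

/-- If the Newton polygon of `H²` is the Hodge polygon then this holds in all degrees. -/
theorem ordinary_all (B : HodgeData d c b hs) (v : GoodPlace d c b hs) (h2 : 2 ≤ d)
    (h : v.ns 2 = hs 2) {i : ℕ} (hi : i ≤ d) : v.ns i = hs i := by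
  obtain ⟨r, hr0, hr⟩ := newton_total B v h2
  have hh := hodge_total B h2
  rw [h, ← hh] at hr
  have h1 : ∀ i ∈ Finset.range (d + 1), ∑ j, (v.ns i j) ^ 2 ≤ ∑ j, (hs i j) ^ 2 := fun i hi =>
    (t_maj (b i) (v.ns i) (hs i) (v.mono i) (v.above i (Nat.lt_succ_iff.1 (Finset.mem_range.1 hi)))
      (v.ends i (Nat.lt_succ_iff.1 (Finset.mem_range.1 hi)))).1
  have h3 : ∑ i ∈ Finset.range (d + 1), ∑ j, (hs i j) ^ 2 ≤
      ∑ i ∈ Finset.range (d + 1), ∑ j, (v.ns i j) ^ 2 := by
    have h4 : ∀ i ∈ Finset.range (d + 1), ∑ j, (v.ns i j - i / 2) * (v.ns i j - i / 2) -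
        ∑ j, (hs i j - i / 2) * (hs i j - i / 2) = ∑ j, (v.ns i j) ^ 2 - ∑ j, (hs i j) ^ 2 := by
      intro i hi
      rw [sq_expand, sq_expand, v.ends i (Nat.lt_succ_iff.1 (Finset.mem_range.1 hi))]
      ring
    have h5 := Finset.sum_congr rfl h4
    rw [Finset.sum_sub_distrib, Finset.sum_sub_distrib, hr] at h5
    linarith
  have h6 := (Finset.sum_eq_sum_iff_of_le h1).1 (le_antisymm (Finset.sum_le_sum h1) h3)
  exact (t_maj (b i) (v.ns i) (hs i) (v.mono i) (v.above i hi) (v.ends i hi)).2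
    (h6 i (Finset.mem_range.2 (Nat.lt_succ_of_le hi))).ge

end

end Pool.Agent.N184.HK
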