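import Mathlib
import Pool.Agent.N184.HK.Stm

/-!
# ROOT: algebraic units with absolute values one are roots of unity of bounded order
-/

set_option autoImplicit false

open Polynomial

namespace Pool.Agent.N184.HK

namespace P_ROOT

/-- coefficients of a product of linear factors -/
theorem coeff_mem {A : Type} [Field A] (S : Subring A) (u : A) (hu : u ∈ S) (s : Multiset A)
    (hs : ∀ a ∈ s, u * a ∈ S) :
    ∀ n : ℕ, u ^ (Multiset.card s) * ((s.map fun a => X - C a).prod).coeff n ∈ S := by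
  induction s using Multiset.induction with
  | empty =>
    intro n
    rw [Multiset.map_zero, Multiset.prod_zero, Multiset.card_zero, pow_zero, one_mul, coeff_one]
    split
    · exact S.one_mem
    · exact S.zero_mem
  | cons a s ih =>
    have h1 := ih fun b hb => hs b (Multiset.mem_cons_of_mem hb)
    have h2 := hs a (Multiset.mem_cons_self a s)
    intro n
    rw [Multiset.map_cons, Multiset.prod_cons, Multiset.card_cons, sub_mul, coeff_sub, coeff_C_mul]
    have h3 : ∀ x y : A, u ^ (Multiset.card s + 1) * (x - a * y) =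
        u * (u ^ (Multiset.card s) * x) - (u * a) * (u ^ (Multiset.card s) * y) := by
      intro x y
      ring
    rw [h3]
    refine S.sub_mem (S.mul_mem hu ?_) (S.mul_mem h2 (h1 n))
    cases n with
    | zero =>
      rw [coeff_X_mul_zero, mul_zero]
      exact S.zero_mem
    | succ n =>
      rw [coeff_X_mul]
      exact h1 n

/-- the elements with nonnegative valuation -/
def nonneg {C : Type} [Field C] (v : AddValuation C (WithTop ℚ)) : Subring C where
  carrier := {x | 0 ≤ v x}
  one_mem' := by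
    change 0 ≤ v 1
    rw [v.map_one]
  mul_mem' := by
    intro a b ha hb
    change 0 ≤ v (a * b)
    rw [v.map_mul]
    exact add_nonneg ha hb
  zero_mem' := by
    change 0 ≤ v 0
    rw [v.map_zero]
    exact le_top
  add_mem' := by
    intro a b ha hb
    exact le_trans (le_min ha hb) (v.map_add a b)
  neg_mem' := by
    intro a ha
    change 0 ≤ v (-a)
    rw [v.map_neg]
    exact ha

theorem mem_nonneg {C : Type} [Field C] (v : AddValuation C (WithTop ℚ)) (x : C) :
    x ∈ nonneg v ↔ 0 ≤ v x := Iff.rfl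

theorem pos_add {a b : WithTop ℚ} (ha : 0 ≤ a) (hb : 0 < b) : 0 < a + b :=
  lt_of_lt_of_le hb (le_add_of_nonneg_left ha)

/-- a rational number with nonnegative valuation and denominator a power of `p` is an integer -/
theorem rat_int {C : Type} [Field C] [CharZero C] (p : ℕ) (hp : p.Prime)
    (v : AddValuation C (WithTop ℚ)) (hv : 0 < v (p : C)) (c : ℚ) (m : ℕ)
    (h1 : ∃ z : ℤ, (p : ℚ) ^ m * c = z) (h2 : 0 ≤ v (c : C)) : ∃ z : ℤ, (z : ℚ) = c := by
  obtain ⟨z, hz⟩ := h1
  have hp0 : (p : ℚ) ≠ 0 := by exact_mod_cast hp.ne_zero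
  have hden : c.den ∣ p ^ m := by
    have h3 : c = Rat.divInt z ((p ^ m : ℕ) : ℤ) := by
      rw [Rat.divInt_eq_div]
      push_cast
      rw [← hz]
      field_simp
    have h4 := Rat.den_dvd z ((p ^ m : ℕ) : ℤ)
    rw [← h3] at h4
    exact_mod_cast h4
  obtain ⟨j, hj, hj2⟩ := (Nat.dvd_prime_pow hp).1 hden
  by_cases hj0 : j = 0
  · refine ⟨c.num, ?_⟩
    rw [hj0, pow_zero] at hj2
    exact (Rat.den_eq_one_iff c).1 hj2
  · exfalso
    have hcop : Nat.Coprime c.num.natAbs p := by
      have h5 := c.reduced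
      rw [hj2] at h5
      exact (Nat.coprime_pow_right_iff (Nat.pos_of_ne_zero hj0) _ _).1 h5
    have hcop' : IsCoprime c.num (p : ℤ) := by
      rw [Int.isCoprime_iff_gcd_eq_one]
      exact hcop
    obtain ⟨x, y, hxy⟩ := hcop'
    have hint : ∀ w : ℤ, 0 ≤ v (w : C) := by
      intro w
      exact intCast_mem (nonneg v) w
    have hnum : 0 < v (c.num : C) := by
      have h6 : (c.num : C) = (c : C) * (p : C) ^ j := by
        have h7 : (c.num : ℚ) = c * (p : ℚ) ^ j := by
          have h8 := Rat.mul_den_eq_num c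
          rw [hj2] at h8
          push_cast at h8
          exact h8.symm
        have h9 := congrArg (fun t : ℚ => (t : C)) h7
        push_cast at h9
        exact h9
      rw [h6, v.map_mul, v.map_pow]
      obtain ⟨i, rfl⟩ : ∃ i, j = i + 1 := ⟨j - 1, by omega⟩
      rw [succ_nsmul]
      have h10 : 0 ≤ i • v (p : C) := nsmul_nonneg hv.le i
      exact pos_add h2 (pos_add h10 hv)
    have hone : (0 : WithTop ℚ) < v (1 : C) := by
      have h11 : (1 : C) = (x : C) * (c.num : C) + (y : C) * (p : C) := by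
        have := congrArg (fun t : ℤ => (t : C)) hxy
        push_cast at this
        exact this.symm
      rw [h11]
      refine lt_of_lt_of_le (lt_min ?_ ?_) (v.map_add _ _)
      · rw [v.map_mul]
        exact pos_add (hint x) hnum
      · rw [v.map_mul]
        exact pos_add (hint y) hv
    rw [v.map_one] at hone
    exact lt_irrefl _ hone

/-- (1) integrality -/
theorem integral (Q C : Type) [Field Q] [CharZero Q] [IsAlgClosed Q]
    [Algebra.IsAlgebraic ℚ Q] [Field C] [CharZero C] [IsAlgClosed C] (p : ℕ) (hp : p.Prime)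
    (v : AddValuation C (WithTop ℚ)) (hv : 0 < v (p : C)) (θ : Q)
    (h2 : ∃ k : ℕ, IsIntegral ℤ ((p : Q) ^ k * θ)) (h3 : ∀ ι : Q →+* C, 0 ≤ v (ι θ)) :
    IsIntegral ℤ θ := by
  obtain ⟨k, hk⟩ := h2
  have hint : IsIntegral ℚ θ := Algebra.IsIntegral.isIntegral θ
  obtain ⟨P, hP⟩ : ∃ P : ℚ[X], P = minpoly ℚ θ := ⟨_, rfl⟩
  have hmon : P.Monic := by rw [hP]; exact minpoly.monic hint
  -- in `C`
  have hC : ∀ n, 0 ≤ v ((P.coeff n : ℚ) : C) := by
    intro n
    have h4 := IsAlgClosed.splits (P.map (algebraMap ℚ C))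
    have h5 := h4.eq_prod_roots
    rw [(hmon.map _).leadingCoeff, C_1, one_mul] at h5
    have h6 := coeff_mem (nonneg v) 1 (nonneg v).one_mem (P.map (algebraMap ℚ C)).roots (by
      intro a ha
      rw [one_mul, mem_nonneg]
      have h7 : a ∈ (minpoly ℚ θ).rootSet C := by
        rw [Polynomial.mem_rootSet', ← hP]
        have h8 := (Polynomial.mem_roots'.1 ha)
        refine ⟨h8.1, ?_⟩
        rw [aeval_def, ← eval_map]
        exact h8.2
      rw [← Algebra.IsAlgebraic.range_eval_eq_rootSet_minpoly] at h7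
      obtain ⟨ψ, hψ⟩ := h7
      have h9 := h3 (ψ : Q →+* C)
      have h10 : (ψ : Q →+* C) θ = a := hψ
      rwa [h10] at h9) n
    rw [one_pow, one_mul, ← h5, coeff_map, mem_nonneg] at h6
    simpa using h6
  -- in `Q`
  have hQ : ∀ n, ∃ z : ℤ, (p : ℚ) ^ (k * Multiset.card (P.map (algebraMap ℚ Q)).roots) *
      P.coeff n = z := by
    intro n
    have h4 := IsAlgClosed.splits (P.map (algebraMap ℚ Q))
    have h5 := h4.eq_prod_roots
    rw [(hmon.map _).leadingCoeff, C_1, one_mul] at h5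
    have hpk : IsIntegral ℤ ((p : Q) ^ k) := by
      have : (p : Q) ^ k = algebraMap ℤ Q ((p : ℤ) ^ k) := by simp
      rw [this]
      exact isIntegral_algebraMap
    have h6 := coeff_mem (integralClosure ℤ Q).toSubring ((p : Q) ^ k) hpk
      (P.map (algebraMap ℚ Q)).roots (by
      intro a ha
      have h7 : a ∈ (minpoly ℚ θ).rootSet Q := by
        rw [Polynomial.mem_rootSet', ← hP]
        have h8 := (Polynomial.mem_roots'.1 ha)
        refine ⟨h8.1, ?_⟩
        rw [aeval_def, ← eval_map]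
        exact h8.2
      rw [← Algebra.IsAlgebraic.range_eval_eq_rootSet_minpoly] at h7
      obtain ⟨ψ, hψ⟩ := h7
      have h10 : ψ θ = a := hψ
      have h11 := hk.map (ψ.toRingHom.toIntAlgHom)
      have h12 : ψ.toRingHom.toIntAlgHom ((p : Q) ^ k * θ) = (p : Q) ^ k * a := by
        change ψ ((p : Q) ^ k * θ) = _
        rw [map_mul, map_pow, map_natCast, h10]
      rw [h12] at h11
      exact h11) n
    rw [← h5, coeff_map, ← pow_mul] at h6
    have h13 : (p : Q) ^ (k * Multiset.card (P.map (algebraMap ℚ Q)).roots) *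
        algebraMap ℚ Q (P.coeff n) = algebraMap ℚ Q ((p : ℚ) ^ (k *
          Multiset.card (P.map (algebraMap ℚ Q)).roots) * P.coeff n) := by
      rw [map_mul, map_pow, map_natCast]
    rw [h13] at h6
    have h14 : IsIntegral ℤ (algebraMap ℚ Q ((p : ℚ) ^ (k *
          Multiset.card (P.map (algebraMap ℚ Q)).roots) * P.coeff n)) := h6
    have h15 := (isIntegral_algebraMap_iff (R := ℤ) (algebraMap ℚ Q).injective).1 h14
    obtain ⟨z, hz⟩ := IsIntegrallyClosed.isIntegral_iff.1 h15
    exact ⟨z, by rw [← hz]; simp⟩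
  -- the coefficients are integers
  have hcoef : ∀ n, ∃ z : ℤ, (z : ℚ) = P.coeff n := fun n =>
    rat_int p hp v hv _ _ (hQ n) (hC n)
  have hlift : P ∈ lifts (Int.castRingHom ℚ) := by
    rw [lifts_iff_coeff_lifts]
    intro n
    obtain ⟨z, hz⟩ := hcoef n
    exact ⟨z, by simpa using hz⟩
  obtain ⟨P', hP', _, hm'⟩ := lifts_and_natDegree_eq_and_monic hlift hmon
  refine ⟨P', hm', ?_⟩
  have h16 : aeval θ P = 0 := by rw [hP]; exact minpoly.aeval ℚ θ
  rw [← hP', aeval_def, eval₂_map] at h16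
  have h17 : (algebraMap ℚ Q).comp (Int.castRingHom ℚ) = algebraMap ℤ Q := RingHom.ext_int _ _
  rw [h17] at h16
  exact h16

/-- (2) Kronecker -/
theorem kronecker (Q : Type) [Field Q] [CharZero Q] [Algebra.IsAlgebraic ℚ Q] (θ : Q)
    (hθ : IsIntegral ℤ θ) (h1 : ∀ τ : Q →+* ℂ, ‖τ θ‖ = 1) : ∃ n : ℕ, 0 < n ∧ θ ^ n = 1 := by
  have hint : IsIntegral ℚ θ := Algebra.IsIntegral.isIntegral θ
  have : FiniteDimensional ℚ (IntermediateField.adjoin ℚ {θ}) :=
    IntermediateField.adjoin.finiteDimensional hint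
  have : NumberField (IntermediateField.adjoin ℚ {θ}) :=
    { to_charZero := inferInstance, to_finiteDimensional := inferInstance }
  obtain ⟨x, hx⟩ : ∃ x : IntermediateField.adjoin ℚ {θ}, (x : Q) = θ :=
    ⟨IntermediateField.AdjoinSimple.gen ℚ θ, IntermediateField.AdjoinSimple.coe_gen ℚ θ⟩
  have hxi : IsIntegral ℤ x := by
    have h2 : IsIntegral ℤ (algebraMap (IntermediateField.adjoin ℚ {θ}) Q x) := by
      change IsIntegral ℤ (x : Q)
      rw [hx]
      exact hθ
    exact (isIntegral_algebraMap_iff (R := ℤ) (algebraMap (IntermediateField.adjoin ℚ {θ}) Q).injective).1 h2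
  have hmin : minpoly ℚ x = minpoly ℚ θ := by
    have h := minpoly.algebraMap_eq (A := ℚ)
      (algebraMap (IntermediateField.adjoin ℚ {θ}) Q).injective x
    have h' : algebraMap (IntermediateField.adjoin ℚ {θ}) Q x = θ := hx
    rw [h'] at h
    exact h.symm
  obtain ⟨n, hn, hxn⟩ := NumberField.Embeddings.pow_eq_one_of_norm_eq_one
    (IntermediateField.adjoin ℚ {θ}) ℂ hxi (by
    intro φ
    have h3 : φ x ∈ (minpoly ℚ θ).rootSet ℂ := by
      rw [← hmin, ← Algebra.IsAlgebraic.range_eval_eq_rootSet_minpoly]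
      exact ⟨φ.toRatAlgHom, rfl⟩
    rw [← Algebra.IsAlgebraic.range_eval_eq_rootSet_minpoly] at h3
    obtain ⟨ψ, hψ⟩ := h3
    rw [← show ψ θ = φ x from hψ]
    exact h1 (ψ : Q →+* ℂ))
  refine ⟨n, hn, ?_⟩
  rw [← hx]
  have := congrArg (fun t : IntermediateField.adjoin ℚ {θ} => (t : Q)) hxn
  simpa using this

/-- (3) the order -/
theorem dvd_fact (n B : ℕ) (hn : 0 < n) (hB : n.totient ≤ B) : n ∣ (2 * B).factorial := by
  rw [Nat.dvd_iff_prime_pow_dvd_dvd]
  intro l k hl hk
  cases k with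
  | zero => simp
  | succ k =>
    refine Nat.dvd_factorial (pow_pos hl.pos _) ?_
    have h1 : (l ^ (k + 1)).totient ∣ n.totient := Nat.totient_dvd_of_dvd hk
    have h2 := Nat.le_of_dvd (Nat.totient_pos.2 hn) h1
    rw [Nat.totient_prime_pow_succ hl] at h2
    have h3 : l ≤ 2 * (l - 1) := by
      have := hl.two_le
      omega
    calc l ^ (k + 1) = l ^ k * l := pow_succ _ _
      _ ≤ l ^ k * (2 * (l - 1)) := Nat.mul_le_mul_left _ h3
      _ = 2 * (l ^ k * (l - 1)) := by ring
      _ ≤ 2 * B := Nat.mul_le_mul_left _ (h2.trans hB)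

end P_ROOT

/-- **ROOT.** -/
theorem t_root : S_ROOT := by
  intro Q C _ _ _ _ _ _ _ p hp v hv θ h1 h2 h3 B hB
  have hθ := P_ROOT.integral Q C p hp v hv θ h2 h3
  obtain ⟨m, hm, hθm⟩ := P_ROOT.kronecker Q θ hθ h1
  have hfin : IsOfFinOrder θ := isOfFinOrder_iff_pow_eq_one.2 ⟨m, hm, hθm⟩
  obtain ⟨n, hn⟩ : ∃ n, n = orderOf θ := ⟨_, rfl⟩
  have hn0 : 0 < n := by rw [hn]; exact hfin.orderOf_pos
  have hprim : IsPrimitiveRoot θ n := by rw [hn]; exact IsPrimitiveRoot.orderOf θ
  have h4 := cyclotomic_eq_minpoly_rat hprim hn0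
  have h5 : n.totient ≤ B := by
    rw [← natDegree_cyclotomic n ℚ, h4]
    exact hB
  obtain ⟨c, hc⟩ := P_ROOT.dvd_fact n B hn0 h5
  rw [hc, pow_mul, hprim.pow_eq_one, one_pow]

end Pool.Agent.N184.HK
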