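import Pool.Agent.N184.HK.Cnj
import Pool.Agent.N184.HK.P_ROOT

/-!
# Project HK (helper184): statements of the leaves, second part
-/

set_option autoImplicit false

namespace Pool.Agent.N184.HK

open Module Polynomial

/-- QU: an endomorphism all of whose eigenvalues are roots of unity. -/
def S_QU : Prop := ∀ (K A : Type) [Field K] [IsAlgClosed K] [AddCommGroup A] [Module K A]
    [FiniteDimensional K A] (f : Module.End K A) (M : ℕ),
    (∀ t : K, f.HasEigenvalue t → t ^ M = 1) → (f ^ M - 1) ^ (finrank K A) = 0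

/-- REC: the functional equation. -/
def S_REC : Prop := ∀ (Q : Type) [Field Q] [CharZero Q] [Algebra.IsAlgebraic ℚ Q] (p i : ℕ),
    0 < p → ∀ P : ℤ[X], P.Monic →
    (∀ z ∈ (P.map (Int.castRingHom ℂ)).roots, ‖z‖ ^ 2 = (p : ℝ) ^ i) →
    ∀ y ∈ (P.map (Int.castRingHom Q)).roots, (p : Q) ^ i / y ∈ (P.map (Int.castRingHom Q)).roots

/-- ARITH: products of Frobenius eigenvalues with trivial valuations are roots of unity up to a power
of `p`. -/
def S_ARITH : Prop := ∀ (Q C : Type) [Field Q] [CharZero Q] [IsAlgClosed Q]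
    [Algebra.IsAlgebraic ℚ Q] [Field C] [CharZero C] [IsAlgClosed C] (p : ℕ), p.Prime →
    ∀ (v : AddValuation C (WithTop ℚ)), 0 < v (p : C) → ∀ (i : ℕ) (P : ℤ[X]), P.Monic →
    (∀ z ∈ (P.map (Int.castRingHom ℂ)).roots, ‖z‖ ^ 2 = (p : ℝ) ^ i) →
    ∀ s : Multiset Q, (∀ y ∈ s, y ∈ (P.map (Int.castRingHom Q)).roots) →
    ∀ m : ℕ, 2 * m = i * Multiset.card s →
    (∀ ι : Q →+* C, 0 ≤ v (ι (s.prod / (p : Q) ^ m))) →
    (s.prod / (p : Q) ^ m) ^ (2 * P.natDegree ^ (Multiset.card s)).factorial = 1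

/-- The coefficients of `g σ` are continuous functions. -/
def Cts {K H Γ : Type} [Field K] [TopologicalSpace K] [AddCommGroup H] [Module K H]
    [TopologicalSpace Γ] (g : Γ → Module.End K H) : Prop :=
  ∀ L : Module.End K H →ₗ[K] K, Continuous fun σ => L (g σ)

/-- CTS: products and determinants are continuous. -/
def S_CTS : Prop := ∀ (K H Γ : Type) [Field K] [TopologicalSpace K] [IsTopologicalRing K]
    [AddCommGroup H] [Module K H] [FiniteDimensional K H] [TopologicalSpace Γ]
    (g h : Γ → Module.End K H), Cts g → Cts h → Cts (fun σ => g σ * h σ) ∧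
    Continuous fun σ => LinearMap.det (g σ)

/-- OPEN: the stabilizer of an idempotent which commutes with its conjugates is open. -/
def S_OPEN : Prop := ∀ (K H Γ : Type) [Field K] [CharZero K] [TopologicalSpace K]
    [IsTopologicalRing K] [T2Space K] [AddCommGroup H] [Module K H] [FiniteDimensional K H]
    [Group Γ] [TopologicalSpace Γ] [IsTopologicalGroup Γ] (φ : Γ → (H ≃ₗ[K] H)),
    (∀ σ τ, φ (σ * τ) = (φ τ).trans (φ σ)) → Cts (fun σ => en (φ σ)) →
    ∀ z : Module.End K H, z * z = z → (∀ σ, Commute z (adE (φ σ) z)) →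
    ∃ O : Set Γ, IsOpen O ∧ 1 ∈ O ∧ ∀ σ ∈ O, adE (φ σ) z = z

/-- DETP: determinant and eigenvalues on the image of an idempotent. -/
def S_DETP : Prop := ∀ (K H : Type) [Field K] [CharZero K] [IsAlgClosed K] [AddCommGroup H]
    [Module K H] [FiniteDimensional K H] (φ z : Module.End K H), Commute φ z → z * z = z →
    ∃ s : Multiset K, (∀ e ∈ s, e ∈ φ.charpoly.roots) ∧
      LinearMap.trace K H z = (Multiset.card s : K) ∧
      LinearMap.det (φ * z + (1 - z)) = s.prod ∧
      ∀ w : K → K, LinearMap.trace K H (fop φ w * z) = (s.map w).sum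

/-- WSP: generalized eigenspaces do not change when a commuting nilpotent operator is added. -/
def S_WSP : Prop := ∀ (K H : Type) [Field K] [AddCommGroup H] [Module K H]
    [FiniteDimensional K H] (R T : Module.End K H), Commute R T → IsNilpotent T →
    ∀ x : K, (R + T).maxGenEigenspace x = R.maxGenEigenspace x

/-- FOPE: eigenspaces of `fop φ w`. -/
def S_FOPE : Prop := ∀ (K H : Type) [Field K] [IsAlgClosed K] [AddCommGroup H] [Module K H]
    [FiniteDimensional K H] (φ : Module.End K H) (w : K → K),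
    (∀ x : K, (fop φ w).eigenspace x = ⨆ e ∈ {e | w e = x}, φ.maxGenEigenspace e) ∧
    (∀ x : K, (fop φ w).maxGenEigenspace x = (fop φ w).eigenspace x) ∧
    ((∀ e ∈ φ.charpoly.roots, ∃ j : ℤ, w e = (j : K)) →
      (⨆ j : ℤ, (fop φ w).eigenspace (j : K)) = ⊤)

end Pool.Agent.N184.HK
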