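import Mathlib
import Pool.Agent.N184.HK.Stm2

/-!
# Project HK (helper184), part ARITH: products of Frobenius eigenvalues
-/

set_option autoImplicit false

namespace Pool.Agent.N184.HK

open Module Polynomial

namespace P_ARITH

theorem root_map {Q R : Type} [Field Q] [Field R] [CharZero R] {P : ℤ[X]} (hP : P.Monic)
    (τ : Q →+* R) {y : Q} (hy : y ∈ (P.map (Int.castRingHom Q)).roots) :
    τ y ∈ (P.map (Int.castRingHom R)).roots := by
  rw [mem_roots (hP.map _).ne_zero, IsRoot.def, eval_map] at hy ⊢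
  have h := congrArg τ hy
  rw [map_zero, hom_eval₂] at h
  rw [← h]
  congr 1
  exact RingHom.ext_int _ _

theorem exists_field {Q : Type} [Field Q] [CharZero Q] {P : ℤ[X]} (hP : P.Monic)
    (s : Multiset Q) (hs : ∀ y ∈ s, y ∈ (P.map (Int.castRingHom Q)).roots) :
    ∃ E : IntermediateField ℚ Q, FiniteDimensional ℚ E ∧
      finrank ℚ E ≤ P.natDegree ^ (Multiset.card s) ∧ s.prod ∈ E := by
  induction s using Multiset.induction_on with
  | empty =>
    refine ⟨⊥, inferInstance, ?_, ?_⟩
    · rw [IntermediateField.finrank_bot]; simp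
    · rw [Multiset.prod_zero]; exact one_mem _
  | cons y s ih =>
    obtain ⟨E, hE1, hE2, hE3⟩ := ih (fun z hz => hs z (Multiset.mem_cons_of_mem hz))
    have hy := hs y (Multiset.mem_cons_self y s)
    rw [mem_roots (hP.map _).ne_zero, IsRoot.def, eval_map] at hy
    have hPQ : aeval y (P.map (Int.castRingHom ℚ)) = 0 := by
      rw [aeval_def, eval₂_map]
      rw [← hy]
      congr 1
      exact RingHom.ext_int _ _
    have hint : IsIntegral ℚ y := ⟨P.map (Int.castRingHom ℚ), hP.map _, hPQ⟩
    have hdeg : finrank ℚ (IntermediateField.adjoin ℚ {y}) ≤ P.natDegree := by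
      rw [IntermediateField.adjoin.finrank hint]
      have h1 := natDegree_le_of_dvd (minpoly.dvd ℚ y hPQ) (hP.map _).ne_zero
      rwa [hP.natDegree_map] at h1
    have : FiniteDimensional ℚ (IntermediateField.adjoin ℚ {y}) :=
      IntermediateField.adjoin.finiteDimensional hint
    refine ⟨IntermediateField.adjoin ℚ {y} ⊔ E, inferInstance, ?_, ?_⟩
    · rw [Multiset.card_cons, pow_succ']
      exact (IntermediateField.finrank_sup_le _ _).trans (Nat.mul_le_mul hdeg hE2)
    · rw [Multiset.prod_cons]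
      exact mul_mem (SetLike.le_def.mp le_sup_left
        (IntermediateField.mem_adjoin_simple_self ℚ y)) (SetLike.le_def.mp le_sup_right hE3)

theorem norm_prod {Q : Type} [Field Q] (τ : Q →+* ℂ) (c : ℝ) (s : Multiset Q)
    (hs : ∀ y ∈ s, ‖τ y‖ ^ 2 = c) : ‖τ s.prod‖ ^ 2 = c ^ Multiset.card s := by
  induction s using Multiset.induction_on with
  | empty => simp
  | cons y s ih =>
    rw [Multiset.prod_cons, map_mul, norm_mul, mul_pow, hs y (Multiset.mem_cons_self y s),
      ih (fun z hz => hs z (Multiset.mem_cons_of_mem hz)), Multiset.card_cons, pow_succ']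

end P_ARITH

/-- ARITH: products of Frobenius eigenvalues with trivial valuations are roots of unity up to a
power of `p`. -/
theorem t_arith : S_ARITH := by
  intro Q C _ _ _ _ _ _ _ p hp v hv i P hP hroots s hs m hm hι
  have hp0 : (p : Q) ≠ 0 := Nat.cast_ne_zero.mpr hp.ne_zero
  refine t_root Q C p hp v hv _ ?_ ⟨m, ?_⟩ hι _ ?_
  · intro τ
    have h1 := P_ARITH.norm_prod τ ((p : ℝ) ^ i) s
      (fun y hy => hroots _ (P_ARITH.root_map hP τ (hs y hy)))
    have hpR : (0 : ℝ) < p := by exact_mod_cast hp.pos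
    have h2 : ‖τ (s.prod / (p : Q) ^ m)‖ ^ 2 = 1 := by
      rw [map_div₀, map_pow, map_natCast, norm_div, norm_pow, div_pow, h1, Complex.norm_natCast,
        ← pow_mul, ← pow_mul, ← hm, mul_comm m 2, div_self]
      positivity
    exact (pow_eq_one_iff_of_nonneg (norm_nonneg _) two_ne_zero).mp h2
  · rw [mul_div_cancel₀ _ (pow_ne_zero m hp0)]
    refine IsIntegral.multiset_prod (fun y hy => ?_)
    have h := hs y hy
    rw [mem_roots (hP.map _).ne_zero, IsRoot.def, eval_map] at h
    exact ⟨P, hP, h⟩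
  · obtain ⟨E, hE1, hE2, hE3⟩ := P_ARITH.exists_field hP s hs
    have hθ : s.prod / (p : Q) ^ m ∈ E := div_mem hE3 (pow_mem (natCast_mem E p) m)
    have e := IntermediateField.minpoly_eq (K := ℚ) (S := E) (⟨_, hθ⟩ : E)
    have h1 : (minpoly ℚ (s.prod / (p : Q) ^ m)).natDegree ≤ finrank ℚ E := by
      have e' : minpoly ℚ (s.prod / (p : Q) ^ m) = _ := e.symm
      rw [e']
      exact minpoly.natDegree_le _
    exact h1.trans hE2

end Pool.Agent.N184.HK
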