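import Pool.Agent.N184.HK.Stm

/-!
# Project HK (helper184): statements of the leaves, fifth part (semisimplicity)
-/

set_option autoImplicit false

namespace Pool.Agent.N184.HK

open Module

/-- The set `S` of operators on `V` acts semisimply: every stable subspace has a stable
complement. -/
def SSet {K V : Type} [Field K] [AddCommGroup V] [Module K V] (S : Set (Module.End K V)) : Prop :=
  ∀ W : Submodule K V, (∀ f ∈ S, ∀ x ∈ W, f x ∈ W) →
    ∃ W' : Submodule K V, (∀ f ∈ S, ∀ x ∈ W', f x ∈ W') ∧ IsCompl W W'

/-- KOL (Kolchin): a semigroup of unipotent operators has a common fixed vector. -/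
def S_KOL : Prop := ∀ (K V : Type) [Field K] [CharZero K] [IsAlgClosed K] [AddCommGroup V]
    [Module K V] [FiniteDimensional K V] [Nontrivial V] (S : Set (Module.End K V)),
    (∀ f ∈ S, ∀ g ∈ S, f * g ∈ S) → (∀ f ∈ S, IsNilpotent (f - 1)) →
    ∃ x : V, x ≠ 0 ∧ ∀ f ∈ S, f x = x

/-- UNI: a unipotent continuous representation of `G` which is trivial on `I` is trivial if there are
no nonzero continuous homomorphisms from `G` to `K` which vanish on `I`. -/
def S_UNI : Prop := ∀ (K V : Type) [Field K] [CharZero K] [IsAlgClosed K] [AddCommGroup V]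
    [Module K V] [FiniteDimensional K V] [TopologicalSpace K] [IsTopologicalRing K]
    (G : Type) [Group G] [TopologicalSpace G] (I : Set G) (r : G → Module.End K V),
    (∀ σ τ, r (σ * τ) = r σ * r τ) → (∀ σ, IsNilpotent (r σ - 1)) →
    (∀ (L : Module.Dual K V) (x : V), Continuous fun σ => L (r σ x)) → (∀ σ ∈ I, r σ = 1) →
    (∀ χ : G → K, Continuous χ → (∀ σ τ, χ (σ * τ) = χ σ + χ τ) → (∀ σ ∈ I, χ σ = 0) →
      ∀ σ, χ σ = 0) → ∀ σ, r σ = 1

/-- BURN (Burnside): an irreducible set of operators generates the algebra of all operators. -/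
def S_BURN : Prop := ∀ (K V : Type) [Field K] [IsAlgClosed K] [AddCommGroup V] [Module K V]
    [FiniteDimensional K V] [Nontrivial V] (S : Set (Module.End K V)),
    (∀ W : Submodule K V, (∀ f ∈ S, ∀ x ∈ W, f x ∈ W) → W = ⊥ ∨ W = ⊤) →
    Algebra.adjoin K S = ⊤

/-- SERRE: if the action by conjugation on `End V` is semisimple then `V` is semisimple. -/
def S_SERRE : Prop := ∀ (K V G : Type) [Field K] [CharZero K] [AddCommGroup V] [Module K V]
    [FiniteDimensional K V] (φ : G → (V ≃ₗ[K] V)),
    SSet (Set.range fun g => (((φ g).conj : Module.End K V ≃ₗ[K] Module.End K V) :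
      Module.End K V →ₗ[K] Module.End K V)) →
    SSet (Set.range fun g => (φ g : V →ₗ[K] V))

/-- IMG: an equivariant image of a semisimple representation is semisimple. -/
def S_IMG : Prop := ∀ (K V W G : Type) [Field K] [AddCommGroup V] [Module K V] [AddCommGroup W]
    [Module K W] (a : G → Module.End K V) (b : G → Module.End K W) (f : V →ₗ[K] W),
    Function.Surjective f → (∀ g x, f (a g x) = b g (f x)) → SSet (Set.range a) →
    SSet (Set.range b)

/-- SUM: a sum of semisimple subrepresentations is semisimple. -/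
def S_SUM : Prop := ∀ (K V G ι : Type) [Field K] [AddCommGroup V] [Module K V]
    [FiniteDimensional K V] (a : G → Module.End K V) (W : ι → Submodule K V)
    (h : ∀ i g, ∀ x ∈ W i, a g x ∈ W i),
    (∀ i, SSet (Set.range fun g => (a g).restrict (h i g))) → (⨆ i, W i) = ⊤ →
    SSet (Set.range a)

/-- FIX: semisimplicity can be checked on a subgroup of finite index. -/
def S_FIX : Prop := ∀ (K V G : Type) [Field K] [CharZero K] [AddCommGroup V] [Module K V]
    [FiniteDimensional K V] [Group G] (U : Subgroup G) [U.FiniteIndex] (r : G → Module.End K V),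
    r 1 = 1 → (∀ σ τ, r (σ * τ) = r σ * r τ) → SSet (r '' (U : Set G)) → SSet (Set.range r)

/-- TEN: the action by conjugation on the algebra generated by the `ρ A`, for `A` in `E`, is
semisimple if the action on all tensor powers of `E` is semisimple. -/
def S_TEN : Prop := ∀ (K E H G : Type) [Field K] [AddCommGroup E] [Module K E]
    [FiniteDimensional K E] [AddCommGroup H] [Module K H] [FiniteDimensional K H]
    (a : G → Module.End K E) (φ : G → (H ≃ₗ[K] H)) (ρ : E →ₗ[K] Module.End K H),
    (∀ g A, (φ g).conj (ρ A) = ρ (a g A)) →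
    (∀ n : ℕ, SSet (Set.range fun g => PiTensorProduct.map (R := K) (s := fun _ : Fin n => E)
      (t := fun _ : Fin n => E) (fun _ => a g))) →
    ∀ h : ∀ g, ∀ x ∈ Subalgebra.toSubmodule (Algebra.adjoin K (Set.range ρ)),
      ((φ g).conj : Module.End K (Module.End K H)) x ∈
        Subalgebra.toSubmodule (Algebra.adjoin K (Set.range ρ)),
    SSet (Set.range fun g =>
      LinearMap.restrict (((φ g).conj : Module.End K (Module.End K H))) (h g))

/-- WEYL: representations of `so(V, q)`, `dim V ≥ 3`, are semisimple. -/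
def S_WEYL : Prop := ∀ (K V H : Type) [Field K] [CharZero K] [IsAlgClosed K] [AddCommGroup V]
    [Module K V] [FiniteDimensional K V] [AddCommGroup H] [Module K H] [FiniteDimensional K H]
    (q : LinearMap.BilinForm K V), q.IsSymm → q.Nondegenerate → 3 ≤ Module.finrank K V →
    ∀ ρ : Module.End K V →ₗ[K] Module.End K H,
    (∀ A B, Skew q A → Skew q B → ρ (A * B - B * A) = ρ A * ρ B - ρ B * ρ A) →
    SSet {f | ∃ A, Skew q A ∧ f = ρ A}

/-- FUN: the set where a continuous representation with eigenvalues roots of unity of bounded order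
is unipotent contains an open subgroup. -/
def S_FUN : Prop := ∀ (K V : Type) [Field K] [CharZero K] [IsAlgClosed K] [AddCommGroup V]
    [Module K V] [FiniteDimensional K V] [TopologicalSpace K] [IsTopologicalRing K] [T2Space K]
    (G : Type) [Group G] [TopologicalSpace G] [IsTopologicalGroup G] (r : G → Module.End K V)
    (M m : ℕ), 0 < M →
    (∀ O : Set G, IsOpen O → (1 : G) ∈ O → ∃ U : Subgroup G, IsOpen (U : Set G) ∧
      (U : Set G) ⊆ O) →
    r 1 = 1 → (∀ (L : Module.Dual K V) (x : V), Continuous fun σ => L (r σ x)) →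
    (∀ σ, (r σ ^ M - 1) ^ m = 0) →
    ∃ U : Subgroup G, IsOpen (U : Set G) ∧ ∀ σ ∈ U, IsNilpotent (r σ - 1)

/-- UNF: a unipotent operator of finite order is trivial. -/
def S_UNF : Prop := ∀ (K V : Type) [Field K] [CharZero K] [AddCommGroup V] [Module K V]
    (f : Module.End K V) (k : ℕ), 0 < k → IsNilpotent (f - 1) → f ^ k = 1 → f = 1

/-- BAS: open subgroups form a basis of neighbourhoods of one in the Galois group. -/
def S_BAS : Prop := ∀ (K : Type) [Field K] (O : Set (Gal(AlgebraicClosure K/K))), IsOpen O →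
    1 ∈ O → ∃ U : Subgroup (Gal(AlgebraicClosure K/K)),
      IsOpen (U : Set (Gal(AlgebraicClosure K/K))) ∧
      (U : Set (Gal(AlgebraicClosure K/K))) ⊆ O

/-- OFI: open subgroups of the Galois group have finite index. -/
def S_OFI : Prop := ∀ (K : Type) [Field K] (U : Subgroup (Gal(AlgebraicClosure K/K))),
    IsOpen (U : Set (Gal(AlgebraicClosure K/K))) → U.FiniteIndex

end Pool.Agent.N184.HK
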