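import Mathlib
import Pool.Agent.N184.HK.Stm5

/-!
# Project HK (helper184): BURN, Burnside's theorem (helper291)
-/

set_option autoImplicit false

namespace Pool.Agent.N184.HK

open Module

namespace P_BURN

variable {K V : Type} [Field K] [AddCommGroup V] [Module K V]

/-- `V` is a simple module over the algebra generated by an irreducible set. -/
theorem simple [Nontrivial V] (S : Set (Module.End K V))
    (hS : ∀ W : Submodule K V, (∀ f ∈ S, ∀ x ∈ W, f x ∈ W) → W = ⊥ ∨ W = ⊤) :
    IsSimpleModule (Algebra.adjoin K S) V := by
  have : Nontrivial (Submodule (Algebra.adjoin K S) V) :=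
    (Submodule.nontrivial_iff (Algebra.adjoin K S)).2 inferInstance
  rw [isSimpleModule_iff]
  refine ⟨fun W => ?_⟩
  have h := hS (W.restrictScalars K) (fun f hf x hx => by
    have := W.smul_mem (⟨f, Algebra.subset_adjoin hf⟩ : Algebra.adjoin K S) hx
    exact this)
  rcases h with h | h
  · left
    exact (Submodule.restrictScalars_eq_bot_iff K (Algebra.adjoin K S) V).1 h
  · right
    exact (Submodule.restrictScalars_eq_top_iff K (Algebra.adjoin K S) V).1 h

end P_BURN

theorem t_burn : S_BURN := by
  intro K V _ _ _ _ _ _ S hS
  have := P_BURN.simple S hS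
  rw [eq_top_iff]
  intro f _
  have hb := IsSimpleModule.algebraMap_end_bijective_of_isAlgClosed (A := Algebra.adjoin K S)
    (V := V) K
  -- `f` commutes with the endomorphisms of the module
  let F : Module.End (Module.End (Algebra.adjoin K S) V) V :=
    { toFun := fun x => f x
      map_add' := fun x y => f.map_add x y
      map_smul' := fun g x => by
        obtain ⟨c, rfl⟩ := hb.2 g
        simp }
  obtain ⟨s, hs⟩ := Module.Finite.fg_top (R := K) (M := V)
  obtain ⟨r, hr⟩ := jacobson_density F s
  have h2 : f = (r : Module.End K V) := by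
    refine LinearMap.ext_on hs ?_
    intro x hx
    exact hr x hx
  rw [h2]
  exact r.2

end Pool.Agent.N184.HK
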