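import Pool.Agent.N184.HK.Stm5

/-!
# Project HK (helper184): statements of the leaves, sixth part (semisimplicity)
-/

set_option autoImplicit false

namespace Pool.Agent.N184.HK

open Module

/-- CLI (Clifford): the restriction of a semisimple representation to a normal subgroup is
semisimple. -/
def S_CLI : Prop := ∀ (K V G : Type) [Field K] [AddCommGroup V] [Module K V]
    [FiniteDimensional K V] [Group G] (N : Subgroup G) [N.Normal] (r : G → Module.End K V),
    r 1 = 1 → (∀ σ τ, r (σ * τ) = r σ * r τ) → SSet (Set.range r) → SSet (r '' (N : Set G))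

/-- NRM: an open subgroup of the Galois group contains an open normal subgroup. -/
def S_NRM : Prop := ∀ (K : Type) [Field K] (U : Subgroup (Gal(AlgebraicClosure K/K))),
    IsOpen (U : Set (Gal(AlgebraicClosure K/K))) →
    ∃ N : Subgroup (Gal(AlgebraicClosure K/K)), N.Normal ∧ N ≤ U ∧
      IsOpen (N : Set (Gal(AlgebraicClosure K/K)))

/-- SEMI: a group which acts by operators in the bicommutant of a semisimple set `R` of operators is
semisimple if its action by conjugation on the algebra generated by `R` is semisimple. -/
def S_SEMI : Prop := ∀ (K H G : Type) [Field K] [CharZero K] [IsAlgClosed K] [AddCommGroup H]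
    [Module K H] [FiniteDimensional K H] (R : Set (Module.End K H)) (φ : G → (H ≃ₗ[K] H)),
    SSet R →
    (∀ a : Module.End K H, (∀ f ∈ R, Commute f a) → ∀ g, Commute (φ g : H →ₗ[K] H) a) →
    ∀ h : ∀ g, ∀ x ∈ Subalgebra.toSubmodule (Algebra.adjoin K R),
      ((φ g).conj : Module.End K (Module.End K H)) x ∈
        Subalgebra.toSubmodule (Algebra.adjoin K R),
    SSet (Set.range fun g =>
      LinearMap.restrict (((φ g).conj : Module.End K (Module.End K H))) (h g)) →
    SSet (Set.range fun g => (φ g : H →ₗ[K] H))

end Pool.Agent.N184.HK
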