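import Mathlib
import Pool.Agent.N184.HK.Stm6

/-!
# Project HK, leaf CLI: Clifford's theorem (helper527)
-/

set_option autoImplicit false

namespace Pool.Agent.N184.HK

namespace P_CLI

variable {K V : Type} [Field K] [AddCommGroup V] [Module K V]

/-- `W` is stable -/
def St (S : Set (Module.End K V)) (W : Submodule K V) : Prop := ∀ f ∈ S, ∀ x ∈ W, f x ∈ W

/-- `W` is a minimal nonzero stable subspace -/
def Irr (S : Set (Module.End K V)) (W : Submodule K V) : Prop :=
  St S W ∧ W ≠ ⊥ ∧ ∀ U ≤ W, St S U → U = ⊥ ∨ U = W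

theorem st_sup {S : Set (Module.End K V)} {U W : Submodule K V} (hU : St S U) (hW : St S W) :
    St S (U ⊔ W) := by
  intro f hf x hx
  obtain ⟨u, hu, w, hw, rfl⟩ := Submodule.mem_sup.1 hx
  rw [map_add]
  exact Submodule.add_mem_sup (hU f hf u hu) (hW f hf w hw)

theorem st_inf {S : Set (Module.End K V)} {U W : Submodule K V} (hU : St S U) (hW : St S W) :
    St S (U ⊓ W) :=
  fun f hf x hx => ⟨hU f hf x hx.1, hW f hf x hx.2⟩

theorem exists_irr [FiniteDimensional K V] {S : Set (Module.End K V)} {W : Submodule K V}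
    (hW : St S W) (h0 : W ≠ ⊥) : ∃ U ≤ W, Irr S U := by
  obtain ⟨U, ⟨h1, h2, h3⟩, hmin⟩ := WellFounded.has_min (wellFounded_lt (α := Submodule K V))
    {U | U ≤ W ∧ St S U ∧ U ≠ ⊥} ⟨W, le_rfl, hW, h0⟩
  refine ⟨U, h1, h2, h3, fun T hT hS => ?_⟩
  by_contra hcon
  rw [not_or] at hcon
  exact hmin T ⟨hT.trans h1, hS, hcon.1⟩ (lt_of_le_of_ne hT hcon.2)

theorem sset_of_sup [FiniteDimensional K V] {S : Set (Module.End K V)}
    (h : sSup {W | Irr S W} = ⊤) : SSet S := by
  intro U hU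
  obtain ⟨C, ⟨h1, h2⟩, hmax⟩ := WellFounded.has_min (wellFounded_gt (α := Submodule K V))
    {C | St S C ∧ Disjoint C U} ⟨⊥, (fun f _ x hx => by
      rw [Submodule.mem_bot] at hx ⊢
      rw [hx, map_zero]), disjoint_bot_left⟩
  refine ⟨C, h1, h2.symm, ?_⟩
  rw [codisjoint_iff, sup_comm, eq_top_iff, ← h]
  refine sSup_le fun W hW => ?_
  rcases hW.2.2 (W ⊓ (C ⊔ U)) inf_le_left (st_inf hW.1 (st_sup h1 hU)) with h3 | h3
  · exfalso
    have h4 : Disjoint W (C ⊔ U) := disjoint_iff.2 h3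
    have h5 : Disjoint (W ⊔ C) U := h2.disjoint_sup_left_of_disjoint_sup_right h4
    refine hmax (W ⊔ C) ⟨st_sup hW.1 h1, h5⟩ (lt_of_le_of_ne le_sup_right fun h6 => ?_)
    have h7 : W ≤ C := by
      rw [h6]
      exact le_sup_left
    exact hW.2.1 (h4.eq_bot_of_le (h7.trans le_sup_left))
  · exact inf_eq_left.1 h3

section

variable {G : Type} [Group G] {r : G → Module.End K V}

theorem inv_left (h1 : r 1 = 1) (hm : ∀ σ τ, r (σ * τ) = r σ * r τ) (g : G) (x : V) :
    r g⁻¹ (r g x) = x := by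
  rw [← Module.End.mul_apply, ← hm, inv_mul_cancel, h1, Module.End.one_apply]

theorem inv_right (h1 : r 1 = 1) (hm : ∀ σ τ, r (σ * τ) = r σ * r τ) (g : G) (x : V) :
    r g (r g⁻¹ x) = x := by
  rw [← Module.End.mul_apply, ← hm, mul_inv_cancel, h1, Module.End.one_apply]

theorem irr_map (h1 : r 1 = 1) (hm : ∀ σ τ, r (σ * τ) = r σ * r τ) {N : Subgroup G} [hN : N.Normal]
    {W : Submodule K V} (hW : Irr (r '' (N : Set G)) W) (g : G) :
    Irr (r '' (N : Set G)) (W.map (r g)) := by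
  have hinj : Function.Injective (r g) := fun x y hxy => by
    rw [← inv_left h1 hm g x, ← inv_left h1 hm g y, hxy]
  have hsurj : Function.Surjective (r g) := fun x => ⟨r g⁻¹ x, inv_right h1 hm g x⟩
  refine ⟨?_, ?_, ?_⟩
  · rintro _ ⟨n, hn, rfl⟩ _ ⟨x, hx, rfl⟩
    refine ⟨r (g⁻¹ * n * g) x, hW.1 _ ⟨_, ?_, rfl⟩ x hx, ?_⟩
    · have := hN.conj_mem n hn g⁻¹
      rwa [inv_inv] at this
    · rw [← Module.End.mul_apply, ← hm, ← Module.End.mul_apply, ← hm]
      congr 2
      group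
  · intro h
    apply hW.2.1
    rw [eq_bot_iff]
    intro x hx
    have h2 : r g x ∈ W.map (r g) := ⟨x, hx, rfl⟩
    rw [h, Submodule.mem_bot] at h2
    rw [Submodule.mem_bot]
    exact hinj (by rw [h2, map_zero])
  · intro U hU hS
    have h2 : U.comap (r g) ≤ W := by
      intro x hx
      obtain ⟨w, hw, he⟩ := hU hx
      rw [← hinj he]
      exact hw
    have h3 : St (r '' (N : Set G)) (U.comap (r g)) := by
      rintro _ ⟨n, hn, rfl⟩ x hx
      show r g (r n x) ∈ U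
      have h4 : r g (r n x) = r (g * n * g⁻¹) (r g x) := by
        rw [← Module.End.mul_apply, ← hm, ← Module.End.mul_apply, ← hm]
        congr 2
        group
      rw [h4]
      exact hS _ ⟨_, hN.conj_mem n hn g, rfl⟩ _ hx
    have h5 : (U.comap (r g)).map (r g) = U := Submodule.map_comap_eq_of_surjective hsurj U
    rcases hW.2.2 _ h2 h3 with h6 | h6
    · left
      rw [← h5, h6, Submodule.map_bot]
    · right
      rw [← h5, h6]

end

end P_CLI

open P_CLI in
/-- **CLI** (Clifford) -/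
theorem t_cli : S_CLI := by
  intro K V G _ _ _ _ _ N _ r h1 hm hss
  refine sset_of_sup ?_
  obtain ⟨C, hC, hcompl⟩ := hss (sSup {W | Irr (r '' (N : Set G)) W}) (by
    rintro _ ⟨g, rfl⟩ x hx
    have h2 : (sSup {W | Irr (r '' (N : Set G)) W}).map (r g) ≤
        sSup {W | Irr (r '' (N : Set G)) W} := by
      rw [sSup_eq_iSup', Submodule.map_iSup]
      refine iSup_le fun W => ?_
      exact le_iSup_of_le (⟨_, irr_map h1 hm W.2 g⟩ :
        {W | Irr (r '' (N : Set G)) W}) le_rfl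
    exact h2 ⟨x, hx, rfl⟩)
  by_cases h0 : C = ⊥
  · rw [h0] at hcompl
    have h3 := hcompl.sup_eq_top
    rwa [sup_bot_eq] at h3
  · exfalso
    have hC' : St (r '' (N : Set G)) C := by
      rintro _ ⟨n, -, rfl⟩ x hx
      exact hC _ ⟨n, rfl⟩ x hx
    obtain ⟨U, hU1, hU2⟩ := exists_irr hC' h0
    exact hU2.2.1 (le_bot_iff.1 (hcompl.disjoint (le_sSup hU2) hU1))

end Pool.Agent.N184.HK
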