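import Mathlib
import Pool.Agent.N184.HK.Stm2

/-!
# CTS: products and determinants are continuous (project HK)

By helper426.
-/

set_option autoImplicit false

namespace Pool.Agent.N184.HK

open Module Polynomial

theorem t_cts : S_CTS := by
  intro K H Γ _ _ _ _ _ _ _ g h hg hh
  let b := Module.finBasis K H
  -- the matrix entries
  have he : ∀ f : Γ → Module.End K H, Cts f → ∀ i j, Continuous fun σ =>
      LinearMap.toMatrix b b (f σ) i j := by
    intro f hf i j
    let L : Module.End K H →ₗ[K] K :=
      { toFun := fun A => LinearMap.toMatrix b b A i j
        map_add' := fun A B => by rw [map_add, Matrix.add_apply]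
        map_smul' := fun c A => by rw [map_smul, Matrix.smul_apply, RingHom.id_apply] }
    exact hf L
  refine ⟨fun L => ?_, ?_⟩
  · -- a functional is a combination of the matrix entries
    have hL : ∀ A : Module.End K H, L A = ∑ i, ∑ j, LinearMap.toMatrix b b A i j *
        L ((LinearMap.toMatrix b b).symm (Matrix.single i j 1)) := by
      intro A
      have h1 : A = (LinearMap.toMatrix b b).symm (LinearMap.toMatrix b b A) := by simp
      conv_lhs => rw [h1, Matrix.matrix_eq_sum_single (LinearMap.toMatrix b b A)]
      rw [map_sum, map_sum]
      refine Finset.sum_congr rfl fun i _ => ?_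
      rw [map_sum, map_sum]
      refine Finset.sum_congr rfl fun j _ => ?_
      have h2 : Matrix.single i j (LinearMap.toMatrix b b A i j) =
          (LinearMap.toMatrix b b A i j) • Matrix.single i j (1:K) := by
        rw [Matrix.smul_single, smul_eq_mul, mul_one]
      rw [h2, map_smul, map_smul, smul_eq_mul]
    have h3 : (fun σ => L (g σ * h σ)) = fun σ => ∑ i, ∑ j,
        (∑ k, LinearMap.toMatrix b b (g σ) i k * LinearMap.toMatrix b b (h σ) k j) *
        L ((LinearMap.toMatrix b b).symm (Matrix.single i j 1)) := by
      funext σ
      rw [hL, LinearMap.toMatrix_mul]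
      rfl
    rw [h3]
    refine continuous_finsetSum _ fun i _ => continuous_finsetSum _ fun j _ =>
      Continuous.mul (continuous_finsetSum _ fun k _ => (he g hg i k).mul (he h hh k j))
        continuous_const
  · have h1 : (fun σ => LinearMap.det (g σ)) = fun σ => (LinearMap.toMatrix b b (g σ)).det := by
      funext σ
      rw [LinearMap.det_toMatrix]
    rw [h1]
    refine Continuous.matrix_det ?_
    exact continuous_matrix fun i j => he g hg i j

end Pool.Agent.N184.HK
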