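import Mathlib
import Pool.Agent.N184.HK.Stm2

/-!
# HK/DETP: determinant and eigenvalues on the image of an idempotent (helper595)
-/

set_option autoImplicit false
set_option linter.unusedSectionVars false

namespace Pool.Agent.N184.HK

open Module Module.End

namespace P_DETP

section

variable {K H : Type} [Field K] [AddCommGroup H] [Module K H] [FiniteDimensional K H]

lemma eq_conj {z : Module.End K H} {p : Submodule K H} (hz : LinearMap.IsProj p z)
    (T : Module.End K H) (f : Module.End K p)
    (g : Module.End K (LinearMap.ker z)) (hf : ∀ x : p, T x = f x)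
    (hg : ∀ x : LinearMap.ker z, T x = g x) :
    T = (p.prodEquivOfIsCompl (LinearMap.ker z) hz.isCompl).toLinearMap ∘ₗ
      (f.prodMap g) ∘ₗ (p.prodEquivOfIsCompl (LinearMap.ker z) hz.isCompl).symm.toLinearMap := by
  ext x
  obtain ⟨y, rfl⟩ := (p.prodEquivOfIsCompl (LinearMap.ker z) hz.isCompl).surjective x
  rw [LinearMap.comp_apply, LinearMap.comp_apply, LinearEquiv.coe_coe, LinearEquiv.coe_coe,
    LinearEquiv.symm_apply_apply, Submodule.coe_prodEquivOfIsCompl', LinearMap.prodMap_apply,
    Submodule.coe_prodEquivOfIsCompl', map_add, hf, hg]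

lemma det_eq {z : Module.End K H} {p : Submodule K H} (hz : LinearMap.IsProj p z)
    (T : Module.End K H) (f : Module.End K p)
    (g : Module.End K (LinearMap.ker z)) (hf : ∀ x : p, T x = f x)
    (hg : ∀ x : LinearMap.ker z, T x = g x) :
    LinearMap.det T = LinearMap.det f * LinearMap.det g := by
  rw [eq_conj hz T f g hf hg, LinearMap.det_conj, LinearMap.det_prodMap]

lemma trace_eq {z : Module.End K H} {p : Submodule K H} (hz : LinearMap.IsProj p z)
    (T : Module.End K H) (f : Module.End K p)
    (g : Module.End K (LinearMap.ker z)) (hf : ∀ x : p, T x = f x)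
    (hg : ∀ x : LinearMap.ker z, T x = g x) :
    LinearMap.trace K H T = LinearMap.trace K _ f + LinearMap.trace K _ g := by
  have h := LinearMap.trace_conj' (R := K) (f.prodMap g)
    (p.prodEquivOfIsCompl (LinearMap.ker z) hz.isCompl)
  rw [LinearEquiv.conj_apply, LinearMap.comp_assoc] at h
  rw [eq_conj hz T f g hf hg, h, LinearMap.trace_prodMap']

lemma pow_coe {φ : Module.End K H} {p : Submodule K H} (f : Module.End K p)
    (hf : ∀ x : p, φ x = f x) (e : K) (k : ℕ) (x : p) :
    ((φ - algebraMap K (Module.End K H) e) ^ k) x =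
      (((f - algebraMap K (Module.End K p) e) ^ k) x : p) := by
  induction k generalizing x with
  | zero => rfl
  | succ k ih =>
    have h1 : (φ - algebraMap K (Module.End K H) e) (x : H) =
        ((f - algebraMap K (Module.End K p) e) x : p) := by
      rw [LinearMap.sub_apply, LinearMap.sub_apply, hf, Module.algebraMap_end_apply,
        Module.algebraMap_end_apply]
      rfl
    rw [pow_succ, pow_succ, Module.End.mul_apply, Module.End.mul_apply, h1, ih]

lemma mem_gen {φ : Module.End K H} {p : Submodule K H} (f : Module.End K p)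
    (hf : ∀ x : p, φ x = f x) (e : K) (x : p) (hx : x ∈ f.maxGenEigenspace e) :
    (x : H) ∈ φ.maxGenEigenspace e := by
  rw [Module.End.mem_maxGenEigenspace] at hx ⊢
  obtain ⟨k, hk⟩ := hx
  refine ⟨k, ?_⟩
  have h1 := pow_coe f hf e k x
  rw [Algebra.algebraMap_eq_smul_one, Algebra.algebraMap_eq_smul_one] at h1
  rw [h1, hk]
  rfl

end

lemma fop_coe {K H : Type} [Field K] [IsAlgClosed K] [AddCommGroup H] [Module K H]
    [FiniteDimensional K H] {φ : Module.End K H} {p : Submodule K H} (f : Module.End K p)
    (hf : ∀ x : p, φ x = f x) (w : K → K) (x : p) : fop φ w x = (fop f w x : p) := by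
  have h : (fop φ w) ∘ₗ p.subtype = p.subtype ∘ₗ (fop f w) := by
    refine ext_gen f fun e x hx => ?_
    rw [LinearMap.comp_apply, LinearMap.comp_apply, fop_apply w hx, Submodule.subtype_apply,
      fop_apply w (mem_gen f hf e x hx)]
    rfl
  exact LinearMap.congr_fun h x

end P_DETP

open P_DETP

theorem t_detp : S_DETP := by
  intro K H _ _ _ _ _ _ φ z hφ hz
  have hproj : LinearMap.IsProj (LinearMap.range z) z := by
    refine ⟨fun x => ⟨x, rfl⟩, ?_⟩
    rintro _ ⟨x, rfl⟩
    rw [← Module.End.mul_apply, hz]
  have hmaps : ∀ x ∈ LinearMap.range z, φ x ∈ LinearMap.range z := by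
    rintro _ ⟨x, rfl⟩
    refine ⟨φ x, ?_⟩
    rw [← Module.End.mul_apply, ← Module.End.mul_apply, hφ.eq]
  let f : Module.End K (LinearMap.range z) := φ.restrict hmaps
  have hf : ∀ x : LinearMap.range z, φ x = f x := fun x => rfl
  refine ⟨f.charpoly.roots, ?_, ?_, ?_, ?_⟩
  · intro e he
    rw [Polynomial.mem_roots (LinearMap.charpoly_monic _).ne_zero,
      ← Module.End.hasEigenvalue_iff_isRoot_charpoly] at he ⊢
    obtain ⟨v, hv⟩ := he.exists_hasEigenvector
    refine Module.End.hasEigenvalue_of_hasEigenvector (x := (v : H)) ?_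
    rw [Module.End.hasEigenvector_iff, Module.End.mem_eigenspace_iff] at hv ⊢
    refine ⟨?_, fun h => hv.2 (Subtype.ext h)⟩
    rw [hf, hv.1]
    rfl
  · rw [hproj.trace, ← LinearMap.charpoly_natDegree f,
      ← (IsAlgClosed.splits f.charpoly).natDegree_eq_card_roots]
  · rw [det_eq hproj _ f (1 : Module.End K (LinearMap.ker z)), map_one, mul_one,
      Module.End.det_eq_prod_roots_charpoly_of_splits (IsAlgClosed.splits _)]
    · intro x
      rw [LinearMap.add_apply, LinearMap.sub_apply, Module.End.mul_apply, Module.End.one_apply,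
        hproj.map_id x x.2, sub_self, add_zero]
      exact hf x
    · intro x
      rw [LinearMap.add_apply, LinearMap.sub_apply, Module.End.mul_apply, Module.End.one_apply,
        LinearMap.mem_ker.1 x.2, map_zero, sub_zero, zero_add]
      rfl
  · intro w
    rw [trace_eq hproj _ (fop f w) (0 : Module.End K (LinearMap.ker z)), map_zero, add_zero,
      tr_fop]
    · intro x
      rw [Module.End.mul_apply, hproj.map_id x x.2]
      exact fop_coe f hf w x
    · intro x
      rw [Module.End.mul_apply, LinearMap.mem_ker.1 x.2, map_zero]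
      rfl

end Pool.Agent.N184.HK
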