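import Mathlib
import Pool.Agent.N184.HK.Stm5

/-!
# Project HK, `S_FIX`: semisimplicity can be checked on a subgroup of finite index (helper492)
-/

set_option autoImplicit false

namespace Pool.Agent.N184.HK

namespace P_FIX

variable {K V G : Type} [Field K] [AddCommGroup V] [Module K V] [Group G]

/-- the projection onto `W` along a stable complement commutes with stable operators -/
theorem proj (W W' : Submodule K V) (h : IsCompl W W') : ∃ P : Module.End K V,
    (∀ x, P x ∈ W) ∧ (∀ x ∈ W, P x = x) ∧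
      ∀ f : Module.End K V, (∀ x ∈ W, f x ∈ W) → (∀ x ∈ W', f x ∈ W') → f * P = P * f := by
  have h0 : ∃ P : Module.End K V, (∀ x, P x ∈ W) ∧ (∀ x ∈ W, P x = x) ∧ ∀ x ∈ W', P x = 0 := by
    refine ⟨W.subtype ∘ₗ W.linearProjOfIsCompl W' h, fun x => ?_, fun x hx => ?_, fun x hx => ?_⟩
    · exact (W.linearProjOfIsCompl W' h x).2
    · exact congrArg Subtype.val (Submodule.linearProjOfIsCompl_apply_left h ⟨x, hx⟩)
    · exact congrArg Subtype.val (Submodule.linearProjOfIsCompl_apply_right h ⟨x, hx⟩)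
  obtain ⟨P, h1, h2, h3⟩ := h0
  refine ⟨P, h1, h2, fun f hf hf' => ?_⟩
  ext x
  obtain ⟨a, ha, b, hb, rfl⟩ : ∃ a ∈ W, ∃ b ∈ W', a + b = x := by
    have : x ∈ W ⊔ W' := by rw [h.sup_eq_top]; trivial
    exact Submodule.mem_sup.1 this
  simp only [Module.End.mul_apply, map_add]
  rw [h2 a ha, h3 b hb, h2 _ (hf a ha), h3 _ (hf' b hb), map_zero]

end P_FIX

open P_FIX in
theorem t_fix : S_FIX := by
  intro K V G _ _ _ _ _ _ U _ r h1 hm hU W hW
  have hW1 : ∀ g, ∀ x ∈ W, r g x ∈ W := fun g => hW _ ⟨g, rfl⟩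
  obtain ⟨W', hW', hc⟩ := hU W (by
    rintro _ ⟨g, -, rfl⟩
    exact hW1 g)
  obtain ⟨P, hP1, hP2, hP3⟩ := proj W W' hc
  have hPU : ∀ u ∈ U, r u * P = P * r u := fun u hu =>
    hP3 _ (hW1 u) (hW' _ ⟨u, hu, rfl⟩)
  have hinv : ∀ g, r g * r g⁻¹ = 1 := fun g => by rw [← hm, mul_inv_cancel, h1]
  haveI : Fintype (G ⧸ U) := Fintype.ofFinite _
  -- the conjugates of the projection
  have hA : ∀ g : G, r g * P * r g⁻¹ =
      r ((g : G ⧸ U).out) * P * r ((g : G ⧸ U).out)⁻¹ := by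
    intro g
    obtain ⟨u, hu⟩ := QuotientGroup.mk_out_eq_mul U g
    rw [hu, hm g u, mul_inv_rev, hm, mul_assoc (r g) (r u) P, hPU _ u.2]
    have h2 := hinv (u : G)
    calc r g * P * r g⁻¹ = r g * (P * 1) * r g⁻¹ := by rw [mul_one]
      _ = r g * (P * (r u * r (u : G)⁻¹)) * r g⁻¹ := by rw [h2]
      _ = _ := by simp only [mul_assoc]
  set A : G ⧸ U → Module.End K V := fun c => r c.out * P * r c.out⁻¹ with hAdef
  have hA' : ∀ (g : G) (c : G ⧸ U), r g * A c = A (g • c) * r g := by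
    intro g c
    have h2 : A (g • c) = r (g * c.out) * P * r (g * c.out)⁻¹ := by
      rw [hA (g * c.out)]
      have : ((g * c.out : G) : G ⧸ U) = g • c := by
        rw [← smul_eq_mul, ← MulAction.Quotient.smul_mk, QuotientGroup.out_eq']
      rw [this]
    rw [h2, mul_inv_rev, hm, hm, hAdef]
    have h3 : r g⁻¹ * r g = 1 := by rw [← hm, inv_mul_cancel, h1]
    simp only [mul_assoc, h3, mul_one]
  set n : K := (Fintype.card (G ⧸ U) : K) with hn
  have hn0 : n ≠ 0 := by
    rw [hn]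
    exact Nat.cast_ne_zero.2 Fintype.card_ne_zero
  set Q : Module.End K V := n⁻¹ • ∑ c, A c with hQ
  have hQg : ∀ g, r g * Q = Q * r g := by
    intro g
    rw [hQ, mul_smul_comm, smul_mul_assoc, Finset.mul_sum, Finset.sum_mul]
    congr 1
    rw [Finset.sum_congr rfl fun c _ => hA' g c]
    exact Equiv.sum_comp (MulAction.toPerm g) fun c => A c * r g
  have hQW : ∀ x, Q x ∈ W := by
    intro x
    rw [hQ, LinearMap.smul_apply, LinearMap.sum_apply]
    refine W.smul_mem _ (W.sum_mem fun c _ => ?_)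
    exact hW1 _ _ (hP1 _)
  have hQx : ∀ x ∈ W, Q x = x := by
    intro x hx
    rw [hQ, LinearMap.smul_apply, LinearMap.sum_apply]
    have h2 : ∀ c : G ⧸ U, A c x = x := by
      intro c
      show r c.out (P (r c.out⁻¹ x)) = x
      rw [hP2 _ (hW1 _ _ hx), ← Module.End.mul_apply, hinv, Module.End.one_apply]
    rw [Finset.sum_congr rfl fun c _ => h2 c, Finset.sum_const, Finset.card_univ,
      ← Nat.cast_smul_eq_nsmul K, smul_smul, inv_mul_cancel₀ hn0, one_smul]
  refine ⟨LinearMap.ker Q, ?_, ?_⟩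
  · rintro _ ⟨g, rfl⟩ x hx
    rw [LinearMap.mem_ker] at hx ⊢
    rw [← Module.End.mul_apply, ← hQg, Module.End.mul_apply, hx, map_zero]
  · have h2 := LinearMap.isCompl_of_proj (f := Q.codRestrict W hQW) fun x =>
      Subtype.ext (hQx x.1 x.2)
    rwa [LinearMap.ker_codRestrict] at h2

end Pool.Agent.N184.HK
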