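import Mathlib
import Pool.Agent.N184.HK.Stm2

/-!
# Project HK (helper184): eigenspaces of the functional calculus (helper767)
-/

set_option autoImplicit false

namespace Pool.Agent.N184.HK

open Module Module.End
open scoped Classical

namespace P_FOPE

variable {K H : Type} [Field K] [IsAlgClosed K] [AddCommGroup H] [Module K H]
  [FiniteDimensional K H]

lemma le_eig (φ : Module.End K H) (w : K → K) (e : K) :
    φ.maxGenEigenspace e ≤ (fop φ w).eigenspace (w e) := by
  intro y hy
  rw [mem_eigenspace_iff]
  exact fop_apply w hy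

/-- the indicator of `w e = x` -/
noncomputable def dl (w : K → K) (x : K) : K → K := fun e => if w e = x then 1 else 0

lemma dl_mem (φ : Module.End K H) (w : K → K) (x : K) (h : H) :
    fop φ (dl w x) h ∈ ⨆ e ∈ {e | w e = x}, φ.maxGenEigenspace e := by
  have h1 : (⨆ e, φ.maxGenEigenspace e) ≤
      (⨆ e ∈ {e | w e = x}, φ.maxGenEigenspace e).comap (fop φ (dl w x)) := by
    refine iSup_le fun e y hy => ?_
    rw [Submodule.mem_comap, fop_apply _ hy]
    unfold dl
    split_ifs with he
    · rw [one_smul]
      exact (le_iSup₂ (f := fun (e : K) (_ : e ∈ {e | w e = x}) => φ.maxGenEigenspace e) e he) hy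
    · rw [zero_smul]
      exact zero_mem _
  rw [Module.End.iSup_maxGenEigenspace_eq_top] at h1
  exact h1 (Submodule.mem_top (x := h))

lemma sub_eq (φ : Module.End K H) (w : K → K) (x : K) :
    fop φ w - x • 1 = fop φ (fun e => w e - x) := by
  rw [fop_sub, fop_const]

lemma pow_eq (φ : Module.End K H) (w : K → K) (k : ℕ) :
    (fop φ w) ^ k = fop φ (fun e => w e ^ k) := by
  induction k with
  | zero =>
    rw [pow_zero]
    simp only [pow_zero]
    rw [fop_const, one_smul]
  | succ k ih =>
    rw [pow_succ, ih, fop_mul]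
    simp only [← pow_succ]

/-- the partial inverse of `w - x` -/
noncomputable def inv' (w : K → K) (x : K) : K → K := fun e => if w e = x then 0 else (w e - x)⁻¹

lemma inv_mul (w : K → K) (x e : K) : inv' w x e * (w e - x) = 1 - dl w x e := by
  unfold inv' dl
  split_ifs with h
  · ring
  · rw [inv_mul_cancel₀ (sub_ne_zero.2 h), sub_zero]

lemma eig_le (φ : Module.End K H) (w : K → K) (x : K) :
    (fop φ w).eigenspace x ≤ ⨆ e ∈ {e | w e = x}, φ.maxGenEigenspace e := by
  intro h hh
  rw [mem_eigenspace_iff] at hh
  have h1 : fop φ (inv' w x) * (fop φ w - x • 1) = 1 - fop φ (dl w x) := by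
    rw [sub_eq, fop_mul]
    have h2 : (fun e => inv' w x e * (w e - x)) = fun e => (fun _ => (1 : K)) e - dl w x e := by
      funext e
      exact inv_mul w x e
    rw [h2, fop_sub, fop_const, one_smul]
  have h3 := LinearMap.congr_fun h1 h
  rw [Module.End.mul_apply, LinearMap.sub_apply, LinearMap.sub_apply, hh] at h3
  have h4 : h = fop φ (dl w x) h := by
    have h5 : (x • (1 : Module.End K H)) h = x • h := rfl
    rw [h5, sub_self, map_zero] at h3
    exact (sub_eq_zero.1 h3.symm)
  rw [h4]
  exact dl_mem φ w x h

lemma gen_le (φ : Module.End K H) (w : K → K) (x : K) :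
    (fop φ w).maxGenEigenspace x ≤ (fop φ w).eigenspace x := by
  intro h hh
  rw [mem_maxGenEigenspace] at hh
  obtain ⟨k, hk⟩ := hh
  rw [mem_eigenspace_iff]
  have h1 : (fop φ w - x • 1) h = 0 := by
    cases k with
    | zero =>
      rw [pow_zero] at hk
      have h2 : h = 0 := hk
      rw [h2, map_zero]
    | succ k =>
      have h2 : fop φ (fun e => inv' w x e ^ k) * (fop φ w - x • 1) ^ (k + 1) =
          fop φ w - x • 1 := by
        rw [sub_eq, pow_eq, fop_mul]
        congr 1
        funext e
        have h3 : inv' w x e ^ k * (w e - x) ^ (k + 1) =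
            (inv' w x e * (w e - x)) ^ k * (w e - x) := by
          rw [mul_pow, pow_succ, mul_assoc]
        rw [h3, inv_mul]
        unfold dl
        split_ifs with he
        · rw [he]; ring
        · rw [sub_zero, one_pow, one_mul]
      have h4 := LinearMap.congr_fun h2 h
      rw [Module.End.mul_apply, hk, map_zero] at h4
      exact h4.symm
  rw [LinearMap.sub_apply, sub_eq_zero] at h1
  exact h1

end P_FOPE

open P_FOPE in
theorem t_fope : S_FOPE := by
  intro K H _ _ _ _ _ φ w
  refine ⟨fun x => le_antisymm (eig_le φ w x) ?_, fun x => le_antisymm (gen_le φ w x) ?_, ?_⟩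
  · refine iSup₂_le fun e he => ?_
    have h1 := le_eig φ w e
    rw [show w e = x from he] at h1
    exact h1
  · intro h hh
    rw [mem_maxGenEigenspace]
    rw [mem_eigenspace_iff] at hh
    refine ⟨1, ?_⟩
    rw [pow_one, LinearMap.sub_apply, hh]
    exact sub_self _
  · intro hw
    rw [eq_top_iff, ← Module.End.iSup_maxGenEigenspace_eq_top φ]
    refine iSup_le fun e => ?_
    by_cases he : φ.maxGenEigenspace e = ⊥
    · rw [he]
      exact bot_le
    · obtain ⟨j, hj⟩ := hw e (ne_bot_iff.1 he)
      refine (le_eig φ w e).trans ?_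
      rw [hj]
      exact le_iSup (fun j : ℤ => (fop φ w).eigenspace (j : K)) j

end Pool.Agent.N184.HK
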