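import Pool.Agent.N184.HK.Cnj
import Pool.Agent.Y143.Defs

/-!
# Project HK (helper184): statements of the leaves, third part
-/

set_option autoImplicit false

namespace Pool.Agent.N184.HK

open Module Pool.Agent.Y143

/-- The part of weight `w` of `V`: the sum of the generalized eigenspaces of `Φ` for the `q`-Weil
numbers of weight `w`. -/
def WS {Ω V : Type} [Field Ω] [CharZero Ω] [AddCommGroup V] [Module Ω V] (q : ℕ)
    (Φ : Module.End Ω V) (w : ℤ) : Submodule Ω V :=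
  ⨆ e ∈ {e : Ω | IsWeilNumber q w e}, Φ.maxGenEigenspace e

/-- FRM: from mw purity to the isomorphisms between the parts of weight `i + j` and `i - j`. -/
def S_FRM : Prop := ∀ (Ω V : Type) [Field Ω] [CharZero Ω] [IsAlgClosed Ω] [AddCommGroup V]
    [Module Ω V] [FiniteDimensional Ω V] (q : ℕ), 1 < q → ∀ (i : ℤ) (Φ N : Module.End Ω V),
    (∀ e ∈ Φ.charpoly.roots, ∃ w : ℤ, IsWeilNumber q w e) →
    (∀ x, N (Φ x) = (q : Ω) • Φ (N x)) → IsMWPure q i Φ N →
    ∀ j : ℕ, Set.BijOn (⇑(N ^ j)) (WS q Φ (i + j) : Set V) (WS q Φ (i - j) : Set V)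

/-- TOM: from the isomorphisms between the parts of weight `i + j` and `i - j` to mw purity. -/
def S_TOM : Prop := ∀ (Ω V : Type) [Field Ω] [CharZero Ω] [IsAlgClosed Ω] [AddCommGroup V]
    [Module Ω V] [FiniteDimensional Ω V] (q : ℕ), 1 < q → ∀ (i : ℤ) (Φ N : Module.End Ω V),
    (∀ e ∈ Φ.charpoly.roots, ∃ w : ℤ, IsWeilNumber q w e) →
    (∀ x, N (Φ x) = (q : Ω) • Φ (N x)) →
    (∀ j : ℕ, Set.BijOn (⇑(N ^ j)) (WS q Φ (i + j) : Set V) (WS q Φ (i - j) : Set V)) →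
    IsMWPure q i Φ N

/-- WTB: the weight of Weil numbers. -/
def S_WTB : Prop := ∀ (Ω : Type) [Field Ω] [CharZero Ω] (q : ℕ), 1 < q →
    ∃ W : Wt Ω, (∀ x, W.U x ↔ ∃ w : ℤ, IsWeilNumber q w x) ∧
      ∀ (w : ℤ) (x : Ω), IsWeilNumber q w x → W.w x = (w : ℚ)

end Pool.Agent.N184.HK
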