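import Mathlib
import Pool.Agent.N184.HK.Stm3

/-!
# FRM: from mw purity to the isomorphisms between the parts of weight `i + j` and `i - j`
(helper344)
-/

set_option autoImplicit false

set_option linter.unusedSectionVars false

namespace Pool.Agent.N184.HK

open Module Pool.Agent.Y143

namespace P_FRM

/-! ### Weil numbers -/

theorem exists_conj {Ω : Type} [Field Ω] [CharZero Ω] {α : Ω} (h : IsAlgebraic ℚ α) :
    ∃ z : ℂ, Polynomial.aeval z (minpoly ℚ α) = 0 := by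
  have h1 : (minpoly ℚ α).degree ≠ 0 := (minpoly.degree_pos h.isIntegral).ne'
  exact IsAlgClosed.exists_aeval_eq_zero ℂ _ h1

theorem weight_unique {Ω : Type} [Field Ω] [CharZero Ω] {q : ℕ} (hq : 1 < q) {w w' : ℤ} {α : Ω}
    (h : IsWeilNumber q w α) (h' : IsWeilNumber q w' α) : w = w' := by
  obtain ⟨z, hz⟩ := exists_conj h.1
  have h1 := h.2 z hz
  rw [h'.2 z hz] at h1
  have hq' : (1 : ℝ) < q := by exact_mod_cast hq
  have h2 := (Real.rpow_right_inj (by linarith) hq'.ne').1 h1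
  have h3 : (w' : ℝ) = w := by linarith
  exact_mod_cast h3.symm

/-- multiplication of a Weil number by a positive rational number -/
theorem weil_scale {Ω : Type} [Field Ω] [CharZero Ω] {q : ℕ} {w w' : ℤ} {α : Ω}
    (h : IsWeilNumber q w α) (c : ℚ) (hc : 0 < c)
    (hw : (q : ℝ) ^ ((w' : ℝ) / 2) = c * (q : ℝ) ^ ((w : ℝ) / 2)) :
    IsWeilNumber q w' ((c : Ω) * α) := by
  have hc0 : (c : Ω) ≠ 0 := by exact_mod_cast hc.ne'
  have hcC : (c : ℂ) ≠ 0 := by exact_mod_cast hc.ne'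
  refine ⟨?_, fun z hz => ?_⟩
  · have h1 : IsAlgebraic ℚ (algebraMap ℚ Ω c) := isAlgebraic_algebraMap c
    have h2 : algebraMap ℚ Ω c = (c : Ω) := by simp
    rw [h2] at h1
    exact h1.mul h.1
  · -- the polynomial `p (X / c)`
    have h1 : minpoly ℚ ((c : Ω) * α) ∣
        (minpoly ℚ α).comp (Polynomial.C c⁻¹ * Polynomial.X) := by
      refine minpoly.dvd ℚ _ ?_
      rw [Polynomial.aeval_comp]
      have h2 : Polynomial.aeval ((c : Ω) * α) (Polynomial.C c⁻¹ * Polynomial.X : Polynomial ℚ) =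
          α := by
        rw [map_mul, Polynomial.aeval_C, Polynomial.aeval_X]
        have h3 : algebraMap ℚ Ω c⁻¹ = (c : Ω)⁻¹ := by simp
        rw [h3, ← mul_assoc, inv_mul_cancel₀ hc0, one_mul]
      rw [h2, minpoly.aeval]
    obtain ⟨r, hr⟩ := h1
    have h4 : Polynomial.aeval z ((minpoly ℚ α).comp (Polynomial.C c⁻¹ * Polynomial.X)) = 0 := by
      rw [hr, map_mul, hz, zero_mul]
    rw [Polynomial.aeval_comp, map_mul, Polynomial.aeval_C, Polynomial.aeval_X] at h4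
    have h5 := h.2 _ h4
    have h6 : algebraMap ℚ ℂ c⁻¹ = (c : ℂ)⁻¹ := by simp
    rw [h6, norm_mul, norm_inv] at h5
    have h7 : ‖(c : ℂ)‖ = c := by
      have : (c : ℂ) = ((c : ℝ) : ℂ) := by push_cast; rfl
      rw [this, Complex.norm_real, Real.norm_of_nonneg (by exact_mod_cast hc.le)]
    have hcR : (0 : ℝ) < (c : ℝ) := by exact_mod_cast hc
    rw [h7] at h5
    rw [hw, ← h5, ← mul_assoc, mul_inv_cancel₀ hcR.ne', one_mul]

theorem weil_down {Ω : Type} [Field Ω] [CharZero Ω] {q : ℕ} (hq : 1 < q) {w : ℤ} {α : Ω}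
    (h : IsWeilNumber q w α) : IsWeilNumber q (w - 2) (α / q) := by
  have hq0 : (0 : ℝ) < q := by exact_mod_cast (by omega : 0 < q)
  have h1 := weil_scale (w' := w - 2) h ((q : ℚ)⁻¹) (by positivity) (by
    push_cast
    rw [← Real.rpow_neg_one, ← Real.rpow_add hq0]
    congr 1
    ring)
  have h2 : (((q : ℚ)⁻¹ : ℚ) : Ω) * α = α / q := by
    push_cast
    rw [div_eq_mul_inv, mul_comm]
  rwa [h2] at h1

theorem weil_up {Ω : Type} [Field Ω] [CharZero Ω] {q : ℕ} (hq : 1 < q) {w : ℤ} {α : Ω}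
    (h : IsWeilNumber q (w - 2) (α / q)) : IsWeilNumber q w α := by
  have hq0 : (0 : ℝ) < q := by exact_mod_cast (by omega : 0 < q)
  have hqΩ : (q : Ω) ≠ 0 := by exact_mod_cast (by omega : q ≠ 0)
  have h1 := weil_scale (w' := w) h (q : ℚ) (by exact_mod_cast (by omega : 0 < q)) (by
    push_cast
    nth_rewrite 2 [← Real.rpow_one (q : ℝ)]
    rw [← Real.rpow_add hq0]
    congr 1
    ring)
  have h2 : (((q : ℚ) : ℚ) : Ω) * (α / q) = α := by
    push_cast
    field_simp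
  rwa [h2] at h1

/-! ### Sums of generalized eigenspaces -/

/-- the sum of the generalized eigenspaces for the elements of `S` -/
def ES {Ω V : Type} [Field Ω] [AddCommGroup V] [Module Ω V] (Φ : Module.End Ω V) (S : Set Ω) :
    Submodule Ω V := ⨆ e ∈ S, Φ.maxGenEigenspace e

section

variable {Ω V : Type} [Field Ω] [AddCommGroup V] [Module Ω V]

theorem le_ES (Φ : Module.End Ω V) {S : Set Ω} {e : Ω} (he : e ∈ S) :
    Φ.maxGenEigenspace e ≤ ES Φ S :=
  le_biSup (fun e => Φ.maxGenEigenspace e) he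

theorem ES_le (Φ : Module.End Ω V) {S : Set Ω} {p : Submodule Ω V}
    (h : ∀ e ∈ S, Φ.maxGenEigenspace e ≤ p) : ES Φ S ≤ p :=
  iSup₂_le h

theorem ES_disjoint (Φ : Module.End Ω V) {S T : Set Ω} (h : Disjoint S T) :
    Disjoint (ES Φ S) (ES Φ T) :=
  Φ.independent_maxGenEigenspace.disjoint_biSup_biSup h

theorem eig_stable (Φ : Module.End Ω V) (e : Ω) {x : V} (hx : x ∈ Φ.maxGenEigenspace e) :
    Φ x ∈ Φ.maxGenEigenspace e :=
  End.mapsTo_maxGenEigenspace_of_comm (Commute.refl Φ) e hx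

theorem ES_stable (Φ : Module.End Ω V) (S : Set Ω) {x : V} (hx : x ∈ ES Φ S) : Φ x ∈ ES Φ S := by
  have h : ES Φ S ≤ (ES Φ S).comap Φ := ES_le Φ fun e he x hx => le_ES Φ he (eig_stable Φ e hx)
  exact h hx

theorem decomp [IsAlgClosed Ω] [FiniteDimensional Ω V] (Φ : Module.End Ω V) (S : Set Ω)
    (p : Submodule Ω V) (hp : ∀ x ∈ p, Φ x ∈ p) {x : V} (hx : x ∈ p) :
    ∃ y ∈ p ⊓ ES Φ S, ∃ z ∈ p ⊓ ES Φ Sᶜ, y + z = x := by
  have h1 : p = ⨆ μ, p ⊓ Φ.genEigenspace μ ⊤ :=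
    Submodule.eq_iSup_inf_genEigenspace ⊤ hp (End.iSup_maxGenEigenspace_eq_top Φ)
  have h2 : (⨆ μ, p ⊓ Φ.genEigenspace μ ⊤) ≤ (p ⊓ ES Φ S) ⊔ (p ⊓ ES Φ Sᶜ) := by
    refine iSup_le fun μ => ?_
    by_cases hμ : μ ∈ S
    · exact le_trans (inf_le_inf_left p (le_ES Φ hμ)) le_sup_left
    · exact le_trans (inf_le_inf_left p (le_ES Φ (S := Sᶜ) hμ)) le_sup_right
  have h3 : x ∈ (p ⊓ ES Φ S) ⊔ (p ⊓ ES Φ Sᶜ) := by
    apply h2
    rw [← h1]
    exact hx
  exact Submodule.mem_sup.1 h3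

end

/-! ### The operator `N` -/

section

variable {Ω V : Type} [Field Ω] [CharZero Ω] [AddCommGroup V] [Module Ω V] {q : ℕ}

theorem N_eig (hq : 1 < q) {Φ N : Module.End Ω V} (hN : ∀ x, N (Φ x) = (q : Ω) • Φ (N x)) (e : Ω)
    {x : V} (hx : x ∈ Φ.maxGenEigenspace e) : N x ∈ Φ.maxGenEigenspace (e / q) := by
  have hq0 : (q : Ω) ≠ 0 := by exact_mod_cast (by omega : q ≠ 0)
  rw [End.mem_maxGenEigenspace] at hx ⊢
  obtain ⟨k, hk⟩ := hx
  refine ⟨k, ?_⟩
  have h1 : ∀ y, (Φ - (e / q) • (1 : Module.End Ω V)) (N y) =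
      (q : Ω)⁻¹ • N ((Φ - e • (1 : Module.End Ω V)) y) := by
    intro y
    have h2 := hN y
    simp only [LinearMap.sub_apply, LinearMap.smul_apply, Module.End.one_apply, map_sub, map_smul]
    rw [h2, smul_sub, smul_smul, inv_mul_cancel₀ hq0, one_smul, smul_smul]
    congr 2
    rw [div_eq_mul_inv, mul_comm]
  have h3 : ∀ (k : ℕ) (y : V), ((Φ - (e / q) • (1 : Module.End Ω V)) ^ k) (N y) =
      ((q : Ω)⁻¹) ^ k • N (((Φ - e • (1 : Module.End Ω V)) ^ k) y) := by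
    intro k
    induction k with
    | zero => intro y; simp
    | succ k ih =>
      intro y
      rw [pow_succ, Module.End.mul_apply, h1, map_smul, ih, smul_smul, pow_succ (q : Ω)⁻¹ k,
        mul_comm, pow_succ, Module.End.mul_apply]
  rw [h3, hk, map_zero, smul_zero]

theorem N_ES (hq : 1 < q) {Φ N : Module.End Ω V} (hN : ∀ x, N (Φ x) = (q : Ω) • Φ (N x))
    {S T : Set Ω} (hST : ∀ e ∈ S, e / q ∈ T) {x : V} (hx : x ∈ ES Φ S) : N x ∈ ES Φ T := by
  have h : ES Φ S ≤ (ES Φ T).comap N :=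
    ES_le Φ fun e he x hx => le_ES Φ (hST e he) (N_eig hq hN e hx)
  exact h hx

/-- the Weil numbers of weight `w` -/
def WW (Ω : Type) [Field Ω] [CharZero Ω] (q : ℕ) (w : ℤ) : Set Ω := {e : Ω | IsWeilNumber q w e}

theorem N_pow_W (hq : 1 < q) {Φ N : Module.End Ω V} (hN : ∀ x, N (Φ x) = (q : Ω) • Φ (N x))
    (j : ℕ) (w : ℤ) {x : V} (hx : x ∈ ES Φ (WW Ω q w)) :
    (N ^ j) x ∈ ES Φ (WW Ω q (w - 2 * j)) := by
  induction j generalizing x w with
  | zero => simpa using hx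
  | succ j ih =>
    rw [pow_succ, Module.End.mul_apply]
    have h1 : N x ∈ ES Φ (WW Ω q (w - 2)) :=
      N_ES hq hN (fun e he => weil_down hq he) hx
    have h2 := ih (w - 2) h1
    have h3 : w - 2 - 2 * (j : ℤ) = w - 2 * ((j + 1 : ℕ) : ℤ) := by push_cast; ring
    rwa [h3] at h2

theorem N_pow_Wc (hq : 1 < q) {Φ N : Module.End Ω V} (hN : ∀ x, N (Φ x) = (q : Ω) • Φ (N x))
    (j : ℕ) (w : ℤ) {x : V} (hx : x ∈ ES Φ (WW Ω q w)ᶜ) :
    (N ^ j) x ∈ ES Φ (WW Ω q (w - 2 * j))ᶜ := by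
  induction j generalizing x w with
  | zero => simpa using hx
  | succ j ih =>
    rw [pow_succ, Module.End.mul_apply]
    have h1 : N x ∈ ES Φ (WW Ω q (w - 2))ᶜ :=
      N_ES (S := (WW Ω q w)ᶜ) (T := (WW Ω q (w - 2))ᶜ) hq hN
        (fun e (he : e ∉ WW Ω q w) h => he (weil_up hq h)) hx
    have h2 := ih (w - 2) h1
    have h3 : w - 2 - 2 * (j : ℤ) = w - 2 * ((j + 1 : ℕ) : ℤ) := by push_cast; ring
    rwa [h3] at h2

end

/-! ### The filtration -/

theorem step (P : ℤ → Prop) {a b : ℤ} (ha : ¬ P a) (hab : a ≤ b) (hb : P b) :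
    ∃ c, a < c ∧ c ≤ b ∧ P c ∧ ¬ P (c - 1) := by
  induction b, hab using Int.leInduction with
  | base => exact absurd hb ha
  | succ b hab ih =>
    by_cases h : P b
    · obtain ⟨c, h1, h2, h3, h4⟩ := ih h
      exact ⟨c, h1, by omega, h3, h4⟩
    · exact ⟨b + 1, by omega, le_rfl, hb, by simpa using h⟩

section

variable {Ω V : Type} [Field Ω] [CharZero Ω] [IsAlgClosed Ω] [AddCommGroup V] [Module Ω V]
  [FiniteDimensional Ω V] {q : ℕ}

/-- the part of weight `i + b` is contained in `M b` -/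
theorem WS_le (hq : 1 < q) {i : ℤ} {Φ : Module.End Ω V} {M : ℤ → Submodule Ω V}
    (hmono : Monotone M) (htop : ∃ a, M a = ⊤)
    (hpure : ∀ (a : ℤ) (α : Ω) (x : V), x ∈ M a → x ∉ M (a - 1) → Φ x - α • x ∈ M (a - 1) →
      IsWeilNumber q (a + i) α) (b : ℤ) : ES Φ (WW Ω q (i + b)) ≤ M b := by
  refine ES_le Φ fun e he => ?_
  by_contra hcon
  obtain ⟨t, ht⟩ := htop
  have hbt : b ≤ t := by
    by_contra h
    apply hcon
    have : M t ≤ M b := hmono (by omega)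
    rw [ht] at this
    exact le_top.trans this
  obtain ⟨a, h1, _, h3, h4⟩ := step (fun a => Φ.maxGenEigenspace e ≤ M a) hcon hbt
    (by rw [ht]; exact le_top)
  obtain ⟨x, hx, hxM⟩ := Set.not_subset.1 h4
  have hx' : x ∈ Φ.maxGenEigenspace e := hx
  have hxM' : x ∉ M (a - 1) := hxM
  obtain ⟨k, hk⟩ := (End.mem_maxGenEigenspace Φ e x).1 hx'
  -- the last iterate which is not in `M (a - 1)`
  have hex : ∃ k' : ℕ, ((Φ - e • (1 : Module.End Ω V)) ^ k') x ∉ M (a - 1) ∧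
      ((Φ - e • (1 : Module.End Ω V)) ^ (k' + 1)) x ∈ M (a - 1) := by
    by_contra hno
    push Not at hno
    have hall : ∀ k' : ℕ, ((Φ - e • (1 : Module.End Ω V)) ^ k') x ∉ M (a - 1) := by
      intro k'
      induction k' with
      | zero => simpa using hxM'
      | succ k' ih => exact hno k' ih
    apply hall k
    rw [hk]
    exact zero_mem _
  obtain ⟨k', hk1, hk2⟩ := hex
  obtain ⟨y, hy⟩ : ∃ y, y = ((Φ - e • (1 : Module.End Ω V)) ^ k') x := ⟨_, rfl⟩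
  rw [← hy] at hk1
  have hyE : y ∈ Φ.maxGenEigenspace e := by
    rw [End.mem_maxGenEigenspace]
    refine ⟨k, ?_⟩
    rw [hy, ← Module.End.mul_apply, ← pow_add, Nat.add_comm, pow_add, Module.End.mul_apply, hk,
      map_zero]
  have hyM : y ∈ M a := h3 hyE
  have h5 : Φ y - e • y ∈ M (a - 1) := by
    rw [pow_succ', Module.End.mul_apply, ← hy] at hk2
    simpa using hk2
  have h6 := hpure a e y hyM hk1 h5
  have h7 := weight_unique hq he h6
  omega

/-- `M (b - 1)` does not meet the part of weight `i + b` -/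
theorem inf_eq_bot (hq : 1 < q) {i : ℤ} {Φ : Module.End Ω V} {M : ℤ → Submodule Ω V}
    (hmono : Monotone M) (hbot : ∃ a, M a = ⊥) (hst : ∀ a x, x ∈ M a → Φ x ∈ M a)
    (hpure : ∀ (a : ℤ) (α : Ω) (x : V), x ∈ M a → x ∉ M (a - 1) → Φ x - α • x ∈ M (a - 1) →
      IsWeilNumber q (a + i) α) (b : ℤ) : M (b - 1) ⊓ ES Φ (WW Ω q (i + b)) = ⊥ := by
  by_contra hne
  obtain ⟨U, hU⟩ : ∃ U : Submodule Ω V, U = M (b - 1) ⊓ ES Φ (WW Ω q (i + b)) := ⟨_, rfl⟩
  rw [← hU] at hne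
  have hUst : ∀ x ∈ U, Φ x ∈ U := by
    intro x hx
    rw [hU] at hx ⊢
    exact ⟨hst _ x hx.1, ES_stable Φ _ hx.2⟩
  have hnt : Nontrivial U := Submodule.nontrivial_iff_ne_bot.2 hne
  obtain ⟨α, hα⟩ := End.exists_eigenvalue (Φ.restrict hUst)
  obtain ⟨x, hx⟩ := hα.exists_hasEigenvector
  have hx0 : (x : V) ≠ 0 := fun h => hx.2 (Subtype.ext h)
  have hxe : Φ (x : V) = α • (x : V) := by
    have := congrArg Subtype.val hx.apply_eq_smul
    simpa using this
  have hxU : (x : V) ∈ M (b - 1) ⊓ ES Φ (WW Ω q (i + b)) := by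
    rw [← hU]
    exact x.2
  have hxE : (x : V) ∈ Φ.maxGenEigenspace α := by
    rw [End.mem_maxGenEigenspace]
    refine ⟨1, ?_⟩
    simp [hxe]
  have hαw : IsWeilNumber q (i + b) α := by
    by_contra hcon
    have hd : Disjoint ({α} : Set Ω) (WW Ω q (i + b)) := by
      rw [Set.disjoint_singleton_left]
      exact hcon
    have h1 := (ES_disjoint Φ hd).le_bot ⟨le_ES Φ (Set.mem_singleton α) hxE, hxU.2⟩
    exact hx0 ((Submodule.mem_bot Ω).1 h1)
  obtain ⟨a0, ha0⟩ := hbot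
  have hx1 : ¬ (x : V) ∈ M a0 := by
    rw [ha0, Submodule.mem_bot]
    exact hx0
  have hab : a0 ≤ b - 1 := by
    by_contra h
    exact hx1 (hmono (by omega) hxU.1)
  obtain ⟨a, h1, h2, h3, h4⟩ := step (fun a => (x : V) ∈ M a) hx1 hab hxU.1
  have h5 : Φ (x : V) - α • (x : V) ∈ M (a - 1) := by
    rw [hxe, sub_self]
    exact zero_mem _
  have h6 := hpure a α x h3 h4 h5
  have h7 := weight_unique hq hαw h6
  omega

end

end P_FRM

open P_FRM in
theorem t_frm : S_FRM := by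
  intro Ω V _ _ _ _ _ _ q hq i Φ N _ hN hpure j
  obtain ⟨M, hM, hst, hp⟩ := hpure
  have hWS : ∀ w : ℤ, WS q Φ w = ES Φ (WW Ω q w) := fun w => rfl
  have hle := fun b => WS_le hq hM.mono hM.top hp b
  have hbot := fun b => inf_eq_bot hq hM.mono hM.bot hst hp b
  rw [hWS, hWS]
  refine ⟨?_, ?_, ?_⟩
  · intro x hx
    have h1 := N_pow_W hq hN j (i + j) hx
    have h2 : i + (j : ℤ) - 2 * j = i - j := by ring
    rw [h2] at h1
    exact h1
  · intro x hx y hy hxy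
    have hz : x - y ∈ ES Φ (WW Ω q (i + j)) := Submodule.sub_mem _ hx hy
    have h1 : (N ^ j) (x - y) ∈ M (-j - 1) := by
      have : (N ^ j) (x - y) = 0 := by
        rw [map_sub]
        exact sub_eq_zero.2 hxy
      rw [this]
      exact zero_mem _
    have h2 : x - y ∈ M j := hle j hz
    have h3 := hM.inj j (x - y) h2 h1
    have h4 : x - y ∈ M ((j : ℤ) - 1) ⊓ ES Φ (WW Ω q (i + j)) := ⟨h3, hz⟩
    rw [hbot, Submodule.mem_bot] at h4
    exact sub_eq_zero.1 h4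
  · intro y hy
    have hy' : y ∈ ES Φ (WW Ω q (i - j)) := hy
    have e1 : i - (j : ℤ) = i + (-j) := by ring
    have hyM : y ∈ M (-j) := by
      apply hle (-j)
      rw [← e1]
      exact hy'
    obtain ⟨x, _, hxy⟩ := hM.surj j y hyM
    obtain ⟨x1, hx1, x2, hx2, hx⟩ := decomp Φ (WW Ω q (i + j)) ⊤ (fun _ _ => trivial)
      (x := x) trivial
    obtain ⟨m1, hm1, m2, hm2, hm⟩ := decomp Φ (WW Ω q (i - j)) (M (-j - 1))
      (fun x hx => hst _ x hx) hxy
    have hm10 : m1 = 0 := by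
      rw [e1, hbot, Submodule.mem_bot] at hm1
      exact hm1
    rw [hm10, zero_add] at hm
    have e2 : i + (j : ℤ) - 2 * j = i - j := by ring
    have h1 : (N ^ j) x1 ∈ ES Φ (WW Ω q (i - j)) := by
      have := N_pow_W hq hN j (i + j) hx1.2
      rwa [e2] at this
    have h2 : (N ^ j) x2 ∈ ES Φ (WW Ω q (i - j))ᶜ := by
      have := N_pow_Wc hq hN j (i + j) hx2.2
      rwa [e2] at this
    have h3 : y - (N ^ j) x1 = (N ^ j) x2 + m2 := by
      rw [hm, ← hx, map_add]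
      abel
    have h4 : y - (N ^ j) x1 ∈ ES Φ (WW Ω q (i - j)) := Submodule.sub_mem _ hy' h1
    have h5 : y - (N ^ j) x1 ∈ ES Φ (WW Ω q (i - j))ᶜ := by
      rw [h3]
      exact Submodule.add_mem _ h2 hm2.2
    have h6 := (ES_disjoint Φ (disjoint_compl_right (a := WW Ω q (i - j)))).le_bot ⟨h4, h5⟩
    rw [Submodule.mem_bot] at h6
    exact ⟨x1, hx1.2, (sub_eq_zero.1 h6).symm⟩

end Pool.Agent.N184.HK
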