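import Pool.Agent.N184.HK.Num

/-!
# Project HK (helper184): density of Frobenius elements
-/

set_option autoImplicit false

namespace Pool.Agent.N184.HK

open NumberField IsDedekindDomain Filter Topology
open Pool.Agent.W401.Cheb Pool.Agent.W528.Ord

/-- FROB: every nonempty open set contains (the inverse of) a Frobenius element of a place of degree
one outside of a given finite set. -/
def S_FROB : Prop := ∀ (K : Type) [Field K] [NumberField K] (bad : Set (HeightOneSpectrum (𝓞 K))),
    bad.Finite → ∀ O : Set (GK K), IsOpen O → O.Nonempty →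
    ∃ v, v ∉ bad ∧ (Ideal.absNorm v.asIdeal).Prime ∧ ∃ σ ∈ O, IsFrob v σ⁻¹

end Pool.Agent.N184.HK
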