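import Mathlib
import Pool.Agent.N184.HK.StmF

/-!
# Project HK: Frobenius elements are dense
-/

set_option autoImplicit false

namespace Pool.Agent.N184.HK

open NumberField IsDedekindDomain Filter Topology
open Pool.Agent.W401.Cheb Pool.Agent.W528.Ord

namespace P_FROB

variable {K : Type} [Field K] [NumberField K]

theorem smul_alg (τ : GK K) (a : 𝓞 K) :
    τ • algebraMap (𝓞 K) (𝓞 (AlgebraicClosure K)) a =
      algebraMap (𝓞 K) (𝓞 (AlgebraicClosure K)) a := by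
  apply RingOfIntegers.ext
  exact τ.commutes (a : K)

/-- The Frobenius elements at `v` are stable under conjugation. -/
theorem frob_conj {v : HeightOneSpectrum (𝓞 K)} {σ : GK K} (τ : GK K) (h : IsFrob v σ) :
    IsFrob v (τ * σ * τ⁻¹) := by
  obtain ⟨Q, hQm, hQv, hQ⟩ := h
  let f : 𝓞 (AlgebraicClosure K) →+* 𝓞 (AlgebraicClosure K) :=
    MulSemiringAction.toRingHom (GK K) (𝓞 (AlgebraicClosure K)) τ⁻¹
  have hf : ∀ x, f x = τ⁻¹ • x := fun x => rfl
  have hsurj : Function.Surjective f := fun y =>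
    ⟨τ • y, by rw [hf, smul_smul, inv_mul_cancel, one_smul]⟩
  refine ⟨Q.comap f, Ideal.comap_isMaximal_of_surjective f hsurj, ?_, fun x => ?_⟩
  · rw [← hQv]
    ext a
    rw [Ideal.mem_comap, Ideal.mem_comap, Ideal.mem_comap, hf, smul_alg]
  · rw [Ideal.mem_comap, map_sub, map_pow, hf, hf, smul_smul]
    have e : τ⁻¹ * (τ * σ * τ⁻¹) = σ * τ⁻¹ := by group
    rw [e, mul_smul]
    exact hQ _

end P_FROB

open P_FROB

theorem t_frob : S_FROB := by
  intro K _ _ bad hbad O hO hne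
  obtain ⟨O', hO'def⟩ : ∃ O' : Set (GK K), O' = {x | ∃ τ : GK K, (τ⁻¹ * x * τ)⁻¹ ∈ O} := ⟨_, rfl⟩
  have hO' : IsOpen O' := by
    have e : O' = ⋃ τ : GK K, (fun x => (τ⁻¹ * x * τ)⁻¹) ⁻¹' O := by
      rw [hO'def]
      ext x
      simp
    rw [e]
    refine isOpen_iUnion fun τ => hO.preimage ?_
    exact ((continuous_mul_left τ⁻¹).mul continuous_const).inv
  have hconj : ∀ σ ∈ O', ∀ τ, τ * σ * τ⁻¹ ∈ O' := by
    rw [hO'def]
    rintro σ ⟨τ', h⟩ τ
    refine ⟨τ * τ', ?_⟩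
    have e : ((τ * τ')⁻¹ * (τ * σ * τ⁻¹) * (τ * τ'))⁻¹ = (τ'⁻¹ * σ * τ')⁻¹ := by group
    rw [e]
    exact h
  have hne' : O'.Nonempty := by
    obtain ⟨s, hs⟩ := hne
    refine ⟨s⁻¹, ?_⟩
    rw [hO'def]
    exact ⟨1, by simpa using hs⟩
  obtain ⟨δ, hδ, hev⟩ := cheb_open O' hO' hconj hne'
  by_contra hcon
  push Not at hcon
  have h2 := dens_not_prime (K := K)
  have h3 := dens_finite (fun v => v ∈ bad) hbad
  obtain ⟨N, h0, h2, h3⟩ := (hev.and ((h2.eventually
    (gt_mem_nhds (show (0:ℝ) < δ / 4 by positivity))).and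
    (h3.eventually (gt_mem_nhds (show (0:ℝ) < δ / 4 by positivity))))).exists
  have hle : dens (fun v : HeightOneSpectrum (𝓞 K) => ∃ σ ∈ O', IsFrob v σ) N ≤
      dens (fun v : HeightOneSpectrum (𝓞 K) => ¬ (Ideal.absNorm v.asIdeal).Prime) N +
      dens (fun v => v ∈ bad) N := by
    refine le_trans (dens_mono (Q := fun v => _ ∨ _) ?_ N) (dens_or _ _ N)
    rintro v ⟨σ, hσ, hfr⟩
    by_cases hp : (Ideal.absNorm v.asIdeal).Prime
    · by_cases hb : v ∈ bad
      · exact Or.inr hb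
      · exfalso
        rw [hO'def] at hσ
        obtain ⟨τ, hτ⟩ := hσ
        refine hcon v hb hp _ hτ ?_
        rw [inv_inv]
        have := frob_conj τ⁻¹ hfr
        rwa [inv_inv] at this
    · exact Or.inl hp
  linarith

end Pool.Agent.N184.HK
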