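import Pool.Agent.N184.HK.Stm

/-!
# Project HK (helper184): statements of the leaves, fourth part (Mumford-Tate conjecture)
-/

set_option autoImplicit false

namespace Pool.Agent.N184.HK

/-- SSL: in a finite-dimensional representation of `sl₂` the element `h` is diagonalizable. -/
def S_SSL : Prop := ∀ (K H : Type) [Field K] [CharZero K] [IsAlgClosed K] [AddCommGroup H]
    [Module K H] [FiniteDimensional K H] (X D N : Module.End K H),
    D * X - X * D = (2 : K) • X → D * N - N * D = -(2 : K) • N → X * N - N * X = D →
    ∀ x : K, D.maxGenEigenspace x = D.eigenspace x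

/-- SSO: in a finite-dimensional representation of `so(V, q)`, `dim V ≥ 3`, diagonalizable elements
act by diagonalizable operators. -/
def S_SSO : Prop := ∀ (K V H : Type) [Field K] [CharZero K] [IsAlgClosed K] [AddCommGroup V]
    [Module K V] [FiniteDimensional K V] [AddCommGroup H] [Module K H] [FiniteDimensional K H]
    (q : LinearMap.BilinForm K V), q.IsSymm → q.Nondegenerate → 3 ≤ Module.finrank K V →
    ∀ ρ : Module.End K V →ₗ[K] Module.End K H,
    (∀ A B, Skew q A → Skew q B → ρ (A * B - B * A) = ρ A * ρ B - ρ B * ρ A) →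
    ∀ S : Module.End K V, Skew q S → (⨆ x : K, S.eigenspace x) = ⊤ →
    ∀ x : K, (ρ S).maxGenEigenspace x = (ρ S).eigenspace x

/-- TRONE: if a sum of `n` roots of unity is `n` then all of them are one. -/
def S_TRONE : Prop := ∀ (K : Type) [Field K] [CharZero K] (M : ℕ), 0 < M → ∀ s : Multiset K,
    (∀ x ∈ s, x ^ M = 1) → s.sum = (Multiset.card s : K) → ∀ x ∈ s, x = 1

end Pool.Agent.N184.HK
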