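import Mathlib
import Pool.Agent.N184.HK.Stm4

/-!
Project HK (helper184), TRONE: if a sum of `n` roots of unity is `n` then all of them are one.
Author: helper558.
-/

set_option autoImplicit false

namespace Pool.Agent.N184.HK

namespace P_TRONE

/-- the complex case -/
theorem complex (s : Multiset ℂ) (h : ∀ z ∈ s, ‖z‖ = 1) (hs : s.sum = (Multiset.card s : ℂ)) :
    ∀ z ∈ s, z = 1 := by
  have h1 : (s.map fun z => 1 - z.re).sum = 0 := by
    have h2 : (s.map fun z => (1 : ℝ) - z.re).sum = (s.map fun _ => (1 : ℝ)).sum -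
        (s.map fun z => z.re).sum := Multiset.sum_map_sub
    rw [h2]
    have h3 : (s.map fun z => z.re).sum = s.sum.re := by
      have := (Complex.reAddGroupHom).map_multiset_sum s
      simpa using this.symm
    rw [h3, hs]
    simp
  intro z hz
  have hle : ∀ w ∈ s, 0 ≤ 1 - w.re := fun w hw => by
    have := Complex.re_le_norm w
    rw [h w hw] at this
    linarith
  have h4 : (1 - z.re) ≤ (s.map fun z => (1 : ℝ) - z.re).sum :=
    Multiset.single_le_sum (by
      intro x hx
      obtain ⟨w, hw, rfl⟩ := Multiset.mem_map.1 hx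
      exact hle w hw) _ (Multiset.mem_map_of_mem _ hz)
  have h5 : z.re = 1 := by
    have := hle z hz
    linarith
  have h6 := h z hz
  have h7 : z.re ^ 2 + z.im ^ 2 = 1 := by
    have h8 := Complex.sq_norm z
    rw [h6, Complex.normSq_apply] at h8
    nlinarith
  have h9 : z.im = 0 := by
    rw [h5] at h7
    nlinarith [sq_nonneg z.im]
  exact Complex.ext (by simpa using h5) (by simpa using h9)

end P_TRONE

theorem t_trone : S_TRONE := by
  intro K _ _ M hM s hs hsum
  have hint : ∀ x ∈ s, x ∈ algebraicClosure ℚ K := fun x hx => by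
    rw [mem_algebraicClosure_iff']
    refine ⟨Polynomial.X ^ M - 1, Polynomial.monic_X_pow_sub_C (1 : ℚ) hM.ne', ?_⟩
    simp [hs x hx]
  lift s to Multiset (algebraicClosure ℚ K) using hint
  obtain ⟨φ⟩ : Nonempty (algebraicClosure ℚ K →+* ℂ) := by
    have hA : Algebra.IsAlgebraic ℚ (algebraicClosure ℚ K) := by
      have h0 := algebraicClosure.isAlgebraic ℚ K
      have h1 : (DivisionRing.toRatAlgebra : Algebra ℚ (algebraicClosure ℚ K)) =
        (algebraicClosure ℚ K).algebra' := Subsingleton.elim _ _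
      rw [h1]
      exact h0
    exact ⟨(IsAlgClosed.lift : algebraicClosure ℚ K →ₐ[ℚ] ℂ).toRingHom⟩
  have h1 : s.sum = (Multiset.card s : algebraicClosure ℚ K) := by
    have h2 : ((s.sum : algebraicClosure ℚ K) : K) = (Multiset.card s : K) := by
      rw [Multiset.card_map] at hsum
      rw [← hsum]
      exact (algebraicClosure ℚ K).subtype.map_multiset_sum s
    exact_mod_cast h2
  have h3 : (s.map φ).sum = (Multiset.card (s.map φ) : ℂ) := by
    rw [Multiset.card_map, ← map_multiset_sum, h1, map_natCast]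
  have h4 : ∀ z ∈ s.map φ, ‖z‖ = 1 := by
    intro z hz
    obtain ⟨x, hx, rfl⟩ := Multiset.mem_map.1 hz
    have h5 : x ^ M = 1 := by
      have := hs (x : K) (Multiset.mem_map_of_mem _ hx)
      exact_mod_cast this
    have h6 : (φ x) ^ M = 1 := by rw [← map_pow, h5, map_one]
    exact Complex.norm_eq_one_of_pow_eq_one h6 hM.ne'
  intro x hx
  obtain ⟨y, hy, rfl⟩ := Multiset.mem_map.1 hx
  have h7 := P_TRONE.complex _ h4 h3 (φ y) (Multiset.mem_map_of_mem _ hy)
  have h8 : y = 1 := φ.injective (by rw [h7, map_one])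
  rw [h8]
  rfl

end Pool.Agent.N184.HK
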