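import Mathlib
import Pool.Agent.N184.HK.Stm5
import Pool.Agent.N184.HK.P_TRONE

/-!
Project HK (helper184), FUN: the set where a continuous representation with eigenvalues roots of
unity of bounded order is unipotent contains an open subgroup. Author: helper946.
-/

set_option autoImplicit false
set_option linter.unusedSectionVars false

namespace Pool.Agent.N184.HK

open Module

namespace P_FUN

variable {K V : Type} [Field K] [CharZero K] [IsAlgClosed K] [AddCommGroup V] [Module K V]
  [FiniteDimensional K V]

/-- the eigenvalues are roots of unity -/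
theorem root {f : Module.End K V} {M m : ℕ} (h : (f ^ M - 1) ^ m = 0) {x : K}
    (hx : x ∈ f.charpoly.roots) : x ^ M = 1 := by
  have h1 : f.HasEigenvalue x :=
    (Module.End.hasEigenvalue_iff_isRoot_charpoly f x).2 (Polynomial.isRoot_of_mem_roots hx)
  obtain ⟨v, hv⟩ := h1.exists_hasEigenvector
  have h2 : ∀ k : ℕ, (f ^ k) v = x ^ k • v := by
    intro k
    induction k with
    | zero => simp
    | succ k ih => rw [pow_succ, Module.End.mul_apply, hv.apply_eq_smul, map_smul, ih, smul_smul,
        pow_succ, mul_comm]
  have h3 : ∀ k : ℕ, ((f ^ M - 1) ^ k) v = (x ^ M - 1) ^ k • v := by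
    intro k
    induction k with
    | zero => simp
    | succ k ih => rw [pow_succ, Module.End.mul_apply, LinearMap.sub_apply, h2, Module.End.one_apply,
        show x ^ M • v - v = (x ^ M - 1) • v by rw [sub_smul, one_smul], map_smul, ih, smul_smul,
        pow_succ, mul_comm]
  have h4 := h3 m
  rw [h, LinearMap.zero_apply] at h4
  have h5 := (smul_eq_zero.1 h4.symm).resolve_right hv.2
  have h6 : x ^ M - 1 = 0 := by
    by_contra hne
    exact pow_ne_zero m hne h5
  exact sub_eq_zero.1 h6

/-- the possible traces -/
def Z (K : Type) [Field K] (M n : ℕ) : Set K :=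
  Set.range fun f : Fin n → {x : K // x ^ M = 1} => ∑ i, (f i : K)

theorem fin_Z (M n : ℕ) (hM : 0 < M) : (Z K M n).Finite := by
  classical
  have h1 : Finite {x : K // x ^ M = 1} := by
    have h2 : {x : K | x ^ M = 1}.Finite := by
      refine (Polynomial.nthRoots M (1 : K)).toFinset.finite_toSet.subset fun x hx => ?_
      rw [Finset.mem_coe, Multiset.mem_toFinset, Polynomial.mem_nthRoots hM]
      exact hx
    exact h2.to_subtype
  exact Set.finite_range _

omit [CharZero K] in
theorem card_roots (f : Module.End K V) : Multiset.card f.charpoly.roots = finrank K V := by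
  rw [← (IsAlgClosed.splits f.charpoly).natDegree_eq_card_roots, LinearMap.charpoly_natDegree]

theorem trace_mem {f : Module.End K V} {M m : ℕ} (h : (f ^ M - 1) ^ m = 0) :
    LinearMap.trace K V f ∈ Z K M (finrank K V) := by
  rw [Module.End.trace_eq_sum_roots_charpoly_of_splits (IsAlgClosed.splits _)]
  obtain ⟨l, hl⟩ : ∃ l : List K, (l : Multiset K) = f.charpoly.roots :=
    Quot.exists_rep f.charpoly.roots
  have hlen : l.length = finrank K V := by
    rw [← card_roots f, ← hl]
    rfl
  have hmem : ∀ x ∈ l, x ^ M = 1 := fun x hx => root h (by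
    rw [← hl]
    exact hx)
  refine ⟨fun i => ⟨l.get (i.cast hlen.symm), hmem _ (List.get_mem _ _)⟩, ?_⟩
  rw [← hl, Multiset.sum_coe]
  have e : ∀ (n : ℕ) (hn : l.length = n), ∑ i : Fin n, l.get (i.cast hn.symm) = l.sum := by
    intro n hn
    subst hn
    simp
  exact e _ hlen

theorem uni {f : Module.End K V} {M m : ℕ} (hM : 0 < M) (h : (f ^ M - 1) ^ m = 0)
    (ht : LinearMap.trace K V f = (finrank K V : K)) : IsNilpotent (f - 1) := by
  have h1 : ∀ x ∈ f.charpoly.roots, x = 1 := by
    refine t_trone K M hM f.charpoly.roots (fun x hx => root h hx) ?_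
    rw [← Module.End.trace_eq_sum_roots_charpoly_of_splits (IsAlgClosed.splits _), ht,
      card_roots]
  have h2 : f.charpoly = (Polynomial.X - Polynomial.C 1) ^ (Multiset.card f.charpoly.roots) := by
    conv_lhs => rw [(IsAlgClosed.splits f.charpoly).eq_prod_roots_of_monic f.charpoly_monic]
    rw [Multiset.eq_replicate_of_mem h1]
    simp
  have h3 := LinearMap.aeval_self_charpoly f
  rw [h2] at h3
  refine ⟨Multiset.card f.charpoly.roots, ?_⟩
  simpa using h3

end P_FUN

open P_FUN in
theorem t_fun : S_FUN := by
  intro K V _ _ _ _ _ _ _ _ _ G _ _ _ r M m hM hbas h1 hcont hr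
  have hct : Continuous fun σ => LinearMap.trace K V (r σ) := by
    have e : (fun σ => LinearMap.trace K V (r σ)) = fun σ => ∑ i,
        (Module.finBasis K V).coord i (r σ (Module.finBasis K V i)) := by
      funext σ
      rw [LinearMap.trace_eq_matrix_trace K (Module.finBasis K V), Matrix.trace]
      refine Finset.sum_congr rfl fun i _ => ?_
      rw [Matrix.diag_apply, LinearMap.toMatrix_apply, Module.Basis.coord_apply]
    rw [e]
    exact continuous_finsetSum _ fun i _ => hcont _ _
  have hfin : (Z K M (finrank K V) \ {(finrank K V : K)}).Finite := (fin_Z M _ hM).subset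
    Set.sdiff_subset
  obtain ⟨U, hU, hUO⟩ := hbas ((fun σ => LinearMap.trace K V (r σ)) ⁻¹'
    (Z K M (finrank K V) \ {(finrank K V : K)})ᶜ) (hfin.isClosed.isOpen_compl.preimage hct) (by
      rw [Set.mem_preimage, h1, LinearMap.trace_one]
      exact fun h => h.2 rfl)
  refine ⟨U, hU, fun σ hσ => uni hM (hr σ) ?_⟩
  have h2 := hUO hσ
  rw [Set.mem_preimage] at h2
  by_contra hne
  exact h2 ⟨trace_mem (hr σ), hne⟩

end Pool.Agent.N184.HK
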