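import Mathlib
import Pool.Agent.N184.HK.Stm5

/-!
# Project HK: images and sums of semisimple representations
-/

set_option autoImplicit false

namespace Pool.Agent.N184.HK

open Module

theorem t_imgb : S_IMG := by
  intro K V W G _ _ _ _ _ a b f hf hfe hss W1 hW1
  obtain ⟨C, hC, hCc⟩ := hss (W1.comap f) (by
    rintro _ ⟨g, rfl⟩ x hx
    rw [Submodule.mem_comap] at hx ⊢
    rw [hfe]
    exact hW1 _ ⟨g, rfl⟩ _ hx)
  refine ⟨C.map f, ?_, ?_, ?_⟩
  · rintro _ ⟨g, rfl⟩ x hx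
    obtain ⟨c, hc, rfl⟩ := Submodule.mem_map.1 hx
    rw [← hfe]
    exact Submodule.mem_map_of_mem (hC _ ⟨g, rfl⟩ _ hc)
  · rw [Submodule.disjoint_def]
    intro y hy hy2
    obtain ⟨c, hc, rfl⟩ := Submodule.mem_map.1 hy2
    have : c = 0 := Submodule.disjoint_def.1 hCc.disjoint c hy hc
    rw [this, map_zero]
  · rw [codisjoint_iff, eq_top_iff]
    intro y _
    obtain ⟨x, rfl⟩ := hf y
    have hx : x ∈ W1.comap f ⊔ C := by rw [hCc.sup_eq_top]; exact Submodule.mem_top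
    obtain ⟨u, hu, c, hc, rfl⟩ := Submodule.mem_sup.1 hx
    rw [map_add]
    exact Submodule.add_mem_sup hu (Submodule.mem_map_of_mem hc)

theorem t_sumb : S_SUM := by
  intro K V G ι _ _ _ _ a W h hss htop U hU
  set S : Set (Submodule K V) := {C | (∀ g, ∀ x ∈ C, a g x ∈ C) ∧ C ⊓ U = ⊥} with hS
  obtain ⟨C, ⟨hC1, hC2⟩, hmax⟩ := WellFounded.has_min
    (wellFounded_gt : WellFounded ((· > ·) : Submodule K V → Submodule K V → Prop)) S
    ⟨⊥, by rintro g x hx; rw [Submodule.mem_bot] at hx ⊢; rw [hx, map_zero], bot_inf_eq U⟩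
  refine ⟨C, ?_, ?_, ?_⟩
  · rintro _ ⟨g, rfl⟩ x hx
    exact hC1 g x hx
  · rw [disjoint_iff, inf_comm]
    exact hC2
  rw [codisjoint_iff, eq_top_iff, ← htop]
  refine iSup_le fun i => ?_
  obtain ⟨D', hD', hDc⟩ := hss i ((C ⊔ U).comap (W i).subtype) (by
    rintro _ ⟨g, rfl⟩ x hx
    rw [Submodule.mem_comap] at hx ⊢
    obtain ⟨c, hc, u, hu, hcu⟩ := Submodule.mem_sup.1 hx
    have h1 : (W i).subtype ((a g).restrict (h i g) x) = a g c + a g u := by
      rw [← map_add, hcu]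
      rfl
    rw [h1]
    exact Submodule.add_mem_sup (hC1 g c hc) (hU _ ⟨g, rfl⟩ u hu))
  set D := D'.map (W i).subtype with hD
  have hDst : ∀ g, ∀ x ∈ D, a g x ∈ D := by
    intro g x hx
    obtain ⟨y, hy, rfl⟩ := Submodule.mem_map.1 hx
    exact Submodule.mem_map.2 ⟨_, hD' _ ⟨g, rfl⟩ y hy, rfl⟩
  have hkey : ∀ x ∈ D, x ∈ C ⊔ U → x = 0 := by
    intro x hx hxC
    obtain ⟨y, hy, rfl⟩ := Submodule.mem_map.1 hx
    have : y = 0 := Submodule.disjoint_def.1 hDc.disjoint y hxC hy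
    rw [this, map_zero]
  have h1 : C ⊔ D ∈ S := by
    refine ⟨fun g x hx => ?_, ?_⟩
    · obtain ⟨c, hc, y, hy, rfl⟩ := Submodule.mem_sup.1 hx
      rw [map_add]
      exact Submodule.add_mem_sup (hC1 g c hc) (hDst g y hy)
    · rw [eq_bot_iff]
      rintro x ⟨hx, hxU⟩
      obtain ⟨c, hc, y, hy, rfl⟩ := Submodule.mem_sup.1 hx
      have h2 : y = 0 := by
        refine hkey y hy ?_
        have : y = -c + (c + y) := by abel
        rw [this]
        exact Submodule.add_mem_sup (C.neg_mem hc) hxU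
      rw [h2, add_zero] at hxU ⊢
      rw [← hC2]
      exact ⟨hc, hxU⟩
  have h2 : ¬ (C < C ⊔ D) := hmax _ h1
  have h3 : D ≤ C := by
    by_contra hcon
    exact h2 (lt_of_le_of_ne le_sup_left fun heq => hcon (by rw [heq]; exact le_sup_right))
  have h4 : D = ⊥ := by
    rw [eq_bot_iff]
    intro x hx
    exact (Submodule.mem_bot K).2 (hkey x hx (Submodule.mem_sup_left (h3 hx)))
  have h5 : D' = ⊥ := by
    rw [eq_bot_iff]
    intro x hx
    have h6 : (x : V) ∈ D := Submodule.mem_map_of_mem hx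
    rw [h4, Submodule.mem_bot] at h6
    exact (Submodule.mem_bot K).2 (Subtype.ext h6)
  rw [h5] at hDc
  have h6 := eq_top_of_isCompl_bot hDc
  intro x hx
  have h7 : (⟨x, hx⟩ : W i) ∈ (C ⊔ U).comap (W i).subtype := by rw [h6]; exact Submodule.mem_top
  have h8 : x ∈ C ⊔ U := h7
  rwa [sup_comm] at h8

end Pool.Agent.N184.HK
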