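import Mathlib
import Pool.Agent.N184.HK.Stm5

/-! Project HK, leaf KOL (helper622): Kolchin's theorem, a semigroup of unipotent operators has a
common fixed vector. -/

set_option autoImplicit false

namespace Pool.Agent.N184.HK

open Module

namespace P_KOL

/-- Burnside's theorem, from the Jacobson density theorem -/
theorem burn (K V : Type) [Field K] [IsAlgClosed K] [AddCommGroup V] [Module K V]
    [FiniteDimensional K V] [Nontrivial V] (S : Set (Module.End K V))
    (hS : ∀ W : Submodule K V, (∀ f ∈ S, ∀ x ∈ W, f x ∈ W) → W = ⊥ ∨ W = ⊤) :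
    Algebra.adjoin K S = ⊤ := by
  obtain ⟨A, hA⟩ : ∃ A, A = Algebra.adjoin K S := ⟨_, rfl⟩
  rw [← hA]
  have hsub : S ⊆ A := by
    rw [hA]
    exact Algebra.subset_adjoin
  have hsimp : IsSimpleModule A V := by
    rw [isSimpleModule_iff]
    refine { toNontrivial := inferInstance, eq_bot_or_eq_top := fun N => ?_ }
    have h1 := hS (N.restrictScalars K) (fun f hf x hx => by
      have h2 : (⟨f, hsub hf⟩ : A) • x ∈ N := N.smul_mem _ hx
      exact h2)
    rcases h1 with h1 | h1
    · left
      rw [eq_bot_iff]
      intro x hx
      have : x ∈ N.restrictScalars K := hx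
      rw [h1] at this
      exact this
    · right
      rw [eq_top_iff]
      intro x _
      have : x ∈ N.restrictScalars K := by
        rw [h1]
        trivial
      exact this
  have hsch := IsSimpleModule.algebraMap_end_bijective_of_isAlgClosed (A := A) (V := V) K
  rw [eq_top_iff]
  intro T _
  let T' : Module.End (Module.End A V) V :=
    { toFun := T
      map_add' := T.map_add
      map_smul' := by
        intro g x
        obtain ⟨c, rfl⟩ := hsch.2 g
        have h1 : ∀ y : V, (algebraMap K (Module.End A V) c) • y = c • y := fun y => rfl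
        rw [h1, RingHom.id_apply, h1, T.map_smul] }
  classical
  let b := Module.finBasis K V
  obtain ⟨r, hr⟩ := jacobson_density (R := A) T' (Finset.univ.image b)
  have h1 : T = (r : Module.End K V) := by
    refine b.ext fun i => ?_
    exact hr (b i) (Finset.mem_image_of_mem _ (Finset.mem_univ i))
  rw [h1]
  exact r.2

/-- a semigroup of unipotent operators without stable subspaces is trivial -/
theorem irr (K V : Type) [Field K] [IsAlgClosed K] [AddCommGroup V] [Module K V]
    [FiniteDimensional K V] [Nontrivial V] (S : Set (Module.End K V))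
    (hS : ∀ W : Submodule K V, (∀ f ∈ S, ∀ x ∈ W, f x ∈ W) → W = ⊥ ∨ W = ⊤)
    (hmul : ∀ f ∈ S, ∀ g ∈ S, f * g ∈ S) (hu : ∀ f ∈ S, IsNilpotent (f - 1)) :
    ∀ f ∈ S, f = 1 := by
  have hb := burn K V S hS
  have h1 : ∀ f ∈ S, LinearMap.trace K V (f - 1) = 0 := fun f hf =>
    (LinearMap.isNilpotent_trace_of_isNilpotent (hu f hf)).eq_zero
  have hcl : ∀ a ∈ Submonoid.closure S, a = 1 ∨ a ∈ S := by
    intro a ha
    induction ha using Submonoid.closure_induction with
    | mem x hx => exact Or.inr hx
    | one => exact Or.inl rfl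
    | mul x y _ _ hx hy =>
      rcases hx with rfl | hx
      · rw [one_mul]
        exact hy
      · rcases hy with rfl | hy
        · rw [mul_one]
          exact Or.inr hx
        · exact Or.inr (hmul x hx y hy)
  intro f hf
  have h2 : ∀ a ∈ Submonoid.closure S, LinearMap.trace K V ((f - 1) * a) = 0 := by
    intro a ha
    rcases hcl a ha with rfl | ha
    · rw [mul_one]
      exact h1 f hf
    · have h3 : (f - 1) * a = (f * a - 1) - (a - 1) := by
        rw [sub_mul, one_mul]
        abel
      rw [h3, map_sub, h1 _ (hmul f hf a ha), h1 a ha, sub_zero]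
  have h3 : ∀ a : Module.End K V, LinearMap.trace K V ((f - 1) * a) = 0 := by
    intro a
    have h4 : a ∈ Submodule.span K (Submonoid.closure S : Set (Module.End K V)) := by
      rw [← Algebra.adjoin_eq_span, hb]
      trivial
    induction h4 using Submodule.span_induction with
    | mem x hx => exact h2 x hx
    | zero => rw [mul_zero, map_zero]
    | add x y _ _ hx hy => rw [mul_add, map_add, hx, hy, add_zero]
    | smul c x _ hx => rw [mul_smul_comm, map_smul, hx, smul_zero]
  have h4 : f - 1 = 0 := by
    ext v
    rw [LinearMap.zero_apply]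
    rw [← Module.forall_dual_apply_eq_zero_iff K]
    intro φ
    have h5 := h3 (φ.smulRight v)
    have h6 : (f - 1) * (φ.smulRight v : Module.End K V) = φ.smulRight ((f - 1) v) := by
      ext w
      simp
    rw [h6, LinearMap.trace_smulRight] at h5
    exact h5
  exact sub_eq_zero.1 h4

theorem main (n : ℕ) : ∀ (K V : Type) [Field K] [IsAlgClosed K] [AddCommGroup V]
    [Module K V] [FiniteDimensional K V] [Nontrivial V] (S : Set (Module.End K V)),
    Module.finrank K V ≤ n →
    (∀ f ∈ S, ∀ g ∈ S, f * g ∈ S) → (∀ f ∈ S, IsNilpotent (f - 1)) →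
    ∃ x : V, x ≠ 0 ∧ ∀ f ∈ S, f x = x := by
  induction n with
  | zero =>
    intro K V _ _ _ _ _ _ S hn
    have := Module.finrank_pos (R := K) (M := V)
    omega
  | succ n ih =>
    intro K V _ _ _ _ _ _ S hn hmul hu
    by_cases hS : ∀ W : Submodule K V, (∀ f ∈ S, ∀ x ∈ W, f x ∈ W) → W = ⊥ ∨ W = ⊤
    · obtain ⟨x, hx⟩ := exists_ne (0 : V)
      refine ⟨x, hx, fun f hf => ?_⟩
      rw [irr K V S hS hmul hu f hf, Module.End.one_apply]
    · push Not at hS
      obtain ⟨W, hW, hbot, htop⟩ := hS
      have hlt : Module.finrank K W < Module.finrank K V :=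
        Submodule.finrank_lt htop
      have hnt : Nontrivial W := (Submodule.nontrivial_iff_ne_bot).2 hbot
      obtain ⟨x, hx, hfx⟩ := ih K W {g | ∃ f ∈ S, ∀ x : W, (g x : V) = f x} (by omega)
        (by
          rintro g ⟨f, hf, hgf⟩ g' ⟨f', hf', hgf'⟩
          refine ⟨f * f', hmul f hf f' hf', fun x => ?_⟩
          rw [Module.End.mul_apply, Module.End.mul_apply, hgf, hgf'])
        (by
          rintro g ⟨f, hf, hgf⟩
          obtain ⟨k, hk⟩ := hu f hf
          refine ⟨k, ?_⟩
          have h1 : ∀ (j : ℕ) (x : W), (((g - 1) ^ j) x : V) = ((f - 1) ^ j) x := by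
            intro j
            induction j with
            | zero =>
              intro x
              simp
            | succ j ihj =>
              intro x
              rw [pow_succ, pow_succ, Module.End.mul_apply, Module.End.mul_apply, ihj]
              congr 1
              simp [hgf]
          ext x
          rw [h1, hk]
          simp)
      refine ⟨(x : V), fun h => hx (Subtype.ext h), fun f hf => ?_⟩
      have := hfx (f.restrict (hW f hf)) ⟨f, hf, fun y => rfl⟩
      exact congrArg Subtype.val this

end P_KOL

theorem t_kol : S_KOL := by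
  intro K V _ _ _ _ _ _ _ S hmul hu
  exact P_KOL.main (Module.finrank K V) K V S le_rfl hmul hu

end Pool.Agent.N184.HK
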