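import Mathlib
import Pool.Agent.N184.HK.Stm6

set_option autoImplicit false

/-! NRM: an open subgroup of the Galois group contains an open normal subgroup (helper359). -/

namespace Pool.Agent.N184.HK

theorem t_nrm : S_NRM := by
  intro K _ U hU
  have h1 : (U : Set (Gal(AlgebraicClosure K/K))) ∈ nhds (1 : Gal(AlgebraicClosure K/K)) := hU.mem_nhds U.one_mem
  obtain ⟨E, hE1, hE2, hE3⟩ := (krullTopology_mem_nhds_one_iff_of_normal K (AlgebraicClosure K) _).1 h1
  haveI := hE1
  haveI := hE2
  refine ⟨E.fixingSubgroup, ?_, hE3, IntermediateField.fixingSubgroup_isOpen E⟩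
  rw [← IntermediateField.restrictNormalHom_ker E]
  exact MonoidHom.normal_ker _

end Pool.Agent.N184.HK
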