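import Mathlib
import Pool.Agent.N184.HK.Stm2

/-!
# Project HK: the stabilizer of an idempotent is open (helper93)
-/

set_option autoImplicit false
set_option linter.unusedSectionVars false

namespace Pool.Agent.N184.HK

open Module

namespace P_OPEN

section

variable {K H Γ : Type} [Field K] [AddCommGroup H] [Module K H] [Group Γ]
  {φ : Γ → (H ≃ₗ[K] H)}

lemma phi_one (h : ∀ σ τ, φ (σ * τ) = (φ τ).trans (φ σ)) (x : H) : φ 1 x = x := by
  have h1 : φ 1 (φ 1 x) = φ 1 x := by
    have := h 1 1
    rw [one_mul] at this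
    conv_rhs => rw [this]
    rfl
  exact (φ 1).injective h1

lemma phi_inv (h : ∀ σ τ, φ (σ * τ) = (φ τ).trans (φ σ)) (σ : Γ) (x : H) :
    (φ σ).symm x = φ σ⁻¹ x := by
  rw [LinearEquiv.symm_apply_eq]
  have := h σ σ⁻¹
  rw [mul_inv_cancel] at this
  have h2 : φ 1 x = φ σ (φ σ⁻¹ x) := by
    rw [this]
    rfl
  rw [← h2, phi_one h]

lemma adE_eq (h : ∀ σ τ, φ (σ * τ) = (φ τ).trans (φ σ)) (σ : Γ) (z : Module.End K H) :
    adE (φ σ) z = en (φ σ) * z * en (φ σ⁻¹) := by
  ext x
  change φ σ (z ((φ σ).symm x)) = φ σ (z (φ σ⁻¹ x))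
  rw [phi_inv h]

lemma adE_idem (e : H ≃ₗ[K] H) {z : Module.End K H} (hz : z * z = z) :
    adE e z * adE e z = adE e z := by
  ext x
  change e (z (e.symm (e (z (e.symm x))))) = e (z (e.symm x))
  rw [LinearEquiv.symm_apply_apply]
  have := congrArg (fun f : Module.End K H => f (e.symm x)) hz
  change z (z (e.symm x)) = z (e.symm x) at this
  rw [this]

lemma adE_trace (e : H ≃ₗ[K] H) (z : Module.End K H) :
    LinearMap.trace K H (adE e z) = LinearMap.trace K H z :=
  LinearMap.trace_conj' z e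

/-- an idempotent of trace zero -/
lemma idem_sub [FiniteDimensional K H] [CharZero K] {z w : Module.End K H} (hz : z * z = z)
    (hw : w * w = w) (hc : Commute z w)
    (ht : LinearMap.trace K H (z * w) = LinearMap.trace K H z) : z = z * w := by
  have h1 : z * (z * w) = z * w := by rw [← mul_assoc, hz]
  have h2 : (z * w) * z = z * w := by rw [mul_assoc, ← hc.eq, ← mul_assoc, hz]
  have h3 : (z * w) * (z * w) = z * w := by
    rw [← mul_assoc, h2, mul_assoc, hw]
  have h4 : IsIdempotentElem (z - z * w) := by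
    unfold IsIdempotentElem
    rw [sub_mul, mul_sub, mul_sub, hz, h1, h2, h3]
    abel
  have h5 : z - z * w = 0 := by
    apply LinearMap.IsIdempotentElem.eq_zero_of_trace_eq_zero h4
    rw [map_sub, ht, sub_self]
  exact sub_eq_zero.1 h5

/-- the trace of an idempotent -/
lemma tr_mem [FiniteDimensional K H] {z : Module.End K H} (hz : z * z = z) :
    ∃ n : ℕ, n ≤ finrank K H ∧ LinearMap.trace K H z = n := by
  have h := (LinearMap.isProj_range_iff_isIdempotentElem z).2 hz
  exact ⟨_, Submodule.finrank_le _, h.trace⟩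

end

section

variable {K H Γ : Type} [Field K] [TopologicalSpace K] [IsTopologicalRing K] [AddCommGroup H]
  [Module K H] [FiniteDimensional K H] [Group Γ] [TopologicalSpace Γ] [IsTopologicalGroup Γ]
  {φ : Γ → (H ≃ₗ[K] H)}

open scoped Classical in
lemma cts_mat (h : Cts (fun σ => en (φ σ))) :
    Continuous fun σ => LinearMap.toMatrix (Module.finBasis K H) (Module.finBasis K H)
      (en (φ σ)) := by
  refine continuous_matrix fun i j => ?_
  exact h ((Matrix.entryLinearMap K K i j) ∘ₗ
    (LinearMap.toMatrix (Module.finBasis K H) (Module.finBasis K H)).toLinearMap)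

lemma cts_tr (h : ∀ σ τ, φ (σ * τ) = (φ τ).trans (φ σ)) (hc : Cts (fun σ => en (φ σ)))
    (z : Module.End K H) : Continuous fun σ => LinearMap.trace K H (z * adE (φ σ) z) := by
  have h1 := cts_mat hc
  have h2 := h1.comp (continuous_inv (G := Γ))
  have e : (fun σ => LinearMap.trace K H (z * adE (φ σ) z)) = fun σ => Matrix.trace
      (LinearMap.toMatrix (Module.finBasis K H) (Module.finBasis K H) z *
        (LinearMap.toMatrix (Module.finBasis K H) (Module.finBasis K H) (en (φ σ)) *
          LinearMap.toMatrix (Module.finBasis K H) (Module.finBasis K H) z *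
          LinearMap.toMatrix (Module.finBasis K H) (Module.finBasis K H) (en (φ σ⁻¹)))) := by
    funext σ
    rw [adE_eq h, ← LinearMap.toMatrix_mul, ← LinearMap.toMatrix_mul, ← LinearMap.toMatrix_mul,
      ← LinearMap.trace_eq_matrix_trace]
  rw [e]
  exact (continuous_const.matrix_mul ((h1.matrix_mul continuous_const).matrix_mul h2)).matrix_trace

end

end P_OPEN

open P_OPEN in
/-- **OPEN.** -/
theorem t_open : S_OPEN := by
  intro K H Γ _ _ _ _ _ _ _ _ _ _ _ φ hφ hc z hz hcomm
  set c : Γ → K := fun σ => LinearMap.trace K H (z * adE (φ σ) z) with hcdef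
  have hcont : Continuous c := cts_tr hφ hc z
  have hid : ∀ σ, (z * adE (φ σ) z) * (z * adE (φ σ) z) = z * adE (φ σ) z := by
    intro σ
    have h1 := adE_idem (φ σ) hz
    have h2 := hcomm σ
    rw [mul_assoc, ← mul_assoc (adE (φ σ) z), ← h2.eq, mul_assoc, h1, ← mul_assoc, hz]
  set N : Set K := (fun n : ℕ => (n : K)) '' (Set.Iic (finrank K H)) with hN
  have hNf : N.Finite := (Set.finite_Iic _).image _
  have hcN : ∀ σ, c σ ∈ N := by
    intro σ
    obtain ⟨n, hn, hn'⟩ := tr_mem (hid σ)
    exact ⟨n, hn, hn'.symm⟩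
  refine ⟨c ⁻¹' (N \ {LinearMap.trace K H z})ᶜ, ?_, ?_, ?_⟩
  · exact (hNf.subset Set.sdiff_subset).isClosed.isOpen_compl.preimage hcont
  · rw [Set.mem_preimage, Set.mem_compl_iff, Set.mem_sdiff, not_and, not_not]
    intro _
    rw [Set.mem_singleton_iff]
    have h1 : adE (φ 1) z = z := by
      rw [adE_eq hφ, inv_one]
      ext x
      change φ 1 (z (φ 1 x)) = z x
      rw [phi_one hφ, phi_one hφ]
    change LinearMap.trace K H (z * adE (φ 1) z) = _
    rw [h1, hz]
  · intro σ hσ
    rw [Set.mem_preimage, Set.mem_compl_iff, Set.mem_sdiff, not_and, not_not] at hσ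
    have h1 : LinearMap.trace K H (z * adE (φ σ) z) = LinearMap.trace K H z :=
      Set.mem_singleton_iff.1 (hσ (hcN σ))
    have h2 := idem_sub hz (adE_idem (φ σ) hz) (hcomm σ) h1
    have h3 := idem_sub (adE_idem (φ σ) hz) hz (hcomm σ).symm (by
      rw [← (hcomm σ).eq, h1, adE_trace])
    rw [h3, ← (hcomm σ).eq, ← h2]

end Pool.Agent.N184.HK
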