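import Mathlib
import Pool.Agent.N184.HK.Stm2

/-!
# Project HK, leaf QU (helper335): endomorphisms all of whose eigenvalues are roots of unity
-/

set_option autoImplicit false

namespace Pool.Agent.N184.HK

open Module Polynomial

theorem t_qu : S_QU := by
  intro K A _ _ _ _ _ f M h
  have h1 : (⨆ t, f.maxGenEigenspace t) ≤ LinearMap.ker ((f ^ M - 1) ^ (finrank K A)) := by
    refine iSup_le fun t x hx => ?_
    rw [LinearMap.mem_ker]
    by_cases ht : f.HasEigenvalue t
    · have h2 : (X - C t : K[X]) ∣ X ^ M - 1 := by
        rw [dvd_iff_isRoot]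
        simp [h t ht]
      obtain ⟨q, hq⟩ := h2
      have h3 : (f ^ M - 1) ^ (finrank K A) = aeval f (q ^ (finrank K A)) *
          (f - algebraMap K (Module.End K A) t) ^ (finrank K A) := by
        have h4 : (f ^ M - 1) ^ (finrank K A) = aeval f ((X ^ M - 1 : K[X]) ^ (finrank K A)) := by
          simp
        rw [h4, hq, mul_pow, mul_comm, map_mul]
        congr 1
        simp
      have h5 : ((f - algebraMap K (Module.End K A) t) ^ (finrank K A)) x = 0 := by
        rw [Module.End.maxGenEigenspace_eq_genEigenspace_finrank] at hx
        rw [Module.End.mem_genEigenspace_nat] at hx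
        rw [LinearMap.mem_ker] at hx
        rw [← hx]
        congr 2
      rw [h3, Module.End.mul_apply, h5, map_zero]
    · have h2 : f.maxGenEigenspace t = ⊥ := by
        by_contra hne
        have h' : f.HasUnifEigenvalue t ⊤ := hne
        exact ht (h'.lt (by simp))
      rw [h2, Submodule.mem_bot] at hx
      rw [hx, map_zero]
  rw [Module.End.iSup_maxGenEigenspace_eq_top] at h1
  ext x
  exact h1 (Submodule.mem_top (x := x))

end Pool.Agent.N184.HK
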