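import Mathlib
import Pool.Agent.N184.HK.Stm2

/-!
Project HK (helper184), part REC (helper40): the functional equation.
-/

set_option autoImplicit false

namespace Pool.Agent.N184.HK

open Module Polynomial

namespace P_REC

theorem map_eval {A B : Type} [Field A] [Field B] (g : A →+* B) (P : ℤ[X]) (x : A) :
    g ((P.map (Int.castRingHom A)).eval x) = (P.map (Int.castRingHom B)).eval (g x) := by
  rw [eval_map, eval_map, hom_eval₂, Subsingleton.elim (g.comp (Int.castRingHom A))
    (Int.castRingHom B)]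

theorem mem_roots_iff {A : Type} [Field A] [CharZero A] {P : ℤ[X]} (hP : P.Monic) (x : A) :
    x ∈ (P.map (Int.castRingHom A)).roots ↔ (P.map (Int.castRingHom A)).eval x = 0 := by
  rw [mem_roots (hP.map _).ne_zero, IsRoot.def]

end P_REC

open P_REC in
/-- REC: the functional equation. -/
theorem t_rec : S_REC := by
  intro Q _ _ _ p i hp P hP hz y hy
  let τ : Q →+* ℂ := (IsAlgClosed.lift : Q →ₐ[ℚ] ℂ).toRingHom
  rw [mem_roots_iff hP] at hy ⊢
  have h1 : (P.map (Int.castRingHom ℂ)).eval (τ y) = 0 := by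
    rw [← map_eval τ, hy, map_zero]
  have h2 := hz (τ y) ((mem_roots_iff hP _).2 h1)
  have h3 : (P.map (Int.castRingHom ℂ)).eval ((starRingEnd ℂ) (τ y)) = 0 := by
    rw [← map_eval (starRingEnd ℂ), h1, map_zero]
  have hp0 : (0 : ℝ) < (p : ℝ) ^ i := by positivity
  have h4 : τ y ≠ 0 := by
    intro h
    rw [h, norm_zero] at h2
    norm_num at h2
    exact hp0.ne h2
  have h5 : (starRingEnd ℂ) (τ y) = τ ((p : Q) ^ i / y) := by
    rw [map_div₀, map_pow, map_natCast, eq_div_iff h4, mul_comm, Complex.mul_conj,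
      Complex.normSq_eq_norm_sq, h2]
    push_cast
    rfl
  apply τ.injective
  rw [map_eval τ, ← h5, h3, map_zero]

end Pool.Agent.N184.HK
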