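import Mathlib
import Pool.Agent.N184.HK.Stm6

/-!
# Project HK (helper184): SEMI, semisimplicity through the bicommutant (helper291)
-/

set_option autoImplicit false

namespace Pool.Agent.N184.HK

open Module

namespace P_SEMI

variable {K H G : Type} [Field K] [AddCommGroup H] [Module K H]

/-- stable subspaces -/
def St (R : Set (Module.End K H)) (V : Submodule K H) : Prop := ∀ f ∈ R, ∀ x ∈ V, f x ∈ V

/-- irreducible stable subspaces -/
def Irr (R : Set (Module.End K H)) (V : Submodule K H) : Prop :=
  St R V ∧ V ≠ ⊥ ∧ ∀ V' : Submodule K H, St R V' → V' ≤ V → V' = ⊥ ∨ V' = V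

/-- Step 1: stable subspaces are stable under the bicommutant. -/
theorem stab (R : Set (Module.End K H)) (hR : SSet R) (a : Module.End K H)
    (ha : ∀ z : Module.End K H, (∀ f ∈ R, Commute f z) → Commute a z)
    (V : Submodule K H) (hV : St R V) : ∀ x ∈ V, a x ∈ V := by
  obtain ⟨V', hV', hc⟩ := hR V hV
  have hz : ∀ f ∈ R, Commute f (V.projection V' hc) := by
    intro f hf
    refine LinearMap.ext fun x => ?_
    change f (V.projection V' hc x) = V.projection V' hc (f x)
    have h1 := Submodule.projection_apply_mem hc x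
    have h2 := Submodule.sub_projection_mem hc x
    have h3 : f x = f (V.projection V' hc x) + f (x - V.projection V' hc x) := by
      rw [← map_add]; congr 1; abel
    rw [h3, map_add, Submodule.projection_apply_of_mem_left hc (hV f hf _ h1),
      (Submodule.projection_apply_eq_zero_iff hc).2 (hV' f hf _ h2), add_zero]
  intro x hx
  have h4 : a (V.projection V' hc x) = V.projection V' hc (a x) :=
    congrArg (fun F : Module.End K H => F x) (ha _ hz).eq
  rw [Submodule.projection_apply_of_mem_left hc hx] at h4
  rw [h4]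
  exact Submodule.projection_apply_mem hc _

theorem st_sSup (R : Set (Module.End K H)) (T : Set (Submodule K H)) (hT : ∀ V ∈ T, St R V) :
    St R (sSup T) := by
  intro f hf
  have : sSup T ≤ (sSup T).comap f := by
    refine sSup_le fun V hV => ?_
    intro x hx
    exact (le_sSup hV : V ≤ sSup T) (hT V hV f hf x hx)
  exact fun x hx => this hx

/-- Step 2: the sum of the irreducible stable subspaces is everything. -/
theorem sum_irr [FiniteDimensional K H] (R : Set (Module.End K H)) (hR : SSet R) :
    sSup {V : Submodule K H | Irr R V} = ⊤ := by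
  by_contra hne
  have hst : St R (sSup {V : Submodule K H | Irr R V}) := st_sSup R _ fun V hV => hV.1
  obtain ⟨W', hW', hc⟩ := hR _ hst
  have hW0 : W' ≠ ⊥ := by
    rintro rfl
    exact hne (by simpa using hc.sup_eq_top)
  obtain ⟨V, ⟨hV1, hV2, hV3⟩, hmin⟩ := (wellFounded_lt (α := Submodule K H)).has_min
    {V : Submodule K H | St R V ∧ V ≠ ⊥ ∧ V ≤ W'} ⟨W', hW', hW0, le_rfl⟩
  have hirr : Irr R V := by
    refine ⟨hV1, hV2, fun V' hV' hle => ?_⟩
    by_cases h0 : V' = ⊥
    · exact Or.inl h0
    · refine Or.inr ?_
      by_contra hne'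
      exact hmin V' ⟨hV', h0, hle.trans hV3⟩ (lt_of_le_of_ne hle hne')
  have h1 : V ≤ sSup {V : Submodule K H | Irr R V} := le_sSup hirr
  have h2 : V ≤ ⊥ := hc.disjoint h1 hV3
  exact hV2 (le_bot_iff.1 h2)

/-- elements of the generated algebra keep stable subspaces -/
theorem adj_stab (R : Set (Module.End K H)) (V : Submodule K H) (hV : St R V) :
    ∀ b ∈ Algebra.adjoin K R, ∀ x ∈ V, b x ∈ V := by
  intro b hb
  induction hb using Algebra.adjoin_induction with
  | mem f hf => exact hV f hf
  | algebraMap c => intro x hx; simpa using V.smul_mem c hx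
  | add a b _ _ ha hb => intro x hx; simpa using V.add_mem (ha x hx) (hb x hx)
  | mul a b _ _ ha hb => intro x hx; exact ha _ (hb x hx)

/-- Step 3a: every operator on an irreducible subspace comes from the algebra. -/
theorem surj (hB : S_BURN) [IsAlgClosed K] [FiniteDimensional K H] (R : Set (Module.End K H))
    (V : Submodule K H) (hV : Irr R V) (a : Module.End K V) :
    ∃ b ∈ Algebra.adjoin K R, ∀ x : V, b x = a x := by
  have : Nontrivial V := (Submodule.nontrivial_iff_ne_bot).2 hV.2.1
  have hT := hB K V {a : Module.End K V | ∃ f ∈ R, ∀ x : V, f x = a x} (by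
    intro W hW
    have hst : St R (W.map V.subtype) := by
      rintro f hf _ ⟨x, hx, rfl⟩
      refine ⟨(f.restrict (hV.1 f hf)) x, hW _ ⟨f, hf, fun y => rfl⟩ x hx, rfl⟩
    rcases hV.2.2 _ hst (Submodule.map_subtype_le V W) with h | h
    · left
      refine Submodule.map_injective_of_injective V.injective_subtype ?_
      rw [h, Submodule.map_bot]
    · right
      refine Submodule.map_injective_of_injective V.injective_subtype ?_
      rw [h, Submodule.map_top, Submodule.range_subtype])
  have ha : a ∈ Algebra.adjoin K {a : Module.End K V | ∃ f ∈ R, ∀ x : V, f x = a x} := by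
    rw [hT]; trivial
  induction ha using Algebra.adjoin_induction with
  | mem a ha =>
    obtain ⟨f, hf, h⟩ := ha
    exact ⟨f, Algebra.subset_adjoin hf, h⟩
  | algebraMap c => exact ⟨algebraMap K _ c, Subalgebra.algebraMap_mem _ c, fun x => by simp⟩
  | add a b _ _ ha hb =>
    obtain ⟨f, hf, h⟩ := ha
    obtain ⟨g, hg, h'⟩ := hb
    exact ⟨f + g, add_mem hf hg, fun x => by simp [h, h']⟩
  | mul a b _ _ ha hb =>
    obtain ⟨f, hf, h⟩ := ha
    obtain ⟨g, hg, h'⟩ := hb
    exact ⟨f * g, mul_mem hf hg, fun x => by
      rw [Module.End.mul_apply, h', h, Module.End.mul_apply]⟩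

/-- the restriction of the algebra to a stable subspace -/
noncomputable def res (R : Set (Module.End K H)) (V : Submodule K H) (hV : St R V) :
    Subalgebra.toSubmodule (Algebra.adjoin K R) →ₗ[K] Module.End K V where
  toFun b := (b : Module.End K H).restrict (adj_stab R V hV b b.2)
  map_add' b c := by ext x; rfl
  map_smul' k b := by ext x; rfl

end P_SEMI

open P_SEMI in
theorem t_semi_aux : S_BURN → S_SERRE → S_IMG → S_SUM → S_SEMI := by
  intro hB hSerre hImg hSum K H G _ _ _ _ _ _ R φ hR hbi h hss
  have hst : ∀ V : Submodule K H, St R V → ∀ g, ∀ x ∈ V, (φ g : H →ₗ[K] H) x ∈ V :=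
    fun V hV g => stab R hR _ (fun z hz => hbi z hz g) V hV
  refine hSum K H G {V : Submodule K H // Irr R V} (fun g => (φ g : H →ₗ[K] H)) (fun V => V.1)
    (fun V g => hst V.1 V.2.1 g) ?_ ?_
  · rintro ⟨V, hV⟩
    -- the action on `V` by linear equivalences
    have hinj : ∀ g, Function.Injective ((φ g : H →ₗ[K] H).restrict (hst V hV.1 g)) := by
      intro g x y hxy
      have h1 : φ g x = φ g y := congrArg Subtype.val hxy
      exact Subtype.ext ((φ g).injective h1)
    let ψ : G → (V ≃ₗ[K] V) := fun g => LinearEquiv.ofInjectiveEndo _ (hinj g)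
    have hψ : ∀ g (x : V), ((ψ g x : V) : H) = φ g x := fun g x => rfl
    have hψs : ∀ g (x : V), (((ψ g).symm x : V) : H) = (φ g).symm x := by
      intro g x
      rw [LinearEquiv.eq_symm_apply, ← hψ, LinearEquiv.apply_symm_apply]
    have hEnd := hImg K (Subalgebra.toSubmodule (Algebra.adjoin K R)) (Module.End K V) G
      (fun g => LinearMap.restrict (((φ g).conj : Module.End K (Module.End K H))) (h g))
      (fun g => (((ψ g).conj : Module.End K V ≃ₗ[K] Module.End K V) :
        Module.End K V →ₗ[K] Module.End K V)) (res R V hV.1) (by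
        intro a
        obtain ⟨b, hb, hba⟩ := surj hB R V hV a
        refine ⟨⟨b, hb⟩, ?_⟩
        ext x
        exact hba x) (by
        intro g b
        ext x
        change (φ g) ((b : Module.End K H) ((φ g).symm x)) =
          ((ψ g (((b : Module.End K H).restrict (adj_stab R V hV.1 b b.2)) ((ψ g).symm x)) : V) : H)
        rw [hψ]
        change _ = (φ g) ((b : Module.End K H) (((ψ g).symm x : V) : H))
        rw [hψs]) hss
    have h2 := hSerre K V G ψ hEnd
    have h3 : (fun g => ((φ g : H →ₗ[K] H)).restrict (hst V hV.1 g)) =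
        fun g => (ψ g : V →ₗ[K] V) := by
      funext g
      ext x
      rfl
    rw [h3]
    exact h2
  · rw [← sSup_range]
    convert sum_irr R hR
    exact Subtype.range_val

end Pool.Agent.N184.HK
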