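import Mathlib
import Pool.Agent.N184.HK.Stm5

/-!
# Project HK (helper184): leaf SERRE (helper130)

If the action by conjugation on `End V` is semisimple then `V` is semisimple (characteristic zero).
-/

set_option autoImplicit false

namespace Pool.Agent.N184.HK

open Module

namespace P_SERRE

variable {K V : Type} [Field K] [AddCommGroup V] [Module K V]

/-- the operators with values in `W` -/
def HW (W : Submodule K V) : Submodule K (Module.End K V) where
  carrier := {f | ∀ x, f x ∈ W}
  add_mem' := fun ha hb x => W.add_mem (ha x) (hb x)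
  zero_mem' := fun _ => W.zero_mem
  smul_mem' := fun c _ h x => W.smul_mem c (h x)

lemma mem_HW {W : Submodule K V} {f : Module.End K V} : f ∈ HW W ↔ ∀ x, f x ∈ W := Iff.rfl

variable [FiniteDimensional K V]

/-- the averaged operator -/
noncomputable def rr (P : Module.End K (Module.End K V)) : V →ₗ[K] V :=
  ((finrank K V : K)⁻¹) • ∑ j, (LinearMap.applyₗ (finBasis K V j)) ∘ₗ P ∘ₗ
    (LinearMap.smulRightₗ ((finBasis K V).dualBasis j))

lemma rr_apply (P : Module.End K (Module.End K V)) (v : V) :
    rr P v = ((finrank K V : K)⁻¹) • ∑ j, (P (LinearMap.smulRight ((finBasis K V).dualBasis j) v))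
      (finBasis K V j) := by
  unfold rr
  simp [LinearMap.sum_apply]

/-- the operator on the dual space -/
noncomputable def AA (P : Module.End K (Module.End K V)) (L : Dual K V) (v : V) :
    Module.End K (Dual K V) where
  toFun b := L ∘ₗ (P (LinearMap.smulRight b v))
  map_add' b c := by
    have h : LinearMap.smulRight (b + c) v = LinearMap.smulRight b v + LinearMap.smulRight c v := by
      ext x; simp [add_smul]
    rw [h, map_add, LinearMap.comp_add]
  map_smul' t b := by
    have h : LinearMap.smulRight (t • b) v = t • LinearMap.smulRight b v := by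
      ext x; simp [mul_smul]
    rw [h, map_smul, LinearMap.comp_smul, RingHom.id_apply]

lemma AA_apply (P : Module.End K (Module.End K V)) (L : Dual K V) (v : V) (b : Dual K V) (x : V) :
    AA P L v b x = L (P (LinearMap.smulRight b v) x) := rfl

lemma L_rr (P : Module.End K (Module.End K V)) (L : Dual K V) (v : V) :
    L (rr P v) = ((finrank K V : K)⁻¹) * LinearMap.trace K (Dual K V) (AA P L v) := by
  rw [rr_apply, map_smul, map_sum, smul_eq_mul,
    LinearMap.trace_eq_matrix_trace K (finBasis K V).dualBasis, Matrix.trace]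
  congr 1
  refine Finset.sum_congr rfl fun j _ => ?_
  rw [Matrix.diag_apply, LinearMap.toMatrix_apply, Basis.dualBasis_repr, AA_apply]

lemma rr_mem {P : Module.End K (Module.End K V)} {W : Submodule K V} (hP : ∀ f, P f ∈ HW W)
    (v : V) : rr P v ∈ W := by
  rw [rr_apply]
  exact W.smul_mem _ (W.sum_mem fun j _ => hP _ _)

lemma rr_fix [CharZero K] {P : Module.End K (Module.End K V)} {W : Submodule K V}
    (hP : ∀ f ∈ HW W, P f = f) {w : V} (hw : w ∈ W) : rr P w = w := by
  rw [← sub_eq_zero, ← Module.forall_dual_apply_eq_zero_iff K]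
  intro L
  rw [map_sub, L_rr, sub_eq_zero]
  have h1 : AA P L w = L w • (1 : Module.End K (Dual K V)) := by
    ext b x
    rw [AA_apply, hP _ (fun y => by
      rw [LinearMap.smulRight_apply]
      exact W.smul_mem _ hw)]
    simp [mul_comm]
  rw [h1, map_smul, LinearMap.trace_one, smul_eq_mul, Subspace.dual_finrank_eq]
  by_cases h : finrank K V = 0
  · have : Subsingleton V := Module.finrank_zero_iff.1 h
    rw [Subsingleton.elim w 0]
    simp
  · have h2 : (finrank K V : K) ≠ 0 := by exact_mod_cast h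
    field_simp

lemma rr_equiv {P : Module.End K (Module.End K V)} (u : V ≃ₗ[K] V)
    (hP : ∀ f, P (u.conj f) = u.conj (P f)) (v : V) : rr P (u v) = u (rr P v) := by
  rw [← sub_eq_zero, ← Module.forall_dual_apply_eq_zero_iff K]
  intro L
  rw [map_sub, sub_eq_zero, L_rr]
  have h0 : L (u (rr P v)) = (L ∘ₗ (u : V →ₗ[K] V)) (rr P v) := rfl
  rw [h0, L_rr]
  congr 1
  have h1 : AA P L (u v) = (u.symm.dualMap).conj (AA P (L ∘ₗ (u : V →ₗ[K] V)) v) := by
    ext b x
    rw [LinearEquiv.conj_apply_apply, AA_apply]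
    have h2 : LinearMap.smulRight b (u v) =
        u.conj (LinearMap.smulRight (u.symm.dualMap.symm b) v) := by
      ext y
      rw [LinearEquiv.conj_apply_apply]
      simp [LinearEquiv.dualMap_symm, LinearEquiv.dualMap_apply]
    rw [h2, hP, LinearEquiv.conj_apply_apply]
    rfl
  rw [h1, LinearMap.trace_conj']

end P_SERRE

open P_SERRE

theorem t_serre : S_SERRE := by
  intro K V G _ _ _ _ _ φ hφ W hW
  have hW' : ∀ g, ∀ x ∈ W, φ g x ∈ W := fun g x hx => hW _ ⟨g, rfl⟩ x hx
  obtain ⟨C, hC, hcompl⟩ := hφ (HW W) (by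
    rintro _ ⟨g, rfl⟩ f hf x
    show (φ g).conj f x ∈ W
    rw [LinearEquiv.conj_apply_apply]
    exact hW' g _ (hf _))
  have hC' : ∀ g, ∀ f ∈ C, (φ g).conj f ∈ C := fun g f hf => hC _ ⟨g, rfl⟩ f hf
  have hH' : ∀ g, ∀ f ∈ HW W, (φ g).conj f ∈ HW W := by
    intro g f hf x
    rw [LinearEquiv.conj_apply_apply]
    exact hW' g _ (hf _)
  set P : Module.End K (Module.End K V) :=
    (HW W).subtype ∘ₗ (Submodule.projectionOnto (HW W) C hcompl) with hPdef
  have hP1 : ∀ f, P f ∈ HW W := fun f => (Submodule.projectionOnto (HW W) C hcompl f).2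
  have hP2 : ∀ f ∈ HW W, P f = f := by
    intro f hf
    have := Submodule.projectionOnto_apply_left hcompl ⟨f, hf⟩
    rw [hPdef, LinearMap.comp_apply]
    show ((Submodule.projectionOnto (HW W) C hcompl f : HW W) : Module.End K V) = f
    rw [show f = ((⟨f, hf⟩ : HW W) : Module.End K V) from rfl, this]
  have hP3 : ∀ f ∈ C, P f = 0 := by
    intro f hf
    rw [hPdef, LinearMap.comp_apply, (Submodule.projectionOnto_apply_eq_zero_iff hcompl).2 hf,
      map_zero]
  have hP4 : ∀ g f, P ((φ g).conj f) = (φ g).conj (P f) := by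
    intro g f
    obtain ⟨a, ha, c, hc, rfl⟩ : ∃ a ∈ HW W, ∃ c ∈ C, a + c = f := by
      have : f ∈ HW W ⊔ C := by rw [hcompl.sup_eq_top]; trivial
      exact Submodule.mem_sup.1 this
    rw [map_add, map_add, map_add, map_add, hP2 _ (hH' g a ha), hP3 _ (hC' g c hc), hP2 a ha,
      hP3 c hc, map_zero]
  refine ⟨LinearMap.ker (rr P), ?_, ?_⟩
  · rintro _ ⟨g, rfl⟩ x hx
    rw [LinearMap.mem_ker] at hx ⊢
    show rr P (φ g x) = 0
    rw [rr_equiv (φ g) (hP4 g), hx, map_zero]
  · constructor
    · rw [Submodule.disjoint_def]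
      intro x hx hx'
      rw [LinearMap.mem_ker, rr_fix hP2 hx] at hx'
      exact hx'
    · rw [codisjoint_iff, eq_top_iff]
      intro v _
      rw [Submodule.mem_sup]
      refine ⟨rr P v, rr_mem hP1 v, v - rr P v, ?_, by abel⟩
      rw [LinearMap.mem_ker, map_sub, rr_fix hP2 (rr_mem hP1 v), sub_self]

end Pool.Agent.N184.HK
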