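import Mathlib
import Pool.Agent.N184.HK.Stm

/-!
HK/SL2A: the hard Lefschetz property gives an `sl₂`-triple in `so(V, q)`. Existence of the third
element by a trace argument (duality for the trace form), then homogenisation and
antisymmetrisation.
-/

set_option autoImplicit false

namespace Pool.Agent.N184.HK

namespace P_SL2A

open Module

section

variable {K V : Type} [Field K] [CharZero K] [AddCommGroup V] [Module K V]
  [FiniteDimensional K V]

/-- a basis of eigenvectors -/
theorem eig_basis (D : Module.End K V) (h : (⨆ j : ℤ, D.eigenspace (j : K)) = ⊤) :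
    ∃ (ι : Type) (_ : Fintype ι) (b : Basis ι K V) (w : ι → ℤ), ∀ i, D (b i) = (w i : K) • b i := by
  classical
  have hind : iSupIndep fun j : ℤ => D.eigenspace (j : K) :=
    (Module.End.eigenspaces_iSupIndep D).comp (Int.cast_injective)
  have hint : DirectSum.IsInternal fun j : ℤ => D.eigenspace (j : K) :=
    DirectSum.isInternal_submodule_of_iSupIndep_of_iSup_eq_top hind h
  let v : ∀ j : ℤ, Basis (Fin (Module.finrank K (D.eigenspace (j : K)))) K
    (D.eigenspace (j : K)) := fun j => Module.finBasis K _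
  let b := hint.collectedBasis v
  have : Finite (Σ j : ℤ, Fin (Module.finrank K (D.eigenspace (j : K)))) :=
    Module.Finite.finite_basis b
  exact ⟨_, Fintype.ofFinite _, b, fun i => i.1, fun i =>
    Module.End.mem_eigenspace_iff.1 (hint.collectedBasis_mem v i)⟩

set_option linter.unusedSectionVars false

variable {ι : Type} [Fintype ι] (b : Basis ι K V) (w : ι → ℤ)

/-- the projection to an eigenspace -/
noncomputable def pj (k : ℤ) : Module.End K V := b.constr K fun i => if w i = k then b i else 0

theorem pj_b (k : ℤ) (i : ι) : pj b w k (b i) = if w i = k then b i else 0 := by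
  unfold pj
  rw [Basis.constr_basis]

variable {b w}

theorem pj_eig {D : Module.End K V} (hb : ∀ i, D (b i) = (w i : K) • b i) {l : ℤ} {v : V}
    (hv : D v = (l : K) • v) (k : ℤ) : pj b w k v = if l = k then v else 0 := by
  classical
  have hc : ∀ i, w i ≠ l → b.repr v i = 0 := by
    intro i hi
    have h1 : b.repr (D v) i = (w i : K) * b.repr v i := by
      conv_lhs => rw [← b.sum_repr v]
      rw [map_sum, map_sum, Finset.sum_apply']
      simp only [map_smul, hb, Finsupp.smul_apply, Basis.repr_self, smul_eq_mul]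
      rw [Finset.sum_eq_single i]
      · simp
        ring
      · intro j _ hj
        rw [Finsupp.single_apply, if_neg hj]
        simp
      · intro h
        exact absurd (Finset.mem_univ i) h
    rw [hv, map_smul, Finsupp.smul_apply, smul_eq_mul] at h1
    have h2 : ((w i : K) - (l : K)) * b.repr v i = 0 := by
      rw [sub_mul, ← h1, sub_self]
    rcases mul_eq_zero.1 h2 with h3 | h3
    · exfalso
      apply hi
      have : (w i : K) = (l : K) := sub_eq_zero.1 h3
      exact_mod_cast this
    · exact h3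
  conv_lhs => rw [← b.sum_repr v]
  rw [map_sum]
  simp only [map_smul, pj_b]
  split_ifs with hlk
  · conv_rhs => rw [← b.sum_repr v]
    refine Finset.sum_congr rfl fun i _ => ?_
    by_cases hi : w i = k
    · rw [if_pos hi]
    · rw [hc i (by rw [hlk]; exact hi), zero_smul, zero_smul]
  · refine Finset.sum_eq_zero fun i _ => ?_
    by_cases hi : w i = k
    · rw [hc i (by rw [hi]; exact Ne.symm hlk), zero_smul]
    · rw [if_neg hi, smul_zero]

theorem pj_mem {D : Module.End K V} (hb : ∀ i, D (b i) = (w i : K) • b i) (k : ℤ) (v : V) :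
    D (pj b w k v) = (k : K) • pj b w k v := by
  classical
  conv_lhs => rw [← b.sum_repr v]
  conv_rhs => rw [← b.sum_repr v]
  simp only [map_sum, map_smul, Finset.smul_sum, pj_b]
  refine Finset.sum_congr rfl fun i _ => ?_
  by_cases hi : w i = k
  · rw [if_pos hi, hb, hi, smul_comm]
  · rw [if_neg hi, map_zero, smul_zero, smul_zero]

theorem low {D N : Module.End K V} (hDN : D * N - N * D = -(2 : K) • N) {l : ℤ} {v : V}
    (hv : D v = (l : K) • v) : D (N v) = ((l - 2 : ℤ) : K) • N v := by
  have h := congrArg (fun A : Module.End K V => A v) hDN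
  simp only [LinearMap.sub_apply, Module.End.mul_apply, LinearMap.smul_apply, hv, map_smul] at h
  rw [sub_eq_iff_eq_add] at h
  rw [h]
  push_cast
  rw [sub_smul, neg_smul]
  abel

theorem low_pow {D N : Module.End K V} (hDN : D * N - N * D = -(2 : K) • N) (k : ℕ) {l : ℤ} {v : V}
    (hv : D v = (l : K) • v) : D ((N ^ k) v) = ((l - 2 * k : ℤ) : K) • (N ^ k) v := by
  induction k with
  | zero => simpa using hv
  | succ k ih =>
    rw [pow_succ', Module.End.mul_apply]
    have h := low hDN ih
    rw [h]
    congr 2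
    push_cast
    ring

/-- the trace of an operator commuting with `N` on `V_k` and `V_(-k)` -/
theorem tr_symm {D N : Module.End K V} (hb : ∀ i, D (b i) = (w i : K) • b i)
    (hDN : D * N - N * D = -(2 : K) • N)
    (hbij : ∀ j : ℕ, Set.BijOn (⇑(N ^ j)) (D.eigenspace (j : K) : Set V)
      (D.eigenspace (-(j : K)) : Set V)) (C : Module.End K V) (hC : C * N = N * C) (k : ℕ) :
    LinearMap.trace K V (C * pj b w k) = LinearMap.trace K V (C * pj b w (-k)) := by
  classical
  have hmaps : ∀ x ∈ D.eigenspace ((k : ℕ) : K), (N ^ k) x ∈ D.eigenspace (-((k : ℕ) : K)) :=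
    fun x hx => (hbij k).mapsTo hx
  have hCk : C * N ^ k = N ^ k * C := (Commute.pow_right (show Commute C N from hC) k).eq
  let f : D.eigenspace ((k : ℕ) : K) →ₗ[K] D.eigenspace (-((k : ℕ) : K)) :=
    (N ^ k).restrict hmaps
  have hf : Function.Bijective f := by
    constructor
    · intro x y hxy
      apply Subtype.ext
      exact (hbij k).injOn x.2 y.2 (congrArg Subtype.val hxy)
    · intro y
      obtain ⟨x, hx, hxy⟩ := (hbij k).surjOn y.2
      exact ⟨⟨x, hx⟩, Subtype.ext hxy⟩
  let e := LinearEquiv.ofBijective f hf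
  have he : ∀ x, (e x : V) = (N ^ k) (x : V) := fun _ => rfl
  have hm1 : ∀ v, pj b w (k : ℤ) v ∈ D.eigenspace ((k : ℕ) : K) := by
    intro v
    rw [Module.End.mem_eigenspace_iff, pj_mem hb]
    push_cast
    rfl
  have hm2 : ∀ v, pj b w (-(k : ℤ)) v ∈ D.eigenspace (-((k : ℕ) : K)) := by
    intro v
    rw [Module.End.mem_eigenspace_iff, pj_mem hb]
    push_cast
    rfl
  let S : Module.End K V := (D.eigenspace ((k : ℕ) : K)).subtype ∘ₗ (e.symm : _ →ₗ[K] _) ∘ₗ
    ((pj b w (-(k : ℤ))).codRestrict _ hm2)
  have hS : ∀ v, S v = (e.symm ⟨pj b w (-(k : ℤ)) v, hm2 v⟩ : V) := fun _ => rfl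
  have hcomm : N ^ k * pj b w (k : ℤ) = pj b w (-(k : ℤ)) * N ^ k := by
    apply b.ext
    intro i
    rw [Module.End.mul_apply, Module.End.mul_apply, pj_b]
    have h1 := low_pow hDN k (hb i)
    rw [pj_eig hb h1]
    by_cases hi : w i = k
    · rw [if_pos hi, if_pos (by omega)]
    · rw [if_neg hi, if_neg (by omega), map_zero]
  have hi1 : S * (N ^ k * pj b w (k : ℤ)) = pj b w (k : ℤ) := by
    ext v
    rw [Module.End.mul_apply, hS]
    have h1 : (⟨pj b w (-(k : ℤ)) ((N ^ k * pj b w (k : ℤ)) v), hm2 _⟩ :
        D.eigenspace (-((k : ℕ) : K))) = e ⟨pj b w (k : ℤ) v, hm1 v⟩ := by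
      apply Subtype.ext
      rw [he]
      change pj b w (-(k : ℤ)) ((N ^ k) (pj b w (k : ℤ) v)) = (N ^ k) (pj b w (k : ℤ) v)
      rw [pj_eig hb (low_pow hDN k (pj_mem hb (k : ℤ) v)), if_pos (by omega)]
    rw [h1, LinearEquiv.symm_apply_apply]
  have hi2 : N ^ k * (S * pj b w (-(k : ℤ))) = pj b w (-(k : ℤ)) := by
    ext v
    rw [Module.End.mul_apply, Module.End.mul_apply, hS, ← he, LinearEquiv.apply_symm_apply]
    change pj b w (-(k : ℤ)) (pj b w (-(k : ℤ)) v) = _
    rw [pj_eig hb (pj_mem hb (-(k : ℤ)) v), if_pos rfl]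
  calc LinearMap.trace K V (C * pj b w k)
      = LinearMap.trace K V (C * (S * (N ^ k * pj b w (k : ℤ)))) := by rw [hi1]
    _ = LinearMap.trace K V ((C * S * pj b w (-(k : ℤ))) * N ^ k) := by
        rw [hcomm]
        simp only [mul_assoc]
    _ = LinearMap.trace K V (N ^ k * (C * S * pj b w (-(k : ℤ)))) := LinearMap.trace_mul_comm _ _ _
    _ = LinearMap.trace K V (C * (N ^ k * (S * pj b w (-(k : ℤ))))) := by
        congr 1
        rw [← mul_assoc C, hCk]
        simp only [mul_assoc]
    _ = _ := by rw [hi2]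

/-- the trace of `C * D` vanishes if `C` commutes with `N` -/
theorem tr_zero {D N : Module.End K V} (hb : ∀ i, D (b i) = (w i : K) • b i)
    (hDN : D * N - N * D = -(2 : K) • N)
    (hbij : ∀ j : ℕ, Set.BijOn (⇑(N ^ j)) (D.eigenspace (j : K) : Set V)
      (D.eigenspace (-(j : K)) : Set V)) (C : Module.End K V) (hC : C * N = N * C) :
    LinearMap.trace K V (C * D) = 0 := by
  classical
  have hsym : ∀ k : ℤ, LinearMap.trace K V (C * pj b w k) =
      LinearMap.trace K V (C * pj b w (-k)) := by
    intro k
    obtain ⟨n, rfl | rfl⟩ := k.eq_nat_or_neg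
    · exact tr_symm hb hDN hbij C hC n
    · rw [neg_neg]
      exact (tr_symm hb hDN hbij C hC n).symm
  obtain ⟨M, hM⟩ : ∃ M : ℤ, ∀ i, |w i| ≤ M :=
    ⟨∑ i, |w i|, fun i => Finset.single_le_sum (f := fun i => |w i|) (fun j _ => abs_nonneg _)
      (Finset.mem_univ i)⟩
  have hD : D = ∑ k ∈ Finset.Icc (-M) M, (k : K) • pj b w k := by
    apply b.ext
    intro i
    rw [LinearMap.sum_apply, hb]
    simp only [LinearMap.smul_apply, pj_b]
    rw [Finset.sum_eq_single (w i)]
    · rw [if_pos rfl]
    · intro j _ hj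
      rw [if_neg (Ne.symm hj), smul_zero]
    · intro h
      exfalso
      apply h
      rw [Finset.mem_Icc]
      exact abs_le.1 (hM i)
  have h1 : LinearMap.trace K V (C * D) =
      ∑ k ∈ Finset.Icc (-M) M, (k : K) * LinearMap.trace K V (C * pj b w k) := by
    conv_lhs => rw [hD]
    rw [Finset.mul_sum, map_sum]
    refine Finset.sum_congr rfl fun k _ => ?_
    rw [mul_smul_comm, map_smul, smul_eq_mul]
  have h2 : ∑ k ∈ Finset.Icc (-M) M, (k : K) * LinearMap.trace K V (C * pj b w k) =
      ∑ k ∈ Finset.Icc (-M) M, -((k : K) * LinearMap.trace K V (C * pj b w k)) := by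
    refine Finset.sum_nbij' (fun k => -k) (fun k => -k) ?_ ?_ ?_ ?_ ?_
    · intro k hk
      rw [Finset.mem_Icc] at hk ⊢
      omega
    · intro k hk
      rw [Finset.mem_Icc] at hk ⊢
      omega
    · intro k _
      exact neg_neg k
    · intro k _
      exact neg_neg k
    · intro k _
      rw [← hsym k]
      push_cast
      ring
  rw [Finset.sum_neg_distrib, ← h1] at h2
  have h3 : (2 : K) * LinearMap.trace K V (C * D) = 0 := by
    rw [two_mul]
    nth_rewrite 1 [h2]
    exact neg_add_cancel _
  rcases mul_eq_zero.1 h3 with h4 | h4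
  · exact absurd h4 two_ne_zero
  · exact h4

omit [CharZero K] in
/-- linear functionals on operators are traces -/
theorem func_trace (f : Module.End K V →ₗ[K] K) :
    ∃ C : Module.End K V, ∀ A, f A = LinearMap.trace K V (C * A) := by
  let Ψ : Module.End K V →ₗ[K] Module.Dual K (Module.End K V) :=
    (LinearMap.mul K (Module.End K V)).compr₂ (LinearMap.trace K V)
  have hΨ : ∀ C A, Ψ C A = LinearMap.trace K V (C * A) := fun _ _ => rfl
  have hinj : Function.Injective Ψ := by
    rw [injective_iff_map_eq_zero]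
    intro C hC
    ext v
    rw [LinearMap.zero_apply, ← Module.forall_dual_apply_eq_zero_iff K]
    intro φ
    have h1 := hΨ C (φ.smulRight v)
    rw [hC, LinearMap.zero_apply] at h1
    have h2 : C * φ.smulRight v = φ.smulRight (C v) := by
      ext x
      simp
    rw [h2, LinearMap.trace_smulRight] at h1
    exact h1.symm
  have hsurj : Function.Surjective Ψ :=
    (LinearMap.injective_iff_surjective_of_finrank_eq_finrank
      (Subspace.dual_finrank_eq (K := K) (V := Module.End K V)).symm).1 hinj
  obtain ⟨C, hC⟩ := hsurj f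
  exact ⟨C, fun A => by rw [← hΨ, hC]⟩

/-- existence, without homogeneity -/
theorem exists_A {D N : Module.End K V} (hb : ∀ i, D (b i) = (w i : K) • b i)
    (hDN : D * N - N * D = -(2 : K) • N)
    (hbij : ∀ j : ℕ, Set.BijOn (⇑(N ^ j)) (D.eigenspace (j : K) : Set V)
      (D.eigenspace (-(j : K)) : Set V)) : ∃ A : Module.End K V, A * N - N * A = D := by
  let Φ : Module.End K V →ₗ[K] Module.End K V := LinearMap.mulRight K N - LinearMap.mulLeft K N
  have hΦ : ∀ A, Φ A = A * N - N * A := fun _ => rfl
  by_contra hcon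
  have hnot : D ∉ LinearMap.range Φ := by
    rintro ⟨A, hA⟩
    exact hcon ⟨A, hA⟩
  obtain ⟨f, hf, hf'⟩ := Submodule.exists_le_ker_of_notMem hnot
  obtain ⟨C, hC⟩ := func_trace f
  have h1 : ∀ A, LinearMap.trace K V ((N * C - C * N) * A) = 0 := by
    intro A
    have h2 : f (Φ A) = 0 := LinearMap.mem_ker.1 (hf' ⟨A, rfl⟩)
    rw [hC, hΦ, mul_sub, map_sub, ← mul_assoc, LinearMap.trace_mul_comm K (C * A) N] at h2
    rw [sub_mul, map_sub, mul_assoc N C A, mul_assoc C N A]
    exact h2
  have h3 : N * C - C * N = 0 := by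
    ext v
    rw [LinearMap.zero_apply, ← Module.forall_dual_apply_eq_zero_iff K]
    intro φ
    have h4 := h1 (φ.smulRight v)
    have h2 : (N * C - C * N) * φ.smulRight v = φ.smulRight ((N * C - C * N) v) := by
      ext x
      simp
    rw [h2, LinearMap.trace_smulRight] at h4
    exact h4
  apply hf
  rw [hC]
  exact tr_zero hb hDN hbij C (sub_eq_zero.1 h3).symm

/-- existence with homogeneity -/
theorem exists_X {D N : Module.End K V} (hb : ∀ i, D (b i) = (w i : K) • b i)
    (hDN : D * N - N * D = -(2 : K) • N)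
    (hbij : ∀ j : ℕ, Set.BijOn (⇑(N ^ j)) (D.eigenspace (j : K) : Set V)
      (D.eigenspace (-(j : K)) : Set V)) :
    ∃ X : Module.End K V, D * X - X * D = (2 : K) • X ∧ X * N - N * X = D := by
  classical
  obtain ⟨A, hA⟩ := exists_A hb hDN hbij
  let X : Module.End K V := b.constr K fun i => pj b w (w i + 2) (A (b i))
  have hXb : ∀ i, X (b i) = pj b w (w i + 2) (A (b i)) := fun i => Basis.constr_basis _ _ _ _
  -- the value on eigenvectors
  have hX : ∀ (l : ℤ) (v : V), D v = (l : K) • v → X v = pj b w (l + 2) (A v) := by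
    intro l v hv
    have hv' : v = pj b w l v := by rw [pj_eig hb hv, if_pos rfl]
    have key : X * pj b w l = pj b w (l + 2) * A * pj b w l := by
      apply b.ext
      intro i
      rw [Module.End.mul_apply, Module.End.mul_apply, Module.End.mul_apply, pj_b]
      by_cases hi : w i = l
      · rw [if_pos hi, hXb, hi]
      · rw [if_neg hi, map_zero, map_zero, map_zero]
    have h1 := congrArg (fun B : Module.End K V => B v) key
    simp only [Module.End.mul_apply] at h1
    rwa [← hv'] at h1
  -- `N` and the projections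
  have hcomm : ∀ k : ℤ, N * pj b w (k + 2) = pj b w k * N := by
    intro k
    apply b.ext
    intro i
    rw [Module.End.mul_apply, Module.End.mul_apply, pj_b, pj_eig hb (low hDN (hb i))]
    by_cases hi : w i = k + 2
    · rw [if_pos hi, if_pos (by omega)]
    · rw [if_neg hi, if_neg (by omega), map_zero]
  refine ⟨X, ?_, ?_⟩
  · apply b.ext
    intro i
    rw [LinearMap.sub_apply, Module.End.mul_apply, Module.End.mul_apply, hb, map_smul, hXb,
      pj_mem hb, LinearMap.smul_apply, hXb, ← sub_smul]
    congr 1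
    push_cast
    ring
  · apply b.ext
    intro i
    rw [LinearMap.sub_apply, Module.End.mul_apply, Module.End.mul_apply, hX _ _ (low hDN (hb i)),
      hXb]
    have h1 := congrArg (fun B : Module.End K V => B (A (b i))) (hcomm (w i))
    simp only [Module.End.mul_apply] at h1
    rw [h1, sub_add_cancel, ← map_sub]
    have h2 := congrArg (fun B : Module.End K V => B (b i)) hA
    simp only [LinearMap.sub_apply, Module.End.mul_apply] at h2
    rw [h2, hb, map_smul, pj_b, if_pos rfl]

end

end P_SL2A

open P_SL2A in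
theorem t_sl2a : S_SL2A := by
  intro K V _ _ _ _ _ q hq hnd D N hD hN hDN htop hbij
  obtain ⟨ι, _, b, w, hb⟩ := eig_basis D htop
  obtain ⟨X, h1, h2⟩ := exists_X hb hDN hbij
  -- the adjoint
  obtain ⟨Y, hY⟩ : ∃ Y : Module.End K V, ∀ x y, q (Y x) y = q x (X y) :=
    ⟨q.leftAdjointOfNondegenerate hnd X, fun x y =>
      LinearMap.BilinForm.isAdjointPairLeftAdjointOfNondegenerate q hnd X x y⟩
  have hs : ∀ x y, q x y = q y x := fun x y => by
    simpa using hq.eq x y
  have hext : ∀ A B : Module.End K V, (∀ x y, q (A x) y = q (B x) y) → A = B := by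
    intro A B h
    ext x
    have h3 : q (A x - B x) = 0 := by
      ext y
      rw [map_sub, LinearMap.sub_apply, h, sub_self, LinearMap.zero_apply]
    have h4 : A x - B x = 0 := by
      have h5 := LinearMap.BilinForm.Nondegenerate.ker_eq_bot hnd
      have h6 : A x - B x ∈ LinearMap.ker q := LinearMap.mem_ker.2 h3
      rw [h5] at h6
      exact (Submodule.mem_bot K).1 h6
    exact sub_eq_zero.1 h4
  have e1 : ∀ y, D (X y) - X (D y) = (2 : K) • X y := fun y => by
    have := congrArg (fun B : Module.End K V => B y) h1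
    simpa using this
  have e2 : ∀ y, X (N y) - N (X y) = D y := fun y => by
    have := congrArg (fun B : Module.End K V => B y) h2
    simpa using this
  have hD' : ∀ x y, q (D x) y = -q x (D y) := fun x y => eq_neg_of_add_eq_zero_left (hD x y)
  have hN' : ∀ x y, q (N x) y = -q x (N y) := fun x y => eq_neg_of_add_eq_zero_left (hN x y)
  have hY1 : D * Y - Y * D = (2 : K) • Y := by
    apply hext
    intro x y
    simp only [LinearMap.sub_apply, Module.End.mul_apply, LinearMap.smul_apply, map_sub, map_smul,
      hD', hY]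
    have h3 := congrArg (q x) (e1 y)
    rw [map_sub, map_smul] at h3
    rw [← h3]
    ring
  have hY2 : Y * N - N * Y = -D := by
    apply hext
    intro x y
    simp only [LinearMap.sub_apply, Module.End.mul_apply, LinearMap.neg_apply, map_sub, map_neg,
      hD', hN', hY]
    have h3 := congrArg (q x) (e2 y)
    rw [map_sub] at h3
    rw [neg_neg, ← h3]
    ring
  refine ⟨(1 / 2 : K) • (X - Y), ?_, ?_, ?_⟩
  · intro x y
    simp only [LinearMap.smul_apply, LinearMap.sub_apply, map_smul, map_sub, hY]
    have h3 : q (X x) y = q x (Y y) := by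
      rw [hs, ← hY, hs]
    rw [h3]
    simp only [smul_eq_mul]
    ring
  · rw [mul_smul_comm, smul_mul_assoc, ← smul_sub, smul_comm (2 : K)]
    congr 1
    rw [mul_sub, sub_mul, smul_sub, ← h1, ← hY1]
    abel
  · rw [mul_smul_comm, smul_mul_assoc, ← smul_sub]
    have h3 : (X - Y) * N - N * (X - Y) = (2 : K) • D := by
      have h4 : (X - Y) * N - N * (X - Y) = (X * N - N * X) - (Y * N - N * Y) := by
        rw [sub_mul, mul_sub]
        abel
      rw [h4, h2, hY2, two_smul]
      abel
    rw [h3, smul_smul]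
    norm_num

end Pool.Agent.N184.HK
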