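import Mathlib
import Pool.Agent.N184.HK.Stm

/-!
# Project HK, leaf SL2B: the hard Lefschetz property in representations of `sl₂`
(helper862, for helper184)
-/

set_option autoImplicit false
set_option linter.unusedSectionVars false

namespace Pool.Agent.N184.HK

namespace P_SL2B

open Module Module.End

variable {K H : Type} [Field K] [CharZero K] [AddCommGroup H] [Module K H]

/-- the relations of the triple -/
structure Tr (X D N : Module.End K H) : Prop where
  dx : D * X - X * D = (2 : K) • X
  dn : D * N - N * D = -(2 : K) • N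
  xn : X * N - N * X = D

theorem Tr.symm {X D N : Module.End K H} (h : Tr X D N) : Tr N (-D) X := by
  refine ⟨?_, ?_, ?_⟩
  · have := h.dn
    rw [neg_mul, mul_neg, neg_sub_neg, ← neg_sub, this, neg_smul, neg_neg]
  · have := h.dx
    rw [neg_mul, mul_neg, neg_sub_neg, ← neg_sub, this, neg_smul]
  · have := h.xn
    rw [← neg_sub, this]

theorem pow_comm' {D A : Module.End K H} {c : K} (h : D * A - A * D = c • A) (n : ℕ) :
    D * A ^ n = A ^ n * D + ((n : K) * c) • A ^ n := by
  have h1 : D * A = A * D + c • A := by rw [← h]; abel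
  induction n with
  | zero => simp
  | succ n ih =>
    calc D * A ^ (n + 1) = (D * A ^ n) * A := by rw [pow_succ, mul_assoc]
      _ = A ^ n * (D * A) + ((n : K) * c) • (A ^ n * A) := by
          rw [ih, add_mul, mul_assoc, smul_mul_assoc]
      _ = A ^ (n + 1) * D + (((n + 1 : ℕ) : K) * c) • A ^ (n + 1) := by
          rw [h1, mul_add, ← mul_assoc, mul_smul_comm, ← pow_succ, add_assoc, ← add_smul]
          congr 2
          push_cast
          ring

theorem eig {D A : Module.End K H} {c : K} (h : D * A - A * D = c • A) {e : K} {v : H}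
    (hv : D v = e • v) (n : ℕ) : D ((A ^ n) v) = (e + n * c) • (A ^ n) v := by
  have h1 := LinearMap.congr_fun (pow_comm' h n) v
  rw [Module.End.mul_apply, LinearMap.add_apply, Module.End.mul_apply, LinearMap.smul_apply, hv,
    map_smul, ← add_smul] at h1
  exact h1

theorem exists_last [FiniteDimensional K H] {D A : Module.End K H} {c : K}
    (h : D * A - A * D = c • A) (hc : c ≠ 0) {e : K} {v : H} (hv : D v = e • v) (hv0 : v ≠ 0) :
    ∃ n : ℕ, (A ^ n) v ≠ 0 ∧ (A ^ (n + 1)) v = 0 := by
  by_contra hcon
  push Not at hcon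
  have h1 : ∀ n : ℕ, (A ^ n) v ≠ 0 := by
    intro n
    induction n with
    | zero => simpa using hv0
    | succ n ih => exact hcon n ih
  have hfin : Set.Finite {μ : K | D.HasEigenvalue μ} := D.finite_hasEigenvalue
  refine hfin.not_infinite (Set.infinite_of_injective_forall_mem
    (f := fun n : ℕ => e + n * c) ?_ ?_)
  · intro a b hab
    simp only [add_right_inj] at hab
    have := mul_right_cancel₀ hc hab
    exact_mod_cast this
  · intro n
    show D.HasEigenvalue (e + n * c)
    exact hasEigenvalue_of_hasEigenvector (x := (A ^ n) v)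
      (hasEigenvector_iff.2 ⟨mem_eigenspace_iff.2 (eig h hv n), h1 n⟩)

theorem raise {X D N : Module.End K H} (h : Tr X D N) {μ : K} {w : H} (hX : X w = 0)
    (hD : D w = μ • w) (n : ℕ) :
    X ((N ^ (n + 1)) w) = (((n : K) + 1) * (μ - n)) • (N ^ n) w := by
  have hXN : ∀ v, X (N v) = N (X v) + D v := by
    intro v
    have := LinearMap.congr_fun h.xn v
    rw [LinearMap.sub_apply, Module.End.mul_apply, Module.End.mul_apply] at this
    rw [← this]; abel
  induction n with
  | zero => simp [hXN, hX, hD]
  | succ n ih =>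
    have h1 := eig h.dn hD (n + 1)
    rw [pow_succ' N (n + 1), Module.End.mul_apply, hXN, ih, map_smul, ← Module.End.mul_apply,
      ← pow_succ', h1, ← add_smul]
    congr 1
    push_cast
    ring

theorem highest [FiniteDimensional K H] {X D N : Module.End K H} (h : Tr X D N) {μ : K} {w : H}
    (hX : X w = 0) (hD : D w = μ • w) (hw : w ≠ 0) : ∃ k : ℕ, μ = k := by
  obtain ⟨k, h1, h2⟩ := exists_last h.dn (by norm_num) hD hw
  refine ⟨k, ?_⟩
  have h3 := raise h hX hD k
  rw [h2, map_zero] at h3
  have h4 := (smul_eq_zero.1 h3.symm).resolve_right h1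
  have h5 : ((k : K) + 1) ≠ 0 := Nat.cast_add_one_ne_zero k
  exact sub_eq_zero.1 ((mul_eq_zero.1 h4).resolve_left h5)

/-- four times the Casimir operator -/
def cas (X D N : Module.End K H) : Module.End K H := (4 : K) • (N * X) + (2 : K) • D + D * D

theorem cas_eq {X D N : Module.End K H} (h : Tr X D N) :
    cas X D N = (4 : K) • (X * N) - (2 : K) • D + D * D := by
  unfold cas
  have : X * N = N * X + D := by rw [← h.xn]; abel
  rw [this]
  module

theorem cas_N {X D N : Module.End K H} (h : Tr X D N) : cas X D N * N = N * cas X D N := by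
  have h1 : X * N = N * X + D := by rw [← h.xn]; abel
  have h2 : D * N = N * D - (2 : K) • N := by
    rw [sub_eq_add_neg, ← neg_smul, ← h.dn]; abel
  unfold cas
  have e1 : N * X * N = N * (N * X) + N * D := by rw [mul_assoc, h1, mul_add]
  have e2 : D * D * N = N * (D * D) - (4 : K) • (N * D) + (4 : K) • N := by
    calc D * D * N = D * (D * N) := mul_assoc _ _ _
      _ = (D * N) * D - (2 : K) • (D * N) := by rw [h2, mul_sub, mul_smul_comm, ← mul_assoc, h2]
      _ = N * (D * D) - (4 : K) • (N * D) + (4 : K) • N := by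
        rw [h2, sub_mul, smul_mul_assoc, mul_assoc]
        module
  simp only [add_mul, mul_add, smul_mul_assoc, mul_smul_comm, e1, e2, h2]
  module

theorem cas_D {X D N : Module.End K H} (h : Tr X D N) : cas X D N * D = D * cas X D N := by
  have h1 : D * X = X * D + (2 : K) • X := by rw [← h.dx]; abel
  have h2 : D * N = N * D - (2 : K) • N := by
    rw [sub_eq_add_neg, ← neg_smul, ← h.dn]; abel
  unfold cas
  have e1 : D * (N * X) = N * X * D := by
    calc D * (N * X) = (D * N) * X := (mul_assoc _ _ _).symm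
      _ = N * (D * X) - (2 : K) • (N * X) := by rw [h2, sub_mul, mul_assoc, smul_mul_assoc]
      _ = N * X * D := by rw [h1, mul_add, mul_smul_comm, ← mul_assoc]; abel
  simp only [add_mul, mul_add, smul_mul_assoc, mul_smul_comm, e1]
  rw [mul_assoc D D D]

theorem inj [IsAlgClosed K] [FiniteDimensional K H] {X D N : Module.End K H} (h : Tr X D N)
    (j : ℕ) (x : H) (hx : x ∈ D.maxGenEigenspace (j : K)) (hNx : (N ^ j) x = 0) : x = 0 := by
  by_contra hx0
  have hj1 : 1 ≤ j := by
    rcases Nat.eq_zero_or_pos j with rfl | h1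
    · simp at hNx
      exact absurd hNx hx0
    · exact h1
  -- an eigenvector of `D` in the kernel
  set E : Submodule K H := LinearMap.ker (N ^ j) ⊓ D.eigenspace (j : K) with hE
  have hDk : ∀ y : H, (N ^ j) y = 0 → (N ^ j) (D y) = 0 := by
    intro y hy
    have h1 := LinearMap.congr_fun (pow_comm' h.dn j) y
    rw [Module.End.mul_apply, LinearMap.add_apply, Module.End.mul_apply, LinearMap.smul_apply, hy,
      map_zero, smul_zero, add_zero] at h1
    exact h1.symm
  have hEne : E ≠ ⊥ := by
    obtain ⟨k, hk⟩ := (mem_maxGenEigenspace _ _ _).1 hx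
    have h1 : ∃ i : ℕ, ((D - (j : K) • (1 : Module.End K H)) ^ i) x ≠ 0 ∧
        ((D - (j : K) • (1 : Module.End K H)) ^ (i + 1)) x = 0 := by
      refine Nat.exists_not_and_succ_of_not_zero_of_exists (p := fun i : ℕ =>
        ((D - (j : K) • (1 : Module.End K H)) ^ i) x = 0) ?_ ⟨k, hk⟩
      simpa using hx0
    obtain ⟨i, h2, h3⟩ := h1
    have h4 : ∀ i : ℕ, (N ^ j) (((D - (j : K) • (1 : Module.End K H)) ^ i) x) = 0 := by
      intro i
      induction i with
      | zero => simpa using hNx
      | succ i ih =>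
        rw [pow_succ', Module.End.mul_apply, LinearMap.sub_apply, map_sub, hDk _ ih,
          LinearMap.smul_apply, Module.End.one_apply, map_smul, ih, smul_zero, sub_zero]
    intro h5
    apply h2
    have h6 : ((D - (j : K) • (1 : Module.End K H)) ^ i) x ∈ E := by
      refine ⟨LinearMap.mem_ker.2 (h4 i), mem_eigenspace_iff.2 ?_⟩
      rw [pow_succ', Module.End.mul_apply, LinearMap.sub_apply, LinearMap.smul_apply,
        Module.End.one_apply, sub_eq_zero] at h3
      exact h3
    rw [h5] at h6
    exact (Submodule.mem_bot K).1 h6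
  -- the Casimir operator acts on it
  have hC : ∀ y ∈ E, cas X D N y ∈ E := by
    rintro y ⟨hy1, hy2⟩
    have hcj : (cas X D N) * N ^ j = N ^ j * cas X D N := (Commute.pow_right (cas_N h) j)
    refine ⟨?_, ?_⟩
    · show cas X D N y ∈ LinearMap.ker (N ^ j)
      rw [LinearMap.mem_ker, ← Module.End.mul_apply, ← hcj, Module.End.mul_apply,
        LinearMap.mem_ker.1 hy1, map_zero]
    · show cas X D N y ∈ D.eigenspace (j : K)
      rw [mem_eigenspace_iff, ← Module.End.mul_apply, ← cas_D h, Module.End.mul_apply,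
        mem_eigenspace_iff.1 hy2, map_smul]
  have : Nontrivial E := (Submodule.nontrivial_iff_ne_bot).2 hEne
  obtain ⟨c, hc⟩ := Module.End.exists_eigenvalue ((cas X D N).restrict hC)
  obtain ⟨v0, hv0⟩ := hc.exists_hasEigenvector
  obtain ⟨v, hvE⟩ := v0
  have hvc : cas X D N v = c • v := by
    have := hv0.apply_eq_smul
    exact congrArg Subtype.val this
  have hv : v ≠ 0 := by
    intro h1
    apply hv0.2
    exact Subtype.ext h1
  have hvN : (N ^ j) v = 0 := LinearMap.mem_ker.1 hvE.1
  have hvD : D v = (j : K) • v := mem_eigenspace_iff.1 hvE.2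
  -- go down
  obtain ⟨m, hm1, hm2⟩ := exists_last h.dn (by norm_num) hvD hv
  have hmj : m + 1 ≤ j := by
    by_contra hlt
    push Not at hlt
    apply hm1
    have h1 : m = (m - j) + j := by omega
    rw [h1, pow_add, Module.End.mul_apply, hvN, map_zero]
  have hcomN : cas X D N * N ^ m = N ^ m * cas X D N := Commute.pow_right (cas_N h) m
  have hcN : cas X D N ((N ^ m) v) = c • (N ^ m) v := by
    rw [← Module.End.mul_apply, hcomN, Module.End.mul_apply, hvc, map_smul]
  have hDN := eig h.dn hvD m
  have hc1 : c = -2 * ((j : K) + m * (-2)) + ((j : K) + m * (-2)) ^ 2 := by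
    rw [cas_eq h] at hcN
    have h1 : N ((N ^ m) v) = 0 := by
      rw [← Module.End.mul_apply, ← pow_succ']
      exact hm2
    simp only [LinearMap.add_apply, LinearMap.sub_apply, LinearMap.smul_apply,
      Module.End.mul_apply, h1, map_zero, smul_zero, hDN, map_smul] at hcN
    have h2 : (c - (-2 * ((j : K) + m * (-2)) + ((j : K) + m * (-2)) ^ 2)) • (N ^ m) v = 0 := by
      rw [sub_smul, ← hcN]
      module
    exact sub_eq_zero.1 ((smul_eq_zero.1 h2).resolve_right hm1)
  -- go up
  obtain ⟨k, hk1, hk2⟩ := exists_last h.dx two_ne_zero hvD hv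
  have hsym : cas X D N * X = X * cas X D N := by
    have h1 := cas_N h.symm
    have h2 : cas N (-D) X = cas X D N := by
      rw [cas_eq h]
      unfold cas
      rw [neg_mul_neg]
      module
    rw [h2] at h1
    exact h1
  have hcomX : cas X D N * X ^ k = X ^ k * cas X D N := Commute.pow_right hsym k
  have hcX : cas X D N ((X ^ k) v) = c • (X ^ k) v := by
    rw [← Module.End.mul_apply, hcomX, Module.End.mul_apply, hvc, map_smul]
  have hDX := eig h.dx hvD k
  have hc2 : c = 2 * ((j : K) + k * 2) + ((j : K) + k * 2) ^ 2 := by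
    unfold cas at hcX
    have h1 : X ((X ^ k) v) = 0 := by
      rw [← Module.End.mul_apply, ← pow_succ']
      exact hk2
    simp only [LinearMap.add_apply, LinearMap.smul_apply,
      Module.End.mul_apply, h1, map_zero, smul_zero, hDX, map_smul] at hcX
    have h2 : (c - (2 * ((j : K) + k * 2) + ((j : K) + k * 2) ^ 2)) • (X ^ k) v = 0 := by
      rw [sub_smul, ← hcX]
      module
    exact sub_eq_zero.1 ((smul_eq_zero.1 h2).resolve_right hk1)
  -- compare
  have h1 : ((j : K) + k - m) * ((k : K) + m + 1) = 0 := by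
    have h2 : (4 : K) * (((j : K) + k - m) * ((k : K) + m + 1)) = 0 := by
      linear_combination hc1 - hc2
    exact (mul_eq_zero.1 h2).resolve_left (by norm_num)
  have h2 : ((j : ℤ) + k - m) * ((k : ℤ) + m + 1) = 0 := by exact_mod_cast h1
  rcases mul_eq_zero.1 h2 with h3 | h3
  · omega
  · omega

theorem maps {D A : Module.End K H} {c : K} (h : D * A - A * D = c • A) {e : K} (n : ℕ) {x : H}
    (hx : x ∈ D.maxGenEigenspace e) : (A ^ n) x ∈ D.maxGenEigenspace (e + n * c) := by
  obtain ⟨k, hk⟩ := (mem_maxGenEigenspace _ _ _).1 hx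
  refine (mem_maxGenEigenspace _ _ _).2 ⟨k, ?_⟩
  have h1 : SemiconjBy (A ^ n) (D - e • (1 : Module.End K H))
      (D - (e + n * c) • (1 : Module.End K H)) := by
    show A ^ n * (D - e • (1 : Module.End K H)) = (D - (e + n * c) • (1 : Module.End K H)) * A ^ n
    rw [mul_sub, sub_mul, pow_comm' h n, mul_smul_comm, smul_mul_assoc, mul_one, one_mul]
    module
  have h2 := LinearMap.congr_fun (h1.pow_right k) x
  rw [Module.End.mul_apply, Module.End.mul_apply, hk, map_zero] at h2
  exact h2.symm

theorem neg_gen (D : Module.End K H) (e : K) :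
    (-D).maxGenEigenspace e = D.maxGenEigenspace (-e) := by
  ext x
  rw [mem_maxGenEigenspace, mem_maxGenEigenspace]
  have h1 : (-D) - e • (1 : Module.End K H) = -(D - (-e) • (1 : Module.End K H)) := by module
  rw [h1]
  refine exists_congr fun k => ?_
  rw [neg_pow, Module.End.mul_apply]
  rcases neg_one_pow_eq_or (Module.End K H) k with h2 | h2 <;> rw [h2] <;> simp

end P_SL2B

open P_SL2B Module Module.End in
theorem t_sl2b : S_SL2B := by
  intro K H _ _ _ _ _ _ X D N hDX hDN hXN
  have h : Tr X D N := ⟨hDX, hDN, hXN⟩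
  refine ⟨?_, ?_⟩
  · intro e he
    obtain ⟨v, hv⟩ := he.exists_hasEigenvector
    obtain ⟨n, h1, h2⟩ := exists_last h.dx two_ne_zero hv.apply_eq_smul hv.2
    have h3 : X ((X ^ n) v) = 0 := by
      rw [← Module.End.mul_apply, ← pow_succ']
      exact h2
    obtain ⟨k, hk⟩ := highest h h3 (eig h.dx hv.apply_eq_smul n) h1
    refine ⟨(k : ℤ) - 2 * n, ?_⟩
    push_cast
    rw [← hk]
    ring
  · intro j
    have hm1 : ∀ x ∈ D.maxGenEigenspace (j : K), (N ^ j) x ∈ D.maxGenEigenspace (-(j : K)) := by
      intro x hx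
      have := maps h.dn j hx
      have e : (j : K) + j * (-2) = -(j : K) := by ring
      rwa [e] at this
    have hm2 : ∀ x ∈ D.maxGenEigenspace (-(j : K)), (X ^ j) x ∈ D.maxGenEigenspace (j : K) := by
      intro x hx
      have := maps h.dx j hx
      have e : -(j : K) + j * 2 = (j : K) := by ring
      rwa [e] at this
    let f : D.maxGenEigenspace (j : K) →ₗ[K] D.maxGenEigenspace (-(j : K)) :=
      (N ^ j).restrict hm1
    let g : D.maxGenEigenspace (-(j : K)) →ₗ[K] D.maxGenEigenspace (j : K) :=
      (X ^ j).restrict hm2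
    have hf : Function.Injective f := by
      rw [injective_iff_map_eq_zero]
      rintro ⟨x, hx⟩ hfx
      have h1 : (N ^ j) x = 0 := congrArg Subtype.val hfx
      exact Subtype.ext (inj h j x hx h1)
    have hg : Function.Injective g := by
      rw [injective_iff_map_eq_zero]
      rintro ⟨x, hx⟩ hgx
      have h1 : (X ^ j) x = 0 := congrArg Subtype.val hgx
      refine Subtype.ext (inj h.symm j x ?_ h1)
      rw [neg_gen]
      exact hx
    have hrank : finrank K (D.maxGenEigenspace (j : K)) =
        finrank K (D.maxGenEigenspace (-(j : K))) :=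
      le_antisymm (LinearMap.finrank_le_finrank_of_injective hf)
        (LinearMap.finrank_le_finrank_of_injective hg)
    have hs : Function.Surjective f :=
      (LinearMap.injective_iff_surjective_of_finrank_eq_finrank hrank).1 hf
    refine ⟨hm1, ?_, ?_⟩
    · intro x hx y hy hxy
      have := @hf ⟨x, hx⟩ ⟨y, hy⟩ (Subtype.ext hxy)
      exact congrArg Subtype.val this
    · intro y hy
      obtain ⟨⟨x, hx⟩, hxy⟩ := hs ⟨y, hy⟩
      exact ⟨x, hx, congrArg Subtype.val hxy⟩

end Pool.Agent.N184.HK
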