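import Mathlib
import Pool.Agent.N184.HK.Stm4
import Pool.Agent.N184.HK.P_SL2B

/-!
# Project HK, leaf SSL: `h` is diagonalizable in representations of `sl₂`
(helper438, for helper184)
-/

set_option autoImplicit false

namespace Pool.Agent.N184.HK

namespace P_SSL

open Module Module.End Pool.Agent.N184.HK.P_SL2B

variable {K H : Type} [Field K] [CharZero K] [AddCommGroup H] [Module K H]

omit [CharZero K] in
theorem bot {D : Module.End K H} {c : K} (hc : ¬ D.HasEigenvalue c) {x : H}
    (hx : x ∈ D.maxGenEigenspace c) : x = 0 := by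
  by_contra hx0
  obtain ⟨k, hk⟩ := (mem_maxGenEigenspace _ _ _).1 hx
  obtain ⟨i, h2, h3⟩ : ∃ i : ℕ, ((D - c • (1 : Module.End K H)) ^ i) x ≠ 0 ∧
      ((D - c • (1 : Module.End K H)) ^ (i + 1)) x = 0 := by
    refine Nat.exists_not_and_succ_of_not_zero_of_exists (p := fun i : ℕ =>
      ((D - c • (1 : Module.End K H)) ^ i) x = 0) ?_ ⟨k, hk⟩
    simpa using hx0
  apply hc
  refine hasEigenvalue_of_hasEigenvector (x := ((D - c • (1 : Module.End K H)) ^ i) x)
    (hasEigenvector_iff.2 ⟨mem_eigenspace_iff.2 ?_, h2⟩)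
  rw [pow_succ', Module.End.mul_apply, LinearMap.sub_apply, LinearMap.smul_apply,
    Module.End.one_apply, sub_eq_zero] at h3
  exact h3

theorem xn_pow {X D N : Module.End K H} (h : Tr X D N) (n : ℕ) :
    X * N ^ (n + 1) = N ^ (n + 1) * X + ((n : K) + 1) • (N ^ n * (D - (n : K) • (1 : Module.End K H))) := by
  have h1 : X * N = N * X + D := by rw [← h.xn]; abel
  have h2 : D * N = N * D - (2 : K) • N := by
    rw [sub_eq_add_neg, ← neg_smul, ← h.dn]; abel
  induction n with
  | zero => simp [h1]
  | succ n ih =>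
    have h3 : (D - (n : K) • (1 : Module.End K H)) * N = N * (D - ((n : K) + 2) • (1 : Module.End K H)) := by
      rw [sub_mul, mul_sub, h2, smul_mul_assoc, one_mul, mul_smul_comm, mul_one]
      module
    calc X * N ^ (n + 1 + 1) = (X * N ^ (n + 1)) * N := by rw [pow_succ N (n + 1), mul_assoc]
      _ = N ^ (n + 1) * (X * N) + ((n : K) + 1) • (N ^ n * ((D - (n : K) • (1 : Module.End K H)) * N)) := by
          rw [ih, add_mul, smul_mul_assoc, mul_assoc, mul_assoc]
      _ = N ^ (n + 1) * (N * X) + N ^ (n + 1) * D +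
          ((n : K) + 1) • (N ^ (n + 1) * (D - ((n : K) + 2) • (1 : Module.End K H))) := by
          rw [h1, h3, mul_add, ← mul_assoc (N ^ n) N, ← pow_succ]
      _ = _ := by
          rw [← mul_assoc, ← pow_succ, mul_sub, mul_sub, mul_smul_comm, mul_smul_comm, mul_one]
          push_cast
          module

omit [CharZero K] in
theorem D_mem {D : Module.End K H} {c : K} {v : H} (hv : v ∈ D.maxGenEigenspace c) :
    (D - c • (1 : Module.End K H)) v ∈ D.maxGenEigenspace c := by
  obtain ⟨k, hk⟩ := (mem_maxGenEigenspace _ _ _).1 hv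
  refine (mem_maxGenEigenspace _ _ _).2 ⟨k, ?_⟩
  rw [← Module.End.mul_apply, ← pow_succ, pow_succ', Module.End.mul_apply, hk, map_zero]

theorem step [IsAlgClosed K] [FiniteDimensional K H] {X D N : Module.End K H} (h : Tr X D N) (m : ℕ)
    (hsur : ∀ v ∈ D.maxGenEigenspace (-((m : K) + 2)), ∃ w ∈ D.maxGenEigenspace ((m : K) + 2),
      (N ^ (m + 2)) w = v)
    (hrec : ∀ w ∈ D.maxGenEigenspace ((m : K) + 2), D w = ((m : K) + 2) • w) (v : H)
    (hv : v ∈ D.maxGenEigenspace (m : K)) : D v = (m : K) • v := by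
  have h1 := maps h.dn (m + 1) hv
  have e1 : (m : K) + ((m + 1 : ℕ) : K) * (-2) = -((m : K) + 2) := by push_cast; ring
  rw [e1] at h1
  obtain ⟨w, hw, hwv⟩ := hsur _ h1
  have hNw : N w ∈ D.maxGenEigenspace (m : K) := by
    have h2 := maps h.dn 1 hw
    have e2 : (m : K) + 2 + ((1 : ℕ) : K) * (-2) = (m : K) := by push_cast; ring
    rw [e2, pow_one] at h2
    exact h2
  obtain ⟨u, hu⟩ : ∃ u : H, u = v - N w := ⟨_, rfl⟩
  have humem : u ∈ D.maxGenEigenspace (m : K) := by
    rw [hu]
    exact Submodule.sub_mem _ hv hNw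
  have hNu : (N ^ (m + 1)) u = 0 := by
    rw [hu, map_sub, ← hwv, pow_succ N (m + 1), Module.End.mul_apply, sub_self]
  have hXmem : X u ∈ D.maxGenEigenspace ((m + 2 : ℕ) : K) := by
    have h2 := maps h.dx 1 humem
    have e2 : (m : K) + ((1 : ℕ) : K) * 2 = ((m + 2 : ℕ) : K) := by push_cast; ring
    rw [e2, pow_one] at h2
    exact h2
  have hNDu : (N ^ (m + 1)) (D u) = 0 := by
    have h2 := LinearMap.congr_fun (pow_comm' h.dn (m + 1)) u
    rw [Module.End.mul_apply, LinearMap.add_apply, Module.End.mul_apply, LinearMap.smul_apply, hNu,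
      map_zero, smul_zero, add_zero] at h2
    exact h2.symm
  have hXu : X u = 0 := by
    apply inj h (m + 2) _ hXmem
    have h2 := LinearMap.congr_fun (xn_pow h (m + 1)) u
    rw [Module.End.mul_apply, LinearMap.add_apply, Module.End.mul_apply, LinearMap.smul_apply,
      Module.End.mul_apply, LinearMap.sub_apply, LinearMap.smul_apply, Module.End.one_apply, map_sub,
      map_smul, hNDu, hNu, smul_zero, sub_zero, smul_zero, add_zero, pow_succ' N (m + 1),
      Module.End.mul_apply, hNu, map_zero, map_zero] at h2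
    rw [pow_succ' N (m + 1)]
    exact h2.symm
  have hDu : D u = (m : K) • u := by
    have h2 := LinearMap.congr_fun (xn_pow h m) u
    rw [Module.End.mul_apply, LinearMap.add_apply, Module.End.mul_apply, LinearMap.smul_apply,
      Module.End.mul_apply, hXu, map_zero, hNu, map_zero, zero_add] at h2
    have h3 := (smul_eq_zero.1 h2.symm).resolve_left (Nat.cast_add_one_ne_zero m)
    have h4 := inj h m _ (D_mem humem) h3
    rw [LinearMap.sub_apply, LinearMap.smul_apply, Module.End.one_apply, sub_eq_zero] at h4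
    exact h4
  have hDw : D (N w) = (m : K) • N w := by
    have h2 := eig h.dn (hrec w hw) 1
    rw [pow_one] at h2
    rw [h2]
    congr 1
    push_cast
    ring
  have e3 : v = u + N w := by rw [hu]; abel
  rw [e3, map_add, hDu, hDw, smul_add]

theorem bound [FiniteDimensional K H] (D : Module.End K H) :
    ∃ M : ℕ, ∀ m : ℕ, M ≤ m → ¬ D.HasEigenvalue (m : K) := by
  have hfin : Set.Finite {μ : K | D.HasEigenvalue μ} := D.finite_hasEigenvalue
  have h1 : Set.Finite {m : ℕ | D.HasEigenvalue (m : K)} :=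
    Set.Finite.preimage (f := fun m : ℕ => (m : K)) (fun a _ b _ hab => Nat.cast_injective (R := K) hab) hfin
  obtain ⟨B, hB⟩ := h1.bddAbove
  refine ⟨B + 1, fun m hm hc => ?_⟩
  have : m ≤ B := hB hc
  omega

theorem pos [IsAlgClosed K] [FiniteDimensional K H] {X D N : Module.End K H} (h : Tr X D N)
    (hsur : ∀ j : ℕ, ∀ v ∈ D.maxGenEigenspace (-(j : K)), ∃ w ∈ D.maxGenEigenspace (j : K),
      (N ^ j) w = v) (m : ℕ) (v : H) (hv : v ∈ D.maxGenEigenspace (m : K)) : D v = (m : K) • v := by
  obtain ⟨M, hM⟩ := bound D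
  have key : ∀ n m : ℕ, M ≤ m + n → ∀ v ∈ D.maxGenEigenspace (m : K), D v = (m : K) • v := by
    intro n
    induction n using Nat.strong_induction_on with
    | _ n ih =>
      intro m hm v hv
      rcases Nat.eq_zero_or_pos n with h0 | h0
      · have h1 := bot (hM m (by omega)) hv
        rw [h1, map_zero, smul_zero]
      · refine step h m ?_ ?_ v hv
        · intro v hv
          have h2 := hsur (m + 2) v (by push_cast; exact hv)
          push_cast at h2
          exact h2
        · intro w hw
          have h2 := ih (n - 1) (by omega) (m + 2) (by omega) w (by push_cast; exact hw)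
          push_cast at h2
          exact h2
  exact key M m (by omega) v hv

end P_SSL

open P_SSL P_SL2B Module Module.End in
theorem t_ssl : S_SSL := by
  intro K H _ _ _ _ _ _ X D N hDX hDN hXN x
  have h : Tr X D N := ⟨hDX, hDN, hXN⟩
  obtain ⟨hint, hbij⟩ := t_sl2b K H X D N hDX hDN hXN
  have hsur : ∀ j : ℕ, ∀ v ∈ D.maxGenEigenspace (-(j : K)), ∃ w ∈ D.maxGenEigenspace (j : K),
      (N ^ j) w = v := by
    intro j v hv
    exact (hbij j).surjOn hv
  have hpos := pos h hsur
  apply le_antisymm
  · intro v hv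
    rw [mem_eigenspace_iff]
    by_cases hx : D.HasEigenvalue x
    · obtain ⟨j, rfl⟩ := hint x hx
      rcases Int.eq_nat_or_neg j with ⟨m, rfl | rfl⟩
      · have e : ((m : ℤ) : K) = (m : K) := by push_cast; rfl
        rw [e] at hv ⊢
        exact hpos m v hv
      · have e : ((-(m : ℤ) : ℤ) : K) = -(m : K) := by push_cast; rfl
        rw [e] at hv ⊢
        obtain ⟨w, hw, rfl⟩ := hsur m v hv
        rw [eig h.dn (hpos m w hw) m]
        congr 1
        ring
    · rw [bot hx hv, map_zero, smul_zero]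
  · intro v hv
    rw [mem_eigenspace_iff] at hv
    refine (mem_maxGenEigenspace _ _ _).2 ⟨1, ?_⟩
    rw [pow_one, LinearMap.sub_apply, LinearMap.smul_apply, Module.End.one_apply, hv, sub_self]

end Pool.Agent.N184.HK
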