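import Mathlib
import Pool.Agent.N184.HK.Stm4
import Pool.Agent.N184.HK.P_SSL

/-!
# Project HK: diagonalizable elements of `so(V, q)` act by diagonalizable operators
-/

set_option autoImplicit false

namespace Pool.Agent.N184.HK

namespace P_SSO

open Polynomial Module

theorem semisimple_of_iSup {K V : Type} [Field K] [AddCommGroup V] [Module K V]
    [FiniteDimensional K V] (T : Module.End K V) (h : (⨆ x : K, T.eigenspace x) = ⊤) :
    T.IsSemisimple := by
  classical
  have hfin : {x : K | T.HasEigenvalue x}.Finite := T.finite_hasEigenvalue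
  set s : Finset K := hfin.toFinset with hs
  set P : K[X] := ∏ x ∈ s, (X - C x) with hP
  have hsq : Squarefree P := by
    apply Polynomial.Separable.squarefree
    rw [hP]
    exact Polynomial.separable_prod_X_sub_C_iff'.2 (fun x _ y _ hxy => hxy)
  apply Module.End.isSemisimple_of_squarefree_aeval_eq_zero hsq
  have hker : ∀ x, T.eigenspace x ≤ LinearMap.ker (aeval T P) := by
    intro x v hv
    rw [LinearMap.mem_ker]
    by_cases hv0 : v = 0
    · rw [hv0, map_zero]
    have hx : x ∈ s := by
      rw [hs, Set.Finite.mem_toFinset]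
      exact Module.End.hasEigenvalue_of_hasEigenvector ⟨hv, hv0⟩
    rw [hP, ← Finset.prod_erase_mul s _ hx, map_mul]
    rw [Module.End.mul_apply]
    have : (aeval T (X - C x)) v = 0 := by
      rw [map_sub, aeval_X, aeval_C, LinearMap.sub_apply, Module.End.mem_eigenspace_iff.1 hv,
        Module.algebraMap_end_apply, sub_self]
    rw [this, map_zero]
  have : (⊤ : Submodule K V) ≤ LinearMap.ker (aeval T P) := by
    rw [← h]
    exact iSup_le hker
  exact LinearMap.ker_eq_top.1 (top_le_iff.1 this)

theorem max_eq {K V : Type} [Field K] [AddCommGroup V] [Module K V]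
    (T : Module.End K V) (h : T.IsSemisimple) (x : K) :
    T.maxGenEigenspace x = T.eigenspace x :=
  h.isFinitelySemisimple.maxGenEigenspace_eq_eigenspace x

theorem semisimple_of_max {K V : Type} [Field K] [IsAlgClosed K] [AddCommGroup V] [Module K V]
    [FiniteDimensional K V] (T : Module.End K V)
    (h : ∀ x, T.maxGenEigenspace x = T.eigenspace x) : T.IsSemisimple := by
  apply semisimple_of_iSup
  have h1 := Module.End.iSup_maxGenEigenspace_eq_top T
  rw [← h1]
  congr 1
  funext x
  exact (h x).symm

theorem semisimple_smul {K V : Type} [Field K] [CharZero K] [AddCommGroup V] [Module K V]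
    [FiniteDimensional K V] (T : Module.End K V) (h : T.IsSemisimple) (c : K) :
    (c • T).IsSemisimple := by
  have h1 := h.aeval (C c * X)
  rw [map_mul, aeval_C, aeval_X] at h1
  have : (algebraMap K (Module.End K V) c) * T = c • T := by
    rw [Algebra.smul_def]
  rwa [this] at h1

section wedge

variable {K V : Type} [Field K] [AddCommGroup V] [Module K V] (q : LinearMap.BilinForm K V)

/-- `a ∧ b` -/
def wd (a b : V) : Module.End K V :=
  (q b).smulRight a - (q a).smulRight b

theorem wd_apply (a b v : V) : wd q a b v = q b v • a - q a v • b := rfl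

theorem skew_wd (hq : ∀ a b, q a b = q b a) (a b : V) : Skew q (wd q a b) := by
  intro v w
  rw [wd_apply, wd_apply]
  simp only [map_sub, map_smul, LinearMap.sub_apply, LinearMap.smul_apply, smul_eq_mul]
  rw [hq v a, hq v b]
  ring

/-- the bracket of a skew map with a wedge -/
theorem comm_wd (A : Module.End K V) (hA : Skew q A) (a b : V) :
    A * wd q a b - wd q a b * A = wd q (A a) b + wd q a (A b) := by
  ext v
  simp only [LinearMap.sub_apply, Module.End.mul_apply, LinearMap.add_apply, wd_apply, map_sub,
    map_smul]
  have h1 : q b (A v) = - q (A b) v := by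
    have := hA b v
    linear_combination this
  have h2 : q a (A v) = - q (A a) v := by
    have := hA a v
    linear_combination this
  rw [h1, h2]
  module

theorem skew_sub_smul {A B : Module.End K V} (hA : Skew q A) (hB : Skew q B) (c : K) :
    Skew q (A - c • B) := by
  intro v w
  have h1 := hA v w
  have h2 := hB v w
  simp only [LinearMap.sub_apply, LinearMap.smul_apply, map_sub, map_smul, smul_eq_mul]
  linear_combination h1 - c * h2

theorem skew_smul {B : Module.End K V} (hB : Skew q B) (c : K) :
    Skew q (c • B) := by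
  intro v w
  have h2 := hB v w
  simp only [LinearMap.smul_apply, map_smul, smul_eq_mul]
  linear_combination c * h2

end wedge

section main

variable {K V H : Type} [Field K] [CharZero K] [IsAlgClosed K] [AddCommGroup V]
    [Module K V] [FiniteDimensional K V] [AddCommGroup H] [Module K H] [FiniteDimensional K H]
    {q : LinearMap.BilinForm K V}

/-- a vector orthogonal to a hyperbolic pair, of nonzero length -/
theorem exists_g (hq : ∀ a b, q a b = q b a) (hnd : ∀ a, (∀ b, q a b = 0) → a = 0)
    (h3 : 3 ≤ Module.finrank K V) (e f : V) (hee : q e e = 0) (hff : q f f = 0)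
    (hef : q e f = 1) : ∃ g, q e g = 0 ∧ q f g = 0 ∧ q g g ≠ 0 := by
  have hfe : q f e = 1 := by rw [hq, hef]
  obtain ⟨v, hv⟩ : ∃ v : V, v ∉ Submodule.span K ({e, f} : Set V) := by
    by_contra hcon
    push Not at hcon
    have htop : Submodule.span K ({e, f} : Set V) = ⊤ := by
      rw [eq_top_iff]
      intro v _
      exact hcon v
    have h1 : Module.finrank K (Submodule.span K ({e, f} : Set V)) ≤ 2 := by
      classical
      have := finrank_span_finset_le_card (R := K) ({e, f} : Finset V)
      have h2 : ((({e, f} : Finset V) : Set V)) = {e, f} := by simp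
      rw [h2] at this
      exact this.trans Finset.card_le_two
    rw [htop, finrank_top] at h1
    omega
  set P : V → V := fun u => u - q f u • e - q e u • f with hP
  have hPe : ∀ u, q e (P u) = 0 := by
    intro u
    simp only [hP, map_sub, map_smul, smul_eq_mul, hee, hef]
    ring
  have hPf : ∀ u, q f (P u) = 0 := by
    intro u
    simp only [hP, map_sub, map_smul, smul_eq_mul, hff, hfe]
    ring
  by_contra hcon
  push Not at hcon
  apply hv
  have hw : P v = 0 := by
    apply hnd
    intro b
    have hb : b = P b + q f b • e + q e b • f := by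
      simp only [hP]
      abel
    have hpol : q (P v) (P b) = 0 := by
      have h1 := hcon (P v) (hPe v) (hPf v)
      have h2 := hcon (P b) (hPe b) (hPf b)
      have h3 := hcon (P v + P b) (by rw [map_add, hPe, hPe, add_zero])
        (by rw [map_add, hPf, hPf, add_zero])
      simp only [map_add, LinearMap.add_apply] at h3
      rw [h1, h2, hq (P b) (P v)] at h3
      have h4 : (2 : K) * q (P v) (P b) = 0 := by linear_combination h3
      exact (mul_eq_zero.1 h4).resolve_left two_ne_zero
    rw [hb, map_add, map_add, map_smul, map_smul, hpol, hq (P v) e, hq (P v) f, hPe, hPf]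
    simp
  have : v = q f v • e + q e v • f := by
    have h1 : v - q f v • e - q e v • f = 0 := hw
    rw [sub_sub, sub_eq_zero] at h1
    exact h1
  rw [this]
  exact Submodule.add_mem _ (Submodule.smul_mem _ _ (Submodule.subset_span (by simp)))
    (Submodule.smul_mem _ _ (Submodule.subset_span (by simp)))

theorem rho_h (hSSL : S_SSL) (hq : ∀ a b, q a b = q b a) (hnd : ∀ a, (∀ b, q a b = 0) → a = 0)
    (h3 : 3 ≤ Module.finrank K V) (ρ : Module.End K V →ₗ[K] Module.End K H)
    (hρ : ∀ A B, Skew q A → Skew q B → ρ (A * B - B * A) = ρ A * ρ B - ρ B * ρ A)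
    (e f : V) (hee : q e e = 0) (hff : q f f = 0) (hef : q e f = 1) :
    (ρ (wd q e f)).IsSemisimple := by
  obtain ⟨g, heg, hfg, hgg⟩ := exists_g hq hnd h3 e f hee hff hef
  have hfe : q f e = 1 := by rw [hq, hef]
  have hge : q g e = 0 := by rw [hq, heg]
  have hgf : q g f = 0 := by rw [hq, hfg]
  set h := wd q e f with hh
  set X := wd q e g with hX
  set Y := wd q f g with hY
  have hhs : Skew q h := skew_wd q hq e f
  have hXs : Skew q X := skew_wd q hq e g
  have hYs : Skew q Y := skew_wd q hq f g
  have e1 : h * X - X * h = X := by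
    rw [hX, comm_wd q h hhs, hh, wd_apply, wd_apply, hfe, hee, hfg, heg]
    ext v
    simp [wd_apply]
  have e2 : h * Y - Y * h = -Y := by
    rw [hY, comm_wd q h hhs, hh, wd_apply, wd_apply, hff, hef, hfg, heg]
    ext v
    simp only [wd_apply, LinearMap.add_apply, LinearMap.neg_apply]
    simp
    module
  have e3 : X * Y - Y * X = -(q g g) • h := by
    rw [hY, comm_wd q X hXs, hX, wd_apply, wd_apply, hgf, hef, heg]
    ext v
    simp only [hh, wd_apply, LinearMap.add_apply, LinearMap.smul_apply]
    simp
    module
  set c : K := -2 / q g g with hc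
  have hcg : c * q g g = -2 := by
    rw [hc]
    field_simp
  have f1 : ρ ((2 : K) • h) * ρ X - ρ X * ρ ((2 : K) • h) = (2 : K) • ρ X := by
    rw [← hρ _ _ (skew_smul q hhs 2) hXs, ← map_smul]
    congr 1
    rw [smul_mul_assoc, mul_smul_comm, ← smul_sub, e1]
  have f2 : ρ ((2 : K) • h) * ρ (c • Y) - ρ (c • Y) * ρ ((2 : K) • h) = -(2 : K) • ρ (c • Y) := by
    rw [← hρ _ _ (skew_smul q hhs 2) (skew_smul q hYs c), ← map_smul]
    congr 1
    rw [smul_mul_smul_comm, smul_mul_smul_comm, mul_comm c 2, ← smul_sub, e2]
    module
  have f3 : ρ X * ρ (c • Y) - ρ (c • Y) * ρ X = ρ ((2 : K) • h) := by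
    rw [← hρ _ _ hXs (skew_smul q hYs c)]
    congr 1
    rw [mul_smul_comm, smul_mul_assoc, ← smul_sub, e3, smul_smul]
    congr 1
    linear_combination -hcg
  have hmax := hSSL K H (ρ X) (ρ ((2 : K) • h)) (ρ (c • Y)) f1 f2 f3
  have hss := semisimple_smul _ (semisimple_of_max _ hmax) (2 : K)⁻¹
  rw [map_smul, smul_smul, inv_mul_cancel₀ two_ne_zero, one_smul] at hss
  exact hss

theorem key (hSSL : S_SSL) (hq : ∀ a b, q a b = q b a) (hnd : ∀ a, (∀ b, q a b = 0) → a = 0)
    (h3 : 3 ≤ Module.finrank K V) (ρ : Module.End K V →ₗ[K] Module.End K H)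
    (hρ : ∀ A B, Skew q A → Skew q B → ρ (A * B - B * A) = ρ A * ρ B - ρ B * ρ A) :
    ∀ n : ℕ, ∀ S : Module.End K V, Skew q S → S.IsSemisimple →
      Module.finrank K (LinearMap.range S) ≤ n → (ρ S).IsSemisimple := by
  classical
  intro n
  induction n with
  | zero =>
    intro S hS hss hn
    have h0 : LinearMap.range S = ⊥ := Submodule.finrank_eq_zero.1 (by omega)
    have : S = 0 := LinearMap.range_eq_bot.1 h0
    rw [this, map_zero]
    exact Module.End.isSemisimple_zero
  | succ n ih =>
    intro S hS hss hn
    by_cases hS0 : S = 0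
    · rw [hS0, map_zero]
      exact Module.End.isSemisimple_zero
    have htop := hss.iSup_eigenspace_eq_top
    obtain ⟨x, hx0, e, he0, hSe⟩ : ∃ x : K, x ≠ 0 ∧ ∃ e : V, e ≠ 0 ∧ S e = x • e := by
      by_contra hcon
      push Not at hcon
      apply hS0
      apply LinearMap.ker_eq_top.1
      rw [eq_top_iff, ← htop]
      apply iSup_le
      intro x v hv
      rw [Module.End.mem_eigenspace_iff] at hv
      rw [LinearMap.mem_ker, hv]
      by_cases hx : x = 0
      · rw [hx, zero_smul]
      · by_cases hv0 : v = 0
        · rw [hv0, smul_zero]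
        · exact absurd hv (hcon x hx v hv0)
    have hee : q e e = 0 := by
      have h1 := hS e e
      rw [hSe, map_smul, map_smul, LinearMap.smul_apply, smul_eq_mul] at h1
      have h2 : (2 * x) * q e e = 0 := by linear_combination h1
      exact (mul_eq_zero.1 h2).resolve_left (mul_ne_zero two_ne_zero hx0)
    obtain ⟨y, f', hf', hef'⟩ : ∃ (y : K) (f' : V), S f' = y • f' ∧ q e f' ≠ 0 := by
      by_contra hcon
      push Not at hcon
      apply he0
      apply hnd
      intro b
      have hb : b ∈ (⨆ y : K, S.eigenspace y) := by rw [htop]; trivial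
      have hle : (⨆ y : K, S.eigenspace y) ≤ LinearMap.ker (q e) := by
        apply iSup_le
        intro y v hv
        exact hcon y v (Module.End.mem_eigenspace_iff.1 hv)
      exact hle hb
    have hy : y = -x := by
      have h1 := hS e f'
      rw [hSe, hf', map_smul, map_smul, LinearMap.smul_apply, smul_eq_mul, smul_eq_mul] at h1
      have h2 : (x + y) * q e f' = 0 := by linear_combination h1
      have h3 := (mul_eq_zero.1 h2).resolve_right hef'
      linear_combination h3
    obtain ⟨f, hef, hSf⟩ : ∃ f : V, q e f = 1 ∧ S f = -x • f :=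
      ⟨(q e f')⁻¹ • f', by rw [map_smul, smul_eq_mul, inv_mul_cancel₀ hef'],
        by rw [map_smul, hf', hy, smul_comm]⟩
    have hff : q f f = 0 := by
      have h1 := hS f f
      rw [hSf, map_smul, map_smul, LinearMap.smul_apply, smul_eq_mul] at h1
      have h2 : (2 * x) * q f f = 0 := by linear_combination -h1
      exact (mul_eq_zero.1 h2).resolve_left (mul_ne_zero two_ne_zero hx0)
    have hfe : q f e = 1 := by rw [hq, hef]
    set h := wd q e f with hh
    have hhs : Skew q h := skew_wd q hq e f
    have hcomm : S * h - h * S = 0 := by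
      rw [hh, comm_wd q S hS, hSe, hSf]
      ext v
      simp only [wd_apply, LinearMap.add_apply, LinearMap.zero_apply, map_smul,
        LinearMap.smul_apply, smul_eq_mul]
      module
    have hhss : h.IsSemisimple := by
      have hsq : Squarefree (∏ x ∈ ({0, 1, -1} : Finset K), (Polynomial.X - Polynomial.C x)) := by
        apply Polynomial.Separable.squarefree
        exact Polynomial.separable_prod_X_sub_C_iff'.2 (fun x _ y _ hxy => hxy)
      apply Module.End.isSemisimple_of_squarefree_aeval_eq_zero hsq
      have h10 : (0 : K) ∉ ({1, -1} : Finset K) := by simp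
      have h11 : (1 : K) ∉ ({-1} : Finset K) := by
        rw [Finset.mem_singleton]
        intro h
        have : (2 : K) = 0 := by linear_combination h
        exact two_ne_zero this
      rw [Finset.prod_insert h10, Finset.prod_insert h11, Finset.prod_singleton]
      have hc : h * (h * h) = h := by
        ext v
        simp only [Module.End.mul_apply, hh, wd_apply, map_sub, map_smul, hee, hff, hef, hfe]
        simp
      simp only [map_mul, map_sub, map_add, aeval_X, map_zero, map_one, map_neg, sub_zero,
        sub_neg_eq_add]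
      have h12 : h * ((h - 1) * (h + 1)) = h * (h * h) - h := by noncomm_ring
      rw [h12, hc, sub_self]
    set S' := S - x • h with hS'
    have hS's : Skew q S' := skew_sub_smul q hS hhs x
    have hcomm' : Commute S (x • h) := by
      have : Commute S h := sub_eq_zero.1 hcomm
      exact this.smul_right x
    have hS'ss : S'.IsSemisimple := by
      rw [hS']
      exact hss.sub_of_commute hcomm' (semisimple_smul _ hhss x)
    have heR : e ∈ LinearMap.range S := ⟨x⁻¹ • e, by rw [map_smul, hSe, smul_smul,
      inv_mul_cancel₀ hx0, one_smul]⟩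
    have hfR : f ∈ LinearMap.range S := ⟨(-x)⁻¹ • f, by rw [map_smul, hSf, smul_smul,
      inv_mul_cancel₀ (neg_ne_zero.2 hx0), one_smul]⟩
    have hle : LinearMap.range S' ≤ LinearMap.range S := by
      rintro _ ⟨v, rfl⟩
      rw [hS', LinearMap.sub_apply, LinearMap.smul_apply, hh, wd_apply]
      exact Submodule.sub_mem _ ⟨v, rfl⟩ (Submodule.smul_mem _ _
        (Submodule.sub_mem _ (Submodule.smul_mem _ _ heR) (Submodule.smul_mem _ _ hfR)))
    have hS'f : S' f = 0 := by
      rw [hS', LinearMap.sub_apply, LinearMap.smul_apply, hh, wd_apply, hSf, hff, hef]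
      module
    have hlt : LinearMap.range S' < LinearMap.range S := by
      refine lt_of_le_of_ne hle ?_
      intro heq
      rw [← heq] at heR
      obtain ⟨v, hv⟩ := heR
      have h1 := hS's v f
      rw [hv, hS'f, map_zero, hef] at h1
      simp at h1
    have hrank : Module.finrank K (LinearMap.range S') ≤ n := by
      have := Submodule.finrank_lt_finrank_of_lt hlt
      omega
    have hρS' := ih S' hS's hS'ss hrank
    have hρh := rho_h hSSL hq hnd h3 ρ hρ e f hee hff hef
    have hρc : Commute (ρ S') (x • ρ h) := by
      have h1 : S' * h - h * S' = 0 := by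
        rw [hS', sub_mul, mul_sub, smul_mul_assoc, mul_smul_comm]
        rw [sub_sub_sub_cancel_right]
        exact hcomm
      have h2 := hρ S' h hS's hhs
      rw [h1, map_zero] at h2
      have h3 : Commute (ρ S') (ρ h) := (sub_eq_zero.1 h2.symm)
      exact h3.smul_right x
    have hdec : ρ S = ρ S' + x • ρ h := by
      rw [hS', map_sub, map_smul]
      abel
    rw [hdec]
    exact hρS'.add_of_commute hρc (semisimple_smul _ hρh x)

end main

end P_SSO

/-- SSO from SSL. -/
theorem t_sso_aux : S_SSL → S_SSO := by
  intro hSSL K V H _ _ _ _ _ _ _ _ _ q hsym hnd h3 ρ hρ S hS htop x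
  have hq : ∀ a b, q a b = q b a := fun a b => by
    have := hsym.eq a b
    simpa using this
  have hnd' : ∀ a, (∀ b, q a b = 0) → a = 0 := fun a ha => by
    have hk := LinearMap.BilinForm.Nondegenerate.ker_eq_bot hnd
    have hm : a ∈ LinearMap.ker q := by
      rw [LinearMap.mem_ker]
      ext b
      exact ha b
    rw [hk] at hm
    exact (Submodule.mem_bot K).1 hm
  exact P_SSO.max_eq _ (P_SSO.key hSSL hq hnd' h3 ρ hρ _ S hS (P_SSO.semisimple_of_iSup S htop)
    le_rfl) x

/-- SSO. -/
theorem t_sso : S_SSO := t_sso_aux t_ssl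

end Pool.Agent.N184.HK
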