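import Mathlib
import Pool.Agent.N184.HK.Stm5

/-!
# Project HK, leaf TEN: the algebra generated by `E` is a quotient of tensor powers (helper628)
-/

set_option autoImplicit false

namespace Pool.Agent.N184.HK

open Module

namespace P_TEN

variable {K E H G : Type} [Field K] [AddCommGroup E] [Module K E] [AddCommGroup H] [Module K H]

/-- the multilinear map `(A_i) ↦ ∏ ρ A_i` -/
noncomputable def mu (ρ : E →ₗ[K] Module.End K H) (n : ℕ) :
    MultilinearMap K (fun _ : Fin n => E) (Module.End K H) :=
  (MultilinearMap.mkPiAlgebraFin K n (Module.End K H)).compLinearMap (fun _ => ρ)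

theorem mu_apply (ρ : E →ₗ[K] Module.End K H) (n : ℕ) (A : Fin n → E) :
    mu ρ n A = (List.ofFn fun i => ρ (A i)).prod := by
  rw [mu, MultilinearMap.compLinearMap_apply, MultilinearMap.mkPiAlgebraFin_apply]

/-- the linear map on the tensor power -/
noncomputable def T (ρ : E →ₗ[K] Module.End K H) (n : ℕ) :
    (PiTensorProduct K fun _ : Fin n => E) →ₗ[K] Module.End K H :=
  PiTensorProduct.lift (mu ρ n)

theorem T_tprod (ρ : E →ₗ[K] Module.End K H) (n : ℕ) (A : Fin n → E) :
    T ρ n (PiTensorProduct.tprod K A) = (List.ofFn fun i => ρ (A i)).prod := by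
  rw [T, PiTensorProduct.lift.tprod, mu_apply]

theorem prod_mem (ρ : E →ₗ[K] Module.End K H) (n : ℕ) (A : Fin n → E) :
    (List.ofFn fun i => ρ (A i)).prod ∈ Algebra.adjoin K (Set.range ρ) := by
  apply list_prod_mem
  intro x hx
  rw [List.mem_ofFn] at hx
  obtain ⟨i, rfl⟩ := hx
  exact Algebra.subset_adjoin ⟨A i, rfl⟩

theorem T_mem (ρ : E →ₗ[K] Module.End K H) (n : ℕ) (x : PiTensorProduct K fun _ : Fin n => E) :
    T ρ n x ∈ Subalgebra.toSubmodule (Algebra.adjoin K (Set.range ρ)) := by
  induction x using PiTensorProduct.induction_on with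
  | smul_tprod r A =>
    rw [map_smul, T_tprod]
    exact Submodule.smul_mem _ _ (prod_mem ρ n A)
  | add x y hx hy =>
    rw [map_add]
    exact Submodule.add_mem _ hx hy

/-- the corestriction -/
noncomputable def T' (ρ : E →ₗ[K] Module.End K H) (n : ℕ) :
    (PiTensorProduct K fun _ : Fin n => E) →ₗ[K]
      Subalgebra.toSubmodule (Algebra.adjoin K (Set.range ρ)) :=
  (T ρ n).codRestrict _ (T_mem ρ n)

theorem T'_val (ρ : E →ₗ[K] Module.End K H) (n : ℕ) (x : PiTensorProduct K fun _ : Fin n => E) :
    ((T' ρ n x : Subalgebra.toSubmodule (Algebra.adjoin K (Set.range ρ))) : Module.End K H) =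
      T ρ n x := rfl

theorem T_eq (a : Module.End K E) (φ : H ≃ₗ[K] H) (ρ : E →ₗ[K] Module.End K H)
    (h : ∀ A, φ.conj (ρ A) = ρ (a A)) (n : ℕ) (x : PiTensorProduct K fun _ : Fin n => E) :
    T ρ n (PiTensorProduct.map (R := K) (s := fun _ : Fin n => E) (t := fun _ : Fin n => E)
      (fun _ => a) x) = φ.conj (T ρ n x) := by
  induction x using PiTensorProduct.induction_on with
  | smul_tprod r A =>
    rw [map_smul, map_smul, map_smul, map_smul, PiTensorProduct.map_tprod, T_tprod, T_tprod]
    congr 1
    have e : ∀ f : Module.End K H, φ.conj f = φ.conjAlgEquiv K f := fun f => rfl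
    rw [e, map_list_prod, List.map_ofFn]
    congr 2
    funext i
    show ρ (a (A i)) = φ.conjAlgEquiv K (ρ (A i))
    rw [← e, h]
  | add x y hx hy =>
    rw [map_add, map_add, map_add, map_add, hx, hy]

end P_TEN

open P_TEN in
theorem t_ten_aux (hI : S_IMG) (hS : S_SUM) : S_TEN := by
  intro K E H G _ _ _ _ _ _ _ a φ ρ hρ hss h
  set B := Subalgebra.toSubmodule (Algebra.adjoin K (Set.range ρ)) with hB
  set c : G → Module.End K B := fun g =>
    LinearMap.restrict (((φ g).conj : Module.End K (Module.End K H))) (h g) with hc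
  have heq : ∀ (n : ℕ) (g : G) (x : PiTensorProduct K fun _ : Fin n => E),
      T' ρ n (PiTensorProduct.map (R := K) (s := fun _ : Fin n => E) (t := fun _ : Fin n => E)
        (fun _ => a g) x) = c g (T' ρ n x) := by
    intro n g x
    apply Subtype.ext
    exact T_eq (a g) (φ g) ρ (hρ g) n x
  have hW : ∀ (n : ℕ) (g : G), ∀ x ∈ LinearMap.range (T' ρ n), c g x ∈ LinearMap.range (T' ρ n) := by
    rintro n g x ⟨y, rfl⟩
    exact ⟨_, heq n g y⟩
  refine hS K B G ℕ c (fun n => LinearMap.range (T' ρ n)) hW ?_ ?_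
  · intro n
    refine hI K (PiTensorProduct K fun _ : Fin n => E) (LinearMap.range (T' ρ n)) G
      (fun g => PiTensorProduct.map (R := K) (s := fun _ : Fin n => E) (t := fun _ : Fin n => E)
        (fun _ => a g)) (fun g => (c g).restrict (hW n g)) (T' ρ n).rangeRestrict
      (T' ρ n).surjective_rangeRestrict ?_ (hss n)
    intro g x
    apply Subtype.ext
    exact heq n g x
  · rw [eq_top_iff]
    rintro ⟨y, hy⟩ -
    have hBs : B = Submodule.span K (Submonoid.closure (Set.range ρ) : Set (Module.End K H)) :=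
      Algebra.adjoin_eq_span K _
    have key : B ≤ (⨆ n, LinearMap.range (T' ρ n)).map B.subtype := by
      refine hBs.le.trans ?_
      rw [Submodule.span_le]
      intro m hm
      obtain ⟨l, hl, rfl⟩ := Submonoid.exists_list_of_mem_closure hm
      have hA : ∀ i : Fin l.length, ∃ A, ρ A = l.get i := fun i => hl _ (List.get_mem l i)
      choose A hA using hA
      have hT : T ρ l.length (PiTensorProduct.tprod K A) = l.prod := by
        rw [T_tprod]
        congr 1
        have : (fun i => ρ (A i)) = l.get := funext hA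
        rw [this, List.ofFn_get]
      refine ⟨T' ρ l.length (PiTensorProduct.tprod K A), ?_, hT⟩
      exact (le_iSup (fun n => LinearMap.range (T' ρ n)) l.length) ⟨_, rfl⟩
    obtain ⟨z, hz, hzy⟩ := key hy
    have : z = ⟨y, hy⟩ := Subtype.ext hzy
    rw [← this]
    exact hz

end Pool.Agent.N184.HK
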