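import Mathlib
import Pool.Agent.N184.HK.Stm3
import Pool.Agent.N184.HP.Eig
import Pool.Agent.N184.HP.Weil

/-!
# Project HK, task TOM (helper136): isomorphisms between the weight spaces give mw purity
-/

set_option autoImplicit false

namespace Pool.Agent.N184.HK

open Module Pool.Agent.Y143 Pool.Agent.N184.HP

namespace P_TOM

variable {Ω V : Type} [Field Ω] [CharZero Ω] [AddCommGroup V] [Module Ω V]

/-- the Weil numbers of weight at most `c` -/
def Le (Ω : Type) [Field Ω] [CharZero Ω] (q : ℕ) (c : ℤ) : Set Ω :=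
  {e | ∃ w : ℤ, w ≤ c ∧ IsWeilNumber q w e}

/-- the Weil numbers of weight `c` -/
def Eq (Ω : Type) [Field Ω] [CharZero Ω] (q : ℕ) (c : ℤ) : Set Ω := {e | IsWeilNumber q c e}

lemma WS_eq (q : ℕ) (Φ : Module.End Ω V) (w : ℤ) : WS q Φ w = eig Φ (Eq Ω q w) := rfl

lemma Le_split (q : ℕ) (c : ℤ) : Le Ω q c = Le Ω q (c - 1) ∪ Eq Ω q c := by
  ext e
  simp only [Le, Eq, Set.mem_union, Set.mem_ofPred_eq]
  constructor
  · rintro ⟨w, h1, h2⟩
    rcases lt_or_eq_of_le h1 with h3 | h3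
    · exact Or.inl ⟨w, by omega, h2⟩
    · exact Or.inr (h3 ▸ h2)
  · rintro (⟨w, h1, h2⟩ | h)
    · exact ⟨w, by omega, h2⟩
    · exact ⟨c, le_rfl, h⟩

lemma Le_mono (q : ℕ) {c d : ℤ} (h : c ≤ d) : Le Ω q c ⊆ Le Ω q d := by
  rintro e ⟨w, h1, h2⟩
  exact ⟨w, h1.trans h, h2⟩

lemma disj {q : ℕ} (hq : 1 < q) {c d : ℤ} (h : c < d) : Disjoint (Le Ω q c) (Eq Ω q d) := by
  rw [Set.disjoint_left]
  rintro e ⟨w, h1, h2⟩ h3
  have := weight_unique hq h2 h3
  omega

lemma N_gen {q : ℕ} (hq : 1 < q) {Φ N : Module.End Ω V} (hN : ∀ x, N (Φ x) = (q : Ω) • Φ (N x)) {α : Ω} {x : V}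
    (hx : x ∈ Φ.maxGenEigenspace α) : N x ∈ Φ.maxGenEigenspace (α / q) := by
  have hqΩ : (q : Ω) ≠ 0 := Nat.cast_ne_zero.2 (by omega)
  have key : ∀ (k : ℕ) (x : V), N (((Φ - α • 1) ^ k) x) =
      (q : Ω) ^ k • ((Φ - (α / q) • 1) ^ k) (N x) := by
    intro k
    induction k with
    | zero => intro x; simp
    | succ k ih =>
      intro x
      rw [pow_succ, Module.End.mul_apply, ih, pow_succ (q : Ω), mul_smul,
        pow_succ (Φ - (α / q) • 1), Module.End.mul_apply]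
      congr 1
      rw [← map_smul]
      congr 1
      simp only [LinearMap.sub_apply, LinearMap.smul_apply, Module.End.one_apply, map_sub, map_smul]
      rw [hN, smul_sub, smul_smul, mul_div_cancel₀ _ hqΩ]
  rw [Module.End.mem_maxGenEigenspace] at hx ⊢
  obtain ⟨k, hk⟩ := hx
  refine ⟨k, ?_⟩
  have h1 := key k x
  rw [hk, map_zero] at h1
  exact (smul_eq_zero.1 h1.symm).resolve_left (pow_ne_zero k hqΩ)

lemma weil_div {q : ℕ} (hq : 1 < q) {w : ℤ} {α : Ω} (h : IsWeilNumber q w α) :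
    IsWeilNumber q (w - 2) (α / q) := by
  have h1 := h.twist (by omega : q ≠ 0) (-1)
  rw [zpow_neg, zpow_one, show w + 2 * -1 = w - 2 by ring] at h1
  rwa [div_eq_inv_mul]

lemma N_Le {q : ℕ} (hq : 1 < q) {Φ N : Module.End Ω V} (hN : ∀ x, N (Φ x) = (q : Ω) • Φ (N x)) (c : ℤ) (x : V)
    (hx : x ∈ eig Φ (Le Ω q c)) : N x ∈ eig Φ (Le Ω q (c - 2)) := by
  have h1 : eig Φ (Le Ω q c) ≤ (eig Φ (Le Ω q (c - 2))).comap N := by
    apply eig_le
    rintro α ⟨w, hw, hα⟩ x hx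
    rw [Submodule.mem_comap]
    exact le_eig (S := Le Ω q (c - 2)) ⟨w - 2, by omega, weil_div hq hα⟩ (N_gen hq hN hx)
  exact h1 hx

lemma N_pow_Le {q : ℕ} (hq : 1 < q) {Φ N : Module.End Ω V} (hN : ∀ x, N (Φ x) = (q : Ω) • Φ (N x)) (b : ℕ) :
    ∀ (c : ℤ) (x : V), x ∈ eig Φ (Le Ω q c) → (N ^ b) x ∈ eig Φ (Le Ω q (c - 2 * b)) := by
  induction b with
  | zero => intro c x hx; simpa using hx
  | succ b ih =>
    intro c x hx
    rw [pow_succ' N b, Module.End.mul_apply]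
    have := N_Le hq hN _ _ (ih c x hx)
    rw [show c - 2 * (b : ℤ) - 2 = c - 2 * ((b + 1 : ℕ) : ℤ) by push_cast; ring] at this
    exact this

omit [CharZero Ω] in
lemma Phi_eig (Φ : Module.End Ω V) (S : Set Ω) (x : V) (hx : x ∈ eig Φ S) : Φ x ∈ eig Φ S := by
  have h1 : eig Φ S ≤ (eig Φ S).comap Φ := by
    apply eig_le
    intro α hα x hx
    rw [Submodule.mem_comap]
    exact le_eig hα (Φ.mapsTo_maxGenEigenspace_of_comm (Commute.refl Φ) α hx)
  exact h1 hx

end P_TOM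

open P_TOM

theorem t_tom : S_TOM := by
  classical
  intro Ω V _ _ _ _ _ _ q hq i Φ N hroots hN hbij
  obtain ⟨wt, hwt⟩ : ∃ wt : Ω → ℤ, ∀ e ∈ Φ.charpoly.roots, IsWeilNumber q (wt e) e := by
    refine ⟨fun e => if h : ∃ w : ℤ, IsWeilNumber q w e then h.choose else 0, fun e he => ?_⟩
    simp only [dif_pos (hroots e he)]
    exact (hroots e he).choose_spec
  obtain ⟨U, hU⟩ := (Φ.charpoly.roots.toFinset.image wt).bddAbove
  obtain ⟨L, hL⟩ := (Φ.charpoly.roots.toFinset.image wt).bddBelow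
  have hU' : ∀ e ∈ Φ.charpoly.roots, wt e ≤ U := fun e he =>
    hU (Finset.mem_coe.2 (Finset.mem_image_of_mem wt (Multiset.mem_toFinset.2 he)))
  have hL' : ∀ e ∈ Φ.charpoly.roots, L ≤ wt e := fun e he =>
    hL (Finset.mem_coe.2 (Finset.mem_image_of_mem wt (Multiset.mem_toFinset.2 he)))
  have split : ∀ c : ℤ, eig Φ (Le Ω q c) = eig Φ (Le Ω q (c - 1)) ⊔ eig Φ (Eq Ω q c) := by
    intro c
    rw [eig_sup, ← Le_split]
  refine ⟨fun a => eig Φ (Le Ω q (i + a)), ?_, ?_, ?_⟩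
  · refine ⟨?_, ?_, ?_, ?_, ?_, ?_⟩
    · intro a b hab
      exact eig_mono (Le_mono q (by omega))
    · refine ⟨L - 1 - i, ?_⟩
      rw [eq_bot_iff]
      apply eig_le
      rintro α ⟨w, hw, hα⟩ x hx
      by_cases h : α ∈ Φ.charpoly.roots
      · exfalso
        have h1 := weight_unique hq hα (hwt α h)
        have h2 := hL' α h
        omega
      · rwa [maxGen_eq_bot h] at hx
    · refine ⟨U - i, ?_⟩
      rw [eq_top_iff, ← eig_univ Φ]
      apply eig_le
      rintro α - x hx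
      by_cases h : α ∈ Φ.charpoly.roots
      · have h2 := hU' α h
        exact le_eig (S := Le Ω q (i + (U - i))) ⟨wt α, by omega, hwt α h⟩ hx
      · rw [maxGen_eq_bot h, Submodule.mem_bot] at hx
        rw [hx]
        exact zero_mem _
    · intro a x hx
      have := N_Le hq hN (i + a) x hx
      rwa [show i + a - 2 = i + (a - 2) by ring] at this
    · intro a x hx hNx
      have hx' : x ∈ eig Φ (Le Ω q (i + a)) := hx
      rw [split, Submodule.mem_sup] at hx'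
      obtain ⟨x', h1, xa, h2, rfl⟩ := hx'
      have h3 := N_pow_Le hq hN a _ _ h1
      rw [show i + (a : ℤ) - 1 - 2 * a = i + (-a - 1) by ring] at h3
      have h4 : (N ^ a) xa ∈ eig Φ (Le Ω q (i + (-a - 1))) := by
        have : (N ^ a) xa = (N ^ a) (x' + xa) - (N ^ a) x' := by rw [map_add]; abel
        rw [this]
        exact Submodule.sub_mem _ hNx h3
      have h5 : (N ^ a) xa ∈ eig Φ (Eq Ω q (i - a)) := (hbij a).mapsTo h2
      have h6 : (N ^ a) xa = 0 :=
        Submodule.disjoint_def.1 (eig_disjoint (disj hq (show i + (-(a : ℤ) - 1) < i - a by omega))) _ h4 h5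
      have h7 : xa = 0 := (hbij a).injOn h2 (zero_mem (eig Φ (Eq Ω q (i + a)))) (by rw [h6, map_zero])
      rw [h7, add_zero]
      rw [show i + (a : ℤ) - 1 = i + (a - 1) by ring] at h1
      exact h1
    · intro a y hy
      have hy' : y ∈ eig Φ (Le Ω q (i + -a)) := hy
      rw [split, Submodule.mem_sup] at hy'
      obtain ⟨y', h1, ya, h2, rfl⟩ := hy'
      rw [show i + -(a : ℤ) = i - a by ring] at h2
      obtain ⟨x, hx, hxy⟩ := (hbij a).surjOn h2
      refine ⟨x, ?_, ?_⟩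
      · have : eig Φ (Eq Ω q (i + a)) ≤ eig Φ (Le Ω q (i + a)) :=
          eig_mono fun e he => ⟨i + a, le_rfl, he⟩
        exact this hx
      · rw [hxy, add_sub_cancel_right]
        rw [show i + -(a : ℤ) - 1 = i + (-a - 1) by ring] at h1
        exact h1
  · intro a x hx
    exact Phi_eig Φ _ x hx
  · intro a α x hx hx1 h
    have hx' : x ∈ eig Φ (Le Ω q (i + a)) := hx
    rw [split, Submodule.mem_sup] at hx'
    obtain ⟨x', h1, xa, h2, rfl⟩ := hx'
    rw [show i + a - 1 = i + (a - 1) by ring] at h1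
    have h3 : xa ∉ eig Φ (Le Ω q (i + (a - 1))) := fun h4 => hx1 (Submodule.add_mem _ h1 h4)
    have h4 : Φ xa - α • xa ∈ eig Φ (Le Ω q (i + (a - 1))) := by
      have : Φ xa - α • xa = (Φ (x' + xa) - α • (x' + xa)) - (Φ x' - α • x') := by
        rw [map_add, smul_add]; abel
      rw [this]
      exact Submodule.sub_mem _ h (Submodule.sub_mem _ (Phi_eig Φ _ x' h1) (Submodule.smul_mem _ _ h1))
    have h5 := eigen_of_eig h2 (fun y hy => Phi_eig Φ _ y hy) h3 h4
    rw [add_comm]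
    exact h5

end Pool.Agent.N184.HK
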