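import Mathlib
import Pool.Agent.N184.HK.Stm5

/-!
# Project HK (helper184): leaves UNF, BAS, OFI (helper31)
-/

set_option autoImplicit false

namespace Pool.Agent.N184.HK

open Module Polynomial

namespace P_UNF

lemma fixing_finiteIndex {K L : Type} [Field K] [Field L] [Algebra K L]
    (E : IntermediateField K L) [FiniteDimensional K E] : E.fixingSubgroup.FiniteIndex := by
  have hfin : Finite (E →ₐ[K] L) := inferInstance
  let F : (Gal(L/K) ⧸ E.fixingSubgroup) → (E →ₐ[K] L) := fun q =>
    Quotient.liftOn' q (fun σ => (σ : L →ₐ[K] L).comp E.val) (by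
      intro σ τ h
      rw [QuotientGroup.leftRel_apply] at h
      ext x
      have h2 := (IntermediateField.mem_fixingSubgroup_iff E (σ⁻¹ * τ)).1 h x x.2
      have h3 : τ (x : L) = σ (x : L) := by
        have h4 : σ ((σ⁻¹ * τ) (x : L)) = σ (x : L) := by rw [h2]
        rw [← h4]
        show τ (x : L) = (σ * (σ⁻¹ * τ)) (x : L)
        rw [mul_inv_cancel_left]
      exact h3.symm)
  have hF : Function.Injective F := by
    intro q q' h
    induction q using QuotientGroup.induction_on with
    | H σ =>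
      induction q' using QuotientGroup.induction_on with
      | H τ =>
        rw [QuotientGroup.eq, IntermediateField.mem_fixingSubgroup_iff]
        intro x hx
        have h1 : (σ : L →ₐ[K] L).comp E.val = (τ : L →ₐ[K] L).comp E.val := h
        have h2 : σ x = τ x := DFunLike.congr_fun h1 (⟨x, hx⟩ : E)
        show σ⁻¹ (τ x) = x
        rw [← h2]
        show (σ⁻¹ * σ) x = x
        rw [inv_mul_cancel]
        rfl
  have : Finite (Gal(L/K) ⧸ E.fixingSubgroup) := Finite.of_injective F hF
  exact Subgroup.finiteIndex_of_finite_quotient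

end P_UNF

theorem t_unf : S_UNF := by
  intro K V _ _ _ _ f k hk hn hf
  obtain ⟨N, hN⟩ := hn
  obtain ⟨Q, hQ⟩ : ∃ Q : K[X], Q = ∑ i ∈ Finset.range k, X ^ i := ⟨_, rfl⟩
  have hQ1 : Q.eval 1 = k := by
    rw [hQ, eval_finset_sum]
    simp
  have hco : IsCoprime (X - C (1 : K)) Q := by
    rw [(irreducible_X_sub_C (1 : K)).coprime_iff_not_dvd, dvd_iff_isRoot, IsRoot, hQ1]
    exact Nat.cast_ne_zero.2 hk.ne'
  have hco' : IsCoprime ((X - C (1 : K)) ^ N) Q := hco.pow_left
  obtain ⟨a, b, hab⟩ := hco'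
  have h1 : aeval f (X - C (1 : K)) = f - 1 := by simp
  have h3 : aeval f Q * (f - 1) = f ^ k - 1 := by
    have h2 : aeval f Q = ∑ i ∈ Finset.range k, f ^ i := by rw [hQ]; simp
    rw [h2]
    exact geom_sum_mul f k
  have h4 := congrArg (aeval f) hab
  rw [map_add, map_mul, map_mul, map_pow, h1, hN, mul_zero, zero_add, map_one] at h4
  have h5 : f - 1 = 0 := by
    calc f - 1 = 1 * (f - 1) := (one_mul _).symm
      _ = (aeval f b * aeval f Q) * (f - 1) := by rw [h4]
      _ = aeval f b * (aeval f Q * (f - 1)) := mul_assoc _ _ _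
      _ = 0 := by rw [h3, hf, sub_self, mul_zero]
  exact sub_eq_zero.1 h5

theorem t_bas : S_BAS := by
  intro K _ O hO h1
  obtain ⟨E, hE, hEO⟩ := (krullTopology_mem_nhds_one_iff K (AlgebraicClosure K) O).1
    (hO.mem_nhds h1)
  exact ⟨E.fixingSubgroup, E.fixingSubgroup_isOpen, hEO⟩

theorem t_ofi : S_OFI := by
  intro K _ U hU
  obtain ⟨E, hE, hEO⟩ := (krullTopology_mem_nhds_one_iff K (AlgebraicClosure K)
    (U : Set (Gal(AlgebraicClosure K/K)))).1 (hU.mem_nhds U.one_mem)
  have : E.fixingSubgroup.FiniteIndex := P_UNF.fixing_finiteIndex E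
  exact Subgroup.finiteIndex_of_le hEO

end Pool.Agent.N184.HK
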