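import Mathlib
import Pool.Agent.N184.HK.Stm5
import Pool.Agent.N184.HK.P_KOL

/-!
# HK/UNI: a unipotent representation which is trivial on inertia is trivial
-/

set_option autoImplicit false

namespace Pool.Agent.N184.HK

open Module

namespace P_UNI

/-- the fixed vectors -/
def fixd {K V G : Type} [Field K] [AddCommGroup V] [Module K V] (r : G → Module.End K V) :
    Submodule K V where
  carrier := {x | ∀ σ, r σ x = x}
  add_mem' := by
    intro x y hx hy σ
    rw [map_add, hx σ, hy σ]
  zero_mem' := fun σ => map_zero _
  smul_mem' := by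
    intro c x hx σ
    rw [map_smul, hx σ]

theorem mem_fixd {K V G : Type} [Field K] [AddCommGroup V] [Module K V]
    (r : G → Module.End K V) (x : V) : x ∈ fixd r ↔ ∀ σ, r σ x = x := Iff.rfl

theorem fixd_le {K V G : Type} [Field K] [AddCommGroup V] [Module K V]
    (r : G → Module.End K V) (σ : G) : fixd r ≤ (fixd r).comap (r σ) := by
  intro x hx
  rw [Submodule.mem_comap, hx σ]
  exact hx

/-- the induced operators on the quotient -/
def quo {K V G : Type} [Field K] [AddCommGroup V] [Module K V] (r : G → Module.End K V) (σ : G) :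
    Module.End K (V ⧸ fixd r) := (fixd r).mapQ (fixd r) (r σ) (fixd_le r σ)

theorem quo_mk {K V G : Type} [Field K] [AddCommGroup V] [Module K V]
    (r : G → Module.End K V) (σ : G) (x : V) :
    quo r σ ((fixd r).mkQ x) = (fixd r).mkQ (r σ x) := rfl

theorem quo_nil {K V G : Type} [Field K] [AddCommGroup V] [Module K V]
    (r : G → Module.End K V) (σ : G) (h : IsNilpotent (r σ - 1)) :
    IsNilpotent (quo r σ - 1) := by
  obtain ⟨n, hn⟩ := h
  have key : ∀ (m : ℕ) (x : V),
      ((quo r σ - 1) ^ m) ((fixd r).mkQ x) = (fixd r).mkQ (((r σ - 1) ^ m) x) := by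
    intro m
    induction m with
    | zero => intro x; simp
    | succ m ih =>
      intro x
      rw [pow_succ, pow_succ, Module.End.mul_apply, Module.End.mul_apply, LinearMap.sub_apply,
        LinearMap.sub_apply, quo_mk, Module.End.one_apply, Module.End.one_apply, ← map_sub, ih]
  refine ⟨n, LinearMap.ext fun y => ?_⟩
  obtain ⟨x, rfl⟩ := (fixd r).mkQ_surjective y
  rw [key, hn, LinearMap.zero_apply, map_zero, LinearMap.zero_apply]

end P_UNI

open P_UNI in
/-- UNI from KOL. -/
theorem t_uni_aux (hK : S_KOL) : S_UNI := by
  intro K V _ _ _ _ _ _ _ _ G _ _ I r hmul hnil hcont hI hχ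
  have main : ∀ (n : ℕ) (V : Type) [AddCommGroup V] [Module K V] [FiniteDimensional K V]
      (r : G → Module.End K V), Module.finrank K V = n →
      (∀ σ τ, r (σ * τ) = r σ * r τ) → (∀ σ, IsNilpotent (r σ - 1)) →
      (∀ (L : Module.Dual K V) (x : V), Continuous fun σ => L (r σ x)) → (∀ σ ∈ I, r σ = 1) →
      ∀ σ, r σ = 1 := by
    intro n
    induction n using Nat.strong_induction_on with
    | _ n ih =>
      intro V _ _ _ r hn hmul hnil hcont hI
      rcases subsingleton_or_nontrivial V with hV | hV
      · intro σ
        exact LinearMap.ext fun x => Subsingleton.elim _ _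
      obtain ⟨x0, hx0, hfix⟩ := hK K V (Set.range r) (by
        rintro _ ⟨σ, rfl⟩ _ ⟨τ, rfl⟩
        exact ⟨σ * τ, hmul σ τ⟩) (by
        rintro _ ⟨σ, rfl⟩
        exact hnil σ)
      have hmem : x0 ∈ fixd r := fun σ => hfix (r σ) ⟨σ, rfl⟩
      have hlt : Module.finrank K (V ⧸ fixd r) < n := by
        have h1 := Submodule.finrank_quotient_add_finrank (fixd r)
        have h2 : 0 < Module.finrank K (fixd r) := by
          have : Nontrivial (fixd r) := ⟨⟨x0, hmem⟩, 0, fun h => hx0 (congrArg Subtype.val h)⟩
          exact Module.finrank_pos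
        omega
      have h1 := ih _ hlt (V ⧸ fixd r) (quo r) rfl (by
          intro σ τ
          refine LinearMap.ext fun y => ?_
          obtain ⟨x, rfl⟩ := (fixd r).mkQ_surjective y
          rw [Module.End.mul_apply, quo_mk, quo_mk, quo_mk, hmul, Module.End.mul_apply])
        (fun σ => quo_nil r σ (hnil σ)) (by
          intro L y
          obtain ⟨x, rfl⟩ := (fixd r).mkQ_surjective y
          exact hcont (L.comp (fixd r).mkQ) x) (by
          intro σ hσ
          refine LinearMap.ext fun y => ?_
          obtain ⟨x, rfl⟩ := (fixd r).mkQ_surjective y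
          rw [quo_mk, hI σ hσ, Module.End.one_apply, Module.End.one_apply])
      have h2 : ∀ σ x, r σ x - x ∈ fixd r := by
        intro σ x
        have h3 := congrArg (fun f : Module.End K (V ⧸ fixd r) => f ((fixd r).mkQ x)) (h1 σ)
        simp only [quo_mk, Module.End.one_apply] at h3
        rw [← sub_eq_zero, ← map_sub] at h3
        exact (Submodule.Quotient.mk_eq_zero _).1 h3
      intro σ
      refine LinearMap.ext fun x => ?_
      rw [Module.End.one_apply, ← sub_eq_zero, ← Module.forall_dual_apply_eq_zero_iff K]
      intro L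
      refine hχ (fun σ => L (r σ x - x)) ?_ ?_ ?_ σ
      · simp only [map_sub]
        exact (hcont L x).sub continuous_const
      · intro σ τ
        have h3 := h2 τ x σ
        rw [map_sub] at h3
        show L (r (σ * τ) x - x) = L (r σ x - x) + L (r τ x - x)
        rw [hmul, Module.End.mul_apply, ← map_add]
        congr 1
        rw [← h3]
        abel
      · intro σ hσ
        show L (r σ x - x) = 0
        rw [hI σ hσ, Module.End.one_apply, sub_self, map_zero]
  exact main _ V r rfl hmul hnil hcont hI

/-- UNI -/
theorem t_uni : S_UNI := t_uni_aux t_kol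

end Pool.Agent.N184.HK
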