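import Mathlib
import Pool.Agent.N184.HK.Stm5
import Pool.Agent.N184.HK.P_SSO

/-!
# Project HK, leaf WEYL: complete reducibility of the representations of `so(V, q)`
(helper803, for helper184)
-/

set_option autoImplicit false
set_option linter.unusedSectionVars false

namespace Pool.Agent.N184.HK

namespace P_WEYL

open Module

section rep

variable {K H : Type} [Field K] [AddCommGroup H] [Module K H] {n : ℕ}

/-- the relations of the orthogonal Lie algebra -/
structure Rp (R : Fin n → Fin n → Module.End K H) : Prop where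
  anti : ∀ i j, R j i = -R i j
  br : ∀ a b i j, R a b * R i j - R i j * R a b =
    (if b = i then (1 : K) else 0) • R a j - (if a = i then (1 : K) else 0) • R b j +
      (if b = j then (1 : K) else 0) • R i a - (if a = j then (1 : K) else 0) • R i b

/-- the Casimir operator -/
def Cs (R : Fin n → Fin n → Module.End K H) : Module.End K H := ∑ i, ∑ j, R i j * R i j

theorem sum_l {M : Type} [AddCommMonoid M] (b : Fin n) (f : Fin n → Fin n → M) :
    ∑ i, ∑ j, (if b = i then f i j else 0) = ∑ j, f b j := by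
  rw [Finset.sum_comm]
  refine Finset.sum_congr rfl fun j _ => ?_
  rw [Finset.sum_ite_eq]
  simp

theorem sum_r {M : Type} [AddCommMonoid M] (b : Fin n) (f : Fin n → Fin n → M) :
    ∑ i, ∑ j, (if b = j then f i j else 0) = ∑ i, f i b := by
  refine Finset.sum_congr rfl fun i _ => ?_
  rw [Finset.sum_ite_eq]
  simp

theorem cs_comm {R : Fin n → Fin n → Module.End K H} (hR : Rp R) (a b : Fin n) :
    R a b * Cs R = Cs R * R a b := by
  have h0 : R a b * Cs R - Cs R * R a b = ∑ i, ∑ j,
      ((R a b * R i j - R i j * R a b) * R i j + R i j * (R a b * R i j - R i j * R a b)) := by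
    unfold Cs
    rw [Finset.mul_sum, Finset.sum_mul, ← Finset.sum_sub_distrib]
    refine Finset.sum_congr rfl fun i _ => ?_
    rw [Finset.mul_sum, Finset.sum_mul, ← Finset.sum_sub_distrib]
    refine Finset.sum_congr rfl fun j _ => ?_
    noncomm_ring
  have h1 : ∀ i j, (R a b * R i j - R i j * R a b) * R i j +
      R i j * (R a b * R i j - R i j * R a b) =
      (if b = i then R a j * R i j + R i j * R a j else 0) -
      (if a = i then R b j * R i j + R i j * R b j else 0) +
      (if b = j then R i a * R i j + R i j * R i a else 0) -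
      (if a = j then R i b * R i j + R i j * R i b else 0) := by
    intro i j
    rw [hR.br]
    simp only [ite_smul, one_smul, zero_smul]
    split_ifs <;> noncomm_ring
  rw [← sub_eq_zero, h0]
  simp only [h1, Finset.sum_sub_distrib, Finset.sum_add_distrib]
  rw [sum_l b (fun i j => R a j * R i j + R i j * R a j),
    sum_l a (fun i j => R b j * R i j + R i j * R b j),
    sum_r b (fun i j => R i a * R i j + R i j * R i a),
    sum_r a (fun i j => R i b * R i j + R i j * R i b)]
  simp only [Finset.sum_add_distrib]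
  abel

/-- restriction to a stable subspace -/
theorem rp_restrict {R : Fin n → Fin n → Module.End K H} (hR : Rp R) (N : Submodule K H)
    (hN : ∀ i j, ∀ x ∈ N, R i j x ∈ N) :
    Rp (fun i j => (R i j).restrict (hN i j)) := by
  refine ⟨fun i j => ?_, fun a b i j => ?_⟩
  · refine LinearMap.ext fun x => Subtype.ext ?_
    exact LinearMap.congr_fun (hR.anti i j) (x : H)
  · refine LinearMap.ext fun x => Subtype.ext ?_
    exact LinearMap.congr_fun (hR.br a b i j) (x : H)

/-- quotients -/
theorem rp_quot {R : Fin n → Fin n → Module.End K H} (hR : Rp R) (P : Submodule K H)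
    (hP : ∀ i j, P ≤ P.comap (R i j)) :
    Rp (fun i j => P.mapQ P (R i j) (hP i j)) := by
  refine ⟨fun i j => ?_, fun a b i j => ?_⟩
  · refine LinearMap.ext fun x => ?_
    obtain ⟨x, rfl⟩ := Submodule.Quotient.mk_surjective P x
    exact congrArg (Submodule.Quotient.mk (p := P)) (LinearMap.congr_fun (hR.anti i j) x)
  · refine LinearMap.ext fun x => ?_
    obtain ⟨x, rfl⟩ := Submodule.Quotient.mk_surjective P x
    exact congrArg (Submodule.Quotient.mk (p := P)) (LinearMap.congr_fun (hR.br a b i j) x)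

/-- the action on operators by commutators -/
def ad (f : Module.End K H) : Module.End K (Module.End K H) :=
  LinearMap.mulLeft K f - LinearMap.mulRight K f

theorem ad_apply (f g : Module.End K H) : ad f g = f * g - g * f := rfl

theorem rp_ad {R : Fin n → Fin n → Module.End K H} (hR : Rp R) :
    Rp (fun i j => ad (R i j)) := by
  refine ⟨fun i j => ?_, fun a b i j => ?_⟩
  · refine LinearMap.ext fun g => ?_
    rw [LinearMap.neg_apply, ad_apply, ad_apply, hR.anti i j]
    noncomm_ring
  · refine LinearMap.ext fun g => ?_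
    have h1 : (ad (R a b) * ad (R i j) - ad (R i j) * ad (R a b)) g =
        (R a b * R i j - R i j * R a b) * g - g * (R a b * R i j - R i j * R a b) := by
      rw [LinearMap.sub_apply, Module.End.mul_apply, Module.End.mul_apply]
      simp only [ad_apply]
      noncomm_ring
    rw [h1, hR.br]
    simp only [LinearMap.sub_apply, LinearMap.add_apply, LinearMap.smul_apply, ad_apply, sub_mul,
      add_mul, mul_sub, mul_add, smul_mul_assoc, mul_smul_comm]
    module

theorem third (hn : 3 ≤ n) (i j : Fin n) : ∃ k, k ≠ i ∧ k ≠ j := by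
  by_contra hcon
  push Not at hcon
  have h1 : (Finset.univ : Finset (Fin n)) ⊆ {i, j} := by
    intro k _
    rw [Finset.mem_insert, Finset.mem_singleton]
    by_cases hk : k = i
    · exact Or.inl hk
    · exact Or.inr (hcon k hk)
  have h2 := (Finset.card_le_card h1).trans Finset.card_le_two
  rw [Finset.card_univ, Fintype.card_fin] at h2
  omega

/-- the relations for three different indices -/
theorem br1 {R : Fin n → Fin n → Module.End K H} (hR : Rp R) {i j k : Fin n} (hij : i ≠ j)
    (hjk : j ≠ k) (hik : i ≠ k) : R i j * R j k - R j k * R i j = R i k := by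
  rw [hR.br, if_pos rfl, if_neg hij, if_neg hjk, if_neg hik]
  simp

theorem br2 {R : Fin n → Fin n → Module.End K H} (hR : Rp R) {i j k : Fin n} (hij : i ≠ j)
    (hjk : j ≠ k) (hik : i ≠ k) : R j k * R i k - R i k * R j k = R i j := by
  rw [hR.br, if_neg hik.symm, if_neg hij.symm, if_pos rfl, if_neg hjk]
  simp

theorem br3 {R : Fin n → Fin n → Module.End K H} (hR : Rp R) {i j k : Fin n} (hij : i ≠ j)
    (hjk : j ≠ k) (hik : i ≠ k) : R i k * R i j - R i j * R i k = R j k := by
  rw [hR.br, if_neg hik.symm, if_pos rfl, if_neg hjk.symm, if_neg hij, hR.anti j k]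
  simp

end rep

section tr

variable {K H : Type} [Field K] [CharZero K] [IsAlgClosed K] [AddCommGroup H] [Module K H]
  [FiniteDimensional K H]

/-- the trace of the square of a diagonalizable operator with integral eigenvalues -/
theorem tr_sq (f : Module.End K H) (h1 : ∀ e : K, f.HasEigenvalue e → ∃ j : ℤ, e = (j : K))
    (h2 : ∀ x : K, f.maxGenEigenspace x = f.eigenspace x) :
    ∃ m : ℕ, LinearMap.trace K H (f * f) = (m : K) ∧ (m = 0 → f = 0) := by
  classical
  have htop : (⨆ x : K, f.eigenspace x) = ⊤ := by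
    have h3 := Module.End.iSup_maxGenEigenspace_eq_top f
    simp only [h2] at h3
    exact h3
  have hint : DirectSum.IsInternal (fun x : K => f.eigenspace x) :=
    DirectSum.isInternal_submodule_of_iSupIndep_of_iSup_eq_top f.eigenspaces_iSupIndep htop
  have hfin : {x : K | f.eigenspace x ≠ ⊥}.Finite :=
    WellFoundedGT.finite_ne_bot_of_iSupIndep f.eigenspaces_iSupIndep
  have hmaps : ∀ x : K, Set.MapsTo (f * f) (f.eigenspace x) (f.eigenspace x) := by
    intro x v hv
    rw [SetLike.mem_coe, Module.End.mem_eigenspace_iff] at hv ⊢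
    rw [Module.End.mul_apply, hv, map_smul, hv, map_smul, map_smul, hv]
  have htr := LinearMap.trace_eq_sum_trace_restrict' hint hfin hmaps
  have hone : ∀ x : K, LinearMap.trace K (f.eigenspace x) ((f * f).restrict (hmaps x)) =
      x * x * (Module.finrank K (f.eigenspace x) : K) := by
    intro x
    have h3 : (f * f).restrict (hmaps x) = (x * x) • (1 : Module.End K (f.eigenspace x)) := by
      refine LinearMap.ext fun v => Subtype.ext ?_
      have hv : f (v : H) = x • (v : H) := Module.End.mem_eigenspace_iff.1 v.2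
      change f (f (v : H)) = (x * x) • (v : H)
      rw [hv, map_smul, hv, smul_smul]
    rw [h3, map_smul, LinearMap.trace_one, smul_eq_mul]
  have hj : ∀ x : K, ∃ j : ℤ, f.eigenspace x ≠ ⊥ → x = (j : K) := by
    intro x
    by_cases hx : f.eigenspace x ≠ ⊥
    · obtain ⟨j, hj⟩ := h1 x hx
      exact ⟨j, fun _ => hj⟩
    · exact ⟨0, fun h => absurd h hx⟩
  choose j hj using hj
  refine ⟨∑ x ∈ hfin.toFinset, (j x).natAbs ^ 2 * Module.finrank K (f.eigenspace x), ?_,
    fun h0 => ?_⟩
  · rw [htr]
    push_cast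
    refine Finset.sum_congr rfl fun x hx => ?_
    have hx' : f.eigenspace x ≠ ⊥ := hfin.mem_toFinset.1 hx
    rw [hone]
    have h3 := hj x hx'
    have h4 : (((j x).natAbs : ℕ) : K) ^ 2 = ((j x : ℤ) : K) ^ 2 := by
      rw [← Int.cast_natCast, ← Int.cast_pow, Int.natAbs_sq, Int.cast_pow]
    rw [h4, ← h3]
    ring
  · have hz : ∀ x : K, x ≠ 0 → f.eigenspace x = ⊥ := by
      intro x hx
      by_contra hne
      have h3 := (Finset.sum_eq_zero_iff.1 h0) x (hfin.mem_toFinset.2 hne)
      have h4 : Module.finrank K (f.eigenspace x) ≠ 0 := by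
        rwa [Ne, Submodule.finrank_eq_zero]
      have h5 := (mul_eq_zero.1 h3).resolve_right h4
      have h6 : j x = 0 := by
        have := pow_eq_zero_iff (two_ne_zero) |>.1 h5
        exact Int.natAbs_eq_zero.1 this
      have h7 := hj x hne
      rw [h6, Int.cast_zero] at h7
      exact hx h7
    have h3 : f.eigenspace 0 = ⊤ := by
      rw [eq_top_iff, ← htop]
      refine iSup_le fun x => ?_
      by_cases hx : x = 0
      · rw [hx]
      · rw [hz x hx]
        exact bot_le
    refine LinearMap.ext fun v => ?_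
    have hv : v ∈ f.eigenspace 0 := by rw [h3]; exact Submodule.mem_top
    rw [Module.End.mem_eigenspace_iff, zero_smul] at hv
    rw [hv, LinearMap.zero_apply]

/-- a representation on which the Casimir operator vanishes is trivial -/
theorem triv {n : ℕ} (hn : 3 ≤ n) {R : Fin n → Fin n → Module.End K H} (hR : Rp R)
    (hC : Cs R = 0) (i j : Fin n) : R i j = 0 := by
  obtain ⟨ι, hι⟩ := IsAlgClosed.exists_pow_nat_eq (-1 : K) (n := 2) (by norm_num)
  have hι2 : ι * ι = -1 := by rw [← pow_two]; exact hι
  have hι0 : ι ≠ 0 := by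
    rintro rfl
    rw [mul_zero] at hι2
    exact one_ne_zero (neg_eq_zero.1 hι2.symm)
  have key : ∀ i j, ∃ m : ℕ,
      LinearMap.trace K H (((2 * ι) • R i j) * ((2 * ι) • R i j)) = (m : K) ∧
        (m = 0 → (2 * ι) • R i j = 0) := by
    intro i j
    by_cases hij : i = j
    · subst hij
      have h1 : R i i = 0 := by
        have h2 := hR.anti i i
        have h3 : (2 : K) • R i i = 0 := by
          rw [two_smul]
          nth_rewrite 1 [h2]
          exact neg_add_cancel _
        exact (smul_eq_zero.1 h3).resolve_left two_ne_zero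
      refine ⟨0, ?_, fun _ => ?_⟩
      · rw [h1, smul_zero, mul_zero, map_zero, Nat.cast_zero]
      · rw [h1, smul_zero]
    · obtain ⟨k, hki, hkj⟩ := third hn i j
      have b1 := br1 hR hij hkj.symm hki.symm
      have b2 := br2 hR hij hkj.symm hki.symm
      have b3 := br3 hR hij hkj.symm hki.symm
      generalize R i j = x at b1 b2 b3 ⊢
      generalize R j k = y at b1 b2 b3
      generalize R i k = z at b1 b2 b3
      have e1 : ((2 * ι) • x) * (y + ι • z) - (y + ι • z) * ((2 * ι) • x) =
          (2 : K) • (y + ι • z) := by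
        have : ((2 * ι) • x) * (y + ι • z) - (y + ι • z) * ((2 * ι) • x) =
            (2 * ι) • (x * y - y * x) - (2 * (ι * ι)) • (z * x - x * z) := by
          simp only [mul_add, add_mul, smul_mul_assoc, mul_smul_comm, smul_smul, smul_sub]
          module
        rw [this, b1, b3, hι2]
        module
      have e2 : ((2 * ι) • x) * (-y + ι • z) - (-y + ι • z) * ((2 * ι) • x) =
          -(2 : K) • (-y + ι • z) := by
        have : ((2 * ι) • x) * (-y + ι • z) - (-y + ι • z) * ((2 * ι) • x) =
            -(2 * ι) • (x * y - y * x) - (2 * (ι * ι)) • (z * x - x * z) := by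
          simp only [mul_add, add_mul, smul_mul_assoc, mul_smul_comm, smul_smul, smul_sub,
            mul_neg, neg_mul]
          module
        rw [this, b1, b3, hι2]
        module
      have e3 : (y + ι • z) * (-y + ι • z) - (-y + ι • z) * (y + ι • z) = (2 * ι) • x := by
        have : (y + ι • z) * (-y + ι • z) - (-y + ι • z) * (y + ι • z) =
            (2 * ι) • (y * z - z * y) := by
          simp only [mul_add, add_mul, smul_mul_assoc, mul_smul_comm, smul_sub, mul_neg, neg_mul]
          module
        rw [this, b2]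
      exact tr_sq _ (t_sl2b K H _ _ _ e1 e2 e3).1 (t_ssl K H _ _ _ e1 e2 e3)
  choose m hm1 hm2 using key
  have hsum : ((∑ i, ∑ j, m i j : ℕ) : K) = 0 := by
    push_cast
    simp only [← hm1, ← map_sum]
    have h1 : ∑ i, ∑ j, ((2 * ι) • R i j) * ((2 * ι) • R i j) =
        ((2 * ι) * (2 * ι)) • Cs R := by
      unfold Cs
      rw [Finset.smul_sum]
      refine Finset.sum_congr rfl fun i _ => ?_
      rw [Finset.smul_sum]
      refine Finset.sum_congr rfl fun j _ => ?_
      rw [smul_mul_smul_comm]
    rw [h1, hC, smul_zero, map_zero]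
  have hsum' : ∑ i, ∑ j, m i j = 0 := by exact_mod_cast hsum
  have h1 := (Finset.sum_eq_zero_iff.1 ((Finset.sum_eq_zero_iff.1 hsum') i (Finset.mem_univ i))) j
    (Finset.mem_univ j)
  exact (smul_eq_zero.1 (hm2 i j h1)).resolve_left (mul_ne_zero two_ne_zero hι0)

/-- vectors which are invariant modulo `N₀` -/
theorem inv_mod {n : ℕ} (hn : 3 ≤ n) {R : Fin n → Fin n → Module.End K H} (hR : Rp R) (d : ℕ) :
    ∀ N₀ N M : Submodule K H, (∀ i j, ∀ x ∈ N₀, R i j x ∈ N₀) → (∀ i j, ∀ x ∈ N, R i j x ∈ N) →
      N₀ ≤ N → N ≤ M → (∀ i j, ∀ x ∈ M, R i j x ∈ N) → (∃ x ∈ M, x ∉ N) →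
      Module.finrank K N ≤ Module.finrank K N₀ + d →
      ∃ m ∈ M, m ∉ N ∧ ∀ i j, R i j m ∈ N₀ := by
  classical
  induction d with
  | zero =>
    intro N₀ N M _ _ h0N _ hM hex hd
    have h1 : N₀ = N := Submodule.eq_of_le_of_finrank_le h0N (by omega)
    obtain ⟨x, hx, hxN⟩ := hex
    exact ⟨x, hx, hxN, fun i j => by rw [h1]; exact hM i j x hx⟩
  | succ d ih =>
    intro N₀ N M h0 hN h0N hNM hM hex hd
    obtain ⟨x₀, hx₀, hx₀N⟩ := hex
    by_cases heq : N₀ = N
    · exact ⟨x₀, hx₀, hx₀N, fun i j => by rw [heq]; exact hM i j x₀ hx₀⟩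
    have hlt : N₀ < N := lt_of_le_of_ne h0N heq
    by_cases hred : ∃ N₁ : Submodule K H, (∀ i j, ∀ x ∈ N₁, R i j x ∈ N₁) ∧ N₀ < N₁ ∧ N₁ < N
    · obtain ⟨N₁, h1, h01, h1N⟩ := hred
      have r1 := Submodule.finrank_lt_finrank_of_lt h01
      have r2 := Submodule.finrank_lt_finrank_of_lt h1N
      obtain ⟨m, hm, hmN, hmR⟩ := ih N₁ N M h1 hN h1N.le hNM hM ⟨x₀, hx₀, hx₀N⟩ (by omega)
      have hsp : ∀ x ∈ N₁ ⊔ Submodule.span K {m}, ∃ y ∈ N₁, ∃ c : K, x = y + c • m := by
        intro x hx
        obtain ⟨y, hy, z, hz, rfl⟩ := Submodule.mem_sup.1 hx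
        obtain ⟨c, rfl⟩ := Submodule.mem_span_singleton.1 hz
        exact ⟨y, hy, c, rfl⟩
      have hm1 : m ∈ N₁ ⊔ Submodule.span K {m} :=
        Submodule.mem_sup_right (Submodule.mem_span_singleton_self m)
      obtain ⟨m₁, hm₁, hm₁N, hm₁R⟩ := ih N₀ N₁ (N₁ ⊔ Submodule.span K {m}) h0 h1 h01.le le_sup_left
        (by
          intro i j x hx
          obtain ⟨y, hy, c, rfl⟩ := hsp x hx
          rw [map_add, map_smul]
          exact N₁.add_mem (h1 i j y hy) (N₁.smul_mem c (hmR i j)))
        ⟨m, hm1, fun h => hmN (h1N.le h)⟩ (by omega)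
      obtain ⟨y, hy, c, hyc⟩ := hsp m₁ hm₁
      have hc : c ≠ 0 := by
        rintro rfl
        apply hm₁N
        rw [hyc, zero_smul, add_zero]
        exact hy
      refine ⟨m₁, ?_, fun h => ?_, hm₁R⟩
      · rw [hyc]
        exact M.add_mem (hNM (h1N.le hy)) (M.smul_mem c hm)
      · apply hmN
        have h2 : c • m ∈ N := by
          have h3 := N.sub_mem h (h1N.le hy)
          rwa [hyc, add_sub_cancel_left] at h3
        exact (N.smul_mem_iff hc).1 h2
    · -- `N / N₀` is irreducible
      obtain ⟨R', hR'⟩ : ∃ R' : Fin n → Fin n → Module.End K N,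
          R' = fun i j => (R i j).restrict (hN i j) := ⟨_, rfl⟩
      have hRp' : Rp R' := by rw [hR']; exact rp_restrict hR N hN
      have hcoe : ∀ i j (x : N), ((R' i j x : N) : H) = R i j (x : H) := by
        intro i j x; rw [hR']; rfl
      have hP : ∀ i j, N₀.comap N.subtype ≤ (N₀.comap N.subtype).comap (R' i j) := by
        intro i j x hx
        rw [Submodule.mem_comap, Submodule.mem_comap, Submodule.subtype_apply, hcoe]
        exact h0 i j _ hx
      obtain ⟨R'', hR''⟩ : ∃ R'' : Fin n → Fin n → Module.End K (N ⧸ N₀.comap N.subtype),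
          R'' = fun i j => (N₀.comap N.subtype).mapQ (N₀.comap N.subtype) (R' i j) (hP i j) :=
        ⟨_, rfl⟩
      have hRp'' : Rp R'' := by rw [hR'']; exact rp_quot hRp' _ hP
      have hmk : ∀ i j (x : N), R'' i j (Submodule.Quotient.mk x) =
          Submodule.Quotient.mk (R' i j x) := by
        intro i j x; rw [hR'']; rfl
      have hCcoe : ∀ x : N, ((Cs R' x : N) : H) = Cs R (x : H) := by
        intro x
        unfold Cs
        simp only [LinearMap.sum_apply, Module.End.mul_apply, Submodule.coe_sum, hcoe]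
      have hCmk : ∀ x : N, Cs R'' (Submodule.Quotient.mk x) =
          Submodule.Quotient.mk (Cs R' x) := by
        intro x
        unfold Cs
        simp only [LinearMap.sum_apply, Module.End.mul_apply, hmk]
        rw [← Submodule.mkQ_apply, map_sum]
        refine Finset.sum_congr rfl fun i _ => ?_
        rw [map_sum]
        rfl
      have hC0 : ∀ x ∈ N₀, Cs R x ∈ N₀ := by
        intro x hx
        unfold Cs
        simp only [LinearMap.sum_apply, Module.End.mul_apply]
        exact N₀.sum_mem fun i _ => N₀.sum_mem fun j _ => h0 i j _ (h0 i j x hx)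
      have hCM : ∀ x ∈ M, Cs R x ∈ N := by
        intro x hx
        unfold Cs
        simp only [LinearMap.sum_apply, Module.End.mul_apply]
        exact N.sum_mem fun i _ => N.sum_mem fun j _ => hN i j _ (hM i j x hx)
      have hnt : Nontrivial (N ⧸ N₀.comap N.subtype) := by
        rw [Submodule.Quotient.nontrivial_iff]
        intro htop
        apply heq
        refine le_antisymm h0N fun x hx => ?_
        have h1 : (⟨x, hx⟩ : N) ∈ N₀.comap N.subtype := by rw [htop]; exact Submodule.mem_top
        exact h1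
      obtain ⟨c, hc⟩ := Module.End.exists_eigenvalue (Cs R'')
      obtain ⟨w, hw⟩ := hc.exists_hasEigenvector
      obtain ⟨x, rfl⟩ := Submodule.Quotient.mk_surjective _ w
      have hx1 : (x : H) ∉ N₀ := by
        intro h
        apply hw.2
        rw [Submodule.Quotient.mk_eq_zero]
        exact h
      have hx2 : Cs R (x : H) - c • (x : H) ∈ N₀ := by
        have h1 := hw.apply_eq_smul
        rw [hCmk, ← Submodule.Quotient.mk_smul, Submodule.Quotient.eq] at h1
        have h2 : ((Cs R' x - c • x : N) : H) ∈ N₀ := h1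
        rw [Submodule.coe_sub, Submodule.coe_smul, hCcoe] at h2
        exact h2
      -- the Casimir operator is a scalar on `N / N₀`
      have hsc : ∀ y ∈ N, Cs R y - c • y ∈ N₀ := by
        obtain ⟨E, hE⟩ : ∃ E : Submodule K H, E = N ⊓ N₀.comap (Cs R - c • 1) := ⟨_, rfl⟩
        have hEm : ∀ y, y ∈ E ↔ y ∈ N ∧ Cs R y - c • y ∈ N₀ := by
          intro y
          rw [hE]
          exact Iff.rfl
        have hEN : E = N := by
          by_contra hne
          apply hred
          refine ⟨E, ?_, ?_, ?_⟩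
          · intro i j y hy
            rw [hEm] at hy ⊢
            refine ⟨hN i j y hy.1, ?_⟩
            have h1 : Cs R (R i j y) = R i j (Cs R y) :=
              (LinearMap.congr_fun (cs_comm hR i j) y).symm
            rw [h1, ← map_smul, ← map_sub]
            exact h0 i j _ hy.2
          · refine lt_of_le_of_ne (fun y hy => ?_) (fun h => hx1 ?_)
            · rw [hEm]
              exact ⟨h0N hy, N₀.sub_mem (hC0 y hy) (N₀.smul_mem c hy)⟩
            · rw [h, hEm]
              exact ⟨x.2, hx2⟩
          · refine lt_of_le_of_ne (fun y hy => ((hEm y).1 hy).1) hne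
        intro y hy
        rw [← hEN] at hy
        exact ((hEm y).1 hy).2
      by_cases hc0 : c = 0
      · -- trivial action
        have hC'' : Cs R'' = 0 := by
          refine LinearMap.ext fun w => ?_
          obtain ⟨y, rfl⟩ := Submodule.Quotient.mk_surjective _ w
          rw [hCmk, LinearMap.zero_apply, Submodule.Quotient.mk_eq_zero]
          have h1 := hsc y y.2
          rw [hc0, zero_smul, sub_zero, ← hCcoe] at h1
          exact h1
        have hz : ∀ i j, ∀ y ∈ N, R i j y ∈ N₀ := by
          intro i j y hy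
          have h1 := triv hn hRp'' hC'' i j
          have h2 := hmk i j ⟨y, hy⟩
          rw [h1, LinearMap.zero_apply] at h2
          have h3 : R' i j ⟨y, hy⟩ ∈ N₀.comap N.subtype :=
            (Submodule.Quotient.mk_eq_zero _).1 h2.symm
          rw [Submodule.mem_comap, Submodule.subtype_apply, hcoe] at h3
          exact h3
        refine ⟨x₀, hx₀, hx₀N, fun i j => ?_⟩
        by_cases hij : i = j
        · subst hij
          have h2 := hR.anti i i
          have h3 : (2 : K) • R i i x₀ = 0 := by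
            rw [two_smul]
            nth_rewrite 1 [h2]
            rw [LinearMap.neg_apply]
            exact neg_add_cancel _
          rw [(smul_eq_zero.1 h3).resolve_left two_ne_zero]
          exact N₀.zero_mem
        · obtain ⟨k, hki, hkj⟩ := third hn i j
          have h1 := br1 hR hki.symm hkj hij
          rw [← h1, LinearMap.sub_apply, Module.End.mul_apply, Module.End.mul_apply]
          exact N₀.sub_mem (hz i k _ (hM k j x₀ hx₀)) (hz k j _ (hM i k x₀ hx₀))
      · -- the Casimir operator is invertible on `N / N₀`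
        have hy := hCM x₀ hx₀
        have h1 : Cs R (x₀ - c⁻¹ • Cs R x₀) ∈ N₀ := by
          have h2 := N₀.smul_mem (c⁻¹) (hsc _ hy)
          rw [map_sub, map_smul]
          have h3 : Cs R x₀ - c⁻¹ • Cs R (Cs R x₀) =
              -(c⁻¹ • (Cs R (Cs R x₀) - c • Cs R x₀)) := by
            rw [smul_sub, smul_smul, inv_mul_cancel₀ hc0, one_smul]
            abel
          rw [h3]
          exact N₀.neg_mem h2
        have hmM : x₀ - c⁻¹ • Cs R x₀ ∈ M := M.sub_mem hx₀ (M.smul_mem _ (hNM hy))
        refine ⟨x₀ - c⁻¹ • Cs R x₀, hmM, fun h => ?_, fun i j => ?_⟩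
        · apply hx₀N
          have h2 := N.add_mem h (N.smul_mem c⁻¹ hy)
          rwa [sub_add_cancel] at h2
        · generalize x₀ - c⁻¹ • Cs R x₀ = m at h1 hmM
          have h2 : Cs R (R i j m) ∈ N₀ := by
            have h3 : Cs R (R i j m) = R i j (Cs R m) :=
              (LinearMap.congr_fun (cs_comm hR i j) m).symm
            rw [h3]
            exact h0 i j _ h1
          have h4 := N₀.sub_mem h2 (hsc _ (hM i j m hmM))
          rw [sub_sub_cancel] at h4
          exact (N₀.smul_mem_iff hc0).1 h4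

/-- complete reducibility -/
theorem compl {n : ℕ} (hn : 3 ≤ n) {R : Fin n → Fin n → Module.End K H} (hR : Rp R)
    (W : Submodule K H) (hW : ∀ i j, ∀ x ∈ W, R i j x ∈ W) :
    ∃ W' : Submodule K H, (∀ i j, ∀ x ∈ W', R i j x ∈ W') ∧ IsCompl W W' := by
  classical
  by_cases hW0 : W = ⊥
  · exact ⟨⊤, fun _ _ _ _ => Submodule.mem_top, by rw [hW0]; exact isCompl_bot_top⟩
  obtain ⟨𝒲, h𝒲⟩ : ∃ 𝒲 : Submodule K (Module.End K H), ∀ f, f ∈ 𝒲 ↔
      (∀ x, f x ∈ W) ∧ ∀ w ∈ W, f w = 0 := by
    refine ⟨{ carrier := {f | (∀ x, f x ∈ W) ∧ ∀ w ∈ W, f w = 0}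
              add_mem' := ?_, zero_mem' := ?_, smul_mem' := ?_ }, fun f => Iff.rfl⟩
    · rintro f g ⟨hf1, hf2⟩ ⟨hg1, hg2⟩
      refine ⟨fun x => W.add_mem (hf1 x) (hg1 x), fun w hw => ?_⟩
      rw [LinearMap.add_apply, hf2 w hw, hg2 w hw, add_zero]
    · exact ⟨fun x => W.zero_mem, fun w _ => rfl⟩
    · rintro c f ⟨hf1, hf2⟩
      refine ⟨fun x => W.smul_mem c (hf1 x), fun w hw => ?_⟩
      rw [LinearMap.smul_apply, hf2 w hw, smul_zero]
  obtain ⟨𝒱, h𝒱⟩ : ∃ 𝒱 : Submodule K (Module.End K H), ∀ f, f ∈ 𝒱 ↔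
      (∀ x, f x ∈ W) ∧ ∃ c : K, ∀ w ∈ W, f w = c • w := by
    refine ⟨{ carrier := {f | (∀ x, f x ∈ W) ∧ ∃ c : K, ∀ w ∈ W, f w = c • w}
              add_mem' := ?_, zero_mem' := ?_, smul_mem' := ?_ }, fun f => Iff.rfl⟩
    · rintro f g ⟨hf1, c, hf2⟩ ⟨hg1, c', hg2⟩
      refine ⟨fun x => W.add_mem (hf1 x) (hg1 x), c + c', fun w hw => ?_⟩
      rw [LinearMap.add_apply, hf2 w hw, hg2 w hw, add_smul]
    · exact ⟨fun x => W.zero_mem, 0, fun w _ => by rw [zero_smul]; rfl⟩
    · rintro a f ⟨hf1, c, hf2⟩
      refine ⟨fun x => W.smul_mem a (hf1 x), a * c, fun w hw => ?_⟩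
      rw [LinearMap.smul_apply, hf2 w hw, smul_smul]
  -- a projection
  obtain ⟨g, hg⟩ := LinearMap.exists_leftInverse_of_injective W.subtype
    (by rw [Submodule.ker_subtype])
  have hgw : ∀ w (hw : w ∈ W), ((g w : W) : H) = w := by
    intro w hw
    have h1 := LinearMap.congr_fun hg ⟨w, hw⟩
    exact congrArg Subtype.val h1
  obtain ⟨f, hf, hfn, hfR⟩ := inv_mod hn (rp_ad hR) (Module.finrank K 𝒲) ⊥ 𝒲 𝒱
    (by
      intro i j x hx
      rw [Submodule.mem_bot] at hx ⊢
      rw [hx, map_zero])
    (by
      intro i j f hf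
      rw [h𝒲] at hf ⊢
      refine ⟨fun x => ?_, fun w hw => ?_⟩
      · rw [ad_apply, LinearMap.sub_apply, Module.End.mul_apply, Module.End.mul_apply]
        exact W.sub_mem (hW i j _ (hf.1 x)) (hf.1 _)
      · rw [ad_apply, LinearMap.sub_apply, Module.End.mul_apply, Module.End.mul_apply, hf.2 w hw,
          hf.2 _ (hW i j w hw), map_zero, sub_zero])
    bot_le
    (by
      intro f hf
      rw [h𝒲] at hf
      rw [h𝒱]
      exact ⟨hf.1, 0, fun w hw => by rw [hf.2 w hw, zero_smul]⟩)
    (by
      intro i j f hf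
      rw [h𝒱] at hf
      rw [h𝒲]
      obtain ⟨hf1, c, hf2⟩ := hf
      refine ⟨fun x => ?_, fun w hw => ?_⟩
      · rw [ad_apply, LinearMap.sub_apply, Module.End.mul_apply, Module.End.mul_apply]
        exact W.sub_mem (hW i j _ (hf1 x)) (hf1 _)
      · rw [ad_apply, LinearMap.sub_apply, Module.End.mul_apply, Module.End.mul_apply, hf2 w hw,
          hf2 _ (hW i j w hw), map_smul, sub_self])
    (by
      refine ⟨W.subtype.comp g, ?_, ?_⟩
      · rw [h𝒱]
        refine ⟨fun x => (g x).2, 1, fun w hw => ?_⟩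
        rw [one_smul]
        exact hgw w hw
      · rw [h𝒲]
        rintro ⟨-, h2⟩
        apply hW0
        rw [Submodule.eq_bot_iff]
        intro w hw
        rw [← hgw w hw]
        exact h2 w hw)
    (by omega)
  rw [h𝒱] at hf
  obtain ⟨hf1, c, hf2⟩ := hf
  have hc : c ≠ 0 := by
    rintro rfl
    apply hfn
    rw [h𝒲]
    exact ⟨hf1, fun w hw => by rw [hf2 w hw, zero_smul]⟩
  have hcomm : ∀ i j x, f (R i j x) = R i j (f x) := by
    intro i j x
    have h1 := hfR i j
    rw [Submodule.mem_bot, ad_apply, sub_eq_zero] at h1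
    exact (LinearMap.congr_fun h1 x).symm
  refine ⟨LinearMap.ker f, fun i j x hx => ?_, ?_⟩
  · rw [LinearMap.mem_ker] at hx ⊢
    rw [hcomm, hx, map_zero]
  · rw [isCompl_iff, Submodule.disjoint_def, codisjoint_iff, eq_top_iff]
    refine ⟨fun x hx hxk => ?_, fun x _ => ?_⟩
    · rw [LinearMap.mem_ker, hf2 x hx] at hxk
      exact (smul_eq_zero.1 hxk).resolve_left hc
    · have h1 : c⁻¹ • f x ∈ W := W.smul_mem _ (hf1 x)
      have h2 : x - c⁻¹ • f x ∈ LinearMap.ker f := by
        rw [LinearMap.mem_ker, map_sub, map_smul, hf2 _ (hf1 x), smul_smul, inv_mul_cancel₀ hc,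
          one_smul, sub_self]
      have h3 := Submodule.add_mem_sup h1 h2
      rwa [add_sub_cancel] at h3

end tr

section ortho

variable {K V : Type} [Field K] [CharZero K] [IsAlgClosed K] [AddCommGroup V] [Module K V]
  [FiniteDimensional K V]

/-- an orthonormal basis -/
theorem exists_on (q : LinearMap.BilinForm K V) (hsym : q.IsSymm) (hnd : q.Nondegenerate) :
    ∃ e : Basis (Fin (Module.finrank K V)) K V, ∀ i j, q (e i) (e j) = if i = j then 1 else 0 := by
  have h2 : Invertible (2 : K) := invertibleOfNonzero two_ne_zero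
  have hsym' : LinearMap.IsSymm q := LinearMap.isSymm_def.2 fun x y => by
    have := hsym.eq x y
    simpa using this
  obtain ⟨v, hv⟩ := LinearMap.BilinForm.exists_orthogonal_basis hsym'
  have hvv : ∀ i, q (v i) (v i) ≠ 0 := fun i =>
    hv.not_isOrtho_basis_self_of_separatingLeft hnd.1 i
  have hsq : ∀ i, ∃ s : K, s ^ 2 = q (v i) (v i) := fun i =>
    IsAlgClosed.exists_pow_nat_eq _ (by norm_num)
  choose s hs using hsq
  have hs0 : ∀ i, s i ≠ 0 := by
    intro i h
    apply hvv i
    rw [← hs, h, zero_pow two_ne_zero]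
  refine ⟨v.unitsSMul fun i => Units.mk0 (s i)⁻¹ (inv_ne_zero (hs0 i)), fun i j => ?_⟩
  rw [Basis.unitsSMul_apply, Basis.unitsSMul_apply, Units.smul_def, Units.smul_def,
    Units.val_mk0, Units.val_mk0]
  simp only [map_smul, LinearMap.smul_apply, smul_eq_mul]
  by_cases hij : i = j
  · subst hij
    rw [if_pos rfl, ← hs, pow_two]
    field_simp [hs0 i]
  · rw [if_neg hij]
    have h3 : q (v i) (v j) = 0 := hv hij
    rw [h3, mul_zero, mul_zero]

variable {q : LinearMap.BilinForm K V} {n : ℕ} {e : Basis (Fin n) K V}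

theorem expand (he : ∀ i j, q (e i) (e j) = if i = j then 1 else 0) (v : V) :
    v = ∑ i, q (e i) v • e i := by
  have h1 : ∀ i, q (e i) v = e.repr v i := by
    intro i
    conv_lhs => rw [← e.sum_repr v]
    rw [map_sum, Finset.sum_eq_single i]
    · rw [map_smul, he, if_pos rfl, smul_eq_mul, mul_one]
    · intro j _ hj
      rw [map_smul, he, if_neg (Ne.symm hj), smul_zero]
    · intro h
      exact absurd (Finset.mem_univ i) h
  conv_lhs => rw [← e.sum_repr v]
  exact Finset.sum_congr rfl fun i _ => by rw [h1]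

theorem skew_expand (hq : ∀ a b, q a b = q b a)
    (he : ∀ i j, q (e i) (e j) = if i = j then 1 else 0) (A : Module.End K V) (hA : Skew q A) :
    A = ∑ i, ∑ j, ((1 / 2 : K) * q (e i) (A (e j))) • P_SSO.wd q (e i) (e j) := by
  refine e.ext fun m => ?_
  have h1 : ∀ i j, (((1 / 2 : K) * q (e i) (A (e j))) • P_SSO.wd q (e i) (e j)) (e m) =
      (if m = j then ((1 / 2 : K) * q (e i) (A (e m))) • e i else 0) -
        (if m = i then ((1 / 2 : K) * q (e m) (A (e j))) • e j else 0) := by
    intro i j
    rw [LinearMap.smul_apply, P_SSO.wd_apply, he, he]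
    by_cases hj : m = j
    · subst hj
      by_cases hi : m = i
      · subst hi
        simp
      · rw [if_pos rfl, if_neg (Ne.symm hi), if_pos rfl, if_neg hi, one_smul, zero_smul,
          sub_zero, sub_zero]
    · by_cases hi : m = i
      · subst hi
        rw [if_neg (Ne.symm hj), if_pos rfl, if_neg hj, if_pos rfl, one_smul, zero_smul]
        rw [zero_sub, smul_neg, zero_sub]
      · rw [if_neg (Ne.symm hj), if_neg (Ne.symm hi), if_neg hj, if_neg hi, zero_smul, zero_smul,
          sub_zero, smul_zero]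
  simp only [LinearMap.sum_apply, h1, Finset.sum_sub_distrib]
  rw [sum_r m (fun i _ => ((1 / 2 : K) * q (e i) (A (e m))) • e i),
    sum_l m (fun _ j => ((1 / 2 : K) * q (e m) (A (e j))) • e j), ← Finset.sum_sub_distrib]
  conv_lhs => rw [expand he (A (e m))]
  refine Finset.sum_congr rfl fun i _ => ?_
  have h2 : q (e m) (A (e i)) = -q (e i) (A (e m)) := by
    have h3 := hA (e m) (e i)
    rw [hq (A (e m)) (e i)] at h3
    linear_combination h3
  rw [h2]
  module

end ortho

end P_WEYL

open P_WEYL in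
theorem t_weyl : S_WEYL := by
  intro K V H _ _ _ _ _ _ _ _ _ q hsym hnd h3 ρ hρ W hW
  have hq : ∀ a b, q a b = q b a := fun a b => by
    have := hsym.eq a b
    simpa using this
  obtain ⟨e, he⟩ := exists_on q hsym hnd
  have hsk : ∀ a b, Skew q (P_SSO.wd q a b) := P_SSO.skew_wd q hq
  have hR : Rp (fun i j => ρ (P_SSO.wd q (e i) (e j))) := by
    refine ⟨fun i j => ?_, fun a b i j => ?_⟩
    · rw [← map_neg]
      congr 1
      ext v
      rw [LinearMap.neg_apply, P_SSO.wd_apply, P_SSO.wd_apply]
      abel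
    · rw [← hρ _ _ (hsk _ _) (hsk _ _), P_SSO.comm_wd q _ (hsk _ _), ← map_smul, ← map_smul,
        ← map_smul, ← map_smul, ← map_sub, ← map_add, ← map_sub]
      congr 1
      ext v
      simp only [LinearMap.sub_apply, LinearMap.add_apply, LinearMap.smul_apply, P_SSO.wd_apply,
        map_sub, map_smul, he, smul_eq_mul]
      module
  obtain ⟨W', hW', hc⟩ := compl h3 hR W (fun i j x hx => hW _ ⟨_, hsk _ _, rfl⟩ x hx)
  refine ⟨W', ?_, hc⟩
  rintro _ ⟨A, hA, rfl⟩ x hx
  have h1 := skew_expand hq he A hA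
  have h2 : ρ A = ∑ i, ∑ j, ((1 / 2 : K) * q (e i) (A (e j))) •
      ρ (P_SSO.wd q (e i) (e j)) := by
    conv_lhs => rw [h1]
    rw [map_sum]
    refine Finset.sum_congr rfl fun i _ => ?_
    rw [map_sum]
    exact Finset.sum_congr rfl fun j _ => by rw [map_smul]
  rw [h2]
  simp only [LinearMap.sum_apply, LinearMap.smul_apply]
  exact W'.sum_mem fun i _ => W'.sum_mem fun j _ => W'.smul_mem _ (hW' i j x hx)

end Pool.Agent.N184.HK
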