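import Mathlib
import Pool.Agent.N184.HK.Stm2

/-!
# Project HK: generalized eigenspaces do not change when a commuting nilpotent operator is added

(helper196)
-/

set_option autoImplicit false

namespace Pool.Agent.N184.HK

open Module

namespace P_WSP

theorem le_aux {K H : Type} [Field K] [AddCommGroup H] [Module K H] {R T : Module.End K H}
    (h : Commute R T) (hT : IsNilpotent T) (x : K) :
    R.maxGenEigenspace x ≤ (R + T).maxGenEigenspace x := by
  intro v hv
  rw [Module.End.mem_maxGenEigenspace] at hv ⊢
  obtain ⟨k, hk⟩ := hv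
  obtain ⟨m, hm⟩ := hT
  refine ⟨k + m, ?_⟩
  have hc : Commute (R - x • (1 : Module.End K H)) T :=
    h.sub_left ((Commute.one_left T).smul_left x)
  have e : R + T - x • (1 : Module.End K H) = (R - x • (1 : Module.End K H)) + T := by abel
  rw [e, hc.add_pow, LinearMap.sum_apply]
  refine Finset.sum_eq_zero fun j _ => ?_
  by_cases hj : k ≤ j
  · obtain ⟨i, rfl⟩ := Nat.exists_eq_add_of_le' hj
    have e2 : (R - x • (1 : Module.End K H)) ^ (i + k) * T ^ (k + m - (i + k)) *
        ((k + m).choose (i + k) : Module.End K H) =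
        (((k + m).choose (i + k) : Module.End K H) * T ^ (k + m - (i + k)) *
          (R - x • (1 : Module.End K H)) ^ i) * (R - x • (1 : Module.End K H)) ^ k := by
      rw [mul_assoc _ _ ((R - x • (1 : Module.End K H)) ^ k), ← pow_add,
        (hc.pow_pow (i + k) (k + m - (i + k))).eq, mul_assoc (T ^ _),
        ← (Nat.cast_commute _ _).eq, ← mul_assoc, ← (Nat.cast_commute _ _).eq]
    rw [e2, Module.End.mul_apply, hk, map_zero]
  · have e3 : T ^ (k + m - j) = 0 := by
      have : k + m - j = m + (k - j) := by omega
      rw [this, pow_add, hm, zero_mul]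
    rw [e3, mul_zero, zero_mul, LinearMap.zero_apply]

end P_WSP

/-- WSP -/
theorem t_wsp : S_WSP := by
  intro K H _ _ _ _ R T h hT x
  apply le_antisymm
  · have h1 := P_WSP.le_aux (R := R + T) (T := -T) ((h.add_left (Commute.refl T)).neg_right)
      hT.neg x
    rwa [add_neg_cancel_right] at h1
  · exact P_WSP.le_aux h hT x

end Pool.Agent.N184.HK
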