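import Mathlib
import Pool.Agent.N184.HK.Stm3
import Pool.Agent.N184.HP.Weil

/-!
# Project HK, leaf WTB: the weight of Weil numbers
-/

set_option autoImplicit false

namespace Pool.Agent.N184.HK

open Module Polynomial Pool.Agent.Y143

namespace P_WTB

variable {Ω : Type} [Field Ω] [CharZero Ω]

/-- The conjugates of a product are products of conjugates. -/
lemma exists_roots_of_mul {α β : Ω} (hα : IsAlgebraic ℚ α) (hβ : IsAlgebraic ℚ β) {y : ℂ}
    (hy : aeval y (minpoly ℚ (α * β)) = 0) :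
    ∃ z z' : ℂ, aeval z (minpoly ℚ α) = 0 ∧ aeval z' (minpoly ℚ β) = 0 ∧ z * z' = y := by
  let E := IntermediateField.adjoin ℚ ({α, β} : Set Ω)
  let a : E := ⟨α, IntermediateField.subset_adjoin ℚ _ (by simp)⟩
  let b : E := ⟨β, IntermediateField.subset_adjoin ℚ _ (by simp)⟩
  have halgE : Algebra.IsAlgebraic ℚ E := by
    refine IntermediateField.isAlgebraic_adjoin ?_
    intro x hx
    rcases hx with rfl | hx
    · exact hα.isIntegral
    · rw [Set.mem_singleton_iff] at hx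
      rw [hx]
      exact hβ.isIntegral
  have hmin : ∀ e : E, minpoly ℚ e = minpoly ℚ (e : Ω) := fun e =>
    (minpoly.algebraMap_eq (A := ℚ) (B := E) (B' := Ω) (algebraMap E Ω).injective e).symm
  have hint : IsIntegral ℚ (a * b) := (halgE.isAlgebraic (a * b)).isIntegral
  let F := IntermediateField.adjoin ℚ ({a * b} : Set E)
  have hyroot : y ∈ (minpoly ℚ (a * b)).aroots ℂ := by
    rw [mem_aroots]
    exact ⟨minpoly.ne_zero hint, by rw [hmin]; exact hy⟩
  let ψ : F →ₐ[ℚ] ℂ := (IntermediateField.algHomAdjoinIntegralEquiv ℚ hint).symm ⟨y, hyroot⟩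
  have hψ : ψ (IntermediateField.AdjoinSimple.gen ℚ (a * b)) = y :=
    IntermediateField.algHomAdjoinIntegralEquiv_symm_apply_gen ℚ hint ⟨y, hyroot⟩
  let _ : Algebra F ℂ := ψ.toRingHom.toAlgebra
  have hst : IsScalarTower ℚ F ℂ := IsScalarTower.of_algebraMap_eq (fun x => (ψ.commutes x).symm)
  have halgF : Algebra.IsAlgebraic F E := Algebra.IsAlgebraic.tower_top (K := ℚ) F
  let Φ : E →ₐ[F] ℂ := IsAlgClosed.lift
  have hroot : ∀ e : E, aeval (Φ e) (minpoly ℚ (e : Ω)) = 0 := by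
    intro e
    rw [← hmin]
    have h1 : aeval (Φ.restrictScalars ℚ e) (minpoly ℚ e) = 0 := by
      rw [aeval_algHom_apply, minpoly.aeval, map_zero]
    exact h1
  refine ⟨Φ a, Φ b, hroot a, hroot b, ?_⟩
  rw [← map_mul]
  have h1 : (a * b : E) = algebraMap F E (IntermediateField.AdjoinSimple.gen ℚ (a * b)) :=
    (IntermediateField.AdjoinSimple.algebraMap_gen ℚ (a * b)).symm
  rw [h1, AlgHom.commutes]
  exact hψ

/-- The product of Weil numbers. -/
lemma weil_mul {q : ℕ} (hq : 1 < q) {w w' : ℤ} {α β : Ω} (h : IsWeilNumber q w α)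
    (h' : IsWeilNumber q w' β) : IsWeilNumber q (w + w') (α * β) := by
  refine ⟨h.1.mul h'.1, fun y hy => ?_⟩
  obtain ⟨z, z', hz, hz', rfl⟩ := exists_roots_of_mul h.1 h'.1 hy
  have hq' : (0 : ℝ) < q := by exact_mod_cast (by omega : 0 < q)
  rw [norm_mul, h.2 z hz, h'.2 z' hz', ← Real.rpow_add hq']
  congr 1
  push_cast
  ring

end P_WTB

open Classical in
theorem t_wtb : S_WTB := by
  intro Ω _ _ q hq
  have key : ∀ (w : ℤ) (x : Ω), IsWeilNumber q w x →
      (if h : ∃ w : ℤ, IsWeilNumber q w x then ((h.choose : ℤ) : ℚ) else 0) = (w : ℚ) := by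
    intro w x hx
    have h : ∃ w : ℤ, IsWeilNumber q w x := ⟨w, hx⟩
    rw [dif_pos h, HP.weight_unique hq h.choose_spec hx]
  refine ⟨{ U := fun x => ∃ w : ℤ, IsWeilNumber q w x
            ne := fun x ⟨w, hx⟩ => HP.weil_ne_zero' hq hx
            mul := fun x y ⟨w, hx⟩ ⟨w', hy⟩ => ⟨w + w', P_WTB.weil_mul hq hx hy⟩
            inv := fun x ⟨w, hx⟩ => ⟨-w, hx.inv⟩
            w := fun x => if h : ∃ w : ℤ, IsWeilNumber q w x then ((h.choose : ℤ) : ℚ) else 0
            w_mul := ?_ }, fun x => Iff.rfl, key⟩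
  rintro x y ⟨w, hx⟩ ⟨w', hy⟩
  rw [key w x hx, key w' y hy, key (w + w') (x * y) (P_WTB.weil_mul hq hx hy)]
  push_cast
  ring

end Pool.Agent.N184.HK
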