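import Pool.Agent.N184.HK.Stm5

/-!
# Project HK (helper184): statements of the leaves, seventh part
-/

set_option autoImplicit false

namespace Pool.Agent.N184.HK

open Module

/-- ZRED: a nilpotent operator which commutes with a semisimple set `R` of operators and with its
commutant is zero. -/
def S_ZRED : Prop := ∀ (K H : Type) [Field K] [AddCommGroup H] [Module K H]
    [FiniteDimensional K H] (R : Set (Module.End K H)) (n : Module.End K H), SSet R →
    (∀ f ∈ R, Commute f n) → (∀ a : Module.End K H, (∀ f ∈ R, Commute f a) → Commute n a) →
    IsNilpotent n → n = 0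

/-- FPOW: some positive power of every element lies in an open subgroup of the Galois group. -/
def S_FPOW : Prop := ∀ (K : Type) [Field K] (U : Subgroup (Gal(AlgebraicClosure K/K))),
    IsOpen (U : Set (Gal(AlgebraicClosure K/K))) →
    ∃ k : ℕ, 0 < k ∧ ∀ σ : Gal(AlgebraicClosure K/K), σ ^ k ∈ U

end Pool.Agent.N184.HK
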