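import Mathlib
import Pool.Agent.N184.HK.Stm7
import Pool.Agent.N184.HK.P_UNF

/-!
# Project HK (helper184): leaves ZRED, FPOW (helper849)
-/

set_option autoImplicit false

namespace Pool.Agent.N184.HK

open Module

namespace P_ZRED

variable {K H : Type} [Field K] [AddCommGroup H] [Module K H]

theorem proj_comm (R : Set (Module.End K H)) {V V' : Submodule K H}
    (hV : ∀ f ∈ R, ∀ x ∈ V, f x ∈ V) (hV' : ∀ f ∈ R, ∀ x ∈ V', f x ∈ V') (hc : IsCompl V V') :
    ∀ f ∈ R, Commute f (V.projection V' hc) := by
  intro f hf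
  refine LinearMap.ext fun x => ?_
  change f (V.projection V' hc x) = V.projection V' hc (f x)
  have h1 := Submodule.projection_apply_mem hc x
  have h2 := Submodule.sub_projection_mem hc x
  have h3 : f x = f (V.projection V' hc x) + f (x - V.projection V' hc x) := by
    rw [← map_add]; congr 1; abel
  rw [h3, map_add, Submodule.projection_apply_of_mem_left hc (hV f hf _ h1),
    (Submodule.projection_apply_eq_zero_iff hc).2 (hV' f hf _ h2), add_zero]

end P_ZRED

theorem t_zred : S_ZRED := by
  intro K H _ _ _ _ R n hR hn hcom hnil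
  have hW : ∀ f ∈ R, ∀ x ∈ LinearMap.ker n, f x ∈ LinearMap.ker n := by
    intro f hf x hx
    rw [LinearMap.mem_ker] at hx ⊢
    have h1 : f (n x) = n (f x) := congrArg (fun F : Module.End K H => F x) (hn f hf).eq
    rw [← h1, hx, map_zero]
  obtain ⟨W', hW', hc⟩ := hR (LinearMap.ker n) hW
  have hz := hcom _ (P_ZRED.proj_comm R hW hW' hc)
  have hmem : ∀ x, n x ∈ W' := by
    intro x
    rw [← Submodule.projection_apply_eq_zero_iff hc]
    have h1 : n ((LinearMap.ker n).projection W' hc x) =
        (LinearMap.ker n).projection W' hc (n x) :=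
      congrArg (fun F : Module.End K H => F x) hz.eq
    rw [← h1]
    exact Submodule.projection_apply_mem hc x
  have hinj : ∀ (k : ℕ) (y : H), y ∈ W' → (n ^ k) y = 0 → y = 0 := by
    intro k
    induction k with
    | zero =>
      intro y _ h
      simpa using h
    | succ k ih =>
      intro y hy h
      have h1 : (n ^ k) (n y) = 0 := by
        rw [pow_succ] at h
        exact h
      have h2 : n y = 0 := ih (n y) (hmem y) h1
      have h3 : y ∈ LinearMap.ker n ⊓ W' := ⟨LinearMap.mem_ker.2 h2, hy⟩
      rw [hc.inf_eq_bot] at h3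
      exact (Submodule.mem_bot K).1 h3
  obtain ⟨k, hk⟩ := hnil
  refine LinearMap.ext fun x => ?_
  refine hinj k (n x) (hmem x) ?_
  rw [hk]
  rfl

theorem t_fpow_aux : S_OFI → S_FPOW := by
  intro h K _ U hU
  have hfi : U.FiniteIndex := h K U hU
  refine ⟨U.normalCore.index, ?_, ?_⟩
  · exact Nat.pos_of_ne_zero Subgroup.FiniteIndex.index_ne_zero
  · intro σ
    exact Subgroup.normalCore_le U (Subgroup.pow_index_mem U.normalCore σ)

theorem t_fpow : S_FPOW := t_fpow_aux t_ofi

end Pool.Agent.N184.HK
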