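import Pool.Agent.N184.HK.W5

/-!
# Project HK: the weight operator at a place of bad reduction
-/

set_option autoImplicit false

namespace Pool.Agent.N184.HK

open Module Module.End Polynomial NumberField IsDedekindDomain
open Pool.Agent.W401.Cheb Pool.Agent.Y143
open scoped Classical

section

variable {K : Type} [Field K] [NumberField K] {Ω : Type} [Field Ω] [CharZero Ω] [IsAlgClosed Ω]
  [TopologicalSpace Ω] [IsTopologicalRing Ω] [T2Space Ω] {X : HKVariety K Ω}
  {u : HeightOneSpectrum (𝓞 K)} (L : LocalMonodromy X u)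

omit [CharZero Ω] [IsAlgClosed Ω] [TopologicalSpace Ω] [IsTopologicalRing Ω] [T2Space Ω]
  [NumberField K] [Field K] in
lemma adE_twist {V : Type} [AddCommGroup V] [Module Ω V] (φ : V ≃ₗ[Ω] V) {N : Module.End Ω V}
    {q : Ω} (hq : q ≠ 0) (h : ∀ x, N (en φ x) = q • en φ (N x)) : adE φ N = q⁻¹ • N := by
  ext x
  have h1 : adE φ N x = φ (N (φ.symm x)) := by simp [adE, LinearEquiv.conj_apply]
  have h2 := h (φ.symm x)
  have h3 : en φ (φ.symm x) = x := φ.apply_symm_apply x
  rw [h3] at h2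
  rw [h1, LinearMap.smul_apply, h2, smul_smul, inv_mul_cancel₀ hq, one_smul]
  rfl

lemma one_lt_q : 1 < Ideal.absNorm u.asIdeal := NumberField.HeightOneSpectrum.one_lt_absNorm u

/-- The monodromy operator comes from `so(H²)`. -/
lemma N_eq {i : ℕ} (hi : i ≤ X.d) : L.data.N i = X.E.X.ρ i (L.data.N 2) := by
  have hq : (Ideal.absNorm u.asIdeal : Ω) ≠ 0 := by
    exact_mod_cast (one_lt_q (u := u)).ne_bot
  set a := L.data.N i - X.E.X.ρ i (L.data.N 2) with ha
  have hcen : a ∈ cen X.E.X i := by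
    intro A hA
    have h1 := L.data.compat i hi A hA
    have h2 := X.E.X.bracket i (L.data.N 2) A L.data.skew hA
    rw [h2] at h1
    change X.E.X.ρ i A * a = a * X.E.X.ρ i A
    rw [ha, mul_sub, sub_mul]
    have h3 : L.data.N i * X.E.X.ρ i A - X.E.X.ρ i (L.data.N 2) * X.E.X.ρ i A =
        X.E.X.ρ i A * L.data.N i - X.E.X.ρ i A * X.E.X.ρ i (L.data.N 2) := by
      have := h1
      rw [sub_eq_sub_iff_add_eq_add] at this ⊢
      rw [this]
      abel
    exact h3.symm
  have had : adE ((X.E.F L.σ).φ i) a = (Ideal.absNorm u.asIdeal : Ω)⁻¹ • a := by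
    rw [ha, map_sub, adE_twist _ hq (L.data.twist i hi), (X.E.F L.σ).hc,
      adE_twist _ hq (L.data.twist 2 X.two_le), map_smul, smul_sub]
  by_contra hne
  have ha0 : a ≠ 0 := fun h => hne (sub_eq_zero.1 h)
  have h1 := cen_root X hi hcen ha0 (σ := L.σ) (t := (Ideal.absNorm u.asIdeal : Ω)⁻¹) (by
    rw [Module.End.mem_maxGenEigenspace]
    refine ⟨1, ?_⟩
    rw [pow_one, LinearMap.sub_apply, had]
    exact sub_self _)
  rw [inv_pow, inv_eq_one] at h1
  have h2 : (Ideal.absNorm u.asIdeal) ^ expo X i = 1 := by exact_mod_cast h1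
  exact absurd h2 (Nat.one_lt_pow (Nat.factorial_pos _).ne' (one_lt_q (u := u))).ne'

variable {W : Wt Ω} (hWU : ∀ x, W.U x ↔ ∃ w : ℤ, IsWeilNumber (Ideal.absNorm u.asIdeal) w x)
  (hWw : ∀ (w : ℤ) (x : Ω), IsWeilNumber (Ideal.absNorm u.asIdeal) w x → W.w x = (w : ℚ))

omit [IsAlgClosed Ω] [IsTopologicalRing Ω] [T2Space Ω] in
lemma weights' {i : ℕ} (hi : i ≤ X.d) : ∀ e ∈ (en ((X.E.F L.σ).φ i)).charpoly.roots,
    ∃ w : ℤ, IsWeilNumber (Ideal.absNorm u.asIdeal) w e := by
  intro e he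
  refine L.data.weights i hi e ?_
  rw [Polynomial.mem_roots (LinearMap.charpoly_monic _).ne_zero] at he
  exact (Module.End.hasEigenvalue_iff_isRoot_charpoly _ _).2 he

include hWU in
omit [IsAlgClosed Ω] [IsTopologicalRing Ω] [T2Space Ω] in
lemma U_bad {i : ℕ} (hi : i ≤ X.d) : ∀ e ∈ (en ((X.E.F L.σ).φ i)).charpoly.roots, W.U e :=
  fun e he => (hWU e).2 (weights' L hi e he)

include hWU hWw in
/-- The operator `T` commutes with the commutant of `so(H²)`. -/
lemma T_cen {i : ℕ} (hi : i ≤ X.d) (κ : ℚ) {a : Module.End Ω (X.E.X.H i)}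
    (ha : a ∈ cen X.E.X i) : Commute ((X.E.F L.σ).T W i κ) a := by
  have hst : ∀ x ∈ cen X.E.X i, adE ((X.E.F L.σ).φ i) x ∈ cen X.E.X i := fun x hx => cen_ad _ hx
  set T := (X.E.F L.σ).T W i κ with hT
  have key : (LinearMap.mulLeft Ω T - LinearMap.mulRight Ω T) ∘ₗ (cen X.E.X i).subtype = 0 := by
    refine ext_gen ((adE ((X.E.F L.σ).φ i)).restrict hst) fun t x hx => ?_
    rw [LinearMap.zero_apply]
    change T * (x : Module.End Ω (X.E.X.H i)) - (x : Module.End Ω (X.E.X.H i)) * T = 0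
    have hx' : (x : Module.End Ω (X.E.X.H i)) ∈ (adE ((X.E.F L.σ).φ i)).maxGenEigenspace t := by
      rw [Module.End.mem_maxGenEigenspace] at hx ⊢
      obtain ⟨k, hk⟩ := hx
      refine ⟨k, ?_⟩
      have h2 : ∀ (k : ℕ) (x : cen X.E.X i),
          (((((adE ((X.E.F L.σ).φ i)).restrict hst) - t • 1) ^ k) x :
            Module.End Ω (X.E.X.H i)) =
          ((adE ((X.E.F L.σ).φ i) - t • 1) ^ k) (x : Module.End Ω (X.E.X.H i)) := by
        intro k
        induction k with
        | zero => intro x; rfl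
        | succ k ih =>
          intro x
          rw [_root_.pow_succ, _root_.pow_succ, Module.End.mul_apply, Module.End.mul_apply, ih]
          rfl
      rw [← h2, hk]
      rfl
    by_cases hx0 : (x : Module.End Ω (X.E.X.H i)) = 0
    · rw [hx0, mul_zero, zero_mul, sub_zero]
    have ht := cen_root X hi x.2 hx0 hx'
    have hw : W.w t = 0 := by
      have h3 : IsWeilNumber (Ideal.absNorm u.asIdeal) 0 t := by
        refine IsWeilNumber.of_pow (k := expo X i) (Nat.factorial_pos _) ?_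
        rw [ht, mul_zero]
        exact IsWeilNumber.one _
      have := hWw 0 t h3
      rw [this, Int.cast_zero]
    have h4 := T_ad (F := X.E.F L.σ) (W := W) (U_bad L hWU X.two_le) (U_bad L hWU hi) κ x.2 hx'
    rw [h4, Wt.k, hw, Rat.cast_zero, zero_smul]
  have h5 := congrArg (fun f => f ⟨a, ha⟩) key
  exact sub_eq_zero.1 h5

include hWU hWw in
/-- The operator `T` is nilpotent at the bad place. -/
lemma T_bad_nil {i : ℕ} (hi : i ≤ X.d) : IsNilpotent ((X.E.F L.σ).T W i i) := by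
  set q := Ideal.absNorm u.asIdeal with hq
  have hq1 : 1 < q := one_lt_q (u := u)
  set T := (X.E.F L.σ).T W i i with hT
  refine nil_of_roots fun x hx => ?_
  obtain ⟨z, n, hn, hzz, hz, htz, htTz⟩ := proj_spec hx
  have hzcen : z ∈ cen X.E.X i := fun A hA =>
    hz _ (T_comm (U_bad L hWU X.two_le) (U_bad L hWU hi) i hA)
  have hzc : ∀ a ∈ cen X.E.X i, Commute a z := fun a ha => hz a (T_cen L hWU hWw hi i ha).symm
  have hzφ : Commute (en ((X.E.F L.σ).φ i)) z := hz _ (T_comm_φ i _).symm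
  obtain ⟨O, hO, hO1, hOz⟩ := t_open Ω (X.E.X.H i) (GK K) (fun σ => (X.E.F σ).φ i)
    (fun σ τ => X.E.mul σ τ i) (X.E.cont i) z hzz fun σ => (hzc _ (cen_ad _ hzcen)).symm
  have hcomm : ∀ (φ : X.E.X.H i ≃ₗ[Ω] X.E.X.H i), adE φ z = z ↔ Commute (en φ) z := by
    intro φ
    constructor
    · intro h
      change en φ * z = z * en φ
      ext y
      have := congrArg (fun f : Module.End Ω (X.E.X.H i) => f (φ y)) h
      simp only [adE_apply] at this
      exact this
    · intro h
      ext y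
      have h1 := congrArg (fun f : Module.End Ω (X.E.X.H i) => f (φ.symm y)) h.eq
      have h2 : adE φ z y = φ (z (φ.symm y)) := by simp [adE, LinearEquiv.conj_apply]
      rw [h2]
      change φ (z (φ.symm y)) = z (φ (φ.symm y)) at h1
      rw [h1, LinearEquiv.apply_symm_apply]
  set O' : Set (GK K) := (fun σ => L.σ⁻¹ * σ) ⁻¹' O with hO'
  have hO'o : IsOpen O' := hO.preimage (continuous_const.mul continuous_id)
  have hmem : L.σ ∈ O' := by
    change L.σ⁻¹ * L.σ ∈ O
    rw [inv_mul_cancel]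
    exact hO1
  have hO'z : ∀ σ ∈ O', Commute (en ((X.E.F σ).φ i)) z := by
    intro σ hσ
    refine (hcomm _).1 ?_
    have h1 : σ = L.σ * (L.σ⁻¹ * σ) := by group
    rw [h1, adE_mul_apply X.E, hOz _ hσ]
    exact (hcomm _).2 hzφ
  -- determinants
  have hcts : Cts fun σ => en ((X.E.F σ).φ i) * z + (1 - z) := by
    intro M
    have h1 := (t_cts Ω (X.E.X.H i) (GK K) _ (fun _ => z) (X.E.cont i)
      (fun M => continuous_const)).1 M
    simp only [map_add]
    exact h1.add continuous_const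
  have hg : Continuous fun σ => LinearMap.det (en ((X.E.F σ).φ i) * z + (1 - z)) ^
      (4 * expo2 X i n) - (X.E.F σ).μ ^ (i * n * expo2 X i n) :=
    ((t_cts Ω (X.E.X.H i) (GK K) _ _ hcts hcts).2.pow _).sub (X.E.cont_μ.pow _)
  have h0 := dense_zero X hO'o hg (fun v hv hp σ hσ hfr =>
    sub_eq_zero.2 (good_det X hv hp hfr hi hzcen hzz (hO'z σ hσ) htz)) L.σ hmem
  have hdet := sub_eq_zero.1 h0
  obtain ⟨s, hs, hcard, hsdet, htr⟩ := t_detp Ω _ _ z hzφ hzz
  rw [hsdet, L.data.mult] at hdet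
  have hU1 : W.U 1 := (hWU 1).2 ⟨0, IsWeilNumber.one _⟩
  have hUs : ∀ e ∈ s, W.U e := fun e he => U_bad L hWU hi e (hs e he)
  have h5 := W.w_prod hU1 hUs
  have h6 := W.w_pow hU1 h5.1 (4 * expo2 X i n)
  have hqW : IsWeilNumber q 2 (q : Ω) := by
    refine ⟨isAlgebraic_natCast q, fun y hy => ?_⟩
    have h7 : minpoly ℚ (q : Ω) = Polynomial.X - C (q : ℚ) := by
      have := minpoly.eq_X_sub_C Ω (q : ℚ)
      rw [map_natCast] at this
      exact this
    rw [h7] at hy
    simp only [map_sub, aeval_X, aeval_C, sub_eq_zero] at hy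
    rw [hy]
    simp
  have hUq : W.U (q : Ω) := (hWU _).2 ⟨2, hqW⟩
  have hwq : W.w (q : Ω) = 2 := by
    have := hWw 2 _ hqW
    rw [this]; norm_num
  have h8 := W.w_pow hU1 hUq 2
  have h9 := W.w_pow hU1 h8.1 (i * n * expo2 X i n)
  have h10 : (4 * expo2 X i n : ℚ) * (s.map W.w).sum = (i * n * expo2 X i n) * (2 * 2) := by
    have := congrArg W.w hdet
    rw [h6.2, h9.2, h8.2, h5.2, hwq] at this
    push_cast at this
    exact this
  have hpos : (0 : ℚ) < expo2 X i n := by exact_mod_cast expo2_pos X i n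
  have h11 : (s.map W.w).sum = i * n := by
    have h12 : (4 * expo2 X i n : ℚ) * ((s.map W.w).sum - i * n) = 0 := by
      rw [mul_sub, h10]; ring
    rcases mul_eq_zero.1 h12 with h | h
    · exfalso; linarith
    · linarith
  have h12 := htr W.k
  have h13 : (s.map W.k).sum = (((s.map W.w).sum : ℚ) : Ω) := cast_sum_map _ _
  rw [h13, h11, fop_split (X.E.F L.σ) W i (i : ℚ), add_mul, add_mul, map_add, map_add,
    tr_rho_mul (skew_S2 (U_bad L hWU X.two_le)) (fun B hB => hzcen B hB), smul_mul_assoc,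
    one_mul, map_smul, htz, smul_eq_mul, add_zero, ← hT, htTz] at h12
  have h14 : x * n = 0 := by
    have h15 : (((i : ℚ) * n : ℚ) : Ω) = ((i : ℚ) : Ω) * n := by
      rw [Rat.cast_mul, Rat.cast_natCast, Rat.cast_natCast]
    rw [h15] at h12
    exact add_eq_left.1 h12
  rcases mul_eq_zero.1 h14 with h | h
  · exact h
  · exfalso
    have : n = 0 := by exact_mod_cast h
    omega

end

end Pool.Agent.N184.HK
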