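import Pool.Agent.N184.HK.VDefs
import Pool.Agent.N184.HK.W6
import Pool.Agent.N184.HK.P_FUN
import Pool.Agent.N184.HK.P_KOL
import Pool.Agent.N184.HK.P_UNI
import Pool.Agent.N184.HK.P_UNF

/-!
# Project HK: the Galois group acts on the commutant of `so(H²)` through a finite quotient
-/

set_option autoImplicit false

namespace Pool.Agent.N184.HK

open Module Module.End NumberField IsDedekindDomain
open Pool.Agent.W401.Cheb
open scoped Classical

section

variable {K : Type} [Field K] [NumberField K] {Ω : Type} [Field Ω] [CharZero Ω] [IsAlgClosed Ω]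
  [TopologicalSpace Ω] [IsTopologicalRing Ω] [T2Space Ω] (X : HKVariety K Ω)

omit [NumberField K] [Field K] [CharZero Ω] [IsAlgClosed Ω] [TopologicalSpace Ω]
  [IsTopologicalRing Ω] [T2Space Ω] in
lemma adE_iff {V : Type} [AddCommGroup V] [Module Ω V] (φ : V ≃ₗ[Ω] V) (a : Module.End Ω V) :
    adE φ a = a ↔ Commute (en φ) a := by
  constructor
  · intro h
    change en φ * a = a * en φ
    ext y
    have := congrArg (fun f : Module.End Ω V => f (φ y)) h
    simp only [adE_apply] at this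
    exact this
  · intro h
    ext y
    have h1 := congrArg (fun f : Module.End Ω V => f (φ.symm y)) h.eq
    have h2 : adE φ a y = φ (a (φ.symm y)) := by simp [adE, LinearEquiv.conj_apply]
    rw [h2]
    change φ (a (φ.symm y)) = a (φ (φ.symm y)) at h1
    rw [h1, LinearEquiv.apply_symm_apply]

omit [CharZero Ω] [IsAlgClosed Ω] [IsTopologicalRing Ω] [T2Space Ω] in
lemma triv_iff (σ : GK K) (i : ℕ) :
    X.E.Triv σ i ↔ ∀ a ∈ cen X.E.X i, adE ((X.E.F σ).φ i) a = a :=
  forall₂_congr fun a _ => (adE_iff _ a).symm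

/-- The action on the commutant. -/
noncomputable def rep (i : ℕ) (σ : GK K) : Module.End Ω (cen X.E.X i) :=
  (adE ((X.E.F σ).φ i)).restrict fun _ hx => cen_ad _ hx

omit [CharZero Ω] [IsAlgClosed Ω] [IsTopologicalRing Ω] [T2Space Ω] in
lemma rep_coe (i : ℕ) (σ : GK K) (x : cen X.E.X i) :
    ((rep X i σ x : cen X.E.X i) : Module.End Ω (X.E.X.H i)) =
      adE ((X.E.F σ).φ i) (x : Module.End Ω (X.E.X.H i)) := rfl

omit [CharZero Ω] [IsAlgClosed Ω] [IsTopologicalRing Ω] [T2Space Ω] in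
lemma rep_one (i : ℕ) : rep X i 1 = 1 := by
  ext1 x
  refine Subtype.ext ?_
  rw [rep_coe, Module.End.one_apply]
  ext y
  have h1 : ∀ y, (X.E.F 1).φ i y = y := phi_one X.E i
  have h2 : ((X.E.F 1).φ i).symm y = y := by
    rw [LinearEquiv.symm_apply_eq, h1]
  have h3 : adE ((X.E.F 1).φ i) (x : Module.End Ω (X.E.X.H i)) y =
      (X.E.F 1).φ i ((x : Module.End Ω (X.E.X.H i)) (((X.E.F 1).φ i).symm y)) := by
    simp [adE, LinearEquiv.conj_apply]
  rw [h3, h1, h2]

omit [CharZero Ω] [IsAlgClosed Ω] [IsTopologicalRing Ω] [T2Space Ω] in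
lemma rep_mul (i : ℕ) (σ τ : GK K) : rep X i (σ * τ) = rep X i σ * rep X i τ := by
  ext1 x
  refine Subtype.ext ?_
  rw [rep_coe, adE_mul_apply]
  rfl

omit [CharZero Ω] [IsAlgClosed Ω] [IsTopologicalRing Ω] [T2Space Ω] in
lemma rep_pow (i : ℕ) (σ : GK K) (k : ℕ) : rep X i (σ ^ k) = rep X i σ ^ k := by
  induction k with
  | zero => rw [_root_.pow_zero, _root_.pow_zero, rep_one]
  | succ k ih => rw [_root_.pow_succ, _root_.pow_succ, rep_mul, ih]

omit [CharZero Ω] [IsAlgClosed Ω] [IsTopologicalRing Ω] [T2Space Ω] in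
lemma rep_eq_one (i : ℕ) (σ : GK K) : rep X i σ = 1 ↔ X.E.Triv σ i := by
  rw [triv_iff]
  constructor
  · intro h a ha
    have := congrArg (fun f => ((f ⟨a, ha⟩ : cen X.E.X i) : Module.End Ω (X.E.X.H i))) h
    exact this
  · intro h
    ext1 x
    exact Subtype.ext (h _ x.2)

omit [CharZero Ω] [IsAlgClosed Ω] [T2Space Ω] in
lemma rep_cont (i : ℕ) (L : Module.Dual Ω (cen X.E.X i)) (x : cen X.E.X i) :
    Continuous fun σ : GK K => L (rep X i σ x) := by
  obtain ⟨L', hL'⟩ := LinearMap.exists_extend L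
  have h := cts_adE X.E i (g := fun _ => (x : Module.End Ω (X.E.X.H i)))
    (fun L => continuous_const) L'
  have h2 : (fun σ : GK K => L (rep X i σ x)) =
      fun σ => L' (adE ((X.E.F σ).φ i) (x : Module.End Ω (X.E.X.H i))) := by
    funext σ
    rw [← hL']
    rfl
  rw [h2]
  exact h

omit [NumberField K] [Field K] [CharZero Ω] [IsAlgClosed Ω] [TopologicalSpace Ω]
  [IsTopologicalRing Ω] [T2Space Ω] in
lemma expN_comm {V : Type} [AddCommGroup V] [Module Ω V] {N a : Module.End Ω V}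
    (h : Commute N a) (t : Ω) : Commute (expN (t • N)) a := by
  rw [expN]
  refine Commute.sum_left _ _ _ fun j _ => ?_
  exact ((h.smul_left t).pow_left j).smul_left _

variable {X} (D : Inertia X)

include D in
/-- Elements of the inertia groups have a power which acts trivially on the commutant. -/
lemma inert_triv {i : ℕ} (hi : i ≤ X.d) {u : HeightOneSpectrum (𝓞 K)} {τ : GK K}
    (hτ : IsInert u τ) : ∃ k : ℕ, 0 < k ∧ rep X i τ ^ k = 1 := by
  by_cases hu : u ∈ D.above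
  · obtain ⟨k, hk, h1⟩ := D.sen u hu τ hτ i hi
    refine ⟨k, hk, ?_⟩
    rw [← rep_pow]
    exact (rep_eq_one X i _).2 h1
  · obtain ⟨g, k, t, hk, h1⟩ := D.exp u hu τ hτ
    refine ⟨k, hk, ?_⟩
    have h2 : X.E.Triv ((g * τ * g⁻¹) ^ k) i := by
      intro a ha
      rw [h1 i hi, N_eq (D.tame u hu) hi]
      exact expN_comm (ha _ (D.tame u hu).data.skew) t
    have h3 := (rep_eq_one X i _).2 h2
    rw [conj_pow, rep_mul, rep_mul, rep_pow] at h3
    have h4 : rep X i g⁻¹ * rep X i g = 1 := by rw [← rep_mul, inv_mul_cancel, rep_one]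
    have h5 : rep X i τ ^ k = rep X i g⁻¹ * (rep X i g * rep X i τ ^ k * rep X i g⁻¹) *
        rep X i g := by
      rw [mul_assoc, mul_assoc, mul_assoc, h4, mul_one, ← mul_assoc, h4, one_mul]
    rw [h5, h3, mul_one, h4]

include D in
/-- The Galois group acts on the commutant of `so(H²)` through a finite quotient. -/
theorem open_triv {i : ℕ} (hi : i ≤ X.d) :
    ∃ U : Subgroup (GK K), IsOpen (U : Set (GK K)) ∧ ∀ σ ∈ U, X.E.Triv σ i := by
  obtain ⟨U, hU, hnil⟩ := t_fun Ω (cen X.E.X i) (GK K) (rep X i) (expo X i)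
    (finrank Ω (cen X.E.X i)) (Nat.factorial_pos _) (t_bas K) (rep_one X i) (rep_cont X i)
    (fun σ => by
      ext1 x
      refine Subtype.ext ?_
      rw [restrict_quasi (f := rep X i σ) (g := adE ((X.E.F σ).φ i)) (fun x => rfl),
        all_quasi X hi x.2 σ]
      rfl)
  refine ⟨U, hU, fun σ hσ => (rep_eq_one X i σ).1 ?_⟩
  refine t_uni_aux t_kol Ω (cen X.E.X i) U {σ | ∃ u, IsInert u (σ : GK K)}
    (fun σ => rep X i (σ : GK K)) (fun σ τ => rep_mul X i _ _) (fun σ => hnil _ σ.2)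
    (fun L x => (rep_cont X i L x).comp continuous_subtype_val) (fun σ hσ => ?_)
    (fun χ h1 h2 h3 => D.cft U hU χ h1 h2 fun u σ hσ => h3 σ ⟨u, hσ⟩) ⟨σ, hσ⟩
  obtain ⟨u, hu⟩ := hσ
  obtain ⟨k, hk, hk1⟩ := inert_triv D hi hu
  exact t_unf Ω _ _ k hk (hnil _ σ.2) hk1

include D in
theorem open_triv_all :
    ∃ U : Subgroup (GK K), IsOpen (U : Set (GK K)) ∧ ∀ σ ∈ U, ∀ i ≤ X.d, X.E.Triv σ i := by
  have h : ∀ n ≤ X.d + 1, ∃ U : Subgroup (GK K), IsOpen (U : Set (GK K)) ∧
      ∀ σ ∈ U, ∀ i < n, X.E.Triv σ i := by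
    intro n
    induction n with
    | zero => exact fun _ => ⟨⊤, isOpen_univ, fun σ _ i hi => absurd hi (Nat.not_lt_zero i)⟩
    | succ n ih =>
      intro hn
      obtain ⟨U, hU, h1⟩ := ih (by omega)
      obtain ⟨U', hU', h2⟩ := open_triv D (i := n) (by omega)
      refine ⟨U ⊓ U', hU.inter hU', fun σ hσ i hi => ?_⟩
      rcases Nat.lt_succ_iff_lt_or_eq.1 hi with h | h
      · exact h1 σ hσ.1 i h
      · rw [h]
        exact h2 σ hσ.2
  obtain ⟨U, hU, h1⟩ := h (X.d + 1) le_rfl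
  exact ⟨U, hU, fun σ hσ i hi => h1 σ hσ i (Nat.lt_succ_of_le hi)⟩

end

end Pool.Agent.N184.HK
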