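import Pool.Agent.N184.HK.VDefs
import Pool.Agent.N184.HK.Stm5

/-!
# Project HK: the Galois action on the Lie algebra `so(H²)` and on its tensor powers
-/

set_option autoImplicit false

namespace Pool.Agent.N184.HK

open Module NumberField IsDedekindDomain
open Pool.Agent.W401.Cheb

/-- The Lie algebra `so(V, q)`. -/
def soS {K V : Type} [Field K] [AddCommGroup V] [Module K V] (q : LinearMap.BilinForm K V) :
    Submodule K (Module.End K V) where
  carrier := {A | Skew q A}
  add_mem' {A B} hA hB x y := by
    have h1 := hA x y
    have h2 := hB x y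
    simp only [LinearMap.add_apply, map_add]
    linear_combination h1 + h2
  zero_mem' x y := by simp
  smul_mem' r A hA x y := by
    have h1 := hA x y
    simp only [LinearMap.smul_apply, map_smul, smul_eq_mul]
    linear_combination r * h1

lemma mem_soS {K V : Type} [Field K] [AddCommGroup V] [Module K V]
    {q : LinearMap.BilinForm K V} {A : Module.End K V} : A ∈ soS q ↔ Skew q A := Iff.rfl

/-- Conjugation by an automorphism preserves `so(H²)`. -/
lemma skew_ad {K : Type} [Field K] {d : ℕ} {c : ℚ} {X : Cohomology K d c} (F : X.Auto)
    {A : Module.End K (X.H 2)} (hA : Skew X.q A) : Skew X.q (adE (F.φ 2) A) := by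
  intro x y
  obtain ⟨x', rfl⟩ := (F.φ 2).surjective x
  obtain ⟨y', rfl⟩ := (F.φ 2).surjective y
  rw [adE_apply, adE_apply, F.similar, F.similar, ← mul_add, hA x' y', mul_zero]

/-- The action of the automorphism `F` on the Lie algebra `so(H²)`, by conjugation. -/
noncomputable def Cohomology.Auto.so {K : Type} [Field K] {d : ℕ} {c : ℚ} {X : Cohomology K d c}
    (F : X.Auto) : Module.End K (soS X.q) :=
  (adE (F.φ 2)).restrict fun _ h => skew_ad F h

/-- The operator `f ⊗ … ⊗ f` on the `n`-th tensor power of `V`. -/
noncomputable def tensPow {K V : Type} [Field K] [AddCommGroup V] [Module K V] (n : ℕ)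
    (f : Module.End K V) : Module.End K (PiTensorProduct K fun _ : Fin n => V) :=
  PiTensorProduct.map fun _ => f

/-- The operators `a g` act semisimply on all tensor powers of `V`. -/
def TensorSS {K V G : Type} [Field K] [AddCommGroup V] [Module K V] (a : G → Module.End K V) :
    Prop :=
  ∀ n : ℕ, SSet (K := K) (V := PiTensorProduct K fun _ : Fin n => V)
    (Set.range fun g => tensPow n (a g))

/-- The automorphisms `F g` act semisimply on all tensor powers of `so(H²)`. -/
def Cohomology.SoSemisimple {K : Type} [Field K] {d : ℕ} {c : ℚ} (X : Cohomology K d c)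
    {G : Type} (F : G → X.Auto) : Prop :=
  TensorSS fun g => (F g).so

/-- The Galois group acts semisimply on all tensor powers of `so(H²)`. -/
def GaloisCohomology.TensorSemisimple {K : Type} [Field K] [NumberField K] {Ω : Type} [Field Ω]
    [TopologicalSpace Ω] {d : ℕ} {c : ℚ} (E : GaloisCohomology K Ω d c) : Prop :=
  E.X.SoSemisimple E.F

end Pool.Agent.N184.HK
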