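import Pool.Agent.N184.HK.V1
import Pool.Agent.N184.HK.VSo
import Pool.Agent.N184.HK.P_CLI
import Pool.Agent.N184.HK.P_NRM
import Pool.Agent.N184.HK.P_FIX
import Pool.Agent.N184.HK.P_TEN
import Pool.Agent.N184.HK.P_SEMI

/-!
# Project HK: semisimplicity
-/

set_option autoImplicit false

namespace Pool.Agent.N184.HK

open Module Module.End NumberField IsDedekindDomain
open Pool.Agent.W401.Cheb
open scoped Classical

section

variable {K : Type} [Field K] [NumberField K] {Ω : Type} [Field Ω] [CharZero Ω] [IsAlgClosed Ω]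
  [TopologicalSpace Ω] [IsTopologicalRing Ω] [T2Space Ω] {X : HKVariety K Ω}

omit [NumberField K] [Field K] [CharZero Ω] [IsAlgClosed Ω] [TopologicalSpace Ω]
  [IsTopologicalRing Ω] [T2Space Ω] in
lemma so_one {K : Type} [Field K] [NumberField K] {Ω : Type} [Field Ω]
    [TopologicalSpace Ω] {d : ℕ} {c : ℚ} (E : GaloisCohomology K Ω d c) : (E.F 1).so = 1 := by
  ext1 x
  refine Subtype.ext ?_
  change adE ((E.F 1).φ 2) (x : Module.End Ω (E.X.H 2)) = x
  ext y
  have h1 : ∀ y, (E.F 1).φ 2 y = y := phi_one E 2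
  have h2 : ((E.F 1).φ 2).symm y = y := by
    rw [LinearEquiv.symm_apply_eq, h1]
  have h3 : adE ((E.F 1).φ 2) (x : Module.End Ω (E.X.H 2)) y =
      (E.F 1).φ 2 ((x : Module.End Ω (E.X.H 2)) (((E.F 1).φ 2).symm y)) := by
    simp [adE, LinearEquiv.conj_apply]
  rw [h3, h1, h2]

lemma so_mul {K : Type} [Field K] [NumberField K] {Ω : Type} [Field Ω]
    [TopologicalSpace Ω] {d : ℕ} {c : ℚ} (E : GaloisCohomology K Ω d c) (σ τ : GK K) :
    (E.F (σ * τ)).so = (E.F σ).so * (E.F τ).so := by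
  ext1 x
  refine Subtype.ext ?_
  change adE ((E.F (σ * τ)).φ 2) (x : Module.End Ω (E.X.H 2)) = _
  rw [adE_mul_apply]
  rfl

/-- Semisimplicity of the cohomology of `X` as a representation of the Galois group. -/
theorem semisimple (hI : S_IMG) (hS : S_SUM) (hW : S_WEYL) (hB : S_BURN) (hR : S_SERRE)
    (D : Inertia X) (hT : X.E.TensorSemisimple) {i : ℕ} (hi : i ≤ X.d) :
    SSet (Set.range fun σ : GK K => X.E.Φ σ i) := by
  obtain ⟨U, hU, hUt⟩ := open_triv D hi
  obtain ⟨N, hN, hNU, hNo⟩ := t_nrm K U hU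
  have := hN
  have := t_ofi K N hNo
  -- tensor powers
  have h1 : ∀ n : ℕ, SSet (K := Ω) (V := PiTensorProduct Ω fun _ : Fin n => soS X.E.X.q)
      (Set.range fun g : N => tensPow n ((X.E.F (g : GK K)).so)) := by
    intro n
    have h2 := t_cli Ω (PiTensorProduct Ω fun _ : Fin n => soS X.E.X.q) (GK K) N
      (fun σ => tensPow n ((X.E.F σ).so)) (by
          simp only [tensPow, so_one]
          exact PiTensorProduct.map_one) (fun σ τ => by
          simp only [tensPow, so_mul]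
          exact PiTensorProduct.map_mul _ _) (hT n)
    rwa [Set.image_eq_range] at h2
  -- the algebra generated by so(H²)
  set ρ' : soS X.E.X.q →ₗ[Ω] Module.End Ω (X.E.X.H i) := (X.E.X.ρ i).comp (soS X.E.X.q).subtype
    with hρ'
  have hconj : ∀ (g : N) (A : soS X.E.X.q), ((X.E.F (g : GK K)).φ i).conj (ρ' A) =
      ρ' ((X.E.F (g : GK K)).so A) := fun g A => (X.E.F (g : GK K)).hc i A
  have hst' : ∀ g : N, ∀ x ∈ Algebra.adjoin Ω (Set.range ρ'),
      ((X.E.F (g : GK K)).φ i).conj x ∈ Algebra.adjoin Ω (Set.range ρ') := by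
    intro g x hx
    induction hx using Algebra.adjoin_induction with
    | mem x hx =>
      obtain ⟨A, rfl⟩ := hx
      rw [hconj]
      exact Algebra.subset_adjoin ⟨_, rfl⟩
    | algebraMap r =>
      have h2 : ((X.E.F (g : GK K)).φ i).conj (algebraMap Ω (Module.End Ω (X.E.X.H i)) r) =
          algebraMap Ω (Module.End Ω (X.E.X.H i)) r := by
        ext y
        simp [LinearEquiv.conj_apply]
      rw [h2]
      exact Subalgebra.algebraMap_mem _ r
    | add x y hx hy h3 h4 =>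
      rw [map_add]
      exact Subalgebra.add_mem _ h3 h4
    | mul x y hx hy h3 h4 =>
      have h2 : ((X.E.F (g : GK K)).φ i).conj (x * y) =
          ((X.E.F (g : GK K)).φ i).conj x * ((X.E.F (g : GK K)).φ i).conj y := by
        ext y
        simp [LinearEquiv.conj_apply]
      rw [h2]
      exact Subalgebra.mul_mem _ h3 h4
  have hst : ∀ g : N, ∀ x ∈ Subalgebra.toSubmodule (Algebra.adjoin Ω (Set.range ρ')),
      ((((X.E.F (g : GK K)).φ i).conj : Module.End Ω (Module.End Ω (X.E.X.H i)))) x ∈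
        Subalgebra.toSubmodule (Algebra.adjoin Ω (Set.range ρ')) := fun g x hx => hst' g x hx
  have h3 := t_ten_aux hI hS Ω (soS X.E.X.q) (X.E.X.H i) N (fun g => (X.E.F (g : GK K)).so)
    (fun g => (X.E.F (g : GK K)).φ i) ρ' hconj h1 hst
  have hR1 : (Set.range ρ' : Set (Module.End Ω (X.E.X.H i))) =
      {f | ∃ A, Skew X.E.X.q A ∧ f = X.E.X.ρ i A} := by
    ext f
    constructor
    · rintro ⟨A, rfl⟩
      exact ⟨A, A.2, rfl⟩
    · rintro ⟨A, hA, rfl⟩
      exact ⟨⟨A, hA⟩, rfl⟩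
  have h4 : SSet (Set.range ρ' : Set (Module.End Ω (X.E.X.H i))) := by
    rw [hR1]
    exact hW Ω (X.E.X.H 2) (X.E.X.H i) X.E.X.q X.E.X.symm X.E.X.nondeg X.E.X.dim3 (X.E.X.ρ i)
      (X.E.X.bracket i)
  have h5 := t_semi_aux hB hR hI hS Ω (X.E.X.H i) N (Set.range ρ')
    (fun g => (X.E.F (g : GK K)).φ i) h4 (fun a ha g => hUt _ (hNU g.2) a fun A hA =>
      ha _ ⟨⟨A, hA⟩, rfl⟩) hst h3
  have h6 : SSet ((fun σ : GK K => X.E.Φ σ i) '' (N : Set (GK K))) := by
    rw [Set.image_eq_range]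
    exact h5
  refine t_fix Ω (X.E.X.H i) (GK K) N (fun σ => X.E.Φ σ i) ?_ ?_ h6
  · ext y
    exact phi_one X.E i y
  · intro σ τ
    ext y
    have := congrArg (fun f => f y) (X.E.mul σ τ i)
    exact this

end

end Pool.Agent.N184.HK
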