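import Pool.Agent.N184.HK.VDefs

/-!
# Project HK: the Lie algebra of the image of the Galois group and the Mumford-Tate Lie algebra
-/

set_option autoImplicit false

namespace Pool.Agent.N184.HK

open Module NumberField IsDedekindDomain
open Pool.Agent.W401.Cheb

section

variable {K V : Type} [Field K] [AddCommGroup V] [Module K V]

/-- The determinant of `A` on the image of the idempotent `z` which commutes with `A`. -/
noncomputable def detOn (A z : Module.End K V) : K :=
  LinearMap.det (A * z + (1 - z))

/-- `B` commutes with all operators which commute with `A`. -/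
def Follows (A B : Module.End K V) : Prop := ∀ a, Commute A a → Commute B a

/-- The trace of `B` is the logarithm of the determinant of `A`, on the image of every idempotent
`z` which commutes with `A`. -/
def TraceLog (lg : K → K) (A B : Module.End K V) : Prop :=
  ∀ z, z * z = z → Commute A z → trm B z = lg (detOn A z)

/-- `B` is an infinitesimal similitude of `q` with multiplier `m`. -/
def SimLog (q : LinearMap.BilinForm K V) (B : Module.End K V) (m : K) : Prop :=
  ∀ x y, q (B x) y + q x (B y) = m * q x y

/-- `B' = k B`. -/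
def IsMul (k : ℕ) (B B' : Module.End K V) : Prop := B' = k • B

/-- The operator `s + B`. -/
noncomputable def opOn (s : K) (B : Module.End K V) : Module.End K V := s • 1 + B

/-- The scalar `i t / 2`. -/
noncomputable def halfMul (i : ℕ) (t : K) : K := (i : K) / 2 * t

/-- The operator `i t / 2 + ρ S`. -/
noncomputable def actOn {W : Type} [AddCommGroup W] [Module K W] (ρ : Act K V W) (i : ℕ) (t : K)
    (S : Module.End K V) : Module.End K W :=
  opOn (halfMul i t) (ρ S)

/-- There are a scalar `t` and `S` with `h S` and `P t S`. -/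
def ExistsIn {K V : Type} (h : V → Prop) (P : K → V → Prop) : Prop :=
  ∃ t S, h S ∧ P t S

/-- The linear combination of the `f g`, for `g` in `s`, with coefficients `c g`. -/
noncomputable def comb {G : Type} (s : Finset G) (c : G → K) (f : G → V) : V :=
  ∑ g ∈ s, c g • f g

/-- `g` consists of the operators `t + S`, for `t` a scalar and `h S`, and all `S` with `h S` are
skew-symmetric for `q`. -/
def IsMT (q : LinearMap.BilinForm K V) (h g : Module.End K V → Prop) : Prop :=
  (∀ S, h S → Skew q S) ∧ ∀ A, g A ↔ ExistsIn h fun t S => A = opOn t S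

end

section

variable {K : Type} [Field K] [NumberField K] {Ω : Type} [Field Ω] [TopologicalSpace Ω]

/-- The `ℓ`-adic logarithm: `lg` is the logarithm on the field `Ω`; for `σ` in the open subgroup `U`
of the Galois group (where the series converges) `log i σ` is the logarithm of `σ` on `H^i`. It
commutes with all operators which commute with `σ`, its trace is the logarithm of the determinant,
`log (σ ^ k) = k log σ`; it is compatible with the action of `so(H²)`, and `log 2 σ` is an
infinitesimal similitude of the form `q`, because `σ` is an automorphism of the cohomology ring and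
multiplies `q` by `mu σ`. -/
structure Logarithm (X : HKVariety K Ω) where
  lg : Ω → Ω
  lg_mul : ∀ x y, x ≠ 0 → y ≠ 0 → lg (x * y) = lg x + lg y
  U : Subgroup (GK K)
  isOpen : IsOpen (U : Set (GK K))
  log : ∀ i, GK K → Module.End Ω (X.E.X.H i)
  comm : ∀ σ ∈ U, ∀ i ≤ X.d, Follows (X.E.Φ σ i) (log i σ)
  trace : ∀ σ ∈ U, ∀ i ≤ X.d, TraceLog lg (X.E.Φ σ i) (log i σ)
  pow : ∀ σ ∈ U, ∀ k : ℕ, ∀ i ≤ X.d, IsMul k (log i σ) (log i (σ ^ k))
  compat : ∀ σ ∈ U, ∀ i ≤ X.d, (X.E.X.ρ i).Compat X.E.X.q (log 2 σ) (log i σ)
  similar : ∀ σ ∈ U, SimLog X.E.X.q (log 2 σ) (lg (X.E.mu σ))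

/-- The scalar part of the logarithm of `σ` on `H²`. -/
noncomputable def Logarithm.t {X : HKVariety K Ω} (L : Logarithm X) (σ : GK K) : Ω :=
  L.lg (X.E.mu σ) / 2

/-- The part of the logarithm of `σ` on `H²` in `so(H²)`. -/
noncomputable def Logarithm.S {X : HKVariety K Ω} (L : Logarithm X) (σ : GK K) :
    Module.End Ω (X.E.X.H 2) :=
  opOn (-L.t σ) (L.log 2 σ)

/-- `A` belongs to the Lie algebra of the image of the Galois group on `H²`, after extension of
scalars to `Ω`: it is a linear combination of logarithms of elements of a small open subgroup. -/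
def Logarithm.LieGaloisTwo {X : HKVariety K Ω} (L : Logarithm X)
    (A : Module.End Ω (X.E.X.H 2)) : Prop :=
  ∃ (s : Finset (GK K)) (c : GK K → Ω), (∀ σ ∈ s, σ ∈ L.U) ∧ A = comb s c (L.log 2)

/-- The collection `A` of operators on the `H^i`, `i ≤ d`, belongs to the Lie algebra of the image of
the Galois group on `H^0 ⊕ … ⊕ H^d`, after extension of scalars to `Ω`: it is a linear combination of
logarithms of elements of a small open subgroup. -/
def Logarithm.LieGalois {X : HKVariety K Ω} (L : Logarithm X)
    (A : ∀ i, Module.End Ω (X.E.X.H i)) : Prop :=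
  ∃ (s : Finset (GK K)) (c : GK K → Ω), (∀ σ ∈ s, σ ∈ L.U) ∧
    ∀ i ≤ X.d, A i = comb s c (L.log i)

/-- The operators `A i` are `i t / 2 + ρ i S`, for `i ≤ d`. -/
def HKVariety.IsOp (X : HKVariety K Ω) (A : ∀ i, Module.End Ω (X.E.X.H i)) (t : Ω)
    (S : Module.End Ω (X.E.X.H 2)) : Prop :=
  ∀ i ≤ X.d, A i = actOn (X.E.X.ρ i) i t S

/-- The collection `A` of operators on the `H^i`, `i ≤ d`, belongs to the Lie algebra of the
Mumford-Tate group of `H^0 ⊕ … ⊕ H^d`, after extension of scalars to `Ω`: the Hodge structure on
`H^i` is given by the operator `i / 2 + ρ i J`, with `J` in `so(H²)` (Verbitsky), so that the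
Mumford-Tate Lie algebra consists of the operators `i t / 2 + ρ i S`, for `t` a scalar and `S` in the
Lie algebra `h` of the Hodge group of `H²`. -/
def HKVariety.LieMT (X : HKVariety K Ω) (h : Module.End Ω (X.E.X.H 2) → Prop)
    (A : ∀ i, Module.End Ω (X.E.X.H i)) : Prop :=
  ExistsIn h (X.IsOp A)

/-- The Mumford-Tate conjecture for `H²`, where `h` in `so(H²)` is the Lie algebra of the Hodge group
of `H²` (after extension of scalars to `Ω`): the Lie algebra of the image of the Galois group on `H²`
consists of the operators `t + S` for `t` a scalar and `S` in `h`. -/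
def Logarithm.MumfordTateTwo {X : HKVariety K Ω} (L : Logarithm X)
    (h : Module.End Ω (X.E.X.H 2) → Prop) : Prop :=
  IsMT X.E.X.q h L.LieGaloisTwo

/-- The Mumford-Tate conjecture for `H^0 ⊕ … ⊕ H^d`, where `h` in `so(H²)` is the Lie algebra of the
Hodge group of `H²`. -/
def Logarithm.MumfordTate {X : HKVariety K Ω} (L : Logarithm X)
    (h : Module.End Ω (X.E.X.H 2) → Prop) : Prop :=
  ∀ A, L.LieGalois A ↔ X.LieMT h A

end

end Pool.Agent.N184.HK
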