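import Pool.Agent.N184.HK.V1
import Pool.Agent.N184.HK.VLog
import Pool.Agent.N184.HK.P_ZRED

/-!
# Project HK: the Lie algebra of the image of the Galois group
-/

set_option autoImplicit false

namespace Pool.Agent.N184.HK

open Module Module.End NumberField IsDedekindDomain
open Pool.Agent.W401.Cheb
open scoped Classical

section

variable {K : Type} [Field K] [NumberField K] {Ω : Type} [Field Ω] [CharZero Ω] [IsAlgClosed Ω]
  [TopologicalSpace Ω] [IsTopologicalRing Ω] [T2Space Ω] {X : HKVariety K Ω}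

/-- The determinants of the elements of an open subgroup which acts trivially on the commutant. -/
lemma det_open {i : ℕ} (hi : i ≤ X.d) {N : Subgroup (GK K)} (hN : IsOpen (N : Set (GK K)))
    (hNt : ∀ σ ∈ N, X.E.Triv σ i) {z : Module.End Ω (X.E.X.H i)} (hz : z ∈ cen X.E.X i)
    (hzz : z * z = z) {n : ℕ} (hn : LinearMap.trace Ω _ z = n) {σ : GK K} (hσ : σ ∈ N) :
    detOn (X.E.Φ σ i) z ^ (4 * expo2 X i n) = X.E.mu σ ^ (i * n * expo2 X i n) := by
  have hcts : Cts fun σ => en ((X.E.F σ).φ i) * z + (1 - z) := by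
    intro M
    have h1 := (t_cts Ω (X.E.X.H i) (GK K) _ (fun _ => z) (X.E.cont i)
      (fun M => continuous_const)).1 M
    simp only [map_add]
    exact h1.add continuous_const
  have hg : Continuous fun σ => LinearMap.det (en ((X.E.F σ).φ i) * z + (1 - z)) ^
      (4 * expo2 X i n) - (X.E.F σ).μ ^ (i * n * expo2 X i n) :=
    ((t_cts Ω (X.E.X.H i) (GK K) _ _ hcts hcts).2.pow _).sub (X.E.cont_μ.pow _)
  exact sub_eq_zero.1 (dense_zero X hN hg (fun v hv hp σ hσ hfr =>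
    sub_eq_zero.2 (good_det X hv hp hfr hi hz hzz (hNt σ hσ z hz) hn)) σ hσ)

omit [CharZero Ω] [IsAlgClosed Ω] [IsTopologicalRing Ω] [T2Space Ω] in
lemma Logarithm.lg_one (L : Logarithm X) : L.lg 1 = 0 := by
  have h := L.lg_mul 1 1 one_ne_zero one_ne_zero
  rw [mul_one] at h
  exact (left_eq_add.1 h)

omit [CharZero Ω] [IsAlgClosed Ω] [IsTopologicalRing Ω] [T2Space Ω] in
lemma Logarithm.lg_pow (L : Logarithm X) {x : Ω} (hx : x ≠ 0) (k : ℕ) :
    L.lg (x ^ k) = k * L.lg x := by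
  induction k with
  | zero => simp [L.lg_one]
  | succ k ih =>
    rw [_root_.pow_succ, L.lg_mul _ _ (pow_ne_zero _ hx) hx, ih]
    push_cast
    ring

omit [CharZero Ω] [IsAlgClosed Ω] [IsTopologicalRing Ω] [T2Space Ω] in
lemma Logarithm.S_eq (L : Logarithm X) (σ : GK K) : L.S σ = L.log 2 σ - L.t σ • 1 := by
  rw [Logarithm.S, opOn, neg_smul]; abel

omit [IsAlgClosed Ω] [IsTopologicalRing Ω] [T2Space Ω] in
lemma Logarithm.skew (L : Logarithm X) {σ : GK K} (hσ : σ ∈ L.U) : Skew X.E.X.q (L.S σ) := by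
  intro x y
  have h := L.similar σ hσ x y
  rw [L.S_eq, LinearMap.sub_apply, LinearMap.sub_apply, LinearMap.smul_apply,
    LinearMap.smul_apply, Module.End.one_apply, Module.End.one_apply]
  simp only [map_sub, map_smul, LinearMap.sub_apply, LinearMap.smul_apply, smul_eq_mul]
  rw [Logarithm.t]
  linear_combination h

omit [CharZero Ω] [IsAlgClosed Ω] [IsTopologicalRing Ω] [T2Space Ω] in
lemma mu_ne (σ : GK K) : X.E.mu σ ≠ 0 := (X.E.F σ).μ_ne

omit [CharZero Ω] [IsAlgClosed Ω] [IsTopologicalRing Ω] [T2Space Ω] in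
lemma exists_q : ∃ x y, X.E.X.q x y ≠ 0 := by
  by_contra hcon
  push Not at hcon
  have h1 := X.E.X.dim3
  have h2 : Nontrivial (X.E.X.H 2) := Module.nontrivial_of_finrank_pos (R := Ω) (by omega)
  obtain ⟨x, hx⟩ := exists_ne (0 : X.E.X.H 2)
  exact hx (X.E.X.nondeg.1 x fun y => hcon x y)

omit [CharZero Ω] [IsAlgClosed Ω] [IsTopologicalRing Ω] [T2Space Ω] in
lemma mu_mul (σ τ : GK K) : X.E.mu (σ * τ) = X.E.mu σ * X.E.mu τ := by
  obtain ⟨x, y, hxy⟩ := exists_q (X := X)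
  have h1 := (X.E.F (σ * τ)).similar x y
  rw [X.E.mul σ τ 2] at h1
  have h2 : X.E.X.q ((((X.E.F τ).φ 2).trans ((X.E.F σ).φ 2)) x)
      ((((X.E.F τ).φ 2).trans ((X.E.F σ).φ 2)) y) =
      (X.E.F σ).μ * ((X.E.F τ).μ * X.E.X.q x y) := by
    rw [← (X.E.F τ).similar x y, ← (X.E.F σ).similar]
    rfl
  rw [h2, ← mul_assoc] at h1
  exact (mul_right_cancel₀ hxy h1).symm

omit [CharZero Ω] [IsAlgClosed Ω] [IsTopologicalRing Ω] [T2Space Ω] in
lemma mu_pow (σ : GK K) (k : ℕ) : X.E.mu (σ ^ k) = X.E.mu σ ^ k := by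
  induction k with
  | zero =>
    have h := mu_mul (X := X) 1 1
    rw [mul_one] at h
    rw [_root_.pow_zero, _root_.pow_zero]
    exact (mul_right_cancel₀ (mu_ne (X := X) 1) ((one_mul _).trans h)).symm
  | succ k ih => rw [_root_.pow_succ, mu_mul, ih, _root_.pow_succ]

lemma log_eq_aux (hW : S_WEYL) (L : Logarithm X) {i : ℕ} (hi : i ≤ X.d) {N : Subgroup (GK K)}
    (hN : IsOpen (N : Set (GK K))) (hNt : ∀ σ ∈ N, X.E.Triv σ i) {σ : GK K} (hσ : σ ∈ N)
    (hσL : σ ∈ L.U) :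
    L.log i σ = (((i : Ω) / 2) * L.t σ) • 1 + X.E.X.ρ i (L.S σ) := by
  set s : Ω := ((i : Ω) / 2) * L.t σ with hs
  set T : Module.End Ω (X.E.X.H i) := L.log i σ - X.E.X.ρ i (L.S σ) - s • 1 with hT
  have hS := L.skew hσL
  -- `T` commutes with `so(H²)`
  have h1 : ∀ A, Skew X.E.X.q A → Commute (X.E.X.ρ i A) T := by
    intro A hA
    have h2 := L.compat σ hσL i hi A hA
    have h3 := X.E.X.bracket i (L.S σ) A hS hA
    have h4 : L.log 2 σ * A - A * L.log 2 σ = L.S σ * A - A * L.S σ := by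
      rw [L.S_eq, sub_mul, mul_sub, smul_mul_assoc, mul_smul_comm, one_mul, mul_one]
      abel
    rw [h4, h3] at h2
    have h5 : Commute (X.E.X.ρ i A) (L.log i σ - X.E.X.ρ i (L.S σ)) := by
      refine sub_eq_zero.1 ?_
      have : X.E.X.ρ i A * (L.log i σ - X.E.X.ρ i (L.S σ)) -
          (L.log i σ - X.E.X.ρ i (L.S σ)) * X.E.X.ρ i A =
          (X.E.X.ρ i (L.S σ) * X.E.X.ρ i A - X.E.X.ρ i A * X.E.X.ρ i (L.S σ)) -
          (L.log i σ * X.E.X.ρ i A - X.E.X.ρ i A * L.log i σ) := by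
        rw [mul_sub, sub_mul]; abel
      rw [this, h2, sub_self]
    exact h5.sub_right ((Commute.one_right _).smul_right _)
  -- `T` commutes with the commutant
  have h2 : ∀ a ∈ cen X.E.X i, Commute T a := by
    intro a ha
    refine Commute.sub_left (Commute.sub_left ?_ (ha _ hS)) ((Commute.one_left _).smul_left _)
    exact L.comm σ hσL i hi a (hNt σ hσ a ha)
  -- `T` is nilpotent
  have h3 : IsNilpotent T := by
    refine nil_of_roots fun x hx => ?_
    obtain ⟨z, n, hn, hzz, hz, htz, htTz⟩ := proj_spec hx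
    have hzcen : z ∈ cen X.E.X i := fun A hA => hz _ (h1 A hA)
    have hzφ : Commute (X.E.Φ σ i) z := hNt σ hσ z hzcen
    have hdet := det_open hi hN hNt hzcen hzz htz hσ
    have htr := L.trace σ hσL i hi z hzz hzφ
    have hne : detOn (X.E.Φ σ i) z ≠ 0 := by
      intro h0
      rw [h0, zero_pow (by have := expo2_pos X i n; omega)] at hdet
      exact pow_ne_zero _ (mu_ne (X := X) σ) hdet.symm
    have h4 := congrArg L.lg hdet
    rw [L.lg_pow hne, L.lg_pow (mu_ne (X := X) σ)] at h4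
    have hpos : (expo2 X i n : Ω) ≠ 0 := by exact_mod_cast (expo2_pos X i n).ne'
    have h5 : L.lg (detOn (X.E.Φ σ i) z) = s * n := by
      rw [hs, Logarithm.t]
      push_cast at h4
      have h6 : (expo2 X i n : Ω) * (4 * L.lg (detOn (X.E.Φ σ i) z) -
          i * n * L.lg (X.E.mu σ)) = 0 := by linear_combination h4
      have h7 := (mul_eq_zero.1 h6).resolve_left hpos
      linear_combination h7 / 4
    have h6 : LinearMap.trace Ω _ (T * z) = 0 := by
      rw [hT, sub_mul, sub_mul, map_sub, map_sub, tr_rho_mul hS (fun B hB => hzcen B hB),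
        smul_mul_assoc, one_mul, map_smul, htz, smul_eq_mul, sub_zero]
      rw [trm] at htr
      rw [htr, h5, sub_self]
    rw [h6] at htTz
    rcases mul_eq_zero.1 htTz.symm with h | h
    · exact h
    · exfalso
      have : n = 0 := by exact_mod_cast h
      omega
  have h4 := t_zred Ω (X.E.X.H i) {f | ∃ A, Skew X.E.X.q A ∧ f = X.E.X.ρ i A} T
    (hW Ω (X.E.X.H 2) (X.E.X.H i) X.E.X.q X.E.X.symm X.E.X.nondeg X.E.X.dim3 (X.E.X.ρ i)
      (X.E.X.bracket i))
    (by rintro f ⟨A, hA, rfl⟩; exact h1 A hA)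
    (fun a ha => h2 a fun A hA => ha _ ⟨A, hA, rfl⟩) h3
  rw [hT, sub_sub, sub_eq_zero] at h4
  rw [h4, add_comm]

/-- The Galois action on `H^i` is infinitesimally given by the action on `H²`. -/
theorem log_eq (hW : S_WEYL) (D : Inertia X) (L : Logarithm X) {i : ℕ} (hi : i ≤ X.d)
    {σ : GK K} (hσ : σ ∈ L.U) :
    L.log i σ = (((i : Ω) / 2) * L.t σ) • 1 + X.E.X.ρ i (L.S σ) := by
  obtain ⟨N, hN, hNt⟩ := open_triv D hi
  obtain ⟨k, hk, hkN⟩ := t_fpow K N hN
  have h := log_eq_aux hW L hi hN hNt (hkN σ) (L.U.pow_mem hσ k)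
  have hk0 : (k : Ω) ≠ 0 := by exact_mod_cast hk.ne'
  have ht : L.t (σ ^ k) = k * L.t σ := by
    rw [Logarithm.t, Logarithm.t, mu_pow, L.lg_pow (mu_ne (X := X) σ)]
    ring
  have hS : L.S (σ ^ k) = (k : Ω) • L.S σ := by
    rw [L.S_eq, L.S_eq, show L.log 2 (σ ^ k) = k • L.log 2 σ from L.pow σ hσ k 2 X.two_le, ht, smul_sub, mul_smul]
    simp only [Nat.cast_smul_eq_nsmul]
  rw [show L.log i (σ ^ k) = k • L.log i σ from L.pow σ hσ k i hi, ht, hS, map_smul, ← Nat.cast_smul_eq_nsmul Ω] at h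
  have h2 : (k : Ω) • L.log i σ = (k : Ω) • ((((i : Ω) / 2) * L.t σ) • 1 +
      X.E.X.ρ i (L.S σ)) := by
    rw [h, smul_add, smul_smul]
    congr 2
    ring
  exact smul_right_injective _ hk0 h2

end

end Pool.Agent.N184.HK
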