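import Pool.Agent.N184.HK.V3

/-!
# Project HK: the Mumford-Tate conjecture
-/

set_option autoImplicit false

namespace Pool.Agent.N184.HK

open Module Module.End NumberField IsDedekindDomain
open Pool.Agent.W401.Cheb

section

variable {K : Type} [Field K] [NumberField K] {Ω : Type} [Field Ω] [CharZero Ω]
  [TopologicalSpace Ω] {X : HKVariety K Ω}

/-- The operator on `H^i` of `A = t + S`. -/
noncomputable def opMap (X : HKVariety K Ω) (i : ℕ) :
    Module.End Ω (X.E.X.H 2) →ₗ[Ω] Module.End Ω (X.E.X.H i) where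
  toFun A := opOn ((i : Ω) / 2 * (LinearMap.trace Ω _ A / finrank Ω (X.E.X.H 2)))
    (X.E.X.ρ i (A - (LinearMap.trace Ω _ A / finrank Ω (X.E.X.H 2)) • 1))
  map_add' A B := by
    simp only [opOn, map_add, map_sub, map_smul, add_div, mul_add, add_smul]
    abel
  map_smul' r A := by
    simp only [opOn, map_sub, map_smul, smul_eq_mul, smul_add, smul_sub, smul_smul,
      mul_div_assoc, RingHom.id_apply]
    congr 2
    ring

lemma tr_skew [IsAlgClosed Ω] {A : Module.End Ω (X.E.X.H 2)} (hA : Skew X.E.X.q A) :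
    LinearMap.trace Ω _ A = 0 := by
  have h := tr_rho_mul (X := X.E.X) (i := 2) hA (z := 1) fun B _ => Commute.one_right _
  rw [mul_one, X.E.X.ρ_two A hA] at h
  exact h

lemma opMap_apply [IsAlgClosed Ω] (i : ℕ) (t : Ω) {S : Module.End Ω (X.E.X.H 2)}
    (hS : Skew X.E.X.q S) :
    opMap X i (opOn t S) = actOn (X.E.X.ρ i) i t S := by
  have h0 : (finrank Ω (X.E.X.H 2) : Ω) ≠ 0 := by
    have := X.E.X.dim3
    exact_mod_cast (by omega : finrank Ω (X.E.X.H 2) ≠ 0)
  have h1 : LinearMap.trace Ω _ (opOn t S) / finrank Ω (X.E.X.H 2) = t := by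
    rw [opOn, map_add, map_smul, LinearMap.trace_one, tr_skew hS, smul_eq_mul, add_zero,
      mul_div_assoc, div_self h0, mul_one]
  have h2 : opOn t S - t • 1 = S := by rw [opOn]; abel
  change opOn _ _ = _
  rw [h1, h2, actOn, halfMul]

end

variable {K : Type} [Field K] [NumberField K] {Ω : Type} [Field Ω] [CharZero Ω] [IsAlgClosed Ω]
  [TopologicalSpace Ω] [IsTopologicalRing Ω] [T2Space Ω] {X : HKVariety K Ω}

lemma opMap_log (hW : S_WEYL) (D : Inertia X) (L : Logarithm X) {σ : GK K} (hσ : σ ∈ L.U)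
    {i : ℕ} (hi : i ≤ X.d) : opMap X i (L.log 2 σ) = L.log i σ := by
  have h1 : L.log 2 σ = opOn (L.t σ) (L.S σ) := by rw [L.S_eq, opOn]; abel
  rw [h1, opMap_apply _ _ (L.skew hσ), log_eq hW D L hi hσ, actOn, opOn, halfMul]

/-- The logarithm on `H^i` is determined by the logarithm on `H²`. -/
theorem log_act (hW : S_WEYL) (D : Inertia X) (L : Logarithm X) {i : ℕ} (hi : i ≤ X.d)
    {σ : GK K} (hσ : σ ∈ L.U) : L.log i σ = actOn (X.E.X.ρ i) i (L.t σ) (L.S σ) := by
  rw [log_eq hW D L hi hσ, actOn, opOn, halfMul]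

/-- The Mumford-Tate conjecture for `H²` implies the Mumford-Tate conjecture for the whole
cohomology. -/
theorem mtc_all (hW : S_WEYL) (D : Inertia X) (L : Logarithm X)
    (h : Module.End Ω (X.E.X.H 2) → Prop) (h2 : L.MumfordTateTwo h) : L.MumfordTate h := by
  intro A
  obtain ⟨hh, h2⟩ := h2
  have key : ∀ (s : Finset (GK K)) (c : GK K → Ω), (∀ σ ∈ s, σ ∈ L.U) → ∀ i ≤ X.d,
      opMap X i (comb s c (L.log 2)) = comb s c (L.log i) := by
    intro s c hs i hi
    rw [comb, comb, map_sum]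
    refine Finset.sum_congr rfl fun σ hσ => ?_
    rw [map_smul, opMap_log hW D L (hs σ hσ) hi]
  constructor
  · rintro ⟨s, c, hs, hA⟩
    obtain ⟨t, S, hS, hB⟩ := (h2 _).1 ⟨s, c, hs, rfl⟩
    refine ⟨t, S, hS, fun i hi => ?_⟩
    rw [hA i hi, ← key s c hs i hi, hB, opMap_apply _ _ (hh S hS)]
  · rintro ⟨t, S, hS, hA⟩
    obtain ⟨s, c, hs, hB⟩ := (h2 (opOn t S)).2 ⟨t, S, hS, rfl⟩
    refine ⟨s, c, hs, fun i hi => ?_⟩
    rw [hA i hi, ← key s c hs i hi, ← hB, opMap_apply _ _ (hh S hS)]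

end Pool.Agent.N184.HK
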