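import Pool.Agent.N184.HK.V3

/-!
# Project HK: Frobenius elements act semisimply
-/

set_option autoImplicit false

namespace Pool.Agent.N184.HK

open Module Module.End NumberField IsDedekindDomain
open Pool.Agent.W401.Cheb
open scoped Classical

/-- The operator `A` is diagonalizable. -/
def Diag {K V : Type} [Field K] [AddCommGroup V] [Module K V] (A : Module.End K V) : Prop :=
  (⨆ e : K, A.eigenspace e) = ⊤

section

variable {Ω V : Type} [Field Ω] [CharZero Ω] [IsAlgClosed Ω] [AddCommGroup V] [Module Ω V]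
  [FiniteDimensional Ω V]

/-- The unipotent part of an operator. -/
noncomputable def uni (A : Module.End Ω V) : Module.End Ω V := A * fop A (fun e => e⁻¹)

omit [CharZero Ω] [IsAlgClosed Ω] [FiniteDimensional Ω V] in
lemma zero_of_gen (φ : V ≃ₗ[Ω] V) {x : V} (hx : x ∈ (en φ).maxGenEigenspace 0) : x = 0 := by
  rw [Module.End.mem_maxGenEigenspace] at hx
  obtain ⟨k, hk⟩ := hx
  rw [zero_smul, sub_zero] at hk
  induction k with
  | zero => exact hk
  | succ k ih =>
    rw [_root_.pow_succ', Module.End.mul_apply] at hk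
    refine ih ?_
    exact φ.injective (hk.trans (map_zero φ).symm)

omit [CharZero Ω] in
lemma uni_apply (φ : V ≃ₗ[Ω] V) {x : V} {e : Ω} (hx : x ∈ (en φ).maxGenEigenspace e) :
    uni (en φ) x = e⁻¹ • en φ x := by
  rw [uni, Module.End.mul_apply, fop_apply _ hx, map_smul]

lemma uni_nil (φ : V ≃ₗ[Ω] V) : IsNilpotent (uni (en φ) - 1) := by
  have h1 : uni (en φ) - 1 = (en φ - fop (en φ) (fun e => e)) * fop (en φ) (fun e => e⁻¹) := by
    refine ext_gen (en φ) fun e x hx => ?_
    rw [LinearMap.sub_apply, uni_apply φ hx, Module.End.mul_apply, fop_apply _ hx, map_smul,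
      LinearMap.sub_apply, fop_apply _ hx, smul_sub, Module.End.one_apply]
    by_cases he : e = 0
    · rw [he] at hx
      rw [zero_of_gen φ hx]
      simp
    · rw [smul_smul, inv_mul_cancel₀ he, one_smul]
  rw [h1]
  refine Commute.isNilpotent_mul_right ?_ (nil_part (en φ))
  refine Commute.sub_left (fop_comm (Commute.refl _) _) ?_
  exact (fop_comm (fop_comm (Commute.refl (en φ)) _).symm _)

omit [CharZero Ω] in
lemma diag_of_uni (φ : V ≃ₗ[Ω] V) (h : uni (en φ) = 1) : Diag (en φ) := by
  rw [Diag, eq_top_iff, ← Module.End.iSup_maxGenEigenspace_eq_top (en φ)]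
  refine iSup_mono fun e x hx => ?_
  rw [Module.End.mem_eigenspace_iff]
  have h1 := uni_apply φ hx
  rw [h, Module.End.one_apply] at h1
  by_cases he : e = 0
  · rw [he] at hx
    rw [zero_of_gen φ hx]
    simp
  · have h2 : e • x = e • (e⁻¹ • en φ x) := by rw [← h1]
    rw [smul_smul, mul_inv_cancel₀ he, one_smul] at h2
    exact h2.symm

omit [CharZero Ω] in
lemma diag_apply {A : Module.End Ω V} (h : Diag A) {e : Ω} {x : V}
    (hx : x ∈ A.maxGenEigenspace e) : A x = e • x := by
  have h1 : A = fop A (fun e => e) := by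
    have h2 : (⨆ e : Ω, A.eigenspace e) ≤ LinearMap.eqLocus A (fop A (fun e => e)) := by
      refine iSup_le fun e x hx => ?_
      have h3 : x ∈ A.maxGenEigenspace e := by
        rw [Module.End.mem_maxGenEigenspace]
        refine ⟨1, ?_⟩
        rw [pow_one, LinearMap.sub_apply, Module.End.mem_eigenspace_iff.1 hx]
        exact sub_self _
      change A x = fop A (fun e => e) x
      rw [fop_apply _ h3]
      exact Module.End.mem_eigenspace_iff.1 hx
    rw [Diag] at h
    rw [h] at h2
    ext x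
    exact h2 (Submodule.mem_top (x := x))
  have h2 := fop_apply (φ := A) (fun e => e) hx
  rw [← h1] at h2
  exact h2

omit [CharZero Ω] [IsAlgClosed Ω] [FiniteDimensional Ω V] in
lemma Diag.pow {A : Module.End Ω V} (h : Diag A) (k : ℕ) : Diag (A ^ k) := by
  rw [Diag, eq_top_iff, ← h]
  refine iSup_le fun e x hx => ?_
  refine Submodule.mem_iSup_of_mem (e ^ k) ?_
  rw [Module.End.mem_eigenspace_iff]
  have h1 := Module.End.mem_eigenspace_iff.1 hx
  induction k with
  | zero => simp
  | succ k ih =>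
    rw [_root_.pow_succ, Module.End.mul_apply, h1, map_smul, ih, smul_smul, _root_.pow_succ,
      mul_comm]

omit [CharZero Ω] [IsAlgClosed Ω] [FiniteDimensional Ω V] in
lemma gen_pow {A : Module.End Ω V} {e : Ω} {x : V} (hx : x ∈ A.maxGenEigenspace e) (k : ℕ) :
    x ∈ (A ^ k).maxGenEigenspace (e ^ k) := by
  rw [Module.End.mem_maxGenEigenspace] at hx ⊢
  obtain ⟨m, hm⟩ := hx
  refine ⟨m, ?_⟩
  have h1 : Commute A (e • (1 : Module.End Ω V)) := (Commute.one_right A).smul_right e
  have h2 : A ^ k - e ^ k • (1 : Module.End Ω V) = A ^ k - (e • (1 : Module.End Ω V)) ^ k := by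
    rw [smul_pow, one_pow]
  obtain ⟨B, hB⟩ : ∃ B, A ^ k - e ^ k • (1 : Module.End Ω V) = (A - e • 1) * B ∧
      Commute (A - e • 1) B := by
    rw [h2, ← h1.mul_geom_sum₂ k]
    refine ⟨_, rfl, ?_⟩
    refine Commute.sum_right _ _ _ fun j _ => ?_
    have h3 : Commute (A - e • (1 : Module.End Ω V)) A :=
      (Commute.refl A).sub_left h1.symm
    have h4 : Commute (A - e • (1 : Module.End Ω V)) (e • (1 : Module.End Ω V)) :=
      (Commute.one_right _).smul_right e
    exact (h3.pow_right _).mul_right (h4.pow_right _)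
  rw [hB.1, hB.2.mul_pow, (hB.2.pow_pow m m).eq, Module.End.mul_apply, hm, map_zero]

lemma diag_of_pow (φ : V ≃ₗ[Ω] V) {k : ℕ} (hk : 0 < k) (h : Diag (en φ ^ k)) :
    Diag (en φ) := by
  refine diag_of_uni φ (t_unf Ω V _ k hk (uni_nil φ) ?_)
  have h1 : Commute (en φ) (fop (en φ) (fun e => e⁻¹)) := fop_comm (Commute.refl _) _
  rw [uni, h1.mul_pow]
  refine ext_gen (en φ) fun e x hx => ?_
  have h2 : ∀ j : ℕ, (fop (en φ) (fun e => e⁻¹) ^ j) x = (e⁻¹) ^ j • x := by
    intro j
    induction j with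
    | zero => simp
    | succ j ih =>
      rw [_root_.pow_succ, Module.End.mul_apply, fop_apply _ hx, map_smul, ih, smul_smul,
        _root_.pow_succ, mul_comm]
  rw [Module.End.mul_apply, h2, map_smul, diag_apply h (gen_pow hx k), smul_smul,
    Module.End.one_apply]
  by_cases he : e = 0
  · rw [he] at hx
    rw [zero_of_gen φ hx]
    simp
  · rw [inv_pow, inv_mul_cancel₀ (pow_ne_zero k he), one_smul]

end

section

variable {K : Type} [Field K] [NumberField K] {Ω : Type} [Field Ω] [CharZero Ω] [IsAlgClosed Ω]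
  [TopologicalSpace Ω] [IsTopologicalRing Ω] [T2Space Ω] {X : HKVariety K Ω}

omit [CharZero Ω] [IsAlgClosed Ω] [IsTopologicalRing Ω] [T2Space Ω] in
lemma Phi_pow (σ : GK K) (i k : ℕ) : X.E.Φ (σ ^ k) i = X.E.Φ σ i ^ k := by
  induction k with
  | zero =>
    ext x
    exact phi_one X.E i x
  | succ k ih =>
    rw [_root_.pow_succ, _root_.pow_succ, ← ih]
    ext x
    exact congrArg (fun f => f x) (X.E.mul (σ ^ k) σ i)

/-- An element of the Galois group which acts semisimply on `H²` acts semisimply on `H^i`. -/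
theorem diag_all (hW : S_WEYL) (D : Inertia X) {σ : GK K} (h2 : Diag (X.E.Φ σ 2)) {i : ℕ}
    (hi : i ≤ X.d) : Diag (X.E.Φ σ i) := by
  obtain ⟨N, hN, hNt⟩ := open_triv D hi
  obtain ⟨k, hk, hkN⟩ := t_fpow K N hN
  refine diag_of_pow ((X.E.F σ).φ i) hk ?_
  change Diag (X.E.Φ σ i ^ k)
  rw [← Phi_pow]
  have h2k : Diag (X.E.Φ (σ ^ k) 2) := by
    rw [Phi_pow]
    exact h2.pow k
  set τ := σ ^ k with hτ
  have hτN : τ ∈ N := hkN σ
  refine diag_of_uni ((X.E.F τ).φ i) ?_
  set φ := (X.E.F τ).φ i with hφ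
  set u := uni (en φ) with hu
  -- eigenvectors in the Lie algebra
  have h3 : ∀ t, ∀ A ∈ (adE ((X.E.F τ).φ 2)).maxGenEigenspace t,
      adE ((X.E.F τ).φ 2) A = t • A := by
    intro t A hA
    have h4 : ∀ x, en ((X.E.F τ).φ 2) (A x) = t • A (en ((X.E.F τ).φ 2) x) := by
      have h5 : en ((X.E.F τ).φ 2) * A = t • (A * en ((X.E.F τ).φ 2)) := by
        refine ext_gen (en ((X.E.F τ).φ 2)) fun e x hx => ?_
        have h6 := conj_gen hA hx
        have h7 : en ((X.E.F τ).φ 2) (A x) = (t * e) • A x := diag_apply h2k h6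
        have h8 : en ((X.E.F τ).φ 2) x = e • x := diag_apply h2k hx
        rw [Module.End.mul_apply, h7, LinearMap.smul_apply,
          Module.End.mul_apply, h8, map_smul, smul_smul]
      intro x
      exact congrArg (fun f => f x) h5
    ext x
    obtain ⟨y, rfl⟩ := ((X.E.F τ).φ 2).surjective x
    rw [adE_apply]
    exact h4 y
  have h4 : ∀ A, Commute (X.E.X.ρ i A) u := by
    intro A
    have h5 : LinearMap.mulRight Ω u ∘ₗ X.E.X.ρ i = LinearMap.mulLeft Ω u ∘ₗ X.E.X.ρ i := by
      refine ext_gen (adE ((X.E.F τ).φ 2)) fun t A hA => ?_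
      change X.E.X.ρ i A * u = u * X.E.X.ρ i A
      have h6 : adE φ (X.E.X.ρ i A) = t • X.E.X.ρ i A := by
        rw [hφ, (X.E.F τ).hc, h3 t A hA, map_smul]
      have h7 : ∀ x, en φ (X.E.X.ρ i A x) = t • X.E.X.ρ i A (en φ x) := by
        intro x
        have h8 := congrArg (fun f : Module.End Ω (X.E.X.H i) => f (φ x)) h6
        simp only [adE_apply] at h8
        exact h8
      have h8 : X.E.X.ρ i A ∈ (adE φ).maxGenEigenspace t := by
        rw [Module.End.mem_maxGenEigenspace]
        refine ⟨1, ?_⟩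
        rw [pow_one, LinearMap.sub_apply, h6]
        exact sub_self _
      refine ext_gen (en φ) fun e x hx => ?_
      have h9 := conj_gen h8 hx
      rw [Module.End.mul_apply, Module.End.mul_apply, hu, uni_apply φ hx, uni_apply φ h9,
        map_smul, h7, smul_smul]
      by_cases ht : t = 0
      · have h10 : X.E.X.ρ i A (en φ x) = 0 := by
          have h11 := h7 x
          rw [ht, zero_smul] at h11
          have h12 : X.E.X.ρ i A x = 0 := φ.injective (h11.trans (map_zero φ).symm)
          have h13 : ∀ y, X.E.X.ρ i A y = 0 := by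
            intro y
            have h14 := h7 y
            rw [ht, zero_smul] at h14
            exact φ.injective (h14.trans (map_zero φ).symm)
          exact h13 _
        rw [h10, smul_zero, smul_zero]
      · rw [mul_inv, mul_assoc, mul_comm e⁻¹ t, ← mul_assoc, inv_mul_cancel₀ ht, one_mul]
    exact congrArg (fun f => f A) h5
  have h5 : ∀ a ∈ cen X.E.X i, Commute u a := by
    intro a ha
    have h6 : Commute (en φ) a := hNt τ hτN a ha
    exact h6.mul_left (fop_comm h6.symm _).symm
  have h6 := t_zred Ω (X.E.X.H i) {f | ∃ A, Skew X.E.X.q A ∧ f = X.E.X.ρ i A} (u - 1)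
    (hW Ω (X.E.X.H 2) (X.E.X.H i) X.E.X.q X.E.X.symm X.E.X.nondeg X.E.X.dim3 (X.E.X.ρ i)
      (X.E.X.bracket i))
    (by rintro f ⟨A, hA, rfl⟩; exact (h4 A).sub_right (Commute.one_right _))
    (fun a ha => (h5 a fun A hA => ha _ ⟨A, hA, rfl⟩).sub_left (Commute.one_left _)) (uni_nil φ)
  exact sub_eq_zero.1 h6

end

end Pool.Agent.N184.HK
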