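import Pool.Agent.N184.HK.V2
import Pool.Agent.N184.HK.V4
import Pool.Agent.N184.HK.V6
import Pool.Agent.N184.HK.P_BURN
import Pool.Agent.N184.HK.P_SERRE
import Pool.Agent.N184.HK.P_IMGb
import Pool.Agent.N184.HK.P_WEYL

/-!
# Project HK: known facts on the Galois action on `H²`, and the final theorems
-/

set_option autoImplicit false

namespace Pool.Agent.N184.HK

open Module NumberField IsDedekindDomain
open Pool.Agent.W401.Cheb

/-- The data for the semisimplicity of the cohomology: the action of the inertia groups, and the
fact that the Galois group acts semisimply on the tensor powers of `so(H²)` (André, Faltings: `H²` is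
a subquotient of the cohomology of an abelian variety, over a finite extension of `K`). -/
structure SemisimpleTwo {K : Type} [Field K] [NumberField K] {Ω : Type} [Field Ω] [CharZero Ω]
    [TopologicalSpace Ω] (X : HKVariety K Ω) where
  inertia : Inertia X
  tensor : X.E.TensorSemisimple

/-- The data for the semisimplicity of Frobenius: the action of the inertia groups, and the fact that
the Frobenius elements at the good places act semisimply on `H²` (Deligne, André: by the Kuga-Satake
construction this follows from Weil's theorem for abelian varieties). -/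
structure FrobeniusTwo {K : Type} [Field K] [NumberField K] {Ω : Type} [Field Ω] [CharZero Ω]
    [TopologicalSpace Ω] (X : HKVariety K Ω) where
  inertia : Inertia X
  diag : ∀ v, v ∉ X.bad → ∀ σ, IsFrob v σ⁻¹ → Diag (X.E.Φ σ 2)

variable {K : Type} [Field K] [NumberField K] {Ω : Type} [Field Ω] [CharZero Ω] [IsAlgClosed Ω]
  [TopologicalSpace Ω] [IsTopologicalRing Ω] [T2Space Ω] {X : HKVariety K Ω}

theorem semisimple_all (D : SemisimpleTwo X) {i : ℕ} (hi : i ≤ X.d) :
    SSet (Set.range fun σ : GK K => X.E.Φ σ i) :=
  semisimple t_imgb t_sumb t_weyl t_burn t_serre D.inertia D.tensor hi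

theorem frob_all (D : FrobeniusTwo X) {v : HeightOneSpectrum (𝓞 K)} (hv : v ∉ X.bad) {σ : GK K}
    (hσ : IsFrob v σ⁻¹) {i : ℕ} (hi : i ≤ X.d) : Diag (X.E.Φ σ i) :=
  diag_all t_weyl D.inertia (D.diag v hv σ hσ) hi

end Pool.Agent.N184.HK
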