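import Pool.Agent.N184.HK.WDefs

/-!
# Project HK: the Galois action on the commutant of `so(H²)`: definitions
-/

set_option autoImplicit false

namespace Pool.Agent.N184.HK

open Module NumberField IsDedekindDomain
open Pool.Agent.W401.Cheb

/-- The exponential of a nilpotent operator. -/
noncomputable def expN {K V : Type} [Field K] [AddCommGroup V] [Module K V]
    (N : Module.End K V) : Module.End K V :=
  ∑ j ∈ Finset.range (finrank K V + 1), ((j.factorial : K)⁻¹) • N ^ j

/-- The operator `a` on `H^i` commutes with `so(H²)`. -/
def Cohomology.Com {K : Type} [Field K] {d : ℕ} {c : ℚ} (X : Cohomology K d c) (i : ℕ)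
    (a : Module.End K (X.H i)) : Prop :=
  ∀ A, Skew X.q A → Commute (X.ρ i A) a

/-- `σ` commutes with all operators on `H^i` which commute with `so(H²)`. -/
def GaloisCohomology.Triv {K : Type} [Field K] [NumberField K] {Ω : Type} [Field Ω]
    [TopologicalSpace Ω] {d : ℕ} {c : ℚ} (E : GaloisCohomology K Ω d c) (σ : GK K) (i : ℕ) :
    Prop :=
  ∀ a, E.X.Com i a → Commute (E.Φ σ i) a

/-- Class field theory: for every finite extension `L` of `K` (given by the open subgroup `U`), a
continuous homomorphism from the Galois group of `L` to the additive group of `Ω` which is trivial on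
all inertia groups is trivial (it factors through the Galois group of the maximal unramified abelian
extension of `L`, which is finite). -/
def Cft (K : Type) [Field K] [NumberField K] (Ω : Type) [Field Ω] [TopologicalSpace Ω] : Prop :=
  ∀ U : Subgroup (GK K), IsOpen (U : Set (GK K)) → ∀ χ : U → Ω, Continuous χ →
    (∀ σ τ, χ (σ * τ) = χ σ + χ τ) →
    (∀ (u : HeightOneSpectrum (𝓞 K)) (σ : U), IsInert u (σ : GK K) → χ σ = 0) → ∀ σ, χ σ = 0

section

variable {K : Type} [Field K] [NumberField K] {Ω : Type} [Field Ω] [CharZero Ω]
  [TopologicalSpace Ω]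

/-- Grothendieck's monodromy theorem for the element `τ` of an inertia group above `u`: a power of a
conjugate of `τ` is the exponential of a multiple of the monodromy operator. -/
def LocalMonodromy.IsExp {X : HKVariety K Ω} {u : HeightOneSpectrum (𝓞 K)}
    (L : LocalMonodromy X u) (τ : GK K) : Prop :=
  ∃ (g : GK K) (k : ℕ) (t : Ω), 0 < k ∧
    ∀ i ≤ X.d, X.E.Φ ((g * τ * g⁻¹) ^ k) i = expN (t • L.data.N i)

/-- The action of the inertia groups on the cohomology. `above` is the set of the places above `ℓ`.
At the other places: the monodromy operators `N` and Grothendieck's theorem. At the places above `ℓ`: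
a power of an element of an inertia group commutes with the commutant of `so(H²)`, because all
Hodge-Tate weights of this commutant are zero (the Sen operator of `H^i` is `i / 2` plus the image of
an element of `so(H²) ⊗ C_ℓ`: Faltings, Verbitsky), so that the inertia group acts on it through a
finite quotient (Sen). -/
structure Inertia (X : HKVariety K Ω) where
  above : Set (HeightOneSpectrum (𝓞 K))
  tame : ∀ u, u ∉ above → LocalMonodromy X u
  exp : ∀ u h τ, IsInert u τ → (tame u h).IsExp τ
  sen : ∀ v ∈ above, ∀ τ, IsInert v τ → ∀ i ≤ X.d, ∃ k : ℕ, 0 < k ∧ X.E.Triv (τ ^ k) i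
  cft : Cft K Ω

end

end Pool.Agent.N184.HK
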