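import Pool.Agent.N184.HK.WDefs

/-!
# Project HK: good places
-/

set_option autoImplicit false

namespace Pool.Agent.N184.HK

open Module Module.End
open scoped Classical

section

variable {K H : Type} [Field K] [IsAlgClosed K] [CharZero K] [AddCommGroup H] [Module K H]
  [FiniteDimensional K H]

/-- The projection onto the generalized eigenspace for `x`. -/
lemma proj_spec {T : Module.End K H} {x : K} (hx : x ∈ T.charpoly.roots) :
    ∃ (z : Module.End K H) (n : ℕ), 0 < n ∧ z * z = z ∧ (∀ U, Commute U T → Commute U z) ∧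
      LinearMap.trace K H z = n ∧ LinearMap.trace K H (T * z) = x * n := by
  set z := fop T (fun y => if y = x then 1 else 0) with hz
  have hzb : ∀ U, Commute U T → Commute U z := fun U hU => fop_comm hU _
  have hzz : z * z = z := by
    rw [hz, fop_mul]
    congr 1
    ext y
    by_cases h : y = x <;> simp [h]
  have h2 : LinearMap.trace K H (T * z) = x * LinearMap.trace K H z := by
    have h3 : T * z = x • z + (T - fop T (fun y => y)) * z := by
      rw [sub_mul]
      have : fop T (fun y => y) * z = x • z := by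
        rw [hz, fop_mul]
        refine ext_gen T fun e y hy => ?_
        rw [fop_apply _ hy, LinearMap.smul_apply, fop_apply _ hy, smul_smul]
        by_cases h : e = x <;> simp [h]
      rw [this]; abel
    have h4 : IsNilpotent ((T - fop T (fun y => y)) * z) := by
      refine Commute.isNilpotent_mul_right ?_ (nil_part T)
      exact (hzb T (Commute.refl T)).sub_left (hzb _ (self_comm_fop T _).symm)
    rw [h3, map_add, tr_nil h4, add_zero, map_smul, smul_eq_mul]
  obtain ⟨n, hn⟩ := tr_idem hzz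
  have hn0 : n ≠ 0 := by
    intro h0
    rw [h0, Nat.cast_zero] at hn
    rw [hz, tr_fop] at hn
    have h5 : (T.charpoly.roots.map (fun y => if y = x then (1 : K) else 0)).sum =
        (T.charpoly.roots.count x : K) := by
      induction T.charpoly.roots using Multiset.induction_on with
      | empty => simp
      | cons a s ih =>
        rw [Multiset.map_cons, Multiset.sum_cons, ih, Multiset.count_cons]
        by_cases h : a = x
        · subst h; simp [add_comm]
        · simp [h, Ne.symm h]
    rw [h5] at hn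
    have := Nat.cast_eq_zero.1 hn
    exact (Multiset.count_pos.2 hx).ne' this
  exact ⟨z, n, Nat.pos_of_ne_zero hn0, hzz, hzb, hn, by rw [h2, hn]⟩

omit [CharZero K] in
lemma tr_sum (T : Module.End K H) : LinearMap.trace K H T = T.charpoly.roots.sum := by
  have h : T = fop T (fun x => x) + (T - fop T (fun x => x)) := by abel
  have h2 := congrArg (LinearMap.trace K H) h
  rw [map_add, tr_nil (nil_part T), add_zero, tr_fop, Multiset.map_id'] at h2
  exact h2

lemma nil_of_nonneg {T : Module.End K H}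
    (h : ∀ x ∈ T.charpoly.roots, ∃ r : ℚ, 0 ≤ r ∧ (r : K) = x)
    (h0 : LinearMap.trace K H T = 0) : IsNilpotent T := by
  have h2 : ∃ s : Multiset ℚ, (∀ r ∈ s, 0 ≤ r) ∧ T.charpoly.roots = s.map (fun r : ℚ => (r : K)) := by
    generalize T.charpoly.roots = m at h
    induction m using Multiset.induction_on with
    | empty => exact ⟨0, by simp, rfl⟩
    | cons a s ih =>
      obtain ⟨r, hr0, hr⟩ := h a (Multiset.mem_cons_self a s)
      obtain ⟨t, ht0, ht⟩ := ih fun x hx => h x (Multiset.mem_cons_of_mem hx)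
      refine ⟨r ::ₘ t, fun y hy => ?_, by rw [Multiset.map_cons, hr, ht]⟩
      rcases Multiset.mem_cons.1 hy with rfl | hy
      · exact hr0
      · exact ht0 y hy
  obtain ⟨s, hs0, hs⟩ := h2
  rw [tr_sum, hs] at h0
  have h3 : s.sum = 0 := by
    have := map_multiset_sum (Rat.castHom K) s
    change ((s.sum : ℚ) : K) = (s.map (fun r : ℚ => (r : K))).sum at this
    rw [h0] at this
    exact_mod_cast this
  refine nil_of_roots fun x hx => ?_
  rw [hs] at hx
  obtain ⟨r, hr, rfl⟩ := Multiset.mem_map.1 hx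
  have h4 : r ≤ s.sum := Multiset.single_le_sum hs0 r hr
  have h5 := hs0 r hr
  have : r = 0 := by linarith
  rw [this, Rat.cast_zero]

omit [IsAlgClosed K] [FiniteDimensional K H] in
/-- If `T` is nilpotent and `[T, a] = x a` with `a ≠ 0` then `x = 0`. -/
lemma ad_nil {T a : Module.End K H} (hT : IsNilpotent T) (ha : a ≠ 0) {x : K}
    (h : T * a - a * T = x • a) : x = 0 := by
  obtain ⟨m, hm⟩ := hT
  -- the operator `ad T` is nilpotent
  have h1 : IsNilpotent (LinearMap.mulLeft K T - LinearMap.mulRight K T) := by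
    refine Commute.isNilpotent_sub ?_ ⟨m, ?_⟩ ⟨m, ?_⟩
    · exact LinearMap.commute_mulLeft_right T T
    · rw [LinearMap.pow_mulLeft, hm]; ext x; simp
    · rw [LinearMap.pow_mulRight, hm]; ext x; simp
  obtain ⟨k, hk⟩ := h1
  have h2 : ∀ k : ℕ, ((LinearMap.mulLeft K T - LinearMap.mulRight K T) ^ k) a = x ^ k • a := by
    intro k
    induction k with
    | zero => simp
    | succ k ih =>
      rw [_root_.pow_succ', Module.End.mul_apply, ih, map_smul]
      change x ^ k • (T * a - a * T) = _
      rw [h, smul_smul, _root_.pow_succ]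
  have h3 := h2 k
  rw [hk, LinearMap.zero_apply] at h3
  have h4 := (smul_eq_zero.1 h3.symm).resolve_right ha
  exact (pow_eq_zero_iff (fun h0 => by rw [h0] at h4; simp at h4)).1 h4

end

section

variable {d : ℕ} {c : ℚ} {p : ℕ} (P : CrysPlace d c p)

/-- The valuation of the nonzero elements. -/
def CrysPlace.w (x : P.C) : ℚ := (P.val x).untopD 0

lemma CrysPlace.coe_w {x : P.C} (hx : x ≠ 0) :
    ((P.w x : ℚ) : WithTop ℚ) = P.val x := by
  have h : P.val x ≠ ⊤ := fun h => hx ((AddValuation.top_iff P.val).1 h)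
  obtain ⟨r, hr⟩ := WithTop.ne_top_iff_exists.1 h
  rw [CrysPlace.w, ← hr]
  rfl

lemma CrysPlace.w_mul (x y : P.C) (hx : x ≠ 0) (hy : y ≠ 0) :
    P.w (x * y) = P.w x + P.w y := by
  have h : ((P.w (x * y) : ℚ) : WithTop ℚ) = ((P.w x + P.w y : ℚ) : WithTop ℚ) := by
    rw [WithTop.coe_add, P.coe_w hx, P.coe_w hy, P.coe_w (mul_ne_zero hx hy), P.val.map_mul]
  exact_mod_cast h

/-- The weight given by the valuation. -/
def CrysPlace.W : Wt P.C where
  U x := x ≠ 0
  ne _ h := h
  mul _ _ := mul_ne_zero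
  inv _ := inv_ne_zero
  w := P.w
  w_mul := P.w_mul

lemma CrysPlace.root_U (i : ℕ) : ∀ e ∈ (en (P.F.φ i)).charpoly.roots, P.W.U e :=
  fun _ he => root_ne he

/-- Weak admissibility: the operator `T` is nilpotent. -/
lemma CrysPlace.nil {i : ℕ} (hi : i ≤ d) : IsNilpotent (P.F.T P.W i (i / 2)) := by
  set T := P.F.T P.W i (i / 2) with hT
  have hS : fop (en (P.F.φ i)) (fun e => ((P.W.w e - i / 2 : ℚ) : P.C)) =
      P.D.ρ i (P.F.S2 P.W) + T := by
    rw [hT, Cohomology.Auto.T]; abel
  have hTφ : Commute T (en (P.F.φ i)) := T_comm_φ i _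
  have hs2 : Skew P.D.q (P.F.S2 P.W) := skew_S2 (P.root_U 2)
  have hTρ : ∀ A, Skew P.D.q A → Commute (P.D.ρ i A) T := fun A hA =>
    T_comm (P.root_U 2) (P.root_U i) _ hA
  have hR : ∀ z : Module.End P.C (P.D.H i), (∀ U, Commute U T → Commute U z) →
      LinearMap.trace P.C (P.D.H i) (P.D.ρ i (P.F.S2 P.W) * z) = 0 := fun z hz =>
    tr_rho_mul hs2 fun B hB => hz _ (hTρ B hB)
  -- the value of the trace of `T z`
  have key : ∀ z : Module.End P.C (P.D.H i), z * z = z → (∀ U, Commute U T → Commute U z) →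
      ∃ r : ℚ, 0 ≤ r ∧ LinearMap.trace P.C (P.D.H i) (T * z) = r ∧ (z = 1 → r = 0) := by
    intro z hz hz2
    obtain ⟨r, hr0, hr, hr1⟩ := P.adm i hi z hz (hz2 _ hTφ.symm).symm
      (fun A hA => hz2 _ (hTρ A hA))
    refine ⟨r, hr0, ?_, hr1⟩
    have h1 : fop (en (P.F.φ i)) (slope P.val) = (((i / 2 : ℚ) : P.C) • 1 +
        P.D.ρ i (P.F.S2 P.W)) + T := by
      have h2 : (fun e => ((P.W.w e - i / 2 : ℚ) : P.C)) =
          fun e => slope P.val e - ((i / 2 : ℚ) : P.C) := by
        ext e
        rw [Rat.cast_sub]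
        rfl
      rw [h2, fop_sub, fop_const] at hS
      rw [add_assoc, ← hS]
      abel
    rw [newtonNumber, hodgeNumber, trm, trm, trm, h1, add_mul, add_mul, map_add, map_add,
      hR z hz2, tr_rho_mul P.skew (fun A hA => hz2 _ (hTρ A hA)), smul_mul_assoc, map_smul,
      smul_eq_mul] at hr
    rw [add_zero, zero_add] at hr
    exact add_left_cancel hr
  refine nil_of_nonneg (fun x hx => ?_) ?_
  · obtain ⟨z, n, hn, hzz, hz, htz, htTz⟩ := proj_spec hx
    obtain ⟨r, hr0, hr, -⟩ := key z hzz hz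
    refine ⟨r / n, by positivity, ?_⟩
    have hn0 : (n : P.C) ≠ 0 := by exact_mod_cast hn.ne'
    rw [Rat.cast_div, Rat.cast_natCast, div_eq_iff hn0, ← hr, htTz]
  · obtain ⟨r, -, hr, hr1⟩ := key 1 (one_mul 1) fun U _ => Commute.one_right U
    rw [mul_one, hr1 rfl, Rat.cast_zero] at hr
    exact hr

end

end Pool.Agent.N184.HK
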