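import Pool.Agent.N184.HK.W1
import Pool.Agent.N184.HK.P_ARITH
import Pool.Agent.N184.HK.P_REC

/-!
# Project HK: transfer from the crystalline to the `ℓ`-adic side
-/

set_option autoImplicit false

namespace Pool.Agent.N184.HK

open Module Module.End Polynomial
open scoped Classical

section moments

variable {K : Type} [Field K] [IsAlgClosed K] [CharZero K] {d : ℕ} {c : ℚ}
  {X : Cohomology K d c}

/-- The second moment of the weights of the eigenvalues on `H^i`. -/
noncomputable def mom (F : X.Auto) (W : Wt K) (i : ℕ) (κ : ℚ) : ℚ :=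
  ((en (F.φ i)).charpoly.roots.map (fun e => (W.w e - κ) * (W.w e - κ))).sum

omit [IsAlgClosed K] in
lemma cast_sum_map (m : Multiset K) (f : K → ℚ) :
    (m.map (fun e => ((f e : ℚ) : K))).sum = (((m.map f).sum : ℚ) : K) := by
  have := map_multiset_sum (Rat.castHom K) (m.map f)
  rw [Multiset.map_map] at this
  exact this.symm

lemma mom_two (F : X.Auto) (W : Wt K) :
    LinearMap.trace K (X.H 2) (F.S2 W * F.S2 W) = ((mom F W 2 (W.w F.μ / 2) : ℚ) : K) := by
  have h1 : F.S2 W = fop (en (F.φ 2)) (fun e => ((W.w e - W.w F.μ / 2 : ℚ) : K)) := by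
    have : (fun e => ((W.w e - W.w F.μ / 2 : ℚ) : K)) =
        fun e => W.k e - ((W.w F.μ / 2 : ℚ) : K) := by
      ext e; rw [Rat.cast_sub]; rfl
    rw [this, fop_sub, fop_const]
    rfl
  rw [h1, fop_mul, tr_fop, mom, ← cast_sum_map]
  simp only [Rat.cast_mul]

lemma second_iff {F : X.Auto} {W : Wt K} (h2 : ∀ e ∈ (en (F.φ 2)).charpoly.roots, W.U e)
    {i : ℕ} (hi : ∀ e ∈ (en (F.φ i)).charpoly.roots, W.U e) (κ : ℚ) :
    ∃ r : ℚ, 0 ≤ r ∧ ((mom F W i κ : ℚ) : K) =
      LinearMap.trace K (X.H i) (X.ρ i (F.S2 W) * X.ρ i (F.S2 W)) + r ∧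
      (r = 0 ↔ IsNilpotent (F.T W i κ)) := by
  obtain ⟨r, hr0, hr, hr1⟩ := second_T (F := F) h2 hi κ
  rw [cast_sum_map] at hr
  refine ⟨r, hr0, hr, hr1, fun hn => ?_⟩
  have hS : fop (en (F.φ i)) (fun e => ((W.w e - κ : ℚ) : K)) = X.ρ i (F.S2 W) + F.T W i κ := by
    rw [Cohomology.Auto.T]; abel
  have h4 : ((mom F W i κ : ℚ) : K) =
      LinearMap.trace K (X.H i) (fop (en (F.φ i)) (fun e => ((W.w e - κ : ℚ) : K)) *
        fop (en (F.φ i)) (fun e => ((W.w e - κ : ℚ) : K))) := by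
    rw [fop_mul, tr_fop, mom, ← cast_sum_map]
    simp only [Rat.cast_mul]
  have h5 : LinearMap.trace K (X.H i) (X.ρ i (F.S2 W) * F.T W i κ) = 0 :=
    tr_rho_mul (skew_S2 h2) fun B hB => T_comm h2 hi κ hB
  have h6 : LinearMap.trace K (X.H i) (F.T W i κ * X.ρ i (F.S2 W)) = 0 := by
    rw [LinearMap.trace_mul_comm, h5]
  have h7 : LinearMap.trace K (X.H i) (F.T W i κ * F.T W i κ) = 0 :=
    tr_nil (Commute.isNilpotent_mul_right (Commute.refl _) hn)
  rw [hS, add_mul, mul_add, mul_add, map_add, map_add, map_add, h5, h6, h7] at h4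
  have hr' : ((mom F W i κ : ℚ) : K) =
      LinearMap.trace K (X.H i) (X.ρ i (F.S2 W) * X.ρ i (F.S2 W)) + r := hr
  rw [h4] at hr'
  have h8 : ((r : ℚ) : K) = 0 := by
    have := hr'
    simp only [add_zero] at this
    exact left_eq_add.1 this
  exact_mod_cast h8

/-- The sum over all degrees of the second moments. -/
lemma total_mom {F : X.Auto} {W : Wt K} (hd : 2 ≤ d)
    (hU : ∀ i ≤ d, ∀ e ∈ (en (F.φ i)).charpoly.roots, W.U e) (κ : ℕ → ℚ) :
    ∑ i ∈ Finset.range (d + 1), mom F W i (κ i) = c * mom F W 2 (W.w F.μ / 2) ↔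
      ∀ i ≤ d, IsNilpotent (F.T W i (κ i)) := by
  have hex : ∀ i, ∃ r : ℚ, i ≤ d → (0 ≤ r ∧ ((mom F W i (κ i) : ℚ) : K) =
      LinearMap.trace K (X.H i) (X.ρ i (F.S2 W) * X.ρ i (F.S2 W)) + r ∧
      (r = 0 ↔ IsNilpotent (F.T W i (κ i)))) := by
    intro i
    by_cases hi : i ≤ d
    · obtain ⟨r, hr⟩ := second_iff (hU 2 hd) (hU i hi) (κ i)
      exact ⟨r, fun _ => hr⟩
    · exact ⟨0, fun h => absurd h hi⟩
  choose r hr using hex
  have hr' : ∀ i ∈ Finset.range (d + 1), 0 ≤ r i ∧ ((mom F W i (κ i) : ℚ) : K) =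
      LinearMap.trace K (X.H i) (X.ρ i (F.S2 W) * X.ρ i (F.S2 W)) + r i ∧
      (r i = 0 ↔ IsNilpotent (F.T W i (κ i))) := fun i hi =>
    hr i (Nat.lt_succ_iff.1 (Finset.mem_range.1 hi))
  have h := X.index' _ _ (skew_S2 (F := F) (hU 2 hd)) (skew_S2 (hU 2 hd))
  rw [mom_two] at h
  have h1 : ((∑ i ∈ Finset.range (d + 1), mom F W i (κ i) : ℚ) : K) =
      ((c * mom F W 2 (W.w F.μ / 2) + ∑ i ∈ Finset.range (d + 1), r i : ℚ) : K) := by
    rw [Rat.cast_sum, Finset.sum_congr rfl fun i hi => (hr' i hi).2.1, Finset.sum_add_distrib, h,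
      Rat.cast_add, Rat.cast_mul, Rat.cast_sum (Finset.range (d + 1))]
  have h2 := Rat.cast_injective h1
  rw [h2]
  constructor
  · intro h4 i hi
    have h5 : ∑ i ∈ Finset.range (d + 1), r i = 0 := by linarith
    have hm := Finset.mem_range.2 (Nat.lt_succ_of_le hi)
    exact (hr' i hm).2.2.1 ((Finset.sum_eq_zero_iff_of_nonneg fun i hi => (hr' i hi).1).1 h5 i hm)
  · intro h4
    have h5 : ∑ i ∈ Finset.range (d + 1), r i = 0 := Finset.sum_eq_zero fun i hi =>
      (hr' i hi).2.2.2 (h4 i (Nat.lt_succ_iff.1 (Finset.mem_range.1 hi)))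
    rw [h5, add_zero]

/-- The weight of the multiplier is the mean of the weights of `H²`. -/
lemma mean_two {F : X.Auto} {W : Wt K} (hU : ∀ e ∈ (en (F.φ 2)).charpoly.roots, W.U e) :
    ((en (F.φ 2)).charpoly.roots.map W.w).sum =
      W.w F.μ / 2 * Multiset.card (en (F.φ 2)).charpoly.roots := by
  have hs2 := skew_S2 (F := F) (W := W) hU
  have h1 : LinearMap.trace K (X.H 2) (X.ρ 2 (F.S2 W) * 1) = 0 :=
    tr_rho_mul hs2 fun A _ => Commute.one_right _
  have hcard : finrank K (X.H 2) = Multiset.card (en (F.φ 2)).charpoly.roots := by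
    rw [← (IsAlgClosed.splits _).natDegree_eq_card_roots, LinearMap.charpoly_natDegree]
  rw [mul_one, X.ρ_two _ hs2, Cohomology.Auto.S2, map_sub, tr_fop, map_smul,
    LinearMap.trace_one, hcard, smul_eq_mul] at h1
  have h2 : ((en (F.φ 2)).charpoly.roots.map W.k).sum =
      ((((en (F.φ 2)).charpoly.roots.map W.w).sum : ℚ) : K) := cast_sum_map _ _
  rw [h2, sub_eq_zero] at h1
  have h3 : ((((en (F.φ 2)).charpoly.roots.map W.w).sum : ℚ) : K) =
      ((W.w F.μ / 2 * Multiset.card (en (F.φ 2)).charpoly.roots : ℚ) : K) := by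
    rw [h1, Rat.cast_mul, Rat.cast_natCast]
  exact Rat.cast_injective h3

end moments

section transfer

variable {Q Ω C : Type} [Field Q] [Field Ω] [Field C]

lemma val_untop {C : Type} [Field C] (val : AddValuation C (WithTop ℚ)) {x : C} (hx : x ≠ 0) :
    (((val x).untopD 0 : ℚ) : WithTop ℚ) = val x := by
  have h : val x ≠ ⊤ := fun h => hx ((AddValuation.top_iff val).1 h)
  obtain ⟨r, hr⟩ := WithTop.ne_top_iff_exists.1 h
  rw [← hr]
  rfl

lemma val_untop_mul {C : Type} [Field C] (val : AddValuation C (WithTop ℚ)) {x y : C} (hx : x ≠ 0)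
    (hy : y ≠ 0) : (val (x * y)).untopD 0 = (val x).untopD 0 + (val y).untopD 0 := by
  have h : (((val (x * y)).untopD 0 : ℚ) : WithTop ℚ) =
      (((val x).untopD 0 + (val y).untopD 0 : ℚ) : WithTop ℚ) := by
    rw [WithTop.coe_add, val_untop val hx, val_untop val hy, val_untop val (mul_ne_zero hx hy),
      val.map_mul]
  exact_mod_cast h

/-- The valuation of algebraic numbers in `Ω` given by embeddings `j` and `ι` of the field `Q` of
algebraic numbers. -/
noncomputable def WI (j : Q →+* Ω) (ι : Q →+* C) (val : AddValuation C (WithTop ℚ)) : Wt Ω where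
  U x := ∃ y : Q, y ≠ 0 ∧ j y = x
  ne := by
    rintro x ⟨y, hy, rfl⟩
    exact (map_ne_zero j).2 hy
  mul := by
    rintro _ _ ⟨x, hx, rfl⟩ ⟨y, hy, rfl⟩
    exact ⟨x * y, mul_ne_zero hx hy, map_mul j x y⟩
  inv := by
    rintro _ ⟨x, hx, rfl⟩
    exact ⟨x⁻¹, inv_ne_zero hx, map_inv₀ j x⟩
  w x := if h : ∃ y : Q, j y = x then (val (ι h.choose)).untopD 0 else 0
  w_mul := by
    have key : ∀ y : Q, (if h : ∃ z : Q, j z = j y then (val (ι h.choose)).untopD 0 else 0) =
        (val (ι y)).untopD 0 := by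
      intro y
      have h : ∃ z : Q, j z = j y := ⟨y, rfl⟩
      rw [dif_pos h, j.injective h.choose_spec]
    rintro _ _ ⟨x, hx, rfl⟩ ⟨y, hy, rfl⟩
    rw [← map_mul, key, key, key, map_mul]
    exact val_untop_mul val ((map_ne_zero ι).2 hx) ((map_ne_zero ι).2 hy)

lemma WI_w (j : Q →+* Ω) (ι : Q →+* C) (val : AddValuation C (WithTop ℚ)) (y : Q) :
    (WI j ι val).w (j y) = (val (ι y)).untopD 0 := by
  have h : ∃ z : Q, j z = j y := ⟨y, rfl⟩
  change (if h : ∃ z : Q, j z = j y then (val (ι h.choose)).untopD 0 else 0) = _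
  rw [dif_pos h, j.injective h.choose_spec]

lemma roots_int [IsAlgClosed Q] {P : ℤ[X]} (j : Q →+* Ω) :
    (P.map (Int.castRingHom Ω)).roots = (P.map (Int.castRingHom Q)).roots.map j := by
  have h1 : P.map (Int.castRingHom Ω) = (P.map (Int.castRingHom Q)).map j := by
    rw [Polynomial.map_map]
    congr 1
    exact RingHom.ext_int _ _
  rw [h1, (IsAlgClosed.splits _).roots_map]

end transfer

end Pool.Agent.N184.HK
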