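import Pool.Agent.N184.HK.W2

/-!
# Project HK: the commutant of `so(H²)` at good places
-/

set_option autoImplicit false

namespace Pool.Agent.N184.HK

open Module Module.End Polynomial NumberField IsDedekindDomain
open Pool.Agent.W401.Cheb
open scoped Classical

/-- The field of algebraic numbers. -/
abbrev QQ : Type := AlgebraicClosure ℚ

instance : Algebra.IsAlgebraic ℚ QQ := by
  convert AlgebraicClosure.isAlgebraic ℚ
  · rfl
  · exact Subsingleton.elim _ _

section cen

variable {K : Type} [Field K] {d : ℕ} {c : ℚ} (X : Cohomology K d c)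

/-- The commutant of `so(H²)`. -/
def cen (i : ℕ) : Submodule K (Module.End K (X.H i)) where
  carrier := {a | ∀ A, Skew X.q A → Commute (X.ρ i A) a}
  add_mem' ha hb A hA := (ha A hA).add_right (hb A hA)
  zero_mem' _ _ := Commute.zero_right _
  smul_mem' r _ ha A hA := (ha A hA).smul_right r

variable {X}

lemma mem_cen {i : ℕ} {a : Module.End K (X.H i)} :
    a ∈ cen X i ↔ ∀ A, Skew X.q A → Commute (X.ρ i A) a := Iff.rfl

lemma cen_ad (F : X.Auto) {i : ℕ} {a : Module.End K (X.H i)} (ha : a ∈ cen X i) :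
    adE (F.φ i) a ∈ cen X i := by
  intro A hA
  set A' : Module.End K (X.H 2) := (F.φ 2).symm.conj A with hA'
  have h1 : adE (F.φ 2) A' = A := by
    ext x
    simp [hA', adE, LinearEquiv.conj_apply]
  have h2 : Skew X.q A' := by
    intro x y
    have h3 : X.q (F.φ 2 (A' x)) (F.φ 2 y) = F.μ * X.q (A' x) y := F.similar _ _
    have h4 : X.q (F.φ 2 x) (F.φ 2 (A' y)) = F.μ * X.q x (A' y) := F.similar _ _
    have h5 : ∀ x, F.φ 2 (A' x) = A (F.φ 2 x) := by
      intro x
      simp [hA', LinearEquiv.conj_apply]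
    have h6 := hA (F.φ 2 x) (F.φ 2 y)
    rw [← h5, ← h5, h3, h4, ← mul_add] at h6
    exact (mul_eq_zero.1 h6).resolve_left F.μ_ne
  have h3 : X.ρ i A = adE (F.φ i) (X.ρ i A') := by
    rw [F.hc, h1]
  have h4 := ha A' h2
  have h5 : ∀ B C : Module.End K (X.H i), adE (F.φ i) (B * C) = adE (F.φ i) B * adE (F.φ i) C := by
    intro B C
    ext x
    simp [adE, LinearEquiv.conj_apply]
  rw [h3]
  change adE (F.φ i) (X.ρ i A') * adE (F.φ i) a = adE (F.φ i) a * adE (F.φ i) (X.ρ i A')
  rw [← h5, ← h5, h4.eq]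

end cen

section good

variable {K : Type} [Field K] [NumberField K] {Ω : Type} [Field Ω] [CharZero Ω] [IsAlgClosed Ω]
  [TopologicalSpace Ω] (X : HKVariety K Ω)
  {v : HeightOneSpectrum (𝓞 K)} (hv : v ∉ X.bad) (hp : (Ideal.absNorm v.asIdeal).Prime)
  {σ : GK K} (hσ : IsFrob v σ⁻¹) (j : QQ →+* Ω)

include hv hσ in
lemma roots_frob {i : ℕ} (hi : i ≤ X.d) : (en ((X.E.F σ).φ i)).charpoly.roots =
    ((X.poly v i).map (Int.castRingHom QQ)).roots.map j := by
  have h := X.frob v hv σ hσ i hi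
  rw [GaloisCohomology.cp, GaloisCohomology.Φ] at h
  rw [h, roots_int j]

include hv hσ in
lemma U_frob {C : Type} [Field C] (ι : QQ →+* C) (val : AddValuation C (WithTop ℚ)) {i : ℕ}
    (hi : i ≤ X.d) : ∀ e ∈ (en ((X.E.F σ).φ i)).charpoly.roots, (WI j ι val).U e := by
  intro e he
  have h0 := root_ne he
  rw [roots_frob X hv hσ j hi] at he
  obtain ⟨y, -, rfl⟩ := Multiset.mem_map.1 he
  exact ⟨y, fun h => h0 (by rw [h, map_zero]), rfl⟩

include hσ in
lemma map_w (ι : QQ →+* (X.crys v hv hp).C) {i : ℕ} (hi : i ≤ X.d) :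
    (en ((X.E.F σ).φ i)).charpoly.roots.map (WI j ι (X.crys v hv hp).val).w =
      (en ((X.crys v hv hp).F.φ i)).charpoly.roots.map (X.crys v hv hp).W.w := by
  have h := X.crys_poly v hv hp i hi
  rw [CrysPlace.cp] at h
  rw [roots_frob X hv hσ j hi, h, roots_int ι, Multiset.map_map, Multiset.map_map]
  refine Multiset.map_congr rfl fun y _ => ?_
  rw [Function.comp_apply, Function.comp_apply, WI_w]
  rfl

include hσ in
lemma good_nil (ι : QQ →+* (X.crys v hv hp).C) {i : ℕ} (hi : i ≤ X.d) :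
    IsNilpotent ((X.E.F σ).T (WI j ι (X.crys v hv hp).val) i (i / 2)) := by
  have hmom : ∀ i ≤ X.d, ∀ κ : ℚ, mom (X.E.F σ) (WI j ι (X.crys v hv hp).val) i κ =
      mom (X.crys v hv hp).F (X.crys v hv hp).W i κ := by
    intro i hi κ
    have h1 : ∀ {K' : Type} [Field K'] (m : Multiset K') (w : K' → ℚ),
        (m.map (fun e => (w e - κ) * (w e - κ))).sum =
        ((m.map w).map (fun x => (x - κ) * (x - κ))).sum := by
      intro K' _ m w
      rw [Multiset.map_map]
      rfl
    rw [mom, mom, h1 _ (WI j ι (X.crys v hv hp).val).w, h1 _ (X.crys v hv hp).W.w,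
      map_w X hv hp hσ j ι hi]
  have hμ : (WI j ι (X.crys v hv hp).val).w (X.E.F σ).μ / 2 =
      (X.crys v hv hp).W.w (X.crys v hv hp).F.μ / 2 := by
    have h1 := mean_two (F := X.E.F σ) (W := WI j ι (X.crys v hv hp).val)
      (U_frob X hv hσ j ι (X.crys v hv hp).val X.two_le)
    have h2 := mean_two (F := (X.crys v hv hp).F) (W := (X.crys v hv hp).W)
      ((X.crys v hv hp).root_U 2)
    have h3 := map_w X hv hp hσ j ι X.two_le
    have h4 : Multiset.card (en ((X.E.F σ).φ 2)).charpoly.roots =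
        Multiset.card (en ((X.crys v hv hp).F.φ 2)).charpoly.roots := by
      have := congrArg Multiset.card h3
      rwa [Multiset.card_map, Multiset.card_map] at this
    have h5 : (Multiset.card (en ((X.E.F σ).φ 2)).charpoly.roots : ℚ) ≠ 0 := by
      have h6 := X.E.X.dim3
      rw [← LinearMap.charpoly_natDegree (en ((X.E.F σ).φ 2)),
        (IsAlgClosed.splits _).natDegree_eq_card_roots] at h6
      have : 0 < Multiset.card (en ((X.E.F σ).φ 2)).charpoly.roots := by omega
      exact_mod_cast this.ne'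
    have h7 := congrArg Multiset.sum h3
    rw [h1, h2, ← h4] at h7
    exact mul_right_cancel₀ h5 h7
  have h1 := (total_mom (F := X.E.F σ) (W := WI j ι (X.crys v hv hp).val) X.two_le
    (fun i hi => U_frob X hv hσ j ι (X.crys v hv hp).val hi) (fun i => (i : ℚ) / 2)).1 (by
      rw [hμ, hmom 2 X.two_le, Finset.sum_congr rfl fun i hi =>
        hmom i (Nat.lt_succ_iff.1 (Finset.mem_range.1 hi)) ((i : ℚ) / 2)]
      exact (total_mom (F := (X.crys v hv hp).F) (W := (X.crys v hv hp).W) X.two_le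
        (fun i _ => (X.crys v hv hp).root_U i)
        (fun i => (i : ℚ) / 2)).2 fun i hi => (X.crys v hv hp).nil hi)
  exact h1 i hi

/-- The decomposition of the weight operator. -/
lemma fop_split {K' : Type} [Field K'] [IsAlgClosed K'] [CharZero K'] {d : ℕ} {c : ℚ}
    {Y : Cohomology K' d c} (F : Y.Auto) (W : Wt K') (i : ℕ) (κ : ℚ) :
    fop (en (F.φ i)) W.k = (κ : K') • 1 + Y.ρ i (F.S2 W) + F.T W i κ := by
  rw [T_eq]; abel

/-- `[T, a] = w(t) a` for an element `a` of the commutant of `so(H²)`. -/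
lemma T_ad {K' : Type} [Field K'] [IsAlgClosed K'] [CharZero K'] {d : ℕ} {c : ℚ}
    {Y : Cohomology K' d c} {F : Y.Auto} {W : Wt K'}
    (h2 : ∀ e ∈ (en (F.φ 2)).charpoly.roots, W.U e) {i : ℕ}
    (hi : ∀ e ∈ (en (F.φ i)).charpoly.roots, W.U e) (κ : ℚ) {t : K'}
    {a : Module.End K' (Y.H i)} (ha : a ∈ cen Y i) (hat : a ∈ (adE (F.φ i)).maxGenEigenspace t) :
    F.T W i κ * a - a * F.T W i κ = W.k t • a := by
  have h1 := comm_fop W hi hat
  have h3 := (ha _ (skew_S2 (F := F) (W := W) h2)).eq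
  rw [fop_split F W i κ] at h1
  rw [← h1, add_mul, add_mul, mul_add, mul_add, h3, smul_mul_assoc, mul_smul_comm, one_mul,
    mul_one]
  abel

include hv hp hσ in
/-- The eigenvalues of a good Frobenius on the commutant are roots of unity of bounded order. -/
lemma good_eig {i : ℕ} (hi : i ≤ X.d) {a : Module.End Ω (X.E.X.H i)} (ha : a ∈ cen X.E.X i)
    (ha0 : a ≠ 0) {t : Ω} (hat : a ∈ (adE ((X.E.F σ).φ i)).maxGenEigenspace t) :
    t ^ (2 * (finrank Ω (X.E.X.H i)) ^ 2).factorial = 1 := by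
  obtain ⟨j⟩ : Nonempty (QQ →+* Ω) := ⟨(IsAlgClosed.lift : QQ →ₐ[ℚ] Ω).toRingHom⟩
  -- eigenvalues `e` and `t e`
  have hex : ∃ e, ∃ x ∈ (en ((X.E.F σ).φ i)).maxGenEigenspace e, a x ≠ 0 := by
    by_contra hcon
    push Not at hcon
    exact ha0 (ext_gen (en ((X.E.F σ).φ i)) fun e x hx => by
      rw [hcon e x hx, LinearMap.zero_apply])
  obtain ⟨e, x, hx, hax⟩ := hex
  have h1 := conj_gen hat hx
  have hx0 : x ≠ 0 := fun h => hax (by rw [h, map_zero])
  have he : e ∈ (en ((X.E.F σ).φ i)).charpoly.roots := ne_bot_iff.1 fun h => hx0 (by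
    rw [h, Submodule.mem_bot] at hx; exact hx)
  have hte : t * e ∈ (en ((X.E.F σ).φ i)).charpoly.roots := ne_bot_iff.1 fun h => hax (by
    rw [h, Submodule.mem_bot] at h1; exact h1)
  have he0 := root_ne he
  rw [roots_frob X hv hσ j hi] at he hte
  obtain ⟨y, hy, hye⟩ := Multiset.mem_map.1 he
  obtain ⟨y', hy', hye'⟩ := Multiset.mem_map.1 hte
  have hy0 : y ≠ 0 := fun h => he0 (by rw [← hye, h, map_zero])
  have hjt : j (y' / y) = t := by
    rw [map_div₀, hye, hye', mul_div_assoc, div_self he0, mul_one]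
  have hp0 : (Ideal.absNorm v.asIdeal : QQ) ≠ 0 := by exact_mod_cast hp.ne_zero
  have hrec := t_rec QQ (Ideal.absNorm v.asIdeal) i hp.pos (X.poly v i) (X.weilPoly v hv i hi).1
    (X.weilPoly v hv i hi).2 y hy
  have hprod : (({y', (Ideal.absNorm v.asIdeal : QQ) ^ i / y} : Multiset QQ).prod) /
      (Ideal.absNorm v.asIdeal : QQ) ^ i = y' / y := by
    rw [Multiset.insert_eq_cons, Multiset.prod_cons, Multiset.prod_singleton]
    field_simp
  have hT := fun ι => good_nil X hv hp hσ j ι hi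
  have hval : ∀ ι : QQ →+* (X.crys v hv hp).C, 0 ≤ (X.crys v hv hp).val (ι (y' / y)) := by
    intro ι
    set W := WI j ι (X.crys v hv hp).val with hW
    have h3 := T_ad (W := W) (U_frob X hv hσ j ι _ X.two_le) (U_frob X hv hσ j ι _ hi)
      ((i : ℚ) / 2) ha hat
    have h4 := ad_nil (hT ι) ha0 h3
    have h5 : W.w t = 0 := by
      have : ((W.w t : ℚ) : Ω) = 0 := h4
      exact_mod_cast this
    rw [← hjt, hW, WI_w] at h5
    by_cases h0 : ι (y' / y) = 0
    · rw [h0, AddValuation.map_zero]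
      exact le_top
    · rw [← val_untop _ h0, h5]
      exact le_rfl
  have harith := t_arith QQ (X.crys v hv hp).C (Ideal.absNorm v.asIdeal) hp
    (X.crys v hv hp).val (by rw [(X.crys v hv hp).norm]; exact zero_lt_one) i (X.poly v i)
    (X.weilPoly v hv i hi).1 (X.weilPoly v hv i hi).2 {y', (Ideal.absNorm v.asIdeal : QQ) ^ i / y}
    (by
      intro z hz
      rw [Multiset.insert_eq_cons, Multiset.mem_cons, Multiset.mem_singleton] at hz
      rcases hz with rfl | rfl
      · exact hy'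
      · exact hrec) i (by simp [mul_comm]) (by rw [hprod]; exact hval)
  rw [hprod] at harith
  have hdeg : (X.poly v i).natDegree = finrank Ω (X.E.X.H i) := by
    have h6 := LinearMap.charpoly_natDegree (en ((X.E.F σ).φ i))
    have h7 := X.frob v hv σ hσ i hi
    rw [GaloisCohomology.cp, GaloisCohomology.Φ] at h7
    rw [h7, natDegree_map_eq_of_injective (RingHom.injective_int _)] at h6
    exact h6
  have hcard : Multiset.card ({y', (Ideal.absNorm v.asIdeal : QQ) ^ i / y} : Multiset QQ) = 2 := by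
    rw [Multiset.insert_eq_cons, Multiset.card_cons, Multiset.card_singleton]
  rw [hdeg, hcard] at harith
  rw [← hjt, ← map_pow, harith, map_one]

end good

end Pool.Agent.N184.HK
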