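import Pool.Agent.N184.HK.W3
import Pool.Agent.N184.HK.P_QU
import Pool.Agent.N184.HK.P_CTS
import Pool.Agent.N184.HK.P_OPEN
import Pool.Agent.N184.HK.P_DETP
import Pool.Agent.N184.HK.P_FROB

/-!
# Project HK: from the Frobenius elements to the Galois group
-/

set_option autoImplicit false

namespace Pool.Agent.N184.HK

open Module Module.End Polynomial NumberField IsDedekindDomain
open Pool.Agent.W401.Cheb
open scoped Classical

section

variable {K : Type} [Field K] [NumberField K] {Ω : Type} [Field Ω] [CharZero Ω] [IsAlgClosed Ω]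
  [TopologicalSpace Ω] [IsTopologicalRing Ω] [T2Space Ω]

section rep

variable {d : ℕ} {c : ℚ} (E : GaloisCohomology K Ω d c)

omit [CharZero Ω] [IsAlgClosed Ω] [IsTopologicalRing Ω] [T2Space Ω] in
lemma phi_one (i : ℕ) (x : E.X.H i) : (E.F 1).φ i x = x := by
  have h := E.mul 1 1 i
  rw [one_mul] at h
  have h2 := congrArg (fun f => f x) h
  exact ((E.F 1).φ i).injective h2.symm

omit [CharZero Ω] [IsAlgClosed Ω] [IsTopologicalRing Ω] [T2Space Ω] in
lemma phi_inv (σ : GK K) (i : ℕ) : (E.F σ⁻¹).φ i = ((E.F σ).φ i).symm := by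
  ext x
  have h := E.mul σ σ⁻¹ i
  rw [mul_inv_cancel] at h
  have h2 : (E.F 1).φ i x = (E.F σ).φ i ((E.F σ⁻¹).φ i x) := congrArg (fun f => f x) h
  rw [phi_one] at h2
  rw [LinearEquiv.eq_symm_apply, ← h2]

omit [CharZero Ω] [IsAlgClosed Ω] [IsTopologicalRing Ω] [T2Space Ω] in
lemma adE_mul_apply (σ τ : GK K) (i : ℕ) (a : Module.End Ω (E.X.H i)) :
    adE ((E.F (σ * τ)).φ i) a = adE ((E.F σ).φ i) (adE ((E.F τ).φ i) a) := by
  rw [E.mul σ τ i]
  ext x
  simp [adE, LinearEquiv.conj_apply]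

omit [CharZero Ω] [IsAlgClosed Ω] [T2Space Ω] in
lemma cts_adE (i : ℕ) {g : GK K → Module.End Ω (E.X.H i)} (hg : Cts g) :
    Cts fun σ => adE ((E.F σ).φ i) (g σ) := by
  have h1 : Cts fun σ : GK K => en ((E.F σ⁻¹).φ i) := fun L => (E.cont i L).comp continuous_inv
  have h2 := (t_cts Ω (E.X.H i) (GK K) _ _ (E.cont i) hg).1
  have h3 := (t_cts Ω (E.X.H i) (GK K) _ _ h2 h1).1
  have h4 : (fun σ => adE ((E.F σ).φ i) (g σ)) =
      fun σ => en ((E.F σ).φ i) * g σ * en ((E.F σ⁻¹).φ i) := by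
    funext σ
    rw [phi_inv]
    rfl
  rw [h4]
  exact h3

omit [CharZero Ω] [IsAlgClosed Ω] [T2Space Ω] in
lemma cts_adE_pow (i M : ℕ) {g : GK K → Module.End Ω (E.X.H i)} (hg : Cts g) :
    Cts fun σ => ((adE ((E.F σ).φ i)) ^ M) (g σ) := by
  induction M with
  | zero => exact hg
  | succ M ih =>
    have h := cts_adE E i ih
    have h2 : (fun σ => ((adE ((E.F σ).φ i)) ^ (M + 1)) (g σ)) =
        fun σ => adE ((E.F σ).φ i) (((adE ((E.F σ).φ i)) ^ M) (g σ)) := by
      funext σ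
      rw [_root_.pow_succ']
      rfl
    rw [h2]
    exact h

omit [CharZero Ω] [IsAlgClosed Ω] [T2Space Ω] in
lemma cts_quasi (i M m : ℕ) {g : GK K → Module.End Ω (E.X.H i)} (hg : Cts g) :
    Cts fun σ => (((adE ((E.F σ).φ i)) ^ M - 1) ^ m) (g σ) := by
  induction m with
  | zero => exact hg
  | succ m ih =>
    have h := cts_adE_pow E i M ih
    intro L
    have h2 : (fun σ => L ((((adE ((E.F σ).φ i)) ^ M - 1) ^ (m + 1)) (g σ))) =
        fun σ => L (((adE ((E.F σ).φ i)) ^ M) ((((adE ((E.F σ).φ i)) ^ M - 1) ^ m) (g σ))) -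
          L ((((adE ((E.F σ).φ i)) ^ M - 1) ^ m) (g σ)) := by
      funext σ
      rw [_root_.pow_succ', ← map_sub]
      rfl
    rw [h2]
    exact (h L).sub (ih L)

end rep

variable (X : HKVariety K Ω)

omit [CharZero Ω] [IsAlgClosed Ω] [IsTopologicalRing Ω] in
/-- A continuous function which vanishes at the good Frobenius elements in an open set vanishes on
this set. -/
lemma dense_zero {O : Set (GK K)} (hO : IsOpen O) {g : GK K → Ω} (hg : Continuous g)
    (h : ∀ v, v ∉ X.bad → (Ideal.absNorm v.asIdeal).Prime → ∀ σ ∈ O, IsFrob v σ⁻¹ → g σ = 0) :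
    ∀ σ ∈ O, g σ = 0 := by
  intro σ hσ
  by_contra hne
  have h1 : IsOpen (O ∩ g ⁻¹' {0}ᶜ) := hO.inter (isOpen_compl_singleton.preimage hg)
  obtain ⟨v, hv, hp, τ, hτ, hfr⟩ := t_frob K X.bad X.finite _ h1 ⟨σ, hσ, hne⟩
  exact hτ.2 (h v hv hp τ hτ.1 hfr)

omit [NumberField K] [Field K] [CharZero Ω] [IsAlgClosed Ω] [TopologicalSpace Ω]
  [IsTopologicalRing Ω] [T2Space Ω] in
lemma restrict_quasi {V : Type} [AddCommGroup V] [Module Ω V] {p : Submodule Ω V}
    {f : Module.End Ω p} {g : Module.End Ω V} (h : ∀ x : p, ((f x : p) : V) = g x) (M m : ℕ)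
    (x : p) : (((f ^ M - 1) ^ m) x : p) = ((g ^ M - 1) ^ m) (x : V) := by
  have h1 : ∀ (M : ℕ) (x : p), (((f ^ M) x : p) : V) = (g ^ M) x := by
    intro M
    induction M with
    | zero => intro x; rfl
    | succ M ih =>
      intro x
      rw [_root_.pow_succ, _root_.pow_succ, Module.End.mul_apply, Module.End.mul_apply, ih, h]
  induction m generalizing x with
  | zero => rfl
  | succ m ih =>
    rw [_root_.pow_succ, _root_.pow_succ, Module.End.mul_apply, Module.End.mul_apply, ih]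
    congr 1
    rw [LinearMap.sub_apply, LinearMap.sub_apply, Submodule.coe_sub, h1]
    rfl

/-- The exponent of the roots of unity. -/
noncomputable def expo (X : HKVariety K Ω) (i : ℕ) : ℕ :=
  (2 * (finrank Ω (X.E.X.H i)) ^ 2).factorial

/-- The Galois group acts quasi-unipotently on the commutant of `so(H²)`. -/
lemma all_quasi {i : ℕ} (hi : i ≤ X.d) {a : Module.End Ω (X.E.X.H i)} (ha : a ∈ cen X.E.X i)
    (σ : GK K) : (((adE ((X.E.F σ).φ i)) ^ (expo X i) - 1) ^ (finrank Ω (cen X.E.X i))) a = 0 := by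
  have key : ∀ L : Module.Dual Ω (Module.End Ω (X.E.X.H i)), ∀ σ ∈ (Set.univ : Set (GK K)),
      L ((((adE ((X.E.F σ).φ i)) ^ (expo X i) - 1) ^ (finrank Ω (cen X.E.X i))) a) = 0 := by
    intro L
    refine dense_zero X isOpen_univ (cts_quasi X.E i _ _ (g := fun _ => a)
      (fun L => continuous_const) L) fun v hv hp σ _ hσ => ?_
    have hst : ∀ x ∈ cen X.E.X i, adE ((X.E.F σ).φ i) x ∈ cen X.E.X i := fun x hx => cen_ad _ hx
    have h1 := t_qu Ω (cen X.E.X i) ((adE ((X.E.F σ).φ i)).restrict hst) (expo X i) (by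
      intro t ht
      obtain ⟨x, hx⟩ := ht.exists_hasEigenvector
      have hx1 := hx.apply_eq_smul
      have hx2 : adE ((X.E.F σ).φ i) (x : Module.End Ω (X.E.X.H i)) = t • (x : Module.End Ω _) :=
        congrArg Subtype.val hx1
      have hx0 : (x : Module.End Ω (X.E.X.H i)) ≠ 0 := fun h => hx.2 (Subtype.ext h)
      refine good_eig X hv hp hσ hi x.2 hx0 ?_
      rw [Module.End.mem_maxGenEigenspace]
      refine ⟨1, ?_⟩
      rw [pow_one, LinearMap.sub_apply, hx2, LinearMap.smul_apply]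
      exact sub_self _)
    have h2 := restrict_quasi (p := cen X.E.X i) (f := (adE ((X.E.F σ).φ i)).restrict hst)
      (g := adE ((X.E.F σ).φ i)) (fun x => rfl) (expo X i) (finrank Ω (cen X.E.X i)) ⟨a, ha⟩
    rw [h1] at h2
    rw [← h2]
    exact map_zero L
  have h3 := fun L : Module.Dual Ω (Module.End Ω (X.E.X.H i)) => key L σ (Set.mem_univ σ)
  exact (Module.forall_dual_apply_eq_zero_iff Ω _).1 h3

omit [NumberField K] [Field K] [CharZero Ω] [IsAlgClosed Ω] [TopologicalSpace Ω]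
  [IsTopologicalRing Ω] [T2Space Ω] in
/-- The generalized eigenvalues are roots of unity. -/
lemma root_of_quasi {V : Type} [AddCommGroup V] [Module Ω V] {g : Module.End Ω V} {M m : ℕ}
    {t : Ω} {a : V} (ha0 : a ≠ 0) (hat : a ∈ g.maxGenEigenspace t)
    (h : ∀ b : V, (∃ k : ℕ, b = ((g - t • 1) ^ k) a) → ((g ^ M - 1) ^ m) b = 0) : t ^ M = 1 := by
  rw [Module.End.mem_maxGenEigenspace] at hat
  have hex := hat
  set k := Nat.find hex with hk
  have hk1 : ((g - t • (1 : Module.End Ω V)) ^ k) a = 0 := Nat.find_spec hex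
  have hk0 : k ≠ 0 := fun h0 => by
    rw [h0] at hk1
    exact ha0 hk1
  obtain ⟨k', hk'⟩ := Nat.exists_eq_succ_of_ne_zero hk0
  set b := ((g - t • (1 : Module.End Ω V)) ^ k') a with hb
  have hb0 : b ≠ 0 := Nat.find_min hex (by omega : k' < k)
  have hgb : g b = t • b := by
    have h1 : ((g - t • (1 : Module.End Ω V))) b = 0 := by
      rw [hb, ← Module.End.mul_apply, ← _root_.pow_succ', ← Nat.succ_eq_add_one, ← hk']
      exact hk1
    rw [LinearMap.sub_apply, sub_eq_zero] at h1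
    exact h1
  have hgn : ∀ n : ℕ, (g ^ n) b = t ^ n • b := by
    intro n
    induction n with
    | zero => simp
    | succ n ih =>
      rw [_root_.pow_succ', Module.End.mul_apply, ih, map_smul, hgb, smul_smul, _root_.pow_succ]
  have hgm : ∀ m : ℕ, ((g ^ M - 1) ^ m) b = (t ^ M - 1) ^ m • b := by
    intro m
    induction m with
    | zero => simp
    | succ m ih =>
      rw [_root_.pow_succ', Module.End.mul_apply, ih, map_smul, LinearMap.sub_apply, hgn,
        _root_.pow_succ, mul_smul, sub_smul, one_smul]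
      rfl
  have h2 := h b ⟨k', rfl⟩
  rw [hgm] at h2
  have h3 := (smul_eq_zero.1 h2).resolve_right hb0
  have hm : m ≠ 0 := fun h0 => by
    rw [h0] at h3
    simp at h3
  exact sub_eq_zero.1 ((pow_eq_zero_iff hm).1 h3)

lemma cen_root {i : ℕ} (hi : i ≤ X.d) {a : Module.End Ω (X.E.X.H i)} (ha : a ∈ cen X.E.X i)
    (ha0 : a ≠ 0) {σ : GK K} {t : Ω} (hat : a ∈ (adE ((X.E.F σ).φ i)).maxGenEigenspace t) :
    t ^ expo X i = 1 := by
  refine root_of_quasi (m := finrank Ω (cen X.E.X i)) ha0 hat ?_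
  rintro b ⟨k, rfl⟩
  refine all_quasi X hi ?_ σ
  induction k with
  | zero => exact ha
  | succ k ih =>
    rw [_root_.pow_succ', Module.End.mul_apply, LinearMap.sub_apply]
    exact Submodule.sub_mem _ (cen_ad _ ih) (Submodule.smul_mem _ _ ih)

end

end Pool.Agent.N184.HK
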