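import Pool.Agent.N184.HK.W4
import Pool.Agent.N184.HK.P_WTB
import Pool.Agent.Y143.WeilNum

/-!
# Project HK: the place of bad reduction
-/

set_option autoImplicit false

namespace Pool.Agent.N184.HK

open Module Module.End Polynomial NumberField IsDedekindDomain
open Pool.Agent.W401.Cheb Pool.Agent.Y143
open scoped Classical

section wt

variable {F : Type} [Field F] (W : Wt F) (h1 : W.U 1)

include h1 in
lemma Wt.w_one : W.w 1 = 0 := by
  have h := W.w_mul 1 1 h1 h1
  rw [mul_one] at h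
  linarith

include h1 in
lemma Wt.w_prod {s : Multiset F} (hs : ∀ e ∈ s, W.U e) :
    W.U s.prod ∧ W.w s.prod = (s.map W.w).sum := by
  induction s using Multiset.induction_on with
  | empty => exact ⟨by simpa using h1, by simpa using W.w_one h1⟩
  | cons a s ih =>
    obtain ⟨h2, h3⟩ := ih fun e he => hs e (Multiset.mem_cons_of_mem he)
    have h4 := hs a (Multiset.mem_cons_self a s)
    rw [Multiset.prod_cons, Multiset.map_cons, Multiset.sum_cons, ← h3]
    exact ⟨W.mul _ _ h4 h2, W.w_mul _ _ h4 h2⟩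

include h1 in
lemma Wt.w_pow {x : F} (hx : W.U x) (k : ℕ) : W.U (x ^ k) ∧ W.w (x ^ k) = k * W.w x := by
  induction k with
  | zero => exact ⟨by simpa using h1, by simpa using W.w_one h1⟩
  | succ k ih =>
    rw [_root_.pow_succ]
    refine ⟨W.mul _ _ ih.1 hx, ?_⟩
    rw [W.w_mul _ _ ih.1 hx, ih.2]
    push_cast
    ring

include h1 in
lemma Wt.w_div {x y : F} (hx : W.U x) (hy : W.U y) :
    W.U (x / y) ∧ W.w (x / y) = W.w x - W.w y := by
  have h2 : W.U (x / y) := by
    rw [div_eq_mul_inv]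
    exact W.mul _ _ hx (W.inv _ hy)
  refine ⟨h2, ?_⟩
  have h3 := W.w_mul _ _ h2 hy
  rw [div_mul_cancel₀ x (W.ne _ hy)] at h3
  linarith

end wt

section

variable {K : Type} [Field K] [NumberField K] {Ω : Type} [Field Ω] [CharZero Ω] [IsAlgClosed Ω]
  [TopologicalSpace Ω] (X : HKVariety K Ω)

/-- The exponent of the roots of unity for the determinants. -/
noncomputable def expo2 (X : HKVariety K Ω) (i n : ℕ) : ℕ :=
  (2 * (finrank Ω (X.E.X.H i)) ^ (n + n)).factorial

lemma expo2_pos (i n : ℕ) : 0 < expo2 X i n := Nat.factorial_pos _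

/-- Determinants of good Frobenius elements on the images of the idempotents in the commutant. -/
lemma good_det {v : HeightOneSpectrum (𝓞 K)} (hv : v ∉ X.bad)
    (hp : (Ideal.absNorm v.asIdeal).Prime) {σ : GK K} (hσ : IsFrob v σ⁻¹) {i : ℕ} (hi : i ≤ X.d)
    {z : Module.End Ω (X.E.X.H i)} (hz : z ∈ cen X.E.X i) (hzz : z * z = z)
    (hzφ : Commute (en ((X.E.F σ).φ i)) z) {n : ℕ} (hn : LinearMap.trace Ω _ z = n) :
    LinearMap.det (en ((X.E.F σ).φ i) * z + (1 - z)) ^ (4 * expo2 X i n) =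
      (X.E.F σ).μ ^ (i * n * expo2 X i n) := by
  obtain ⟨j⟩ : Nonempty (QQ →+* Ω) := ⟨(IsAlgClosed.lift : QQ →ₐ[ℚ] Ω).toRingHom⟩
  obtain ⟨s, hs, hcard, hdet, htr⟩ := t_detp Ω _ _ z hzφ hzz
  have hcn : Multiset.card s = n := by
    rw [hn] at hcard
    exact_mod_cast hcard.symm
  -- `s` comes from algebraic numbers
  have hs' : ∃ s' : Multiset QQ, s = s'.map j ∧
      ∀ y ∈ s', y ∈ ((X.poly v i).map (Int.castRingHom QQ)).roots := by
    rw [roots_frob X hv hσ j hi] at hs
    clear hcard hdet htr hcn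
    induction s using Multiset.induction_on with
    | empty => exact ⟨0, rfl, by simp⟩
    | cons a s ih =>
      obtain ⟨s', h1, h2⟩ := ih fun e he => hs e (Multiset.mem_cons_of_mem he)
      obtain ⟨y, hy, hya⟩ := Multiset.mem_map.1 (hs a (Multiset.mem_cons_self a s))
      refine ⟨y ::ₘ s', by rw [Multiset.map_cons, hya, h1], fun x hx => ?_⟩
      rcases Multiset.mem_cons.1 hx with rfl | hx
      · exact hy
      · exact h2 x hx
  obtain ⟨s', hss', hs'⟩ := hs'
  have hcn' : Multiset.card s' = n := by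
    rw [hss', Multiset.card_map] at hcn
    exact hcn
  have hjprod : j s'.prod = s.prod := by rw [hss', map_multiset_prod]
  have hp0 : (Ideal.absNorm v.asIdeal : QQ) ≠ 0 := by exact_mod_cast hp.ne_zero
  have hprod : (s' + s').prod = s'.prod * s'.prod := Multiset.prod_add _ _
  -- valuations
  have hval : ∀ ι : QQ →+* (X.crys v hv hp).C, 0 ≤ (X.crys v hv hp).val
      (ι ((s' + s').prod / (Ideal.absNorm v.asIdeal : QQ) ^ (i * n))) := by
    intro ι
    set W := WI j ι (X.crys v hv hp).val with hW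
    have hU1 : W.U 1 := ⟨1, one_ne_zero, map_one j⟩
    have hUs : ∀ e ∈ s, W.U e := fun e he => U_frob X hv hσ j ι _ hi e (hs e he)
    have h1 := htr W.k
    have hT := good_nil X hv hp hσ j ι hi
    have h2 : Commute ((X.E.F σ).T W i (i / 2)) z := by
      rw [T_eq]
      refine Commute.sub_left (Commute.sub_left (fop_comm hzφ.symm _).symm ?_) ?_
      · exact (Commute.one_left z).smul_left _
      · exact hz _ (skew_S2 (U_frob X hv hσ j ι _ X.two_le))
    rw [fop_split (X.E.F σ) W i ((i : ℚ) / 2), add_mul, add_mul, map_add, map_add,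
      tr_nil (Commute.isNilpotent_mul_right h2 hT),
      tr_rho_mul (skew_S2 (U_frob X hv hσ j ι _ X.two_le)) (fun B hB => hz B hB),
      smul_mul_assoc, one_mul, map_smul, hn, smul_eq_mul, add_zero, add_zero] at h1
    have h3 : (s.map W.k).sum = (((s.map W.w).sum : ℚ) : Ω) := cast_sum_map _ _
    rw [h3] at h1
    have h4 : (i : ℚ) / 2 * n = (s.map W.w).sum := by
      have : (((i : ℚ) / 2 * n : ℚ) : Ω) = (((s.map W.w).sum : ℚ) : Ω) := by
        rw [← h1, Rat.cast_mul, Rat.cast_natCast]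
      exact Rat.cast_injective this
    have h5 := W.w_prod hU1 hUs
    have hUp : W.U (Ideal.absNorm v.asIdeal : Ω) :=
      ⟨(Ideal.absNorm v.asIdeal : QQ), hp0, map_natCast j _⟩
    have h6 := W.w_pow hU1 hUp (i * n)
    have h7 : W.U (s.prod * s.prod) ∧ W.w (s.prod * s.prod) = W.w s.prod + W.w s.prod :=
      ⟨W.mul _ _ h5.1 h5.1, W.w_mul _ _ h5.1 h5.1⟩
    have h8 := W.w_div hU1 h7.1 h6.1
    have h9 : W.w (Ideal.absNorm v.asIdeal : Ω) = 1 := by
      have h10 := WI_w j ι (X.crys v hv hp).val (Ideal.absNorm v.asIdeal : QQ)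
      rw [map_natCast, map_natCast, (X.crys v hv hp).norm] at h10
      exact h10
    have h10 : W.w (s.prod * s.prod / (Ideal.absNorm v.asIdeal : Ω) ^ (i * n)) = 0 := by
      rw [h8.2, h7.2, h6.2, h9, h5.2, ← h4]
      push_cast
      ring
    have h11 : j ((s' + s').prod / (Ideal.absNorm v.asIdeal : QQ) ^ (i * n)) =
        s.prod * s.prod / (Ideal.absNorm v.asIdeal : Ω) ^ (i * n) := by
      rw [map_div₀, hprod, map_mul, hjprod, map_pow, map_natCast]
    rw [← h11, hW, WI_w] at h10
    by_cases h0 : ι ((s' + s').prod / (Ideal.absNorm v.asIdeal : QQ) ^ (i * n)) = 0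
    · rw [h0, AddValuation.map_zero]
      exact le_top
    · rw [← val_untop _ h0, h10]
      exact le_rfl
  have harith := t_arith QQ (X.crys v hv hp).C (Ideal.absNorm v.asIdeal) hp
    (X.crys v hv hp).val (by rw [(X.crys v hv hp).norm]; exact zero_lt_one) i (X.poly v i)
    (X.weilPoly v hv i hi).1 (X.weilPoly v hv i hi).2 (s' + s')
    (fun y hy => by
      rcases Multiset.mem_add.1 hy with h | h
      · exact hs' y h
      · exact hs' y h) (i * n)
    (by rw [Multiset.card_add, hcn']; ring) hval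
  have hdeg : (X.poly v i).natDegree = finrank Ω (X.E.X.H i) := by
    have h6 := LinearMap.charpoly_natDegree (en ((X.E.F σ).φ i))
    have h7 := X.frob v hv σ hσ i hi
    rw [GaloisCohomology.cp, GaloisCohomology.Φ] at h7
    rw [h7, natDegree_map_eq_of_injective (RingHom.injective_int _)] at h6
    exact h6
  rw [hdeg, Multiset.card_add, hcn'] at harith
  have h1 : (s.prod * s.prod / (Ideal.absNorm v.asIdeal : Ω) ^ (i * n)) ^ (expo2 X i n) = 1 := by
    have h11 : j ((s' + s').prod / (Ideal.absNorm v.asIdeal : QQ) ^ (i * n)) =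
        s.prod * s.prod / (Ideal.absNorm v.asIdeal : Ω) ^ (i * n) := by
      rw [map_div₀, hprod, map_mul, hjprod, map_pow, map_natCast]
    rw [← h11, ← map_pow]
    exact (congrArg j harith).trans (map_one j)
  have hpΩ : ((Ideal.absNorm v.asIdeal : Ω) ^ (i * n)) ^ (expo2 X i n) ≠ 0 := by
    refine pow_ne_zero _ (pow_ne_zero _ ?_)
    exact_mod_cast hp.ne_zero
  rw [div_pow, div_eq_one_iff_eq hpΩ] at h1
  have hmu := X.mult v hv σ hσ
  rw [GaloisCohomology.mu] at hmu
  rw [hdet, hmu]
  have h2 : s.prod ^ (4 * expo2 X i n) = ((s.prod * s.prod) ^ expo2 X i n) ^ 2 := by ring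
  rw [h2, h1]
  ring

end

end Pool.Agent.N184.HK
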