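import Pool.Agent.N184.HK.W6
import Pool.Agent.N184.HK.P_WSP
import Pool.Agent.N184.HK.P_FOPE
import Pool.Agent.N184.HK.P_FRM
import Pool.Agent.N184.HK.P_TOM
import Pool.Agent.N184.HK.P_SL2A
import Pool.Agent.N184.HK.P_SL2B

/-!
# Project HK: the weight-monodromy conjecture
-/

set_option autoImplicit false

namespace Pool.Agent.N184.HK

open Module Module.End Polynomial NumberField IsDedekindDomain
open Pool.Agent.W401.Cheb Pool.Agent.Y143
open scoped Classical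

section

variable {Ω V : Type} [Field Ω] [CharZero Ω] [IsAlgClosed Ω] [AddCommGroup V] [Module Ω V]
  [FiniteDimensional Ω V]

/-- The eigenspaces of the centred weight operator are the parts of a given weight. -/
lemma WS_eq {q : ℕ} (hq : 1 < q) {Φ : Module.End Ω V}
    (hΦ : ∀ e ∈ Φ.charpoly.roots, ∃ w : ℤ, IsWeilNumber q w e) {W : Wt Ω}
    (hWw : ∀ (w : ℤ) (x : Ω), IsWeilNumber q w x → W.w x = (w : ℚ)) (κ j : ℤ) :
    (fop Φ (fun e => ((W.w e - κ : ℚ) : Ω))).eigenspace (j : Ω) = WS q Φ (κ + j) := by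
  rw [(t_fope Ω V Φ _).1, WS]
  apply le_antisymm
  · refine iSup₂_le fun e he => ?_
    by_cases h0 : Φ.maxGenEigenspace e = ⊥
    · rw [h0]; exact bot_le
    obtain ⟨w, hw⟩ := hΦ e (ne_bot_iff.1 h0)
    have h1 : ((W.w e - κ : ℚ) : Ω) = (j : Ω) := he
    rw [hWw w e hw] at h1
    have h2 : (w : ℚ) - κ = j := by
      have : (((w : ℚ) - κ : ℚ) : Ω) = ((j : ℚ) : Ω) := by rw [h1, Rat.cast_intCast]
      exact Rat.cast_injective this
    have h3 : w = κ + j := by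
      have : (w : ℚ) = ((κ + j : ℤ) : ℚ) := by push_cast; linarith
      exact_mod_cast this
    exact le_iSup₂_of_le e (show e ∈ {e : Ω | IsWeilNumber q (κ + j) e} from h3 ▸ hw) le_rfl
  · refine iSup₂_le fun e he => ?_
    have h1 := hWw _ e he
    refine le_iSup₂_of_le e (show ((W.w e - κ : ℚ) : Ω) = (j : Ω) from ?_) le_rfl
    rw [h1]
    push_cast
    ring

end

section

variable {K : Type} [Field K] [NumberField K] {Ω : Type} [Field Ω] [CharZero Ω] [IsAlgClosed Ω]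
  [TopologicalSpace Ω] [IsTopologicalRing Ω] [T2Space Ω] {X : HKVariety K Ω}
  {u : HeightOneSpectrum (𝓞 K)} (L : LocalMonodromy X u)

/-- **The weight-monodromy conjecture for projective hyperkähler varieties over number fields.** -/
theorem pure_all {i : ℕ} (hi : i ≤ X.d) : L.IsPure i := by
  have hq : 1 < Ideal.absNorm u.asIdeal := one_lt_q (u := u)
  obtain ⟨W, hWU, hWw⟩ := t_wtb Ω (Ideal.absNorm u.asIdeal) hq
  have hq0 : (Ideal.absNorm u.asIdeal : Ω) ≠ 0 := by exact_mod_cast hq.ne_bot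
  have hqW : IsWeilNumber (Ideal.absNorm u.asIdeal) 2 (Ideal.absNorm u.asIdeal : Ω) := by
    refine ⟨isAlgebraic_natCast _, fun y hy => ?_⟩
    have h7 : minpoly ℚ (Ideal.absNorm u.asIdeal : Ω) =
        Polynomial.X - C (Ideal.absNorm u.asIdeal : ℚ) := by
      have := minpoly.eq_X_sub_C Ω (Ideal.absNorm u.asIdeal : ℚ)
      rw [map_natCast] at this
      exact this
    rw [h7] at hy
    simp only [map_sub, aeval_X, aeval_C, sub_eq_zero] at hy
    rw [hy]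
    simp
  have hU1 : W.U 1 := (hWU 1).2 ⟨0, IsWeilNumber.one _⟩
  have hUq : W.U (Ideal.absNorm u.asIdeal : Ω) := (hWU _).2 ⟨2, hqW⟩
  have hwq : W.w (Ideal.absNorm u.asIdeal : Ω) = 2 := by
    have := hWw 2 _ hqW
    rw [this]; norm_num
  have hwμ : W.w (X.E.F L.σ).μ / 2 = 2 := by
    rw [L.data.mult, (W.w_pow hU1 hUq 2).2, hwq]; norm_num
  have hwinv : W.k (Ideal.absNorm u.asIdeal : Ω)⁻¹ = -2 := by
    have h1 := W.w_mul _ _ hUq (W.inv _ hUq)
    rw [mul_inv_cancel₀ hq0, W.w_one hU1, hwq] at h1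
    have h2 : W.w (Ideal.absNorm u.asIdeal : Ω)⁻¹ = -2 := by linarith
    rw [Wt.k, h2]; norm_num
  -- the grading of `H²`
  set D := (X.E.F L.σ).S2 W with hD
  have hDskew : Skew X.E.X.q D := skew_S2 (U_bad L hWU X.two_le)
  have hDfop : D = fop (en ((X.E.F L.σ).φ 2)) (fun e => ((W.w e - (2 : ℤ) : ℚ) : Ω)) := by
    have : (fun e => ((W.w e - (2 : ℤ) : ℚ) : Ω)) = fun e => W.k e - ((2 : ℚ) : Ω) := by
      ext e; rw [Rat.cast_sub]; rfl
    rw [this, fop_sub, fop_const, hD, Cohomology.Auto.S2, hwμ]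
  have hN2 : L.data.N 2 ∈ (adE ((X.E.F L.σ).φ 2)).maxGenEigenspace (Ideal.absNorm u.asIdeal : Ω)⁻¹ := by
    rw [Module.End.mem_maxGenEigenspace]
    refine ⟨1, ?_⟩
    rw [pow_one, LinearMap.sub_apply, adE_twist _ hq0 (L.data.twist 2 X.two_le)]
    exact sub_self _
  have hDN : D * L.data.N 2 - L.data.N 2 * D = -(2 : Ω) • L.data.N 2 := by
    have h1 := comm_fop W (U_bad L hWU X.two_le) hN2
    rw [hwinv] at h1
    rw [← h1, hD, Cohomology.Auto.S2, sub_mul, mul_sub, smul_mul_assoc, mul_smul_comm, one_mul,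
      mul_one]
    abel
  have hDtop : (⨆ j : ℤ, D.eigenspace (j : Ω)) = ⊤ := by
    rw [hDfop]
    refine (t_fope Ω (X.E.X.H 2) _ _).2.2 fun e he => ?_
    obtain ⟨w, hw⟩ := weights' L X.two_le e he
    refine ⟨w - 2, ?_⟩
    rw [hWw w e hw]
    push_cast
    ring
  have hW2 : ∀ j : ℤ, D.eigenspace (j : Ω) =
      WS (Ideal.absNorm u.asIdeal) (en ((X.E.F L.σ).φ 2)) (2 + j) := fun j => by
    rw [hDfop]
    exact WS_eq hq (weights' L X.two_le) hWw 2 j
  have hfrm := t_frm Ω (X.E.X.H 2) _ hq 2 _ (L.data.N 2) (weights' L X.two_le)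
    (L.data.twist 2 X.two_le) L.data.mw_two
  have hbij : ∀ j : ℕ, Set.BijOn (⇑(L.data.N 2 ^ j)) (D.eigenspace (j : Ω) : Set (X.E.X.H 2))
      (D.eigenspace (-(j : Ω)) : Set (X.E.X.H 2)) := by
    intro j
    have h1 := hW2 (j : ℤ)
    have h2 := hW2 (-(j : ℤ))
    rw [Int.cast_natCast] at h1
    rw [Int.cast_neg, Int.cast_natCast, ← sub_eq_add_neg] at h2
    rw [h1, h2]
    exact hfrm j
  obtain ⟨Y, hY, hDY, hYN⟩ := t_sl2a Ω (X.E.X.H 2) X.E.X.q X.E.X.symm X.E.X.nondeg D (L.data.N 2)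
    hDskew L.data.skew hDN hDtop hbij
  -- the representation on `H^i`
  have b1 : X.E.X.ρ i D * X.E.X.ρ i Y - X.E.X.ρ i Y * X.E.X.ρ i D = (2 : Ω) • X.E.X.ρ i Y := by
    rw [← X.E.X.bracket i D Y hDskew hY, hDY, map_smul]
  have b2 : X.E.X.ρ i D * L.data.N i - L.data.N i * X.E.X.ρ i D = -(2 : Ω) • L.data.N i := by
    rw [N_eq L hi, ← X.E.X.bracket i D _ hDskew L.data.skew, hDN, map_smul]
  have b3 : X.E.X.ρ i Y * L.data.N i - L.data.N i * X.E.X.ρ i Y = X.E.X.ρ i D := by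
    rw [N_eq L hi, ← X.E.X.bracket i Y _ hY L.data.skew, hYN]
  obtain ⟨-, hB⟩ := t_sl2b Ω (X.E.X.H i) _ _ _ b1 b2 b3
  have hT := T_bad_nil L hWU hWw hi
  have hTc : Commute (X.E.X.ρ i D) ((X.E.F L.σ).T W i i) :=
    T_comm (U_bad L hWU X.two_le) (U_bad L hWU hi) _ hDskew
  have hsum : X.E.X.ρ i D + (X.E.F L.σ).T W i i =
      fop (en ((X.E.F L.σ).φ i)) (fun e => ((W.w e - ((i : ℤ) : ℚ) : ℚ) : Ω)) := by
    rw [Cohomology.Auto.T, hD]
    simp only [Int.cast_natCast]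
    abel
  have hWi : ∀ j : ℤ, (X.E.X.ρ i D).maxGenEigenspace (j : Ω) =
      WS (Ideal.absNorm u.asIdeal) (en ((X.E.F L.σ).φ i)) ((i : ℤ) + j) := fun j => by
    rw [← t_wsp Ω (X.E.X.H i) _ _ hTc hT, hsum, (t_fope Ω (X.E.X.H i) _ _).2.1]
    exact WS_eq hq (weights' L hi) hWw (i : ℤ) j
  refine t_tom Ω (X.E.X.H i) _ hq i _ (L.data.N i) (weights' L hi) (L.data.twist i hi) fun j => ?_
  have h1 := hWi (j : ℤ)
  have h2 := hWi (-(j : ℤ))
  rw [Int.cast_natCast] at h1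
  rw [Int.cast_neg, Int.cast_natCast, ← sub_eq_add_neg] at h2
  rw [GaloisCohomology.Φ, ← h1, ← h2]
  exact hB j

end

end Pool.Agent.N184.HK
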