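import Pool.Agent.N184.HK.Coh
import Pool.Agent.N184.HK.Stm2
import Pool.Agent.N184.HK.Stm3
import Pool.Agent.N184.HK.StmF

/-!
# Project HK: the weight-monodromy conjecture for hyperkähler varieties: definitions
-/

set_option autoImplicit false

namespace Pool.Agent.N184.HK

open Module Polynomial NumberField IsDedekindDomain
open Pool.Agent.W401.Cheb Pool.Agent.Y143

/-- The slope `val e`, as an element of the field `C`. -/
noncomputable def slope {C : Type} [Field C] (val : AddValuation C (WithTop ℚ)) (e : C) : C :=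
  (((val e).untopD 0 : ℚ) : C)

/-- The trace of a product. -/
noncomputable def trm {K V : Type} [Field K] [AddCommGroup V] [Module K V]
    (A B : Module.End K V) : K :=
  LinearMap.trace K V (A * B)

section

variable {C : Type} [Field C] [CharZero C] [IsAlgClosed C] {d : ℕ} {c : ℚ}

/-- The Newton number of the image `W` of the idempotent `z`: the sum of the slopes of the Frobenius
on `W`. -/
noncomputable def newtonNumber {D : Cohomology C d c} (F : D.Auto)
    (val : AddValuation C (WithTop ℚ)) (i : ℕ) (z : Module.End C (D.H i)) : C :=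
  trm (fop (en (F.φ i)) (slope val)) z

/-- The Hodge number of the image `W` of the idempotent `z`: the sum of the `p`, each with
multiplicity `dim Gr^p W`, where `Gr^p` is the eigenspace of `ρ i J + i / 2` for the eigenvalue
`p`. -/
noncomputable def hodgeNumber (D : Cohomology C d c) (J : Module.End C (D.H 2)) (i : ℕ)
    (z : Module.End C (D.H i)) : C :=
  trm (D.ρ i J) z + ((i / 2 : ℚ) : C) * trm 1 z

end

/-- A place of degree one, of norm `p`, where `X` has good reduction: the crystalline cohomology `D`
of the reduction (over an algebraic closure `C` of the `p`-adic numbers), with the Frobenius `F` and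
the `p`-adic valuation `val`. The Hodge filtration is the filtration by the eigenvalues of `ρ i J`,
for an element `J` of `so(H²)`. The filtered module `H i` is weakly admissible: the Newton number of a
stable subspace is at least the Hodge number, with equality for `H i` itself (Fontaine, Faltings). -/
structure CrysPlace (d : ℕ) (c : ℚ) (p : ℕ) where
  C : Type
  [field : Field C]
  [closed : IsAlgClosed C]
  [char : CharZero C]
  D : Cohomology C d c
  F : D.Auto
  val : AddValuation C (WithTop ℚ)
  norm : val (p : C) = 1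
  J : Module.End C (D.H 2)
  skew : Skew D.q J
  adm : ∀ i ≤ d, ∀ z : Module.End C (D.H i), z * z = z → Commute z (en (F.φ i)) →
    (∀ A, Skew D.q A → Commute (D.ρ i A) z) →
    ∃ r : ℚ, 0 ≤ r ∧ newtonNumber F val i z = hodgeNumber D J i z + r ∧ (z = 1 → r = 0)

attribute [instance] CrysPlace.field CrysPlace.closed CrysPlace.char

/-- The `ℓ`-adic cohomology, with coefficients in a topological field `Ω`, with the continuous action
of the absolute Galois group `GK K` of the number field `K`. -/
structure GaloisCohomology (K : Type) [Field K] [NumberField K] (Ω : Type) [Field Ω]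
    [TopologicalSpace Ω] (d : ℕ) (c : ℚ) where
  X : Cohomology Ω d c
  F : GK K → X.Auto
  mul : ∀ σ τ i, (F (σ * τ)).φ i = ((F τ).φ i).trans ((F σ).φ i)
  cont : ∀ i, Cts fun σ => en ((F σ).φ i)
  cont_μ : Continuous fun σ => (F σ).μ

/-- The action of `σ` on `H^i`. -/
def GaloisCohomology.Φ {K : Type} [Field K] [NumberField K] {Ω : Type} [Field Ω]
    [TopologicalSpace Ω] {d : ℕ} {c : ℚ} (E : GaloisCohomology K Ω d c) (σ : GK K) (i : ℕ) :
    Module.End Ω (E.X.H i) :=
  en ((E.F σ).φ i)

/-- The characteristic polynomial of `σ` on `H^i`. -/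
noncomputable def GaloisCohomology.cp {K : Type} [Field K] [NumberField K] {Ω : Type} [Field Ω]
    [TopologicalSpace Ω] {d : ℕ} {c : ℚ} (E : GaloisCohomology K Ω d c) (σ : GK K) (i : ℕ) :
    Polynomial Ω :=
  (E.Φ σ i).charpoly

/-- The factor by which `σ` multiplies the form `q`. -/
def GaloisCohomology.mu {K : Type} [Field K] [NumberField K] {Ω : Type} [Field Ω]
    [TopologicalSpace Ω] {d : ℕ} {c : ℚ} (E : GaloisCohomology K Ω d c) (σ : GK K) : Ω :=
  (E.F σ).μ

/-- The characteristic polynomial of the crystalline Frobenius on `H^i`. -/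
noncomputable def CrysPlace.cp {d : ℕ} {c : ℚ} {p : ℕ} (P : CrysPlace d c p) (i : ℕ) : P.C[X] :=
  (en (P.F.φ i)).charpoly

/-- The polynomials `P i` are the characteristic polynomials of the geometric Frobenius elements `σ` of
`v` on `H^i`, and `σ` multiplies the form `q` by `N v ^ 2`. -/
def GaloisCohomology.HasPoly {K : Type} [Field K] [NumberField K] {Ω : Type} [Field Ω]
    [TopologicalSpace Ω] {d : ℕ} {c : ℚ} (E : GaloisCohomology K Ω d c)
    (v : HeightOneSpectrum (𝓞 K)) (P : ℕ → ℤ[X]) : Prop :=
  ∀ σ, IsFrob v σ⁻¹ → E.mu σ = (Ideal.absNorm v.asIdeal : Ω) ^ 2 ∧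
    ∀ i ≤ d, E.cp σ i = (P i).map (Int.castRingHom Ω)

/-- The polynomials `P i` are the characteristic polynomials of the crystalline Frobenius on `H^i`. -/
def CrysPlace.HasPoly {d : ℕ} {c : ℚ} {p : ℕ} (D : CrysPlace d c p) (P : ℕ → ℤ[X]) : Prop :=
  ∀ i ≤ d, D.cp i = (P i).map (Int.castRingHom D.C)

/-- The integral polynomials `P i`, for `i ≤ d`, are monic, and their roots have absolute value
`N ^ (i / 2)`. -/
def IsWeilPoly (N d : ℕ) (P : ℕ → ℤ[X]) : Prop :=
  ∀ i ≤ d, (P i).Monic ∧ ∀ z ∈ ((P i).map (Int.castRingHom ℂ)).roots, ‖z‖ ^ 2 = (N : ℝ) ^ i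

/-- A projective hyperkähler variety `X` of dimension `d / 2` over a number field `K`, with good
reduction outside of the finite set `bad` of places: the `ℓ`-adic cohomology; the characteristic
polynomials `poly v i` of the geometric Frobenius of a good place `v` on `H^i`, which have integral
coefficients and roots of absolute value `N v ^ (i / 2)` (Deligne); and the crystalline cohomology at
the good places of degree one, with the same characteristic polynomials (Katz, Messing). -/
structure HKVariety (K : Type) [Field K] [NumberField K] (Ω : Type) [Field Ω]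
    [TopologicalSpace Ω] where
  d : ℕ
  two_le : 2 ≤ d
  c : ℚ
  E : GaloisCohomology K Ω d c
  bad : Set (HeightOneSpectrum (𝓞 K))
  finite : bad.Finite
  poly : HeightOneSpectrum (𝓞 K) → ℕ → ℤ[X]
  frobPoly : ∀ v, v ∉ bad → E.HasPoly v (poly v)
  weilPoly : ∀ v, v ∉ bad → IsWeilPoly (Ideal.absNorm v.asIdeal) d (poly v)
  crys : ∀ v, v ∉ bad → (Ideal.absNorm v.asIdeal).Prime →
    CrysPlace d c (Ideal.absNorm v.asIdeal)
  crysPoly : ∀ v h hp, (crys v h hp).HasPoly (poly v)

section

variable {K : Type} [Field K] [NumberField K] {Ω : Type} [Field Ω] [TopologicalSpace Ω]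
  (X : HKVariety K Ω)

lemma HKVariety.frob (v : HeightOneSpectrum (𝓞 K)) (hv : v ∉ X.bad) (σ : GK K)
    (hσ : IsFrob v σ⁻¹) (i : ℕ) (hi : i ≤ X.d) :
    X.E.cp σ i = (X.poly v i).map (Int.castRingHom Ω) :=
  (X.frobPoly v hv σ hσ).2 i hi

lemma HKVariety.mult (v : HeightOneSpectrum (𝓞 K)) (hv : v ∉ X.bad) (σ : GK K)
    (hσ : IsFrob v σ⁻¹) : X.E.mu σ = (Ideal.absNorm v.asIdeal : Ω) ^ 2 :=
  (X.frobPoly v hv σ hσ).1

lemma HKVariety.crys_poly (v : HeightOneSpectrum (𝓞 K)) (hv : v ∉ X.bad)
    (hp : (Ideal.absNorm v.asIdeal).Prime) (i : ℕ) (hi : i ≤ X.d) :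
    (X.crys v hv hp).cp i = (X.poly v i).map (Int.castRingHom _) :=
  X.crysPoly v hv hp i hi

end

section

variable {K : Type} [Field K] {V W : Type} [AddCommGroup V] [Module K V] [AddCommGroup W]
  [Module K W]

/-- The operators `N` on `V` and `M` on `W` are compatible with the action of `so(V, q)`:
`[M, ρ A] = ρ [N, A]`. -/
def Act.Compat (ρ : Act K V W) (q : LinearMap.BilinForm K V) (N : Module.End K V)
    (M : Module.End K W) : Prop :=
  ∀ A, Skew q A → M * ρ A - ρ A * M = ρ (N * A - A * N)

/-- The relation `N Φ = q Φ N` between a geometric Frobenius element and the logarithm of the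
monodromy. -/
def Twisted (q : ℕ) (Φ N : Module.End K V) : Prop := ∀ x, N (Φ x) = (q : K) • Φ (N x)

/-- All eigenvalues of `Φ` are `q`-Weil numbers of some integral weight. -/
def Weighted [CharZero K] (q : ℕ) (Φ : Module.End K V) : Prop :=
  ∀ e, Φ.HasEigenvalue e → ∃ w : ℤ, IsWeilNumber q w e

end

/-- The logarithm `N` of the monodromy at a place of norm `q` where `X` may have bad reduction; `F` is
a geometric Frobenius element. `N` is a derivation of the cohomology ring, so it is skew on `H²` and
compatible with the action of `so(H²)`; `N Φ = q Φ N` for the Frobenius `Φ` on `H^i`; the eigenvalues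
of `Φ` are Weil numbers (Rapoport-Zink, de Jong); and the weight-monodromy conjecture is known for
`H²` (Rapoport-Zink, de Jong). -/
structure Monodromy {Ω : Type} [Field Ω] [CharZero Ω] {d : ℕ} {c : ℚ} {H : Cohomology Ω d c}
    (F : H.Auto) (q : ℕ) where
  mult : F.μ = (q : Ω) ^ 2
  N : ∀ i, Module.End Ω (H.H i)
  skew : Skew H.q (N 2)
  compat : ∀ i ≤ d, (H.ρ i).Compat H.q (N 2) (N i)
  twist : ∀ i ≤ d, Twisted q (en (F.φ i)) (N i)
  weights : ∀ i ≤ d, Weighted q (en (F.φ i))
  mw_two : IsMWPure q 2 (en (F.φ 2)) (N 2)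

/-- The action of the local Galois group at a place `u` of `K` which does not divide `ℓ`: a geometric
Frobenius element `σ` and the logarithm of the monodromy. -/
structure LocalMonodromy {K : Type} [Field K] [NumberField K] {Ω : Type} [Field Ω] [CharZero Ω]
    [TopologicalSpace Ω] (X : HKVariety K Ω) (u : HeightOneSpectrum (𝓞 K)) where
  σ : GK K
  isFrob : IsFrob u σ⁻¹
  data : Monodromy (X.E.F σ) (Ideal.absNorm u.asIdeal)

/-- The weight-monodromy conjecture for `H^i(X)` at the place `u`: it is mw pure of weight `i`. -/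
def LocalMonodromy.IsPure {K : Type} [Field K] [NumberField K] {Ω : Type} [Field Ω] [CharZero Ω]
    [TopologicalSpace Ω] {X : HKVariety K Ω} {u : HeightOneSpectrum (𝓞 K)}
    (L : LocalMonodromy X u) (i : ℕ) : Prop :=
  IsMWPure (Ideal.absNorm u.asIdeal) i (X.E.Φ L.σ i) (L.data.N i)

end Pool.Agent.N184.HK
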